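import Pool.Agent.LibGal99.Defs

namespace Pool.Gal99

open Finset Filter Topology

/-- number of admissible shifts modulo `N` -/
def A1cnt (H : Finset ℕ) (N : ℕ) : ℕ :=
  ((range N).filter (fun m => ∀ a ∈ H, (m + a).Coprime N)).card

theorem A1coprime_congr {N m m' a : ℕ} (h : m ≡ m' [MOD N]) :
    (m + a).Coprime N ↔ (m' + a).Coprime N := by
  have h1 : m + a ≡ m' + a [MOD N] := h.add_right a
  unfold Nat.Coprime
  rw [h1.gcd_eq]

theorem A1cnt_mul (H : Finset ℕ) (M N : ℕ) (hM : 0 < M) (hN : 0 < N) (hc : M.Coprime N) :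
    A1cnt H (M * N) = A1cnt H M * A1cnt H N := by
  unfold A1cnt
  rw [← Finset.card_product]
  refine Finset.card_nbij' (fun m => (m % M, m % N))
    (fun q => (Nat.chineseRemainder hc q.1 q.2 : ℕ)) ?_ ?_ ?_ ?_
  · intro m hm
    simp only [coe_filter, Set.mem_ofPred_eq, coe_product, Set.mem_prod, mem_range] at hm ⊢
    refine ⟨⟨Nat.mod_lt _ hM, fun a ha => ?_⟩, ⟨Nat.mod_lt _ hN, fun a ha => ?_⟩⟩
    · rw [A1coprime_congr (Nat.mod_modEq m M)]
      exact Nat.Coprime.coprime_mul_right_right (hm.2 a ha)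
    · rw [A1coprime_congr (Nat.mod_modEq m N)]
      exact Nat.Coprime.coprime_mul_left_right (hm.2 a ha)
  · intro q hq
    simp only [coe_filter, Set.mem_ofPred_eq, coe_product, Set.mem_prod, mem_range] at hq ⊢
    have h1 := (Nat.chineseRemainder hc q.1 q.2).2
    refine ⟨Nat.chineseRemainder_lt_mul hc _ _ hM.ne' hN.ne', fun a ha => ?_⟩
    refine Nat.Coprime.mul_right ?_ ?_
    · rw [A1coprime_congr h1.1]
      exact hq.1.2 a ha
    · rw [A1coprime_congr h1.2]
      exact hq.2.2 a ha
  · intro m hm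
    simp only [coe_filter, Set.mem_ofPred_eq, mem_range] at hm
    have h1 := (Nat.chineseRemainder hc (m % M) (m % N)).2
    have h2 : (Nat.chineseRemainder hc (m % M) (m % N) : ℕ) ≡ m [MOD (M * N)] := by
      rw [← Nat.modEq_and_modEq_iff_modEq_mul hc]
      exact ⟨h1.1.trans (Nat.mod_modEq _ _), h1.2.trans (Nat.mod_modEq _ _)⟩
    exact Nat.ModEq.eq_of_lt_of_lt h2 (Nat.chineseRemainder_lt_mul hc _ _ hM.ne' hN.ne') hm.1
  · intro q hq
    simp only [coe_filter, Set.mem_ofPred_eq, coe_product, Set.mem_prod, mem_range] at hq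
    have h1 := (Nat.chineseRemainder hc q.1 q.2).2
    ext
    · have := h1.1
      unfold Nat.ModEq at this
      simp only [this, Nat.mod_eq_of_lt hq.1.1]
    · have := h1.2
      unfold Nat.ModEq at this
      simp only [this, Nat.mod_eq_of_lt hq.2.1]

theorem A1cnt_prime (H : Finset ℕ) (q : ℕ) (hq : q.Prime) : A1cnt H q + occ H q = q := by
  have h1 : occ H q = ((range q).filter (fun m => ¬ ∀ a ∈ H, (m + a).Coprime q)).card := by
    unfold occ
    have hinv : ∀ c : ℕ, c < q → (q - (q - c) % q) % q = c := by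
      intro c hc
      rcases Nat.eq_zero_or_pos c with h0 | h0
      · subst h0
        simp
      · rw [Nat.mod_eq_of_lt (show q - c < q by omega), show q - (q - c) = c by omega,
          Nat.mod_eq_of_lt hc]
    refine Finset.card_nbij' (fun c => (q - c) % q) (fun c => (q - c) % q) ?_ ?_ ?_ ?_
    · intro c hc
      simp only [coe_image, Set.mem_image, mem_coe] at hc
      obtain ⟨a, ha, rfl⟩ := hc
      simp only [coe_filter, Set.mem_ofPred_eq, mem_range]
      refine ⟨Nat.mod_lt _ hq.pos, fun h => ?_⟩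
      have h2 := h a ha
      rw [A1coprime_congr (Nat.mod_modEq _ _), Nat.coprime_comm, hq.coprime_iff_not_dvd] at h2
      apply h2
      have h3 : q - a % q + a = q * (a / q) + q := by
        have h4 := Nat.mod_add_div a q
        have h5 := (Nat.mod_lt a hq.pos)
        omega
      rw [h3]
      exact Dvd.dvd.add (Dvd.intro _ rfl) (dvd_refl q)
    · intro m hm
      simp only [coe_filter, Set.mem_ofPred_eq, mem_range] at hm
      obtain ⟨hm1, hm2⟩ := hm
      obtain ⟨a, ha, hna⟩ : ∃ a ∈ H, ¬ (m + a).Coprime q := by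
        by_contra hcon
        exact hm2 fun a ha => by
          by_contra h
          exact hcon ⟨a, ha, h⟩
      rw [Nat.coprime_comm, hq.coprime_iff_not_dvd, not_not] at hna
      simp only [coe_image, Set.mem_image, mem_coe]
      refine ⟨a, ha, ?_⟩
      have h1 : m + a ≡ m + (q - m) [MOD q] := by
        rw [show m + (q - m) = q by omega]
        unfold Nat.ModEq
        rw [Nat.mod_self]
        exact Nat.mod_eq_zero_of_dvd hna
      exact Nat.ModEq.add_left_cancel' m h1
    · intro c hc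
      simp only [coe_image, Set.mem_image, mem_coe] at hc
      obtain ⟨a, _, rfl⟩ := hc
      exact hinv _ (Nat.mod_lt _ hq.pos)
    · intro m hm
      simp only [coe_filter, Set.mem_ofPred_eq, mem_range] at hm
      exact hinv _ hm.1
  rw [h1, A1cnt, Finset.card_filter_add_card_filter_not, card_range]

theorem A1pr_succ (z : ℕ) : pr (z + 1) = if (z + 1).Prime then insert (z + 1) (pr z) else pr z := by
  unfold pr
  rw [Finset.range_add_one, Finset.filter_insert]

theorem A1not_mem (z : ℕ) : z + 1 ∉ pr z := by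
  unfold pr
  simp

theorem A1Pz_coprime (z : ℕ) (hp : (z + 1).Prime) : (Pz z).Coprime (z + 1) := by
  unfold Pz
  refine Nat.Coprime.prod_left fun p hp' => ?_
  unfold pr at hp'
  rw [mem_filter, mem_range] at hp'
  exact (Nat.coprime_primes hp'.2 hp).2 (by omega)

theorem A1Pz_pos (z : ℕ) : 0 < Pz z := by
  unfold Pz
  refine Finset.prod_pos fun p hp => ?_
  unfold pr at hp
  rw [mem_filter] at hp
  exact hp.2.pos

theorem A1main (z : ℕ) (H : Finset ℕ) :
    (A1cnt H (Pz z) : ℝ) = Pz z * ∏ p ∈ pr z, (1 - (occ H p : ℝ) / p) := by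
  induction z with
  | zero =>
    have h0 : pr 0 = ∅ := by
      unfold pr
      rw [Finset.filter_eq_empty_iff]
      intro x hx
      rw [mem_range] at hx
      have : x = 0 := by omega
      subst this
      exact Nat.not_prime_zero
    have h1 : Pz 0 = 1 := by
      unfold Pz
      rw [h0]
      rfl
    rw [h0, h1]
    simp [A1cnt]
  | succ z ih =>
    by_cases hp : (z + 1).Prime
    · have hPz : Pz (z + 1) = Pz z * (z + 1) := by
        unfold Pz
        rw [A1pr_succ, if_pos hp, prod_insert (A1not_mem z), mul_comm]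
      rw [hPz, A1cnt_mul H _ _ (A1Pz_pos z) hp.pos (A1Pz_coprime z hp), Nat.cast_mul, ih,
        A1pr_succ, if_pos hp, prod_insert (A1not_mem z)]
      have h2 : (A1cnt H (z + 1) : ℝ) = (z + 1 : ℕ) * (1 - (occ H (z + 1) : ℝ) / (z + 1 : ℕ)) := by
        have h3 := A1cnt_prime H (z + 1) hp
        have h4 : (A1cnt H (z + 1) : ℝ) + occ H (z + 1) = (z + 1 : ℕ) := by exact_mod_cast h3
        have h5 : ((z + 1 : ℕ) : ℝ) ≠ 0 := by positivity
        field_simp
        linarith
      rw [h2]
      push_cast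
      ring
    · have hPz : Pz (z + 1) = Pz z := by
        unfold Pz
        rw [A1pr_succ, if_neg hp]
      rw [hPz, A1pr_succ, if_neg hp, ih]

/-- A1a: number of shifts `m mod Pz z` with `m + H` coprime to `Pz z` -/
theorem card_shift (z : ℕ) (H : Finset ℕ) :
    (((range (Pz z)).filter (fun m => ∀ a ∈ H, (m + a).Coprime (Pz z))).card : ℝ) =
      Pz z * ∏ p ∈ pr z, (1 - (occ H p : ℝ) / p) :=
  A1main z H

theorem A1R_eq (z m h : ℕ) :
    R z m h = ((Icc 1 h).filter (fun a => (m + a).Coprime (Pz z))).card := by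
  unfold R
  symm
  refine Finset.card_nbij' (fun a => m + a) (fun n => n - m) ?_ ?_ ?_ ?_
  · intro a ha
    simp only [coe_filter, Set.mem_ofPred_eq, mem_Icc, mem_Ioc] at ha ⊢
    exact ⟨by omega, ha.2⟩
  · intro n hn
    simp only [coe_filter, Set.mem_ofPred_eq, mem_Icc, mem_Ioc] at hn ⊢
    refine ⟨by omega, ?_⟩
    rw [show m + (n - m) = n by omega]
    exact hn.2
  · intro a _
    simp
  · intro n hn
    simp only [coe_filter, Set.mem_ofPred_eq, mem_Ioc] at hn
    show m + (n - m) = n
    omega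

theorem A1choose (z m h k : ℕ) : (R z m h).choose k =
    ((powersetCard k (Icc 1 h)).filter (fun H => ∀ a ∈ H, (m + a).Coprime (Pz z))).card := by
  rw [A1R_eq, ← card_powersetCard]
  congr 1
  ext H
  simp only [mem_powersetCard, mem_filter, subset_iff]
  constructor
  · rintro ⟨h1, h2⟩
    exact ⟨⟨fun a ha => (h1 ha).1, h2⟩, fun a ha => (h1 ha).2⟩
  · rintro ⟨⟨h1, h2⟩, h3⟩
    exact ⟨fun a ha => ⟨h1 ha, h3 a ha⟩, h2⟩

/-- A1b: moments of `R` -/
theorem avg_choose (z h k : ℕ) :
    avg (Pz z) (fun m => ((R z m h).choose k : ℝ)) =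
      ∑ H ∈ powersetCard k (Icc 1 h), ∏ p ∈ pr z, (1 - (occ H p : ℝ) / p) := by
  unfold avg
  have hP : ((Pz z : ℕ) : ℝ) ≠ 0 := by
    have := A1Pz_pos z
    positivity
  rw [div_eq_iff hP, Finset.sum_mul]
  have h1 : ∀ m, ((R z m h).choose k : ℝ) = ∑ H ∈ powersetCard k (Icc 1 h),
      if (∀ a ∈ H, (m + a).Coprime (Pz z)) then (1 : ℝ) else 0 := by
    intro m
    rw [A1choose, Finset.card_filter]
    push_cast
    rfl
  simp only [h1]
  rw [Finset.sum_comm]
  refine Finset.sum_congr rfl fun H _ => ?_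
  rw [mul_comm, ← card_shift z H, Finset.card_filter]
  push_cast
  rfl

end Pool.Gal99
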