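import Pool.Agent.LibGal99.Defs

set_option autoImplicit false

namespace Pool.Gal99

open Finset Filter Topology

/-- the local factor of the singular series -/
noncomputable def A2f (H : Finset ℕ) (p : ℕ) : ℝ :=
  (1 - (occ H p : ℝ) / p) / (1 - 1 / (p : ℝ)) ^ H.card

/-- `(1 - x)^k ≤ 1 - k x + k² x² / 2` for `0 ≤ x ≤ 1`. -/
theorem A2_pow_le (x : ℝ) (hx0 : 0 ≤ x) (hx1 : x ≤ 1) (k : ℕ) :
    (1 - x) ^ k ≤ 1 - k * x + (k : ℝ) ^ 2 * x ^ 2 / 2 := by
  induction k with
  | zero => simp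
  | succ n ih =>
    have h0 : 0 ≤ 1 - x := by linarith
    have hn : (0 : ℝ) ≤ n := Nat.cast_nonneg n
    have h1 := mul_le_mul_of_nonneg_right ih h0
    rw [pow_succ]
    refine h1.trans ?_
    push_cast
    have h2 : 0 ≤ (n : ℝ) ^ 2 * x ^ 2 * x := by positivity
    nlinarith [sq_nonneg x]

theorem A2_occ_of_gt (H : Finset ℕ) (p : ℕ) (h : ∀ a ∈ H, a < p) : occ H p = H.card := by
  unfold occ
  rw [Finset.card_image_of_injOn]
  intro x hx y hy hxy
  simpa [Nat.mod_eq_of_lt (h x hx), Nat.mod_eq_of_lt (h y hy)] using hxy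

theorem A2_occ_le (H : Finset ℕ) {p : ℕ} (hp : 0 < p) : occ H p ≤ p := by
  unfold occ
  have h1 : H.image (fun a => a % p) ⊆ range p := by
    intro x hx
    rw [mem_image] at hx
    obtain ⟨a, _, rfl⟩ := hx
    exact mem_range.2 (Nat.mod_lt _ hp)
  have h2 := card_le_card h1
  rwa [card_range] at h2

theorem A2_base_pos {p : ℕ} (hp : 2 ≤ p) : (0 : ℝ) < 1 - 1 / (p : ℝ) := by
  have h1 : (2 : ℝ) ≤ p := by exact_mod_cast hp
  rw [sub_pos, div_lt_one (by linarith)]
  linarith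

theorem A2f_nonneg (H : Finset ℕ) {p : ℕ} (hp : 2 ≤ p) : 0 ≤ A2f H p := by
  unfold A2f
  refine div_nonneg ?_ (pow_nonneg (A2_base_pos hp).le _)
  have h1 : (0 : ℝ) < p := by exact_mod_cast (by omega : 0 < p)
  rw [sub_nonneg, div_le_one h1]
  exact_mod_cast A2_occ_le H (by omega)

theorem A2f_le_one (H : Finset ℕ) {p : ℕ} (hp : 2 ≤ p) (h : ∀ a ∈ H, a < p) :
    A2f H p ≤ 1 := by
  unfold A2f
  rw [A2_occ_of_gt H p h, div_le_one (pow_pos (A2_base_pos hp) _)]
  have h1 : (2 : ℝ) ≤ p := by exact_mod_cast hp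
  have h2 : (1 : ℝ) / p ≤ 1 := by
    rw [div_le_one (by linarith)]; linarith
  have h3 := one_add_mul_le_pow (a := -(1 / (p : ℝ))) (by linarith) H.card
  have h4 : (1 : ℝ) + -(1 / p) = 1 - 1 / p := by ring
  rw [h4] at h3
  have h5 : (H.card : ℝ) * -(1 / p) = -((H.card : ℝ) / p) := by ring
  rw [h5] at h3
  linarith

theorem A2f_ge (H : Finset ℕ) {p : ℕ} (hp : 2 ≤ p) (h : ∀ a ∈ H, a < p)
    (hk : H.card ≤ p) : 1 - (H.card : ℝ) ^ 2 / (p : ℝ) ^ 2 ≤ A2f H p := by
  unfold A2f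
  have h1 : (2 : ℝ) ≤ p := by exact_mod_cast hp
  have h0 : (0 : ℝ) < p := by linarith
  have hx1 : (1 : ℝ) / p ≤ 1 := by
    rw [div_le_one h0]; linarith
  rw [A2_occ_of_gt H p h, le_div_iff₀ (pow_pos (A2_base_pos hp) _)]
  have h2 := A2_pow_le (1 / p) (by positivity) hx1 H.card
  set y : ℝ := (H.card : ℝ) / p with hy
  have hy0 : 0 ≤ y := by positivity
  have hy1 : y ≤ 1 := by
    rw [hy, div_le_one h0]
    exact_mod_cast hk
  have e1 : (H.card : ℝ) * (1 / p) = y := by rw [hy]; ring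
  have e2 : (H.card : ℝ) ^ 2 * (1 / (p : ℝ)) ^ 2 / 2 = y ^ 2 / 2 := by rw [hy]; ring
  have e3 : (H.card : ℝ) ^ 2 / (p : ℝ) ^ 2 = y ^ 2 := by rw [hy, div_pow]
  rw [e1, e2] at h2
  rw [e3]
  have h3 : 0 ≤ 1 - y ^ 2 := by nlinarith
  have h4 := mul_le_mul_of_nonneg_left h2 h3
  refine h4.trans ?_
  nlinarith [sq_nonneg (y * (1 - y))]

theorem A2f_sub_one (H : Finset ℕ) {p : ℕ} (hp : 2 ≤ p) (h : ∀ a ∈ H, a < p)
    (hk : H.card ≤ p) : ‖A2f H p - 1‖ ≤ (H.card : ℝ) ^ 2 * (1 / (p : ℝ) ^ 2) := by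
  have h1 := A2f_le_one H hp h
  have h2 := A2f_ge H hp h hk
  have h3 : (H.card : ℝ) ^ 2 / (p : ℝ) ^ 2 = (H.card : ℝ) ^ 2 * (1 / (p : ℝ) ^ 2) := by ring
  rw [Real.norm_eq_abs, abs_le]
  constructor
  · linarith
  · have : 0 ≤ (H.card : ℝ) ^ 2 * (1 / (p : ℝ) ^ 2) := by positivity
    linarith

/-- A2: convergence of the singular series -/
theorem multipliable_sing (H : Finset ℕ) :
    Multipliable (fun p : Nat.Primes =>
      (1 - (occ H p : ℝ) / (p : ℝ)) / (1 - 1 / (p : ℝ)) ^ H.card) := by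
  change Multipliable (fun p : Nat.Primes => A2f H p)
  have hs : Summable (fun p : Nat.Primes => (H.card : ℝ) ^ 2 * (1 / ((p : ℕ) : ℝ) ^ 2)) := by
    refine Summable.mul_left _ ?_
    exact (Real.summable_one_div_nat_pow.mpr one_lt_two).comp_injective
      Nat.Primes.coe_nat_injective
  have hfin : {p : Nat.Primes | ¬ (‖A2f H p - 1‖ ≤
      (H.card : ℝ) ^ 2 * (1 / ((p : ℕ) : ℝ) ^ 2))}.Finite := by
    refine Set.Finite.subset (((Set.finite_Iic (H.card + H.sup id))).preimage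
      (Nat.Primes.coe_nat_injective.injOn)) ?_
    intro p hp
    by_contra hcon
    apply hp
    have hcon' : ¬ ((p : ℕ) ≤ H.card + H.sup id) := hcon
    rw [not_le] at hcon'
    refine A2f_sub_one H p.2.two_le ?_ (by omega)
    intro a ha
    have := Finset.le_sup (f := id) ha
    simp only [id] at this
    change a ≤ H.sup id at this
    omega
  have hs2 : Summable (fun p : Nat.Primes => A2f H p - 1) :=
    hs.of_norm_bounded_eventually hfin
  have := Real.multipliable_one_add_of_summable hs2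
  refine this.congr fun p => ?_
  ring

theorem A2_tendsto (H : Finset ℕ) : Tendsto (fun t : ℕ => singz t H) atTop (𝓝 (sing H)) := by
  have h1 := (multipliable_sing H).hasProd
  have h2 : Tendsto (fun t : ℕ => ((Finset.range (t + 1)).subtype Nat.Prime : Finset Nat.Primes))
      atTop atTop := by
    refine tendsto_atTop_finset_of_monotone ?_ ?_
    · intro s t hst x hx
      rw [Finset.mem_subtype] at hx ⊢
      rw [Finset.mem_range] at hx ⊢
      omega
    · intro x
      refine ⟨x.1, ?_⟩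
      rw [Finset.mem_subtype, Finset.mem_range]
      exact Nat.lt_succ_self _
  refine (h1.comp h2).congr fun t => ?_
  exact Finset.prod_subtype_eq_prod_filter (fun p => A2f H p)

theorem A2_singz (z : ℕ) (H : Finset ℕ) : singz z H = ∏ p ∈ pr z, A2f H p := rfl

theorem A2_singz_nonneg (z : ℕ) (H : Finset ℕ) : 0 ≤ singz z H := by
  rw [A2_singz]
  refine prod_nonneg fun p hp => ?_
  unfold pr at hp
  exact A2f_nonneg H (mem_filter.1 hp).2.two_le

theorem A2_singz_succ (z : ℕ) (H : Finset ℕ) :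
    singz (z + 1) H = if (z + 1).Prime then A2f H (z + 1) * singz z H else singz z H := by
  rw [A2_singz, A2_singz]
  unfold pr
  rw [Finset.range_add_one (n := z + 1), Finset.filter_insert]
  split_ifs with h
  · rw [Finset.prod_insert]
    simp
  · rfl

theorem A2_le (H : Finset ℕ) (z h : ℕ) (hH : H ⊆ Icc 1 h) (hz : h ≤ z) (t : ℕ) (ht : z ≤ t) :
    singz t H ≤ singz z H := by
  induction t, ht using Nat.le_induction with
  | base => exact le_rfl
  | succ t ht ih =>
    rw [A2_singz_succ]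
    split_ifs with hp
    · have h1 : ∀ a ∈ H, a < t + 1 := by
        intro a ha
        have := (mem_Icc.1 (hH ha)).2
        omega
      exact (mul_le_of_le_one_left (A2_singz_nonneg t H) (A2f_le_one H hp.two_le h1)).trans ih
    · exact ih

theorem A2_ge (H : Finset ℕ) (z h : ℕ) (hH : H ⊆ Icc 1 h) (hz : h ≤ z) (hz0 : 0 < z)
    (hk : 2 * H.card ≤ z) (t : ℕ) (ht : z ≤ t) :
    (1 - (H.card : ℝ) ^ 2 * (1 / z - 1 / t)) * singz z H ≤ singz t H := by
  have hzR : (0 : ℝ) < z := by exact_mod_cast hz0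
  induction t, ht using Nat.le_induction with
  | base => simp
  | succ t ht ih =>
    have htR : (0 : ℝ) < t := lt_of_lt_of_le hzR (by exact_mod_cast ht)
    have hzt : (z : ℝ) ≤ t := by exact_mod_cast ht
    have hk0 : (0 : ℝ) ≤ (H.card : ℝ) ^ 2 := by positivity
    have h6 : 1 / (t : ℝ) ≤ 1 / z := one_div_le_one_div_of_le hzR hzt
    have hdiff : 1 / (t : ℝ) - 1 / (t + 1) = 1 / (t * (t + 1)) := by
      field_simp
      ring
    have hS := A2_singz_nonneg z H
    rw [A2_singz_succ]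
    split_ifs with hp
    · have h1 : ∀ a ∈ H, a < t + 1 := by
        intro a ha
        have := (mem_Icc.1 (hH ha)).2
        omega
      have h2 := A2f_ge H hp.two_le h1 (by omega)
      push_cast at h2 ⊢
      have h3 : (H.card : ℝ) ^ 2 / ((t : ℝ) + 1) ^ 2 ≤ 1 := by
        rw [div_le_one (by positivity)]
        have h4 : (H.card : ℝ) ≤ (t : ℝ) + 1 := by
          exact_mod_cast (by omega : H.card ≤ t + 1)
        exact pow_le_pow_left₀ (by positivity) h4 2
      have h5 : (H.card : ℝ) ^ 2 / ((t : ℝ) + 1) ^ 2 ≤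
          (H.card : ℝ) ^ 2 * (1 / t - 1 / (t + 1)) := by
        rw [hdiff, div_eq_mul_one_div]
        apply mul_le_mul_of_nonneg_left _ hk0
        apply one_div_le_one_div_of_le (by positivity)
        nlinarith
      have h7 : 0 ≤ (H.card : ℝ) ^ 2 * (1 / z - 1 / t) :=
        mul_nonneg hk0 (by linarith)
      have h8 : 0 ≤ (H.card : ℝ) ^ 2 / ((t : ℝ) + 1) ^ 2 := by positivity
      calc (1 - (H.card : ℝ) ^ 2 * (1 / z - 1 / (t + 1))) * singz z H
          ≤ ((1 - (H.card : ℝ) ^ 2 / ((t : ℝ) + 1) ^ 2) *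
              (1 - (H.card : ℝ) ^ 2 * (1 / z - 1 / t))) * singz z H := by
            apply mul_le_mul_of_nonneg_right _ hS
            nlinarith [mul_nonneg h7 h8]
        _ = (1 - (H.card : ℝ) ^ 2 / ((t : ℝ) + 1) ^ 2) *
              ((1 - (H.card : ℝ) ^ 2 * (1 / z - 1 / t)) * singz z H) := by ring
        _ ≤ (1 - (H.card : ℝ) ^ 2 / ((t : ℝ) + 1) ^ 2) * singz t H :=
            mul_le_mul_of_nonneg_left ih (by linarith)
        _ ≤ A2f H (t + 1) * singz t H :=
            mul_le_mul_of_nonneg_right h2 (A2_singz_nonneg t H)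
    · refine le_trans ?_ ih
      apply mul_le_mul_of_nonneg_right _ hS
      push_cast
      have h9 : 0 ≤ 1 / ((t : ℝ) * (t + 1)) := by positivity
      have h10 := mul_nonneg hk0 h9
      rw [← hdiff] at h10
      nlinarith

/-- A3 -/
theorem sing_le_singz (H : Finset ℕ) (z h : ℕ) (hH : H ⊆ Icc 1 h) (hz : h ≤ z)
    (hk : 2 * H.card ≤ z) : sing H ≤ singz z H := by
  refine le_of_tendsto (A2_tendsto H) ?_
  filter_upwards [eventually_ge_atTop z] with t ht
  exact A2_le H z h hH hz t ht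

/-- A4 -/
theorem singz_le_sing (H : Finset ℕ) (z h : ℕ) (hH : H ⊆ Icc 1 h) (hz : h ≤ z)
    (hz0 : 0 < z) (hk : 2 * H.card ≤ z) :
    (1 - (H.card : ℝ) ^ 2 / z) * singz z H ≤ sing H := by
  refine ge_of_tendsto (A2_tendsto H) ?_
  filter_upwards [eventually_ge_atTop z] with t ht
  refine le_trans ?_ (A2_ge H z h hH hz hz0 hk t ht)
  apply mul_le_mul_of_nonneg_right _ (A2_singz_nonneg z H)
  have h1 : 0 ≤ (H.card : ℝ) ^ 2 * (1 / (t : ℝ)) := by positivity
  have h2 : (H.card : ℝ) ^ 2 / z = (H.card : ℝ) ^ 2 * (1 / z) := by ring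
  rw [h2, mul_sub]
  linarith

end Pool.Gal99
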