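import Pool.Agent.LibGal99.A0

namespace Pool.Gal99

open Finset Filter Topology


/-- pairs `a < b` of `H` with `a = b mod p` -/
def A5_pairs (H : Finset ℕ) (p : ℕ) : Finset (ℕ × ℕ) :=
  (H ×ˢ H).filter (fun x => x.1 < x.2 ∧ x.1 % p = x.2 % p)

theorem A5_card (H : Finset ℕ) (p : ℕ) : H.card ≤ occ H p + (A5_pairs H p).card := by
  induction H using Finset.induction_on_max with
  | empty => simp
  | insert a s hmax ih =>
    have ha : a ∉ s := fun h => lt_irrefl a (hmax a h)
    rw [card_insert_of_notMem ha]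
    have hsub : A5_pairs s p ⊆ A5_pairs (insert a s) p := by
      intro x hx
      unfold A5_pairs at hx ⊢
      rw [mem_filter, mem_product] at hx ⊢
      exact ⟨⟨mem_insert_of_mem hx.1.1, mem_insert_of_mem hx.1.2⟩, hx.2⟩
    have hocc : occ (insert a s) p = (insert (a % p) (s.image (fun a => a % p))).card := by
      unfold occ
      rw [image_insert]
    by_cases hc : a % p ∈ s.image (fun a => a % p)
    · have h1 : occ (insert a s) p = occ s p := by
        rw [hocc, insert_eq_of_mem hc]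
        rfl
      obtain ⟨b, hb, hbp⟩ := mem_image.mp hc
      have hnew : (b, a) ∈ A5_pairs (insert a s) p := by
        unfold A5_pairs
        rw [mem_filter, mem_product]
        exact ⟨⟨mem_insert_of_mem hb, mem_insert_self _ _⟩, hmax b hb, hbp⟩
      have hold : (b, a) ∉ A5_pairs s p := by
        unfold A5_pairs
        rw [mem_filter, mem_product]
        rintro ⟨⟨_, h2⟩, _⟩
        exact ha h2
      have h2 : (A5_pairs s p).card + 1 ≤ (A5_pairs (insert a s) p).card := by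
        rw [← card_insert_of_notMem hold]
        apply card_le_card
        intro x hx
        rcases mem_insert.mp hx with h | h
        · rw [h]
          exact hnew
        · exact hsub h
      omega
    · have h1 : occ (insert a s) p = occ s p + 1 := by
        rw [hocc, card_insert_of_notMem hc]
        rfl
      have h2 := card_le_card hsub
      omega

/-- number of pairs `a < b` -/
theorem A5_two_card (H : Finset ℕ) :
    2 * ((H ×ˢ H).filter (fun x => x.1 < x.2)).card ≤ H.card ^ 2 := by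
  have h1 : ((H ×ˢ H).filter (fun x => x.2 < x.1)).card =
      ((H ×ˢ H).filter (fun x => x.1 < x.2)).card := by
    apply card_bij (fun x _ => (x.2, x.1))
    · intro x hx
      rw [mem_filter, mem_product] at hx ⊢
      exact ⟨⟨hx.1.2, hx.1.1⟩, hx.2⟩
    · intro x _ y _ h
      have h1 : x.2 = y.2 := congrArg Prod.fst h
      have h2 : x.1 = y.1 := congrArg Prod.snd h
      exact Prod.ext h2 h1
    · intro y hy
      refine ⟨(y.2, y.1), ?_, rfl⟩
      rw [mem_filter, mem_product] at hy ⊢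
      exact ⟨⟨hy.1.2, hy.1.1⟩, hy.2⟩
  have h2 : Disjoint ((H ×ˢ H).filter (fun x => x.1 < x.2))
      ((H ×ˢ H).filter (fun x => x.2 < x.1)) := by
    rw [disjoint_filter]
    intro x _ h3 h4
    omega
  have h3 : ((H ×ˢ H).filter (fun x => x.1 < x.2) ∪ (H ×ˢ H).filter (fun x => x.2 < x.1)).card ≤
      (H ×ˢ H).card := by
    apply card_le_card
    intro x hx
    rcases mem_union.mp hx with h | h
    · exact (mem_filter.mp h).1
    · exact (mem_filter.mp h).1
  rw [card_union_of_disjoint h2, h1, card_product] at h3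
  nlinarith

/-- the number of prime factors -/
theorem A5_omega (d h : ℕ) (hd : 0 < d) (hdh : d ≤ h) (S : Finset ℕ)
    (hS : ∀ p ∈ S, p.Prime ∧ p ∣ d) : (S.card : ℝ) * Real.log 2 ≤ Real.log h := by
  have h1 : 2 ^ S.card ≤ ∏ p ∈ S, p := by
    apply pow_card_le_prod
    intro p hp
    exact (hS p hp).1.two_le
  have h2 : ∏ p ∈ S, p ∣ d := by
    apply Finset.prod_primes_dvd
    · intro p hp
      exact (hS p hp).1.prime
    · intro p hp
      exact (hS p hp).2
  have h3 : 2 ^ S.card ≤ h := h1.trans ((Nat.le_of_dvd hd h2).trans hdh)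
  have h4 : ((2 : ℝ)) ^ S.card ≤ h := by exact_mod_cast h3
  rw [← Real.log_pow]
  exact Real.log_le_log (by positivity) h4

/-- sum of the defects over the primes in `T` -/
theorem A5_defects (H : Finset ℕ) (h : ℕ) (hH : H ⊆ Icc 1 h) (T : Finset ℕ)
    (hT : ∀ p ∈ T, p.Prime) :
    ∑ p ∈ T, ((H.card : ℝ) - occ H p) ≤ (H.card : ℝ) ^ 2 * Real.log h := by
  rcases Nat.eq_zero_or_pos h with h0 | h0
  · subst h0
    have hE : H = ∅ := by
      rw [← subset_empty]
      simpa using hH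
    subst hE
    simp [occ]
  have hlogh : 0 ≤ Real.log h := Real.log_nonneg (by exact_mod_cast h0)
  have h1 : ∑ p ∈ T, ((H.card : ℝ) - occ H p) ≤ ∑ p ∈ T, ((A5_pairs H p).card : ℝ) := by
    apply sum_le_sum
    intro p _
    have := A5_card H p
    have h2 : (H.card : ℝ) ≤ occ H p + (A5_pairs H p).card := by exact_mod_cast this
    linarith
  have h2 : ∑ p ∈ T, ((A5_pairs H p).card : ℝ) =
      ∑ x ∈ (H ×ˢ H).filter (fun x => x.1 < x.2),
        ((T.filter (fun p => x.1 % p = x.2 % p)).card : ℝ) := by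
    have e1 : ∀ p ∈ T, ((A5_pairs H p).card : ℝ) =
        ∑ x ∈ (H ×ˢ H).filter (fun x => x.1 < x.2), (if x.1 % p = x.2 % p then (1 : ℝ) else 0) := by
      intro p _
      unfold A5_pairs
      rw [← filter_filter, card_filter]
      push_cast
      rfl
    rw [sum_congr rfl e1, sum_comm]
    apply sum_congr rfl
    intro x _
    rw [card_filter]
    push_cast
    rfl
  have h3 : ∀ x ∈ (H ×ˢ H).filter (fun x => x.1 < x.2),
      ((T.filter (fun p => x.1 % p = x.2 % p)).card : ℝ) ≤ 2 * Real.log h := by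
    intro x hx
    rw [mem_filter, mem_product] at hx
    obtain ⟨⟨hx1, hx2⟩, hlt⟩ := hx
    have hb1 := mem_Icc.mp (hH hx1)
    have hb2 := mem_Icc.mp (hH hx2)
    have h4 := A5_omega (x.2 - x.1) h (by omega) (by omega)
      (T.filter (fun p => x.1 % p = x.2 % p)) (by
        intro p hp
        rw [mem_filter] at hp
        refine ⟨hT p hp.1, ?_⟩
        exact (Nat.modEq_iff_dvd' hlt.le).mp hp.2)
    have h5 : (1 : ℝ) / 2 ≤ Real.log 2 := by
      have := Real.log_two_gt_d9
      linarith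
    have h6 : (0 : ℝ) ≤ ((T.filter (fun p => x.1 % p = x.2 % p)).card : ℝ) := Nat.cast_nonneg _
    nlinarith
  have h4 := sum_le_sum h3
  rw [sum_const, nsmul_eq_mul] at h4
  have h5 : (2 : ℝ) * ((H ×ˢ H).filter (fun x => x.1 < x.2)).card ≤ (H.card : ℝ) ^ 2 := by
    exact_mod_cast A5_two_card H
  rw [h2] at h1
  calc ∑ p ∈ T, ((H.card : ℝ) - occ H p) ≤
      ((H ×ˢ H).filter (fun x => x.1 < x.2)).card * (2 * Real.log h) := h1.trans h4
    _ = (2 * ((H ×ˢ H).filter (fun x => x.1 < x.2)).card) * Real.log h := by ring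
    _ ≤ _ := mul_le_mul_of_nonneg_right h5 hlogh

/-- one factor -/
theorem A5_factor (k n p : ℕ) (hp : 2 ≤ p) (hn : n ≤ k) :
    (1 - (n : ℝ) / p) / (1 - 1 / (p : ℝ)) ^ k ≤ Real.exp (2 / p * ((k : ℝ) - n)) := by
  have hp2 : (2 : ℝ) ≤ p := by exact_mod_cast hp
  have hp0 : (0 : ℝ) < p := by linarith
  have hq : (0 : ℝ) < 1 - 1 / (p : ℝ) := by
    have : 1 / (p : ℝ) ≤ 1 / 2 := one_div_le_one_div_of_le (by norm_num) hp2
    linarith
  obtain ⟨e, rfl⟩ := Nat.exists_eq_add_of_le hn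
  have h1 : 1 - (n : ℝ) / p ≤ (1 - 1 / (p : ℝ)) ^ n := by
    have h2 := one_add_mul_le_pow (a := -(1 / (p : ℝ))) (by
      have : 1 / (p : ℝ) ≤ 1 / 2 := one_div_le_one_div_of_le (by norm_num) hp2
      linarith) n
    have e1 : 1 + (n : ℝ) * -(1 / (p : ℝ)) = 1 - (n : ℝ) / p := by ring
    have e2 : 1 + -(1 / (p : ℝ)) = 1 - 1 / (p : ℝ) := by ring
    rw [e1, e2] at h2
    exact h2
  rw [div_le_iff₀ (pow_pos hq _), pow_add]
  have h3 : 1 ≤ Real.exp (2 / p) * (1 - 1 / (p : ℝ)) := by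
    have h4 : 1 + 2 / (p : ℝ) ≤ Real.exp (2 / p) := by
      have := Real.add_one_le_exp (2 / (p : ℝ))
      linarith
    have h5 : (1 + 2 / (p : ℝ)) * (1 - 1 / (p : ℝ)) ≤ Real.exp (2 / p) * (1 - 1 / (p : ℝ)) :=
      mul_le_mul_of_nonneg_right h4 hq.le
    have h6 : 1 ≤ (1 + 2 / (p : ℝ)) * (1 - 1 / (p : ℝ)) := by
      have e1 : (1 + 2 / (p : ℝ)) * (1 - 1 / (p : ℝ)) = 1 + (p - 2) / (p : ℝ) ^ 2 := by
        field_simp
        ring
      rw [e1]
      have : 0 ≤ ((p : ℝ) - 2) / (p : ℝ) ^ 2 := div_nonneg (by linarith) (by positivity)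
      linarith
    linarith
  have h4 : 1 ≤ (Real.exp (2 / p) * (1 - 1 / (p : ℝ))) ^ e := one_le_pow₀ h3
  rw [mul_pow, ← Real.exp_nat_mul] at h4
  have e1 : Real.exp (2 / (p : ℝ) * (((n + e : ℕ) : ℝ) - n)) = Real.exp (e * (2 / (p : ℝ))) := by
    congr 1
    push_cast
    ring
  rw [e1]
  have h5 : 0 < (1 - 1 / (p : ℝ)) ^ n := pow_pos hq n
  calc 1 - (n : ℝ) / p ≤ (1 - 1 / (p : ℝ)) ^ n := h1
    _ = (1 - 1 / (p : ℝ)) ^ n * 1 := (mul_one _).symm
    _ ≤ (1 - 1 / (p : ℝ)) ^ n * (Real.exp (e * (2 / (p : ℝ))) * (1 - 1 / (p : ℝ)) ^ e) :=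
        mul_le_mul_of_nonneg_left h4 h5.le
    _ = _ := by ring

/-- A5: the primes between `w` and `z` -/
theorem singz_le_singz (H : Finset ℕ) (w z h : ℕ) (hH : H ⊆ Icc 1 h) (hw : w ≤ z)
    (hw0 : 0 < w) (hk : 2 * H.card ≤ w) :
    singz z H ≤ singz w H * Real.exp (2 * (H.card : ℝ) ^ 2 * Real.log h / w) := by
  have hsub : pr w ⊆ pr z := by
    intro p hp
    unfold pr at hp ⊢
    rw [mem_filter, mem_range] at hp ⊢
    exact ⟨by omega, hp.2⟩
  have hw' : (0 : ℝ) < w := by exact_mod_cast hw0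
  have e1 : singz z H = singz w H *
      ∏ p ∈ pr z \ pr w, (1 - (occ H p : ℝ) / p) / (1 - 1 / (p : ℝ)) ^ H.card := by
    unfold singz
    rw [mul_comm, prod_sdiff hsub]
  rw [e1]
  apply mul_le_mul_of_nonneg_left _ (singz_nonneg w H)
  have hmem : ∀ p ∈ pr z \ pr w, p.Prime ∧ w < p := by
    intro p hp
    rw [Finset.mem_sdiff] at hp
    unfold pr at hp
    rw [mem_filter, mem_filter, mem_range, mem_range] at hp
    refine ⟨hp.1.2, ?_⟩
    by_contra hc
    exact hp.2 ⟨by omega, hp.1.2⟩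
  have h1 : ∏ p ∈ pr z \ pr w, (1 - (occ H p : ℝ) / p) / (1 - 1 / (p : ℝ)) ^ H.card ≤
      ∏ p ∈ pr z \ pr w, Real.exp (2 / w * ((H.card : ℝ) - occ H p)) := by
    apply Finset.prod_le_prod
    · intro p hp
      obtain ⟨hpp, hwp⟩ := hmem p hp
      have hp2 : (2 : ℝ) ≤ p := by exact_mod_cast hpp.two_le
      have h2 : occ H p ≤ p := (occ_le_card H p).trans (by omega)
      have h3 : (occ H p : ℝ) / p ≤ 1 := by
        rw [div_le_one (by linarith)]
        exact_mod_cast h2
      have h4 : 1 / (p : ℝ) ≤ 1 / 2 := one_div_le_one_div_of_le (by norm_num) hp2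
      exact div_nonneg (by linarith) (pow_nonneg (by linarith) _)
    · intro p hp
      obtain ⟨hpp, hwp⟩ := hmem p hp
      have h2 := A5_factor H.card (occ H p) p hpp.two_le (occ_le_card H p)
      refine h2.trans (Real.exp_le_exp.mpr ?_)
      have h3 : (0 : ℝ) ≤ (H.card : ℝ) - occ H p := by
        have : (occ H p : ℝ) ≤ H.card := by exact_mod_cast occ_le_card H p
        linarith
      apply mul_le_mul_of_nonneg_right _ h3
      apply div_le_div_of_nonneg_left (by norm_num) hw'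
      exact_mod_cast hwp.le
  refine h1.trans ?_
  rw [← Real.exp_sum, ← mul_sum]
  apply Real.exp_le_exp.mpr
  have h2 := A5_defects H h hH (pr z \ pr w) (fun p hp => (hmem p hp).1)
  calc 2 / (w : ℝ) * ∑ p ∈ pr z \ pr w, ((H.card : ℝ) - occ H p) ≤
      2 / (w : ℝ) * ((H.card : ℝ) ^ 2 * Real.log h) :=
        mul_le_mul_of_nonneg_left h2 (by positivity)
    _ = _ := by ring

end Pool.Gal99
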