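import Pool.Agent.LibGal99.A0
import Pool.Agent.LibGal99.A1
import Pool.Agent.LibGal99.A2
import Pool.Agent.LibGal99.A5

namespace Pool.Gal99

open Finset Filter Topology


theorem A6_singz (z k : ℕ) (H : Finset ℕ) (hk : H.card = k) :
    singz z H = (∏ p ∈ pr z, (1 - (occ H p : ℝ) / p)) / V z ^ k := by
  unfold singz V
  rw [prod_div_distrib, prod_pow, hk]

theorem A6_sum (z h k : ℕ) :
    ∑ H ∈ powersetCard k (Icc 1 h), singz z H =
      avg (Pz z) (fun m => ((R z m h).choose k : ℝ)) / V z ^ k := by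
  rw [avg_choose, sum_div]
  apply sum_congr rfl
  intro H hH
  exact A6_singz z k H (mem_powersetCard.mp hH).2

/-- A6 -/
theorem gal_upper (h k w : ℕ) (hw0 : 0 < w) (hk : 2 * k ≤ w) (hkh : k ≤ h) :
    gal h k ≤ Real.exp (2 * (k : ℝ) ^ 2 * Real.log h / w) *
      (avg (Pz w) (fun m => ((R w m h).choose k : ℝ)) / ((h.choose k : ℝ) * V w ^ k)) := by
  have hc : (0 : ℝ) < (h.choose k : ℝ) := by exact_mod_cast Nat.choose_pos hkh
  have h1 : ∑ H ∈ powersetCard k (Icc 1 h), sing H ≤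
      ∑ H ∈ powersetCard k (Icc 1 h), singz w H *
        Real.exp (2 * (k : ℝ) ^ 2 * Real.log h / w) := by
    apply sum_le_sum
    intro H hH
    obtain ⟨hs, hcard⟩ := mem_powersetCard.mp hH
    have h2 := sing_le_singz H (h + w) h hs (by omega) (by omega)
    have h3 := singz_le_singz H w (h + w) h hs (by omega) hw0 (by omega)
    rw [hcard] at h3
    exact h2.trans h3
  rw [← sum_mul, A6_sum] at h1
  unfold gal
  have h4 := div_le_div_of_nonneg_right h1 hc.le
  refine h4.trans (le_of_eq ?_)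
  have hV : V w ^ k ≠ 0 := pow_ne_zero _ (V_pos w).ne'
  field_simp

/-- A7 -/
theorem gal_lower (h k z : ℕ) (hz : h ≤ z) (hz0 : 0 < z) (hk : 2 * k ≤ z) (hkh : k ≤ h) :
    (1 - (k : ℝ) ^ 2 / z) *
      (avg (Pz z) (fun m => ((R z m h).choose k : ℝ)) / ((h.choose k : ℝ) * V z ^ k)) ≤
      gal h k := by
  have hc : (0 : ℝ) < (h.choose k : ℝ) := by exact_mod_cast Nat.choose_pos hkh
  have h1 : ∑ H ∈ powersetCard k (Icc 1 h), (1 - (k : ℝ) ^ 2 / z) * singz z H ≤
      ∑ H ∈ powersetCard k (Icc 1 h), sing H := by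
    apply sum_le_sum
    intro H hH
    obtain ⟨hs, hcard⟩ := mem_powersetCard.mp hH
    have h3 := singz_le_sing H z h hs hz hz0 (by omega)
    rw [hcard] at h3
    exact h3
  rw [← mul_sum, A6_sum] at h1
  unfold gal
  have h4 := div_le_div_of_nonneg_right h1 hc.le
  refine le_trans (le_of_eq ?_) h4
  have hV : V z ^ k ≠ 0 := pow_ne_zero _ (V_pos z).ne'
  field_simp

end Pool.Gal99
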