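import Pool.Agent.LibGal99.A0

namespace Pool.Gal99

open Finset Filter Topology


theorem A9_pr_subset {z0 z : ℕ} (hz : z0 ≤ z) : pr z0 ⊆ pr z := by
  intro p hp
  simp only [pr, mem_filter, mem_range] at hp ⊢
  exact ⟨by omega, hp.2⟩

/-- the product of the primes in `(z0, z]` -/
def A9_Q (z0 z : ℕ) : ℕ := ∏ p ∈ pr z \ pr z0, p

theorem A9_prime {z0 z p : ℕ} (hp : p ∈ pr z \ pr z0) : p.Prime := by
  have h1 := (Finset.mem_sdiff.1 hp).1
  unfold pr at h1
  exact (Finset.mem_filter.1 h1).2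

theorem A9_Q_pos (z0 z : ℕ) : 0 < A9_Q z0 z :=
  Finset.prod_pos (fun _ hp => (A9_prime hp).pos)

theorem A9_Pz {z0 z : ℕ} (hz : z0 ≤ z) : Pz z = A9_Q z0 z * Pz z0 :=
  (Finset.prod_sdiff (A9_pr_subset hz)).symm

theorem A9_V {z0 z : ℕ} (hz : z0 ≤ z) :
    V z = (∏ p ∈ pr z \ pr z0, (1 - 1 / (p : ℝ))) * V z0 :=
  (Finset.prod_sdiff (A9_pr_subset hz)).symm

theorem A9_coprime (z0 z : ℕ) : (Pz z0).Coprime (A9_Q z0 z) := by
  unfold A9_Q Pz
  refine Nat.Coprime.prod_left (fun p hp => Nat.Coprime.prod_right (fun q hq => ?_))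
  have hp' : p.Prime := by
    simp only [pr, mem_filter, mem_range] at hp
    exact hp.2
  rw [Nat.coprime_primes hp' (A9_prime hq)]
  rintro rfl
  exact (Finset.mem_sdiff.1 hq).2 hp

theorem A9_count (Q d c : ℕ) (hd : d.Coprime Q) :
    ((range Q).filter (fun t => (c + d * t).Coprime Q)).card = Q.totient := by
  rcases Nat.eq_zero_or_pos Q with hQ | hQ
  · subst hQ
    simp
  have hinj : Set.InjOn (fun t => (c + d * t) % Q) (range Q : Set ℕ) := by
    intro a ha b hb hab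
    simp only [coe_range, Set.mem_Iio] at ha hb
    have h1 : c + d * a ≡ c + d * b [MOD Q] := hab
    have h2 : d * a ≡ d * b [MOD Q] := Nat.ModEq.add_left_cancel' c h1
    have h3 : a ≡ b [MOD Q] := Nat.ModEq.cancel_left_of_coprime hd.symm h2
    exact Nat.ModEq.eq_of_lt_of_lt h3 ha hb
  have himg : (range Q).image (fun t => (c + d * t) % Q) = range Q := by
    apply Finset.eq_of_subset_of_card_le
    · intro x hx
      obtain ⟨t, -, rfl⟩ := mem_image.1 hx
      exact mem_range.2 (Nat.mod_lt _ hQ)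
    · rw [card_image_of_injOn hinj]
  have h5 : ((range Q).filter (fun a => Q.Coprime a)).card =
      ((range Q).filter (fun t => Q.Coprime ((c + d * t) % Q))).card := by
    have e1 : (((range Q).image (fun t => (c + d * t) % Q)).filter (fun a => Q.Coprime a)).card =
        ((range Q).filter (fun t => Q.Coprime ((c + d * t) % Q))).card := by
      rw [filter_image, card_image_of_injOn]
      intro a ha b hb hab
      exact hinj (Finset.mem_filter.1 ha).1 (Finset.mem_filter.1 hb).1 hab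
    rw [himg] at e1
    exact e1
  rw [Nat.totient_eq_card_coprime, h5]
  congr 1
  apply filter_congr
  intro t _
  rw [Nat.coprime_comm (n := Q)]
  unfold Nat.Coprime
  rw [Nat.ModEq.gcd_eq (Nat.mod_modEq (c + d * t) Q)]

theorem A9_tot (z0 z : ℕ) : ((A9_Q z0 z).totient : ℝ) =
    (A9_Q z0 z : ℝ) * ∏ p ∈ pr z \ pr z0, (1 - 1 / (p : ℝ)) := by
  have h1 := Nat.totient_eq_mul_prod_factors (A9_Q z0 z)
  have h2 : (A9_Q z0 z).primeFactors = pr z \ pr z0 := by
    unfold A9_Q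
    exact Nat.primeFactors_prod (fun p hp => A9_prime hp)
  rw [h2] at h1
  have h3 : (((A9_Q z0 z).totient : ℚ) : ℝ) =
      (((A9_Q z0 z : ℚ) * ∏ p ∈ pr z \ pr z0, (1 - (p : ℚ)⁻¹) : ℚ) : ℝ) := by
    rw [h1]
  push_cast at h3
  rw [h3]
  simp only [one_div]

theorem A9_R_eq (z m h : ℕ) :
    R z m h = ((Ioc 0 h).filter (fun a => (m + a).Coprime (Pz z))).card := by
  unfold R
  have h1 : Ioc m (m + h) = (Ioc 0 h).image (fun a => m + a) := by
    ext x
    simp only [mem_Ioc, mem_image]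
    constructor
    · rintro ⟨h1, h2⟩
      exact ⟨x - m, ⟨by omega, by omega⟩, by omega⟩
    · rintro ⟨a, ⟨h1, h2⟩, rfl⟩
      exact ⟨by omega, by omega⟩
  rw [h1, filter_image, card_image_of_injective]
  intro a b hab
  simpa using hab

theorem A9_sumR {z0 z : ℕ} (hz : z0 ≤ z) (m0 h : ℕ) :
    ∑ t ∈ range (A9_Q z0 z), (R z (m0 + Pz z0 * t) h : ℝ) =
      (A9_Q z0 z).totient * R z0 m0 h := by
  have h1 : ∀ t : ℕ, (R z (m0 + Pz z0 * t) h : ℝ) =
      ∑ a ∈ Ioc 0 h, if (m0 + Pz z0 * t + a).Coprime (Pz z) then (1 : ℝ) else 0 := by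
    intro t
    rw [A9_R_eq, card_filter]
    push_cast
    rfl
  simp only [h1]
  rw [sum_comm, A9_R_eq z0 m0 h, card_filter]
  push_cast
  rw [mul_sum]
  apply sum_congr rfl
  intro a _
  have h2 : ∀ t : ℕ, (m0 + Pz z0 * t + a).Coprime (Pz z) ↔
      ((m0 + a).Coprime (Pz z0) ∧ ((m0 + a) + Pz z0 * t).Coprime (A9_Q z0 z)) := by
    intro t
    rw [A9_Pz hz, Nat.coprime_mul_iff_right]
    have e1 : m0 + Pz z0 * t + a = (m0 + a) + Pz z0 * t := by ring
    rw [e1]
    have e2 : ((m0 + a) + Pz z0 * t).Coprime (Pz z0) ↔ (m0 + a).Coprime (Pz z0) := by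
      simp
    rw [e2]
    tauto
  simp only [h2]
  by_cases hc : (m0 + a).Coprime (Pz z0)
  · rw [if_pos hc, mul_one, ← A9_count (A9_Q z0 z) (Pz z0) (m0 + a) (A9_coprime z0 z),
      card_filter]
    push_cast
    apply sum_congr rfl
    intro t _
    by_cases hq : ((m0 + a) + Pz z0 * t).Coprime (A9_Q z0 z)
    · rw [if_pos ⟨hc, hq⟩, if_pos hq]
    · rw [if_neg (fun hh => hq hh.2), if_neg hq]
  · simp [hc]

theorem A9_R_mod (z m h : ℕ) : R z (m % Pz z) h = R z m h := by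
  rw [A9_R_eq, A9_R_eq]
  congr 1
  apply filter_congr
  intro a _
  unfold Nat.Coprime
  rw [Nat.ModEq.gcd_eq (Nat.ModEq.add_right a (Nat.mod_modEq m (Pz z)))]

theorem A9_choose (N k : ℕ) : (((N - k : ℕ) : ℝ)) ^ k / (k.factorial : ℝ) ≤ (N.choose k : ℝ) := by
  have h1 : (N - k) ^ k ≤ k.factorial * N.choose k := by
    rw [← Nat.descFactorial_eq_factorial_mul_choose]
    exact (Nat.pow_le_pow_left (by omega) k).trans (Nat.pow_sub_le_descFactorial N k)
  rw [div_le_iff₀ (by exact_mod_cast k.factorial_pos), mul_comm]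
  exact_mod_cast h1

/-- A9: Jensen on the class of an aligned window -/
theorem jensen_lower (h k z z0 m0 : ℕ) (h0 : 0 < h) (hkh : k ≤ h) (hz : z0 ≤ z)
    (hpos : 0 ≤ 1 + er z0 m0 h - k / (h * V z)) :
    (1 / (Pz z0 : ℝ)) * (1 + er z0 m0 h - k / (h * V z)) ^ k ≤
      avg (Pz z) (fun m => ((R z m h).choose k : ℝ)) / ((h.choose k : ℝ) * V z ^ k) := by
  set Q := A9_Q z0 z with hQdef
  have hQ : 0 < Q := A9_Q_pos z0 z
  have hQr : (0 : ℝ) < Q := by exact_mod_cast hQ
  have hP0 : 0 < Pz z0 := Pz_pos z0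
  have hP0r : (0 : ℝ) < Pz z0 := by exact_mod_cast hP0
  have hV : 0 < V z := V_pos z
  have hV0 : 0 < V z0 := V_pos z0
  have hhr : (0 : ℝ) < h := by exact_mod_cast h0
  set m1 := m0 % Pz z0 with hm1
  have hm1lt : m1 < Pz z0 := Nat.mod_lt _ hP0
  have hR1 : R z0 m1 h = R z0 m0 h := A9_R_mod z0 m0 h
  set X : ℝ := 1 + er z0 m0 h - k / (h * V z) with hX
  have hXeq : (h : ℝ) * V z * X = V z / V z0 * R z0 m0 h - k := by
    rw [hX, er]
    field_simp
    ring
  -- the mean over the lifts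
  have hmean : ∑ t ∈ range Q, (1 / (Q : ℝ)) * (R z (m1 + Pz z0 * t) h : ℝ) =
      V z / V z0 * R z0 m0 h := by
    rw [← mul_sum, A9_sumR hz m1 h, hR1, A9_tot, A9_V hz]
    field_simp
    rfl
  have hpm : (∑ t ∈ range Q, (1 / (Q : ℝ)) * (((R z (m1 + Pz z0 * t) h - k : ℕ)) : ℝ)) ^ k ≤
      ∑ t ∈ range Q, (1 / (Q : ℝ)) * (((R z (m1 + Pz z0 * t) h - k : ℕ)) : ℝ) ^ k := by
    apply Real.pow_arith_mean_le_arith_mean_pow
    · intro i _
      positivity
    · rw [sum_const, card_range, nsmul_eq_mul]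
      field_simp
    · intro i _
      positivity
  have hlow : (h : ℝ) * V z * X ≤
      ∑ t ∈ range Q, (1 / (Q : ℝ)) * (((R z (m1 + Pz z0 * t) h - k : ℕ)) : ℝ) := by
    have e1 : (h : ℝ) * V z * X =
        ∑ t ∈ range Q, (1 / (Q : ℝ)) * ((R z (m1 + Pz z0 * t) h : ℝ) - k) := by
      rw [hXeq, ← hmean]
      simp only [mul_sub]
      rw [sum_sub_distrib, sum_const, card_range, nsmul_eq_mul]
      field_simp
    rw [e1]
    apply sum_le_sum
    intro t _
    apply mul_le_mul_of_nonneg_left _ (by positivity)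
    have h2 : (R z (m1 + Pz z0 * t) h : ℝ) ≤ ((R z (m1 + Pz z0 * t) h - k : ℕ) : ℝ) + k := by
      have : R z (m1 + Pz z0 * t) h ≤ (R z (m1 + Pz z0 * t) h - k) + k := by omega
      exact_mod_cast this
    linarith
  have hpow : ((h : ℝ) * V z * X) ^ k ≤
      ∑ t ∈ range Q, (1 / (Q : ℝ)) * (((R z (m1 + Pz z0 * t) h - k : ℕ)) : ℝ) ^ k :=
    (pow_le_pow_left₀ (by positivity) hlow k).trans hpm
  -- restrict the mean value to the lifts
  have hrestr : (1 / (Pz z0 : ℝ)) * ∑ t ∈ range Q, (1 / (Q : ℝ)) *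
      ((R z (m1 + Pz z0 * t) h).choose k : ℝ) ≤ avg (Pz z) (fun m => ((R z m h).choose k : ℝ)) := by
    unfold avg
    have hPz : (Pz z : ℝ) = Q * Pz z0 := by
      rw [A9_Pz hz]
      push_cast
      rfl
    have hsub : ∑ t ∈ range Q, ((R z (m1 + Pz z0 * t) h).choose k : ℝ) ≤
        ∑ m ∈ range (Pz z), ((R z m h).choose k : ℝ) := by
      have hinj : Set.InjOn (fun t => m1 + Pz z0 * t) (range Q : Set ℕ) := by
        intro a _ b _ hab
        have h1 : Pz z0 * a = Pz z0 * b := by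
          simpa using hab
        exact Nat.eq_of_mul_eq_mul_left hP0 h1
      have e1 : ∑ t ∈ range Q, ((R z (m1 + Pz z0 * t) h).choose k : ℝ) =
          ∑ m ∈ (range Q).image (fun t => m1 + Pz z0 * t), ((R z m h).choose k : ℝ) := by
        rw [sum_image hinj]
      rw [e1]
      apply sum_le_sum_of_subset_of_nonneg
      · intro x hx
        obtain ⟨t, ht, rfl⟩ := mem_image.1 hx
        rw [mem_range] at ht ⊢
        rw [A9_Pz hz]
        calc m1 + Pz z0 * t < Pz z0 + Pz z0 * t := by omega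
          _ = Pz z0 * (t + 1) := by ring
          _ ≤ Pz z0 * Q := Nat.mul_le_mul_left _ ht
          _ = Q * Pz z0 := by ring
      · intro i _ _
        positivity
    rw [← mul_sum, hPz, ← mul_assoc, le_div_iff₀ (by positivity)]
    calc (1 / (Pz z0 : ℝ) * (1 / (Q : ℝ)) *
          ∑ t ∈ range Q, ((R z (m1 + Pz z0 * t) h).choose k : ℝ)) * ((Q : ℝ) * Pz z0)
        = ∑ t ∈ range Q, ((R z (m1 + Pz z0 * t) h).choose k : ℝ) := by
          field_simp
      _ ≤ _ := hsub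
  have hch : ((h : ℝ) * V z * X) ^ k / (k.factorial : ℝ) ≤
      ∑ t ∈ range Q, (1 / (Q : ℝ)) * ((R z (m1 + Pz z0 * t) h).choose k : ℝ) := by
    have hf : (0 : ℝ) < k.factorial := by exact_mod_cast k.factorial_pos
    calc ((h : ℝ) * V z * X) ^ k / (k.factorial : ℝ)
        ≤ (∑ t ∈ range Q, (1 / (Q : ℝ)) * (((R z (m1 + Pz z0 * t) h - k : ℕ)) : ℝ) ^ k) /
            (k.factorial : ℝ) := by
          gcongr
      _ = ∑ t ∈ range Q, (1 / (Q : ℝ)) *
            ((((R z (m1 + Pz z0 * t) h - k : ℕ)) : ℝ) ^ k / (k.factorial : ℝ)) := by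
          rw [sum_div]
          apply sum_congr rfl
          intro t _
          ring
      _ ≤ _ := by
          apply sum_le_sum
          intro t _
          apply mul_le_mul_of_nonneg_left (A9_choose _ _) (by positivity)
  have hC : 0 < (h.choose k : ℝ) := by exact_mod_cast Nat.choose_pos hkh
  rw [le_div_iff₀ (by positivity)]
  calc 1 / (Pz z0 : ℝ) * X ^ k * ((h.choose k : ℝ) * V z ^ k)
      ≤ 1 / (Pz z0 : ℝ) * X ^ k * (((h : ℝ) ^ k / (k.factorial : ℝ)) * V z ^ k) := by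
        have hcl : (h.choose k : ℝ) ≤ (h : ℝ) ^ k / (k.factorial : ℝ) :=
          Nat.choose_le_pow_div k h
        gcongr
    _ = 1 / (Pz z0 : ℝ) * (((h : ℝ) * V z * X) ^ k / (k.factorial : ℝ)) := by
        rw [mul_pow, mul_pow]
        ring
    _ ≤ 1 / (Pz z0 : ℝ) * ∑ t ∈ range Q, (1 / (Q : ℝ)) *
          ((R z (m1 + Pz z0 * t) h).choose k : ℝ) := by
        gcongr
    _ ≤ _ := hrestr

end Pool.Gal99
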