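import Pool.Agent.LibGal99.Defs
import Pool.Agent.LibMaier.Mertens

namespace Pool.Gal99

open Finset Filter Topology

theorem B2_V_pos (z : ℕ) : 0 < V z := by
  unfold V
  apply prod_pos
  intro p hp
  have h2 : 2 ≤ p := (mem_filter.mp hp).2.two_le
  have h3 : (2 : ℝ) ≤ p := by exact_mod_cast h2
  have h4 : 1 / (p : ℝ) ≤ 1 / 2 := one_div_le_one_div_of_le (by norm_num) h3
  linarith

/-- B2a -/
theorem V_inv_le : ∃ C : ℝ, 0 < C ∧ ∀ z : ℕ, 2 ≤ z → (V z)⁻¹ ≤ C * Real.log z := by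
  have h := Pool.Agent.LibMaier.mertens_third
  have h1 := h.inv₀ (Real.exp_pos _).ne'
  obtain ⟨C, hC⟩ := h1.bddAbove_range
  refine ⟨max C 1, by positivity, ?_⟩
  intro z hz
  have h2 := hC (Set.mem_range_self z)
  have hz' : (2 : ℝ) ≤ z := by exact_mod_cast hz
  have hlog : 0 < Real.log z := Real.log_pos (by linarith)
  have hV : 0 < V z := B2_V_pos z
  have h3 : (V z * Real.log z)⁻¹ ≤ C := h2
  rw [mul_inv] at h3
  have h4 : (V z)⁻¹ = (V z)⁻¹ * (Real.log z)⁻¹ * Real.log z := by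
    field_simp
  rw [h4]
  exact mul_le_mul_of_nonneg_right (h3.trans (le_max_left _ _)) hlog.le

/-- C9: Mertens-type bound, crude -/
theorem sum_inv_le : ∃ C : ℝ, 0 < C ∧ ∀ w : ℕ, 2 ≤ w → ∑ p ∈ pr w, 1 / (p : ℝ) ≤
    C * (1 + Real.log (Real.log w + 1)) := by
  obtain ⟨M, hM⟩ := Pool.Agent.LibMaier.mertens_second
  have h5 : Tendsto (fun z : ℕ => Pool.Agent.LibMaier.DR z) atTop (𝓝 M) :=
    hM.comp tendsto_natCast_atTop_atTop
  obtain ⟨K, hK⟩ := h5.bddAbove_range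
  refine ⟨|K| + 1, by positivity, ?_⟩
  intro w hw
  have h2 : Pool.Agent.LibMaier.DR w ≤ K := hK (Set.mem_range_self w)
  have hz' : (2 : ℝ) ≤ w := by exact_mod_cast hw
  have hlog : 0 < Real.log w := Real.log_pos (by linarith)
  have hR : Pool.Agent.LibMaier.RN w = ∑ p ∈ pr w, 1 / (p : ℝ) := by
    unfold Pool.Agent.LibMaier.RN Pool.Agent.LibMaier.PN pr
    have e : Icc 0 w = range (w + 1) := by
      ext a
      simp
    rw [e]
  unfold Pool.Agent.LibMaier.DR at h2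
  rw [Nat.floor_natCast, hR] at h2
  have h3 : Real.log (Real.log w) ≤ Real.log (Real.log w + 1) :=
    Real.log_le_log hlog (by linarith)
  have h4 : 0 ≤ Real.log (Real.log w + 1) := Real.log_nonneg (by linarith)
  have h6 : K ≤ |K| := le_abs_self K
  nlinarith [abs_nonneg K]

/-- partial summation -/
theorem B2_abel (c g : ℕ → ℝ) (A : ℝ) (hg : ∀ n, g (n + 1) ≤ g n)
    (hS : ∀ n, ∑ i ∈ range n, c i ≤ A * n) (n : ℕ) :
    (A * n - ∑ i ∈ range n, c i) * g n ≤
      A * ∑ i ∈ range n, g i - ∑ i ∈ range n, c i * g i := by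
  induction n with
  | zero => simp
  | succ n ih =>
    have h1 : (A * ((n + 1 : ℕ) : ℝ) - ∑ i ∈ range (n + 1), c i) * g (n + 1) ≤
        (A * ((n + 1 : ℕ) : ℝ) - ∑ i ∈ range (n + 1), c i) * g n :=
      mul_le_mul_of_nonneg_left (hg n) (by have := hS (n + 1); linarith)
    refine h1.trans ?_
    rw [sum_range_succ, sum_range_succ, sum_range_succ]
    push_cast
    nlinarith

theorem B2_sum_rpow (b : ℝ) (hb : 0 < b) (hb1 : b ≤ 1) (n : ℕ) :
    ∑ i ∈ range n, ((i : ℝ) + 1) ^ (b - 1) ≤ (n : ℝ) ^ b / b := by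
  induction n with
  | zero =>
    simp [Real.zero_rpow hb.ne']
  | succ n ih =>
    rw [sum_range_succ]
    refine (add_le_add_left ih _).trans ?_
    have hn : (0 : ℝ) < (n : ℝ) + 1 := by positivity
    have h1 := rpow_one_add_le_one_add_mul_self (s := -(1 / ((n : ℝ) + 1))) (by
      have : 1 / ((n : ℝ) + 1) ≤ 1 := by
        rw [div_le_one hn]
        have : (0 : ℝ) ≤ n := Nat.cast_nonneg n
        linarith
      linarith) hb.le hb1
    have h2 : 1 + -(1 / ((n : ℝ) + 1)) = n / ((n : ℝ) + 1) := by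
      field_simp
      ring
    rw [h2, Real.div_rpow (Nat.cast_nonneg n) hn.le] at h1
    have hpow : 0 < ((n : ℝ) + 1) ^ b := Real.rpow_pos_of_pos hn b
    have h3 : (n : ℝ) ^ b ≤ ((n : ℝ) + 1) ^ b - b * ((n : ℝ) + 1) ^ (b - 1) := by
      rw [Real.rpow_sub_one hn.ne']
      rw [div_le_iff₀ hpow] at h1
      have h4 : (1 + b * -(1 / ((n : ℝ) + 1))) * ((n : ℝ) + 1) ^ b =
          ((n : ℝ) + 1) ^ b - b * (((n : ℝ) + 1) ^ b / ((n : ℝ) + 1)) := by
        field_simp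
        ring
      rw [h4] at h1
      exact h1
    push_cast
    rw [← sub_nonneg]
    have h5 : ((n : ℝ) + 1) ^ b / b - (((n : ℝ) ^ b / b) + ((n : ℝ) + 1) ^ (b - 1)) =
        (((n : ℝ) + 1) ^ b - b * ((n : ℝ) + 1) ^ (b - 1) - (n : ℝ) ^ b) / b := by
      field_simp
      ring
    rw [h5]
    exact div_nonneg (by linarith) hb.le

/-- coefficients `log p` at primes, shifted -/
noncomputable def B2_c (i : ℕ) : ℝ := if (i + 1).Prime then Real.log ((i : ℝ) + 1) else 0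

theorem B2_theta (n : ℕ) : ∑ i ∈ range n, B2_c i ≤ Real.log 4 * n := by
  refine le_trans (le_of_eq ?_) (Chebyshev.theta_le_log4_mul_x (Nat.cast_nonneg n))
  rw [Chebyshev.theta_eq_sum_Icc, Nat.floor_natCast, sum_filter]
  have h1 : ∑ a ∈ Icc 0 n, (if a.Prime then Real.log (a : ℝ) else 0) =
      ∑ a ∈ range (n + 1), (if a.Prime then Real.log (a : ℝ) else 0) := by
    apply sum_congr _ (fun _ _ => rfl)
    ext a
    simp
  rw [h1, sum_range_succ']
  simp only [Nat.not_prime_zero, if_false, add_zero]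
  apply sum_congr rfl
  intro i _
  unfold B2_c
  push_cast
  rfl

theorem B2_logsum (b : ℝ) (hb : 0 < b) (hb1 : b ≤ 1) (z : ℕ) :
    ∑ p ∈ pr z, Real.log p * (p : ℝ) ^ (b - 1) ≤ Real.log 4 * ((z : ℝ) ^ b / b) := by
  have h1 : ∑ p ∈ pr z, Real.log p * (p : ℝ) ^ (b - 1) =
      ∑ i ∈ range z, B2_c i * ((i : ℝ) + 1) ^ (b - 1) := by
    unfold pr
    rw [sum_filter, sum_range_succ']
    simp only [Nat.not_prime_zero, if_false, add_zero]
    apply sum_congr rfl
    intro i _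
    unfold B2_c
    push_cast
    split_ifs <;> simp
  have h2 := B2_abel B2_c (fun i => ((i : ℝ) + 1) ^ (b - 1)) (Real.log 4) (by
    intro n
    have hn : (0 : ℝ) < (n : ℝ) + 1 := by positivity
    push_cast
    exact Real.rpow_le_rpow_of_nonpos hn (by linarith) (by linarith)) B2_theta z
  have h3 : 0 ≤ (Real.log 4 * z - ∑ i ∈ range z, B2_c i) * ((z : ℝ) + 1) ^ (b - 1) := by
    apply mul_nonneg
    · have := B2_theta z
      linarith
    · positivity
  have h4 := B2_sum_rpow b hb hb1 z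
  have h5 : 0 ≤ Real.log 4 := Real.log_nonneg (by norm_num)
  have h6 := mul_le_mul_of_nonneg_left h4 h5
  rw [h1]
  linarith

/-- B2b: Chebyshev's bound and dyadic summation -/
theorem sum_rpow_le : ∃ C : ℝ, 0 < C ∧ ∀ z : ℕ, 3 ≤ z → ∀ b : ℝ, 0 < b → b ≤ 1 / 2 →
    Real.exp 1 ≤ (z : ℝ) ^ b →
    ∑ p ∈ pr z, (p : ℝ) ^ (b - 1) ≤ C * ((z : ℝ) ^ b / Real.log ((z : ℝ) ^ b) +
      Real.sqrt ((z : ℝ) ^ b) * (1 + Real.log (Real.log z + 1))) := by
  obtain ⟨C9, hC9, h9⟩ := sum_inv_le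
  refine ⟨C9 + 2 * Real.log 4, by
    have : 0 < Real.log 4 := Real.log_pos (by norm_num)
    positivity, ?_⟩
  intro z hz b hb hb1 _
  have hz' : (3 : ℝ) ≤ z := by exact_mod_cast hz
  have hz0 : (0 : ℝ) < z := by linarith
  have hlog : 0 < Real.log z := Real.log_pos (by linarith)
  have hzb : 0 < (z : ℝ) ^ b := Real.rpow_pos_of_pos hz0 b
  have hlb : Real.log ((z : ℝ) ^ b) = b * Real.log z := Real.log_rpow hz0 b
  have hl4 : 0 < Real.log 4 := Real.log_pos (by norm_num)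
  have hterm : ∀ p ∈ pr z, (p : ℝ) ^ (b - 1) ≤ Real.sqrt ((z : ℝ) ^ b) * (1 / (p : ℝ)) +
      2 / Real.log z * (Real.log p * (p : ℝ) ^ (b - 1)) := by
    intro p hp
    have hpp : p.Prime := (mem_filter.mp hp).2
    have h2 : (2 : ℝ) ≤ p := by exact_mod_cast hpp.two_le
    have hp0 : (0 : ℝ) < p := by linarith
    have hlp : 0 ≤ Real.log p := Real.log_nonneg (by linarith)
    have hpb : 0 < (p : ℝ) ^ (b - 1) := Real.rpow_pos_of_pos hp0 _
    rcases le_or_gt ((p : ℝ) ^ 2) z with hc | hc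
    · have h3 : (p : ℝ) ^ (b - 1) = (p : ℝ) ^ b * (1 / p) := by
        rw [Real.rpow_sub_one hp0.ne']
        ring
      have h4 : (p : ℝ) ^ b ≤ Real.sqrt ((z : ℝ) ^ b) := by
        apply Real.le_sqrt_of_sq_le
        rw [← Real.rpow_natCast, ← Real.rpow_mul hp0.le, mul_comm, Real.rpow_mul hp0.le,
          Real.rpow_natCast]
        exact Real.rpow_le_rpow (by positivity) hc hb.le
      have h5 : (p : ℝ) ^ b * (1 / p) ≤ Real.sqrt ((z : ℝ) ^ b) * (1 / p) :=
        mul_le_mul_of_nonneg_right h4 (by positivity)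
      have h6 : 0 ≤ 2 / Real.log z * (Real.log p * (p : ℝ) ^ (b - 1)) := by positivity
      linarith
    · have h3 : Real.log z ≤ 2 * Real.log p := by
        have := Real.log_le_log hz0 hc.le
        rw [Real.log_pow] at this
        exact_mod_cast this
      have h4 : 1 ≤ 2 / Real.log z * Real.log p := by
        rw [div_mul_eq_mul_div, le_div_iff₀ hlog]
        linarith
      have h5 : (p : ℝ) ^ (b - 1) ≤ 2 / Real.log z * (Real.log p * (p : ℝ) ^ (b - 1)) := by
        rw [← mul_assoc]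
        exact le_mul_of_one_le_left hpb.le h4
      have h6 : 0 ≤ Real.sqrt ((z : ℝ) ^ b) * (1 / (p : ℝ)) := by positivity
      linarith
  refine (sum_le_sum hterm).trans ?_
  rw [sum_add_distrib, ← mul_sum, ← mul_sum, hlb]
  have h1 := h9 z (by omega)
  have h2 := B2_logsum b hb (by linarith) z
  have hll : 0 ≤ Real.log (Real.log z + 1) := Real.log_nonneg (by linarith)
  have h3 : Real.sqrt ((z : ℝ) ^ b) * ∑ p ∈ pr z, 1 / (p : ℝ) ≤
      Real.sqrt ((z : ℝ) ^ b) * (C9 * (1 + Real.log (Real.log z + 1))) :=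
    mul_le_mul_of_nonneg_left h1 (Real.sqrt_nonneg _)
  have h4 : 2 / Real.log z * ∑ p ∈ pr z, Real.log p * (p : ℝ) ^ (b - 1) ≤
      2 / Real.log z * (Real.log 4 * ((z : ℝ) ^ b / b)) :=
    mul_le_mul_of_nonneg_left h2 (by positivity)
  have h5 : 2 / Real.log z * (Real.log 4 * ((z : ℝ) ^ b / b)) =
      2 * Real.log 4 * ((z : ℝ) ^ b / (b * Real.log z)) := by
    field_simp
  have h6 : 0 ≤ C9 * ((z : ℝ) ^ b / (b * Real.log z)) := by positivity
  have h7 : 0 ≤ 2 * Real.log 4 * (Real.sqrt ((z : ℝ) ^ b) * (1 + Real.log (Real.log z + 1))) := by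
    positivity
  nlinarith

end Pool.Gal99
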