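import Pool.Agent.LibGal99.Dfs2

namespace Pool.Gal99

open Finset Filter Topology MeasureTheory Set


theorem D1_prime {z p : ℕ} (hp : p ∈ pr z) : p.Prime := (Finset.mem_filter.1 hp).2

theorem D1_pf (z : ℕ) : (Pz z).primeFactors = pr z :=
  Nat.primeFactors_prod fun _ hp => D1_prime hp

theorem D1_sqf (z : ℕ) : Squarefree (Pz z) := by
  unfold Pz
  refine Finset.squarefree_prod_of_pairwise_isCoprime ?_ fun p hp => (D1_prime hp).squarefree
  intro p hp q hq hpq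
  exact Nat.coprime_iff_isRelPrime.1 ((Nat.coprime_primes (D1_prime hp) (D1_prime hq)).2 hpq)

/-- A completely multiplicative function as an arithmetic function. -/
theorem D1_prod {R : Type*} [CommRing R] (z : ℕ) (f : ℕ → R) (h1 : f 1 = 1)
    (hm : ∀ m n : ℕ, f (m * n) = f m * f n) :
    ∏ p ∈ pr z, (1 - f p) =
      ∑ d ∈ (Pz z).divisors, (ArithmeticFunction.moebius d : R) * f d := by
  let F : ArithmeticFunction R := ⟨fun n => if n = 0 then 0 else f n, by simp⟩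
  have hF : ∀ n : ℕ, n ≠ 0 → F n = f n := fun n hn => by
    change (if n = 0 then 0 else f n) = f n
    rw [if_neg hn]
  have hmul : F.IsMultiplicative := by
    refine ArithmeticFunction.IsMultiplicative.iff_ne_zero.2 ⟨?_, ?_⟩
    · rw [hF 1 one_ne_zero, h1]
    · intro m n hm0 hn0 _
      rw [hF _ (Nat.mul_ne_zero hm0 hn0), hF _ hm0, hF _ hn0, hm]
  have h := ArithmeticFunction.IsMultiplicative.prodPrimeFactors_one_sub_of_squarefree F hmul
    (D1_sqf z)
  rw [D1_pf] at h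
  have e1 : ∏ p ∈ pr z, (1 - f p) = ∏ p ∈ pr z, (1 - F p) :=
    Finset.prod_congr rfl fun p hp => by rw [hF p (D1_prime hp).ne_zero]
  rw [e1, h]
  refine Finset.sum_congr rfl fun d hd => ?_
  rw [hF d (Nat.pos_of_mem_divisors hd).ne']

theorem D1_V (z : ℕ) :
    V z = ∑ d ∈ (Pz z).divisors, (ArithmeticFunction.moebius d : ℝ) * (1 / (d : ℝ)) := by
  refine D1_prod z (fun d => 1 / (d : ℝ)) (by simp) fun m n => ?_
  push_cast
  rw [one_div_mul_one_div]

theorem D1_R (z h : ℕ) : (R z 0 h : ℤ) =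
    ∑ d ∈ (Pz z).divisors, ArithmeticFunction.moebius d * ((h / d : ℕ) : ℤ) := by
  have hP : Pz z ≠ 0 := (D1_sqf z).ne_zero
  have h1 : (R z 0 h : ℤ) = ∑ n ∈ Finset.Ioc 0 h, ∑ d ∈ (n.gcd (Pz z)).divisors,
      ArithmeticFunction.moebius d := by
    unfold R
    rw [zero_add, Finset.card_filter, Nat.cast_sum]
    refine Finset.sum_congr rfl fun n _ => ?_
    have h2 := ArithmeticFunction.coe_mul_zeta_apply (f := ArithmeticFunction.moebius)
      (x := n.gcd (Pz z))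
    rw [ArithmeticFunction.moebius_mul_coe_zeta] at h2
    rw [← h2, ArithmeticFunction.one_apply]
    simp [Nat.Coprime]
  rw [h1]
  have h3 : ∀ n ∈ Finset.Ioc 0 h, ∑ d ∈ (n.gcd (Pz z)).divisors, ArithmeticFunction.moebius d =
      ∑ d ∈ (Pz z).divisors, if d ∣ n then ArithmeticFunction.moebius d else 0 := by
    intro n hn
    rw [← Finset.sum_filter]
    refine Finset.sum_congr ?_ fun _ _ => rfl
    ext d
    simp only [Nat.mem_divisors, Finset.mem_filter]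
    constructor
    · rintro ⟨h4, -⟩
      exact ⟨⟨h4.trans (Nat.gcd_dvd_right _ _), hP⟩, h4.trans (Nat.gcd_dvd_left _ _)⟩
    · rintro ⟨⟨h4, -⟩, h5⟩
      exact ⟨Nat.dvd_gcd h5 h4, Nat.gcd_ne_zero_right hP⟩
  rw [Finset.sum_congr rfl h3, Finset.sum_comm]
  refine Finset.sum_congr rfl fun d _ => ?_
  rw [← Nat.Ioc_filter_dvd_card_eq_div, Finset.card_filter, Nat.cast_sum, Finset.mul_sum]
  refine Finset.sum_congr rfl fun n _ => ?_
  by_cases hd : d ∣ n
  · simp [hd]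
  · simp [hd]

/-- D1 -/
theorem EE_eq (z : ℕ) (y : ℝ) (hy : 0 ≤ y) :
    EE z y = -∑ d ∈ (Pz z).divisors, (ArithmeticFunction.moebius d : ℝ) * Int.fract (y / d) := by
  unfold EE
  have h1 : (R z 0 ⌊y⌋₊ : ℝ) = ∑ d ∈ (Pz z).divisors,
      (ArithmeticFunction.moebius d : ℝ) * ((⌊y⌋₊ / d : ℕ) : ℝ) := by
    have := D1_R z ⌊y⌋₊
    have h2 := congrArg (fun x : ℤ => (x : ℝ)) this
    simp only [Int.cast_sum, Int.cast_mul, Int.cast_natCast] at h2
    exact h2
  rw [h1, D1_V, Finset.mul_sum, ← Finset.sum_sub_distrib, ← Finset.sum_neg_distrib]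
  refine Finset.sum_congr rfl fun d hd => ?_
  have h3 : (⌊y⌋₊ / d : ℕ) = ⌊y / d⌋₊ := (Nat.floor_div_natCast y d).symm
  have h4 : ((⌊y / d⌋₊ : ℕ) : ℝ) = ((⌊y / d⌋ : ℤ) : ℝ) := by
    rw [← natCast_floor_eq_intCast_floor (by positivity)]
  rw [h3, h4, Int.fract]
  ring

theorem GG_eq (z : ℕ) (s : ℂ) :
    GG z s = ∑ d ∈ (Pz z).divisors, (ArithmeticFunction.moebius d : ℂ) * (d : ℂ) ^ (-s) := by
  refine D1_prod z (fun d => (d : ℂ) ^ (-s)) (by simp) fun m n => ?_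
  rw [Nat.cast_mul, Complex.natCast_mul_natCast_cpow]

theorem GG_real (z : ℕ) (σ : ℝ) (hσ : 0 ≤ σ) : ‖GG z (σ : ℂ)‖ ≤ 1 := by
  unfold GG
  rw [norm_prod]
  refine Finset.prod_le_one (fun _ _ => norm_nonneg _) fun p hp => ?_
  have hp1 : (1 : ℝ) ≤ p := by exact_mod_cast (D1_prime hp).one_lt.le
  have h1 : (p : ℂ) ^ (-(σ : ℂ)) = (((p : ℝ) ^ (-σ) : ℝ) : ℂ) := by
    rw [Complex.ofReal_cpow (by positivity)]
    push_cast
    rfl
  have h2 : (0 : ℝ) ≤ (p : ℝ) ^ (-σ) := by positivity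
  have h3 : (p : ℝ) ^ (-σ) ≤ 1 := Real.rpow_le_one_of_one_le_of_nonpos hp1 (by linarith)
  rw [h1, ← Complex.ofReal_one, ← Complex.ofReal_sub, Complex.norm_real, Real.norm_eq_abs,
    abs_of_nonneg (by linarith)]
  linarith

theorem measurable_EE (z : ℕ) : Measurable (EE z) := by
  unfold EE
  have h1 : Measurable fun y : ℝ => (R z 0 ⌊y⌋₊ : ℝ) :=
    (measurable_from_top (f := fun n : ℕ => (R z 0 n : ℝ))).comp Nat.measurable_floor
  exact h1.sub (measurable_id.mul_const _)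

end Pool.Gal99
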