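import Pool.Agent.LibGal99.Dfs2

namespace Pool.Gal99

open Finset Filter Topology MeasureTheory Set

theorem D3_int_low (s : ℂ) (h1 : s.re < 1) :
    ∫ t in Ioc (0 : ℝ) 1, ((t : ℂ) ^ (-s - 1) • ((Int.fract t : ℝ) : ℂ)) = 1 / (1 - s) := by
  have e1 : ∫ t in Ioc (0 : ℝ) 1, ((t : ℂ) ^ (-s - 1) • ((Int.fract t : ℝ) : ℂ)) =
      ∫ t in Ioc (0 : ℝ) 1, (t : ℂ) ^ (-s) := by
    rw [integral_Ioc_eq_integral_Ioo, integral_Ioc_eq_integral_Ioo]
    refine setIntegral_congr_fun measurableSet_Ioo fun t ht => ?_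
    have h2 : Int.fract t = t := Int.fract_eq_self.2 ⟨ht.1.le, ht.2⟩
    have h3 : (t : ℂ) ≠ 0 := by exact_mod_cast ht.1.ne'
    change (t : ℂ) ^ (-s - 1) * ((Int.fract t : ℝ) : ℂ) = (t : ℂ) ^ (-s)
    rw [h2, Complex.cpow_sub _ _ h3, Complex.cpow_one, div_mul_cancel₀ _ h3]
  rw [e1, ← intervalIntegral.integral_of_le zero_le_one, integral_cpow]
  · have h4 : (-s + 1) ≠ 0 := by
      intro h
      have := congrArg Complex.re h
      simp at this
      linarith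
    simp only [Complex.ofReal_one, Complex.one_cpow, Complex.ofReal_zero,
      Complex.zero_cpow h4, sub_zero]
    rw [neg_add_eq_sub]
  · left
    simp
    exact h1

theorem D3_ptwise (s : ℂ) (t : ℝ) (ht : 0 < t) :
    ‖((t : ℂ) ^ (-s - 1) • ((Int.fract t : ℝ) : ℂ))‖ ≤ t ^ (-s.re - 1) := by
  rw [norm_smul, Complex.norm_cpow_eq_rpow_re_of_pos ht, Complex.norm_real, Real.norm_eq_abs,
    abs_of_nonneg (Int.fract_nonneg t)]
  have h1 := (Int.fract_lt_one t).le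
  have h2 : (-s - 1).re = -s.re - 1 := by simp
  rw [h2]
  have h3 : 0 ≤ t ^ (-s.re - 1) := Real.rpow_nonneg ht.le _
  nlinarith [Int.fract_nonneg t]

theorem D3_meas (s : ℂ) :
    Measurable (fun t : ℝ => ((t : ℂ) ^ (-s - 1) • ((Int.fract t : ℝ) : ℂ))) := by
  have h1 : Measurable (fun t : ℝ => (t : ℂ) ^ (-s - 1)) := by
    fun_prop
  exact h1.smul (Complex.measurable_ofReal.comp measurable_fract)

theorem D3_high (s : ℂ) (h0 : 0 < s.re) :
    IntegrableOn (fun t : ℝ => ((t : ℂ) ^ (-s - 1) • ((Int.fract t : ℝ) : ℂ))) (Ioi 1) ∧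
    ‖∫ t in Ioi (1 : ℝ), ((t : ℂ) ^ (-s - 1) • ((Int.fract t : ℝ) : ℂ))‖ ≤ 1 / s.re := by
  have hg : IntegrableOn (fun t : ℝ => t ^ (-s.re - 1)) (Ioi 1) :=
    integrableOn_Ioi_rpow_of_lt (by linarith) one_pos
  have hb : ∀ᵐ t : ℝ ∂(volume.restrict (Ioi (1 : ℝ))),
      ‖((t : ℂ) ^ (-s - 1) • ((Int.fract t : ℝ) : ℂ))‖ ≤ t ^ (-s.re - 1) := by
    refine (ae_restrict_iff' measurableSet_Ioi).2 (Filter.Eventually.of_forall fun t ht => ?_)
    exact D3_ptwise s t (lt_trans one_pos ht)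
  refine ⟨Integrable.mono' hg (D3_meas s).aestronglyMeasurable hb, ?_⟩
  refine (norm_integral_le_of_norm_le hg hb).trans ?_
  rw [integral_Ioi_rpow_of_lt (by linarith) one_pos, Real.one_rpow]
  apply le_of_eq
  rw [show -s.re - 1 + 1 = -s.re by ring, neg_div_neg_eq]

theorem D3_low (s : ℂ) (h1 : s.re < 1) :
    IntegrableOn (fun t : ℝ => ((t : ℂ) ^ (-s - 1) • ((Int.fract t : ℝ) : ℂ))) (Ioc 0 1) := by
  have hg : IntegrableOn (fun t : ℝ => t ^ (-s.re)) (Ioc 0 1) := by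
    rw [← intervalIntegrable_iff_integrableOn_Ioc_of_le zero_le_one]
    exact intervalIntegral.intervalIntegrable_rpow' (by linarith)
  have hg' : IntegrableOn (fun t : ℝ => t ^ (-s.re)) (Ioo 0 1) := hg.mono_set Ioo_subset_Ioc_self
  refine (integrableOn_Ioc_iff_integrableOn_Ioo (by simp)).2 ?_
  refine Integrable.mono' hg' (D3_meas s).aestronglyMeasurable ?_
  refine (ae_restrict_iff' measurableSet_Ioo).2 (Filter.Eventually.of_forall fun t ht => ?_)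
  have h2 : Int.fract t = t := Int.fract_eq_self.2 ⟨ht.1.le, ht.2⟩
  rw [norm_smul, Complex.norm_cpow_eq_rpow_re_of_pos ht.1, Complex.norm_real, Real.norm_eq_abs,
    abs_of_nonneg (Int.fract_nonneg t), h2]
  have h3 : (-s - 1).re = -s.re - 1 := by simp
  rw [h3, Real.rpow_sub_one ht.1.ne', div_mul_cancel₀ _ ht.1.ne']

theorem D3_near (s : ℂ) (h0 : 0 < s.re) (h1 : s.re < 1) : ‖zs s - 1 / (1 - s)‖ ≤ 1 / s.re := by
  have e : zs s = 1 / (1 - s) +
      ∫ t in Ioi (1 : ℝ), ((t : ℂ) ^ (-s - 1) • ((Int.fract t : ℝ) : ℂ)) := by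
    unfold zs mellin
    rw [← Ioc_union_Ioi_eq_Ioi (zero_le_one' ℝ), setIntegral_union (Ioc_disjoint_Ioi le_rfl)
      measurableSet_Ioi (D3_low s h1) (D3_high s h0).1, D3_int_low s h1]
  rw [e, add_sub_cancel_left]
  exact (D3_high s h0).2

/-- D3 -/
theorem zs_lower (s : ℂ) (h0 : 0 < s.re) (h1 : s.re < 1) : 1 / ‖1 - s‖ - 1 / s.re ≤ ‖zs s‖ := by
  have h2 := D3_near s h0 h1
  have h3 : ‖1 / (1 - s)‖ ≤ ‖zs s‖ + ‖zs s - 1 / (1 - s)‖ := by
    have := norm_sub_le (zs s) (zs s - 1 / (1 - s))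
    rwa [sub_sub_cancel] at this
  rw [norm_div, norm_one] at h3
  linarith

theorem zs_upper (s : ℂ) (h0 : 0 < s.re) (h1 : s.re < 1) :
    ‖zs s‖ ≤ 1 / (1 - s.re) + 1 / s.re := by
  have h2 := D3_near s h0 h1
  have h3 : ‖zs s‖ ≤ ‖1 / (1 - s)‖ + ‖zs s - 1 / (1 - s)‖ := by
    have := norm_add_le (1 / (1 - s)) (zs s - 1 / (1 - s))
    rwa [add_sub_cancel] at this
  rw [norm_div, norm_one] at h3
  have h4 : 1 - s.re ≤ ‖1 - s‖ := by
    have := Complex.re_le_norm (1 - s)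
    simpa using this
  have h5 : 1 / ‖1 - s‖ ≤ 1 / (1 - s.re) := one_div_le_one_div_of_le (by linarith) h4
  linarith

end Pool.Gal99
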