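import Pool.Agent.LibGal99.Dfs2
import Pool.Agent.LibGal99.B2
import Pool.Agent.LibPNT.PNT

namespace Pool.Gal99

open Finset Filter Topology MeasureTheory Set


namespace D4

theorem norm_one_sub_lower (w : ℂ) (hw : ‖w‖ ≤ 3 / 4) :
    Real.exp (-w.re - 2 * ‖w‖ ^ 2) ≤ ‖1 - w‖ := by
  have h1 := Complex.norm_log_one_add_sub_self_le (z := -w) (by rw [norm_neg]; linarith)
  rw [norm_neg] at h1
  have hne : (1 + -w) ≠ 0 := by
    intro h
    have h2 : w = 1 := by linear_combination -h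
    rw [h2] at hw
    norm_num at hw
  have h2 : ‖1 - w‖ = Real.exp ((Complex.log (1 + -w)).re) := by
    rw [Complex.log_re, Real.exp_log (norm_pos_iff.2 hne), sub_eq_add_neg]
  rw [h2]
  apply Real.exp_le_exp.2
  have h3 : |(Complex.log (1 + -w) - -w).re| ≤ ‖w‖ ^ 2 * (1 - ‖w‖)⁻¹ / 2 :=
    (Complex.abs_re_le_norm _).trans h1
  have h4 : (Complex.log (1 + -w) - -w).re = (Complex.log (1 + -w)).re + w.re := by
    simp
  rw [h4] at h3
  have h5 := (abs_le.1 h3).1
  have h6 : (1 - ‖w‖)⁻¹ ≤ 4 := by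
    rw [inv_le_comm₀ (by linarith) (by norm_num)]
    linarith
  have h7 : ‖w‖ ^ 2 * (1 - ‖w‖)⁻¹ / 2 ≤ 2 * ‖w‖ ^ 2 := by
    have := mul_le_mul_of_nonneg_left h6 (sq_nonneg ‖w‖)
    linarith
  linarith

theorem norm_pow (p : ℕ) (hp : 0 < p) (β τ : ℝ) :
    ‖(p : ℂ) ^ (-(((1 - β : ℝ) : ℂ) + (τ : ℝ) * Complex.I))‖ = (p : ℝ) ^ (β - 1) := by
  have h := Complex.norm_natCast_cpow_of_pos hp (-(((1 - β : ℝ) : ℂ) + (τ : ℝ) * Complex.I))
  rw [h]
  congr 1
  simp

theorem re_pow (p : ℕ) (hp : 0 < p) (β τ : ℝ) :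
    ((p : ℂ) ^ (-(((1 - β : ℝ) : ℂ) + (τ : ℝ) * Complex.I))).re
      = (p : ℝ) ^ (β - 1) * Real.cos (τ * Real.log p) := by
  have hp' : (p : ℂ) ≠ 0 := by exact_mod_cast hp.ne'
  have hp'' : (0 : ℝ) < p := by exact_mod_cast hp
  rw [Complex.cpow_def_of_ne_zero hp', ← Complex.natCast_log, Complex.exp_re,
    Real.rpow_def_of_pos hp'']
  have e1 : (-(((1 - β : ℝ) : ℂ) + (τ : ℝ) * Complex.I)).re = β - 1 := by simp
  have e2 : (-(((1 - β : ℝ) : ℂ) + (τ : ℝ) * Complex.I)).im = -τ := by simp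
  have h1 : ((Real.log p : ℂ) * -(((1 - β : ℝ) : ℂ) + (τ : ℝ) * Complex.I)).re
      = Real.log p * (β - 1) := by
    rw [Complex.re_ofReal_mul, e1]
  have h2 : ((Real.log p : ℂ) * -(((1 - β : ℝ) : ℂ) + (τ : ℝ) * Complex.I)).im
      = -(τ * Real.log p) := by
    rw [Complex.im_ofReal_mul, e2]
    ring
  rw [h1, h2, Real.cos_neg]

theorem pow_le (p : ℕ) (hp : 2 ≤ p) (β : ℝ) (hβ : β ≤ 1 / 4) : (p : ℝ) ^ (β - 1) ≤ 3 / 4 := by
  have hp2 : (2 : ℝ) ≤ p := by exact_mod_cast hp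
  calc (p : ℝ) ^ (β - 1) ≤ (p : ℝ) ^ (-(3 / 4 : ℝ)) :=
        Real.rpow_le_rpow_of_exponent_le (by linarith) (by linarith)
    _ ≤ (2 : ℝ) ^ (-(3 / 4 : ℝ)) :=
        Real.rpow_le_rpow_of_nonpos (by norm_num) hp2 (by norm_num)
    _ ≤ 3 / 4 := by
        have h1 : ((2 : ℝ) ^ (-(3 / 4 : ℝ))) ^ 4 = 1 / 8 := by
          rw [← Real.rpow_natCast, ← Real.rpow_mul (by norm_num)]
          norm_num
        have h2 : (0 : ℝ) ≤ (2 : ℝ) ^ (-(3 / 4 : ℝ)) := by positivity
        by_contra h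
        push Not at h
        have h3 : (3 / 4 : ℝ) ^ 4 ≤ ((2 : ℝ) ^ (-(3 / 4 : ℝ))) ^ 4 :=
          pow_le_pow_left₀ (by norm_num) h.le 4
        rw [h1] at h3
        norm_num at h3

theorem mem_pr {z p : ℕ} (h : p ∈ pr z) : p.Prime ∧ p ≤ z := by
  unfold pr at h
  rw [Finset.mem_filter, Finset.mem_range] at h
  exact ⟨h.2, by omega⟩

/-- the sum of the squares -/
theorem sum_sq (z : ℕ) (β : ℝ) (hβ : β ≤ 1 / 4) :
    ∑ p ∈ pr z, ((p : ℝ) ^ (β - 1)) ^ 2 ≤ ∑' n : ℕ, (n : ℝ) ^ (-(3 / 2 : ℝ)) := by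
  have hs : Summable (fun n : ℕ => (n : ℝ) ^ (-(3 / 2 : ℝ))) :=
    Real.summable_nat_rpow.2 (by norm_num)
  refine le_trans (Finset.sum_le_sum fun p hp => ?_)
    (hs.sum_le_tsum (pr z) fun n _ => by positivity)
  have hp1 := (mem_pr hp).1
  have hp2 : (2 : ℝ) ≤ p := by exact_mod_cast hp1.two_le
  rw [← Real.rpow_natCast, ← Real.rpow_mul (by positivity)]
  refine Real.rpow_le_rpow_of_exponent_le (by linarith) ?_
  push_cast
  linarith

/-- the product in terms of a sum -/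
theorem GG_ge (z : ℕ) (β τ : ℝ) (hβ : β ≤ 1 / 4) :
    Real.exp (∑ p ∈ pr z, -((p : ℝ) ^ (β - 1) * Real.cos (τ * Real.log p))
      - 2 * ∑' n : ℕ, (n : ℝ) ^ (-(3 / 2 : ℝ)))
      ≤ ‖GG z ((1 - β : ℝ) + (τ : ℝ) * Complex.I)‖ := by
  have h1 : Real.exp (∑ p ∈ pr z, (-((p : ℝ) ^ (β - 1) * Real.cos (τ * Real.log p))
      - 2 * ((p : ℝ) ^ (β - 1)) ^ 2)) ≤ ‖GG z ((1 - β : ℝ) + (τ : ℝ) * Complex.I)‖ := by
    unfold GG
    rw [norm_prod, Real.exp_sum]
    refine Finset.prod_le_prod (fun p _ => (Real.exp_pos _).le) fun p hp => ?_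
    have hp1 := (mem_pr hp).1
    have h2 := norm_one_sub_lower ((p : ℂ) ^ (-(((1 - β : ℝ) : ℂ) + (τ : ℝ) * Complex.I)))
      (by rw [norm_pow p hp1.pos]; exact pow_le p hp1.two_le β hβ)
    rw [norm_pow p hp1.pos, re_pow p hp1.pos] at h2
    exact h2
  refine le_trans (Real.exp_le_exp.2 ?_) h1
  rw [Finset.sum_sub_distrib, ← Finset.mul_sum]
  have := sum_sq z β hβ
  linarith

/-- Abel summation -/
theorem abel (a : ℝ) (z : ℕ) (β : ℝ) (ha : 1 ≤ a) (haz : a ≤ z) :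
    ∑ p ∈ (pr z).filter (fun p : ℕ => a < p), (p : ℝ) ^ (β - 1) * Real.log p
      = (z : ℝ) ^ (β - 1) * Chebyshev.theta z - a ^ (β - 1) * Chebyshev.theta a
        - ∫ t in Set.Ioc a z, (β - 1) * t ^ (β - 2) * Chebyshev.theta t := by
  let c : ℕ → ℝ := fun n => if n.Prime then Real.log n else 0
  have hc : ∀ x : ℝ, ∑ k ∈ Finset.Icc 0 ⌊x⌋₊, c k = Chebyshev.theta x := by
    intro x
    rw [Chebyshev.theta_eq_sum_Icc, Finset.sum_filter]
  have hd : ∀ t ∈ Set.Icc a (z : ℝ), HasDerivAt (fun t : ℝ => t ^ (β - 1))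
      ((β - 1) * t ^ (β - 2)) t := by
    intro t ht
    have h0 : t ≠ 0 := by
      have := ht.1
      linarith
    have h := Real.hasDerivAt_rpow_const (x := t) (p := β - 1) (Or.inl h0)
    convert h using 2
    congr 1
    ring
  have hcont : ContinuousOn (fun t : ℝ => (β - 1) * t ^ (β - 2)) (Set.Icc a z) := by
    refine continuousOn_const.mul (ContinuousOn.rpow_const continuousOn_id fun t ht => Or.inl ?_)
    exact (lt_of_lt_of_le (by linarith : (0 : ℝ) < a) ht.1).ne'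
  have hderiv : Set.EqOn (deriv (fun t : ℝ => t ^ (β - 1))) (fun t => (β - 1) * t ^ (β - 2))
      (Set.Icc a z) := fun t ht => (hd t ht).deriv
  have h := sum_mul_eq_sub_sub_integral_mul c (f := fun t : ℝ => t ^ (β - 1)) (by linarith) haz
    (fun t ht => (hd t ht).differentiableAt)
    ((hcont.integrableOn_compact isCompact_Icc).congr_fun hderiv.symm measurableSet_Icc)
  rw [hc, hc, Nat.floor_natCast] at h
  simp only [hc] at h
  have h1 : ∑ k ∈ Finset.Ioc ⌊a⌋₊ z, (k : ℝ) ^ (β - 1) * c k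
      = ∑ p ∈ (pr z).filter (fun p : ℕ => a < p), (p : ℝ) ^ (β - 1) * Real.log p := by
    have h2 : (pr z).filter (fun p : ℕ => a < p)
        = (Finset.Ioc ⌊a⌋₊ z).filter Nat.Prime := by
      ext p
      unfold pr
      simp only [Finset.mem_filter, Finset.mem_range, Finset.mem_Ioc]
      rw [Nat.floor_lt (by linarith)]
      constructor
      · rintro ⟨⟨h1, h2⟩, h3⟩
        exact ⟨⟨h3, by omega⟩, h2⟩
      · rintro ⟨⟨h1, h2⟩, h3⟩
        exact ⟨⟨by omega, h3⟩, h1⟩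
    rw [h2, Finset.sum_filter]
    refine Finset.sum_congr rfl fun k _ => ?_
    change (k : ℝ) ^ (β - 1) * (if k.Prime then Real.log k else 0) = _
    split_ifs
    · rfl
    · rw [mul_zero]
  rw [← h1, h]
  congr 1
  refine setIntegral_congr_fun measurableSet_Ioc fun t ht => ?_
  have h3 := hderiv (Set.Ioc_subset_Icc_self ht)
  simp only at h3 ⊢
  rw [h3]

/-- the sum over the primes between `a` and `z`, with the prime number theorem -/
theorem pnt_sum (δ : ℝ) (hδ : 0 < δ) (hδ1 : δ ≤ 1) : ∃ t0 : ℝ, 1 ≤ t0 ∧ ∀ (a : ℝ) (z : ℕ) (β : ℝ),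
    t0 ≤ a → a ≤ z → 0 < β → β ≤ 1 →
    (1 - δ) * (((z : ℝ) ^ β - a ^ β) / β) - 2 * a ^ β
      ≤ ∑ p ∈ (pr z).filter (fun p : ℕ => a < p), (p : ℝ) ^ (β - 1) * Real.log p := by
  have h1 := Metric.tendsto_atTop.1 Pool.Agent.LibPNT.theta_tendsto δ hδ
  obtain ⟨t1, ht1⟩ := h1
  refine ⟨max t1 1, le_max_right _ _, ?_⟩
  intro a z β ha haz hβ hβ1
  have ha1 : 1 ≤ a := (le_max_right _ _).trans ha
  have hθ : ∀ t : ℝ, a ≤ t → (1 - δ) * t ≤ Chebyshev.theta t ∧ Chebyshev.theta t ≤ 2 * t := by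
    intro t ht
    have ht0 : 0 < t := by linarith
    have h2 := ht1 t ((le_max_left _ _).trans (ha.trans ht))
    rw [Real.dist_eq, abs_lt] at h2
    constructor
    · have h3 : 1 - δ < Chebyshev.theta t / t := by linarith [h2.1]
      rw [lt_div_iff₀ ht0] at h3
      exact h3.le
    · have h3 : Chebyshev.theta t / t < 2 := by linarith [h2.2]
      rw [div_lt_iff₀ ht0] at h3
      exact h3.le
  rw [abel a z β ha1 haz]
  have hz1 : (1 : ℝ) ≤ z := ha1.trans haz
  have hzz := (hθ z haz).1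
  have haa := (hθ a le_rfl).2
  -- the powers
  have hpz : (z : ℝ) ^ (β - 1) * z = (z : ℝ) ^ β := by
    rw [← Real.rpow_add_one (by linarith), sub_add_cancel]
  have hpa : a ^ (β - 1) * a = a ^ β := by
    rw [← Real.rpow_add_one (by linarith), sub_add_cancel]
  have e1 : (1 - δ) * (z : ℝ) ^ β ≤ (z : ℝ) ^ (β - 1) * Chebyshev.theta z := by
    calc (1 - δ) * (z : ℝ) ^ β = (z : ℝ) ^ (β - 1) * ((1 - δ) * z) := by rw [← hpz]; ring
      _ ≤ _ := mul_le_mul_of_nonneg_left hzz (by positivity)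
  have e2 : a ^ (β - 1) * Chebyshev.theta a ≤ 2 * a ^ β := by
    calc a ^ (β - 1) * Chebyshev.theta a ≤ a ^ (β - 1) * (2 * a) :=
          mul_le_mul_of_nonneg_left haa (by positivity)
      _ = 2 * a ^ β := by rw [← hpa]; ring
  -- the integral
  have e3 : ∫ t in Set.Ioc a z, (β - 1) * t ^ (β - 2) * Chebyshev.theta t
      ≤ ∫ t in Set.Ioc a z, (β - 1) * (1 - δ) * t ^ (β - 1) := by
    refine setIntegral_mono_on ?_ ?_ measurableSet_Ioc fun t ht => ?_
    · -- integrability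
      have h4 : IntegrableOn (fun t : ℝ => (β - 1) * t ^ (β - 2)
          * ∑ k ∈ Finset.Icc 0 ⌊t⌋₊, (fun n : ℕ => if n.Prime then Real.log n else 0) k)
          (Set.Icc a z) := by
        refine integrableOn_mul_sum_Icc _ (by linarith) ?_
        refine ContinuousOn.integrableOn_compact isCompact_Icc ?_
        refine continuousOn_const.mul (ContinuousOn.rpow_const continuousOn_id
          fun t ht => Or.inl ?_)
        exact (lt_of_lt_of_le (by linarith : (0 : ℝ) < a) ht.1).ne'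
      refine (h4.mono_set Set.Ioc_subset_Icc_self).congr_fun (fun t _ => ?_) measurableSet_Ioc
      simp only
      rw [Chebyshev.theta_eq_sum_Icc, Finset.sum_filter]
    · refine (ContinuousOn.integrableOn_compact isCompact_Icc ?_).mono_set
        Set.Ioc_subset_Icc_self
      refine continuousOn_const.mul (ContinuousOn.rpow_const continuousOn_id
          fun t ht => Or.inl ?_)
      exact (lt_of_lt_of_le (by linarith : (0 : ℝ) < a) ht.1).ne'
    · have ht0 : 0 < t := by linarith [ht.1]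
      have h5 := (hθ t ht.1.le).1
      have h6 : t ^ (β - 2) * ((1 - δ) * t) ≤ t ^ (β - 2) * Chebyshev.theta t :=
        mul_le_mul_of_nonneg_left h5 (by positivity)
      have h7 : t ^ (β - 2) * t = t ^ (β - 1) := by
        rw [← Real.rpow_add_one ht0.ne']
        congr 1
        ring
      have h8 : (1 - δ) * t ^ (β - 1) ≤ t ^ (β - 2) * Chebyshev.theta t := by
        rw [← h7]
        linarith
      nlinarith [h8]
  have e4 : ∫ t in Set.Ioc a z, (β - 1) * (1 - δ) * t ^ (β - 1)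
      = (β - 1) * (1 - δ) * (((z : ℝ) ^ β - a ^ β) / β) := by
    rw [MeasureTheory.integral_const_mul, ← intervalIntegral.integral_of_le haz,
      integral_rpow (Or.inl (by linarith)), sub_add_cancel]
  rw [e4] at e3
  have e5 : (1 - δ) * (z : ℝ) ^ β - (β - 1) * (1 - δ) * (((z : ℝ) ^ β - a ^ β) / β)
      = (1 - δ) * (((z : ℝ) ^ β - a ^ β) / β) + (1 - δ) * a ^ β := by
    field_simp
    ring
  have e6 : 0 ≤ (1 - δ) * a ^ β := mul_nonneg (by linarith) (by positivity)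
  linarith

theorem pow_absorb (δ κ v : ℝ) (hδ : 0 < δ) (hκ0 : 0 < κ) (hκ : κ < 1) (hv : 1 ≤ v) :
    2 * v ^ κ ≤ δ / 2 * v + 2 * (4 / δ) ^ (1 / (1 - κ)) := by
  set V0 : ℝ := (4 / δ) ^ (1 / (1 - κ)) with hV0
  have hV : 0 < V0 := by positivity
  have h1 : 0 < 1 - κ := by linarith
  by_cases h : v ≤ V0
  · have h2 : v ^ κ ≤ v ^ (1 : ℝ) := Real.rpow_le_rpow_of_exponent_le hv hκ.le
    rw [Real.rpow_one] at h2
    have h3 : 0 ≤ δ / 2 * v := by positivity
    linarith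
  · push Not at h
    have h2 : 4 / δ ≤ v ^ (1 - κ) := by
      calc 4 / δ = V0 ^ (1 - κ) := by
            rw [hV0, ← Real.rpow_mul (by positivity), one_div_mul_cancel h1.ne', Real.rpow_one]
        _ ≤ v ^ (1 - κ) := Real.rpow_le_rpow hV.le h.le h1.le
    have h3 : v ^ κ * v ^ (1 - κ) = v := by
      rw [← Real.rpow_add (by linarith)]
      rw [show κ + (1 - κ) = 1 by ring, Real.rpow_one]
    have h4 : v ^ κ * (4 / δ) ≤ v := by
      calc v ^ κ * (4 / δ) ≤ v ^ κ * v ^ (1 - κ) := mul_le_mul_of_nonneg_left h2 (by positivity)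
        _ = v := h3
    have h5 : v ^ κ * 4 ≤ δ * v := by
      have h6 := mul_le_mul_of_nonneg_left h4 hδ.le
      have h7 : δ * (v ^ κ * (4 / δ)) = v ^ κ * 4 := by
        field_simp
      rw [h7] at h6
      exact h6
    linarith

/-- the terms -/
theorem term_ge (z p : ℕ) (β κ : ℝ) (hz : 3 ≤ z) (hp : p ∈ pr z) (hβ : 0 < β) (hκ : 1 / 2 ≤ κ)
    (hκ1 : κ ≤ 1) :
    -(Real.sqrt ((z : ℝ) ^ β) * (1 / (p : ℝ))) +
      (if (z : ℝ) ^ κ < p then -Real.cos (Real.pi * κ) * (p : ℝ) ^ (β - 1) else 0)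
      ≤ -((p : ℝ) ^ (β - 1) * Real.cos (Real.pi / Real.log z * Real.log p)) := by
  obtain ⟨hp1, hpz⟩ := mem_pr hp
  have hp0 : (0 : ℝ) < p := by exact_mod_cast hp1.pos
  have hp2 : (2 : ℝ) ≤ p := by exact_mod_cast hp1.two_le
  have hz0 : (0 : ℝ) < z := by exact_mod_cast (by omega : 0 < z)
  have hz3 : (3 : ℝ) ≤ z := by exact_mod_cast hz
  have hpz' : (p : ℝ) ≤ z := by exact_mod_cast hpz
  have hlz : 0 < Real.log z := Real.log_pos (by linarith)
  have hlp : 0 < Real.log p := Real.log_pos (by linarith)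
  have hlpz : Real.log p ≤ Real.log z := Real.log_le_log hp0 hpz'
  set u := Real.log p / Real.log z with hu
  have hu1 : u ≤ 1 := (div_le_one hlz).2 hlpz
  have hu0 : 0 < u := div_pos hlp hlz
  have harg : Real.pi / Real.log z * Real.log p = Real.pi * u := by rw [hu]; ring
  rw [harg]
  have hsq : 0 ≤ Real.sqrt ((z : ℝ) ^ β) * (1 / (p : ℝ)) := by positivity
  have hpp : 0 ≤ (p : ℝ) ^ (β - 1) := by positivity
  have hpi := Real.pi_pos
  by_cases h : (z : ℝ) ^ κ < p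
  · rw [if_pos h]
    have h1 : κ ≤ u := by
      rw [hu, le_div_iff₀ hlz]
      have h2 := Real.log_le_log (by positivity) h.le
      rwa [Real.log_rpow hz0] at h2
    have h2 : Real.cos (Real.pi * u) ≤ Real.cos (Real.pi * κ) := by
      apply Real.cos_le_cos_of_nonneg_of_le_pi
      · positivity
      · nlinarith
      · exact mul_le_mul_of_nonneg_left h1 hpi.le
    have h3 := mul_le_mul_of_nonneg_left h2 hpp
    linarith
  · rw [if_neg h, add_zero]
    by_cases h1 : 1 / 2 ≤ u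
    · have h2 : Real.cos (Real.pi * u) ≤ 0 := by
        apply Real.cos_nonpos_of_pi_div_two_le_of_le
        · nlinarith
        · nlinarith
      have h3 := mul_nonneg hpp (neg_nonneg.2 h2)
      linarith
    · push Not at h1
      have h2 : (p : ℝ) ^ (β - 1) * p = (p : ℝ) ^ β := by
        rw [← Real.rpow_add_one hp0.ne', sub_add_cancel]
      have h3 : (p : ℝ) ^ β ≤ Real.sqrt ((z : ℝ) ^ β) := by
        rw [Real.sqrt_eq_rpow, ← Real.rpow_mul hz0.le, Real.rpow_def_of_pos hp0,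
          Real.rpow_def_of_pos hz0]
        apply Real.exp_le_exp.2
        rw [hu, div_lt_iff₀ hlz] at h1
        nlinarith
      have h4 : (p : ℝ) ^ (β - 1) ≤ Real.sqrt ((z : ℝ) ^ β) * (1 / (p : ℝ)) := by
        rw [mul_one_div, le_div_iff₀ hp0, h2]
        exact h3
      have h5 : (p : ℝ) ^ (β - 1) * Real.cos (Real.pi * u) ≤ (p : ℝ) ^ (β - 1) * 1 :=
        mul_le_mul_of_nonneg_left (Real.cos_le_one _) hpp
      linarith

end D4

open D4 in
/-- D4: on the line `Re s = 1 - β`, at height `π / log z`, the factors of the primes near `z`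
are all in phase (prime number theorem) -/
theorem GG_lower (δ : ℝ) (hδ : 0 < δ) : ∃ C : ℝ, 0 < C ∧ ∀ z : ℕ, 3 ≤ z → ∀ β : ℝ, 0 < β →
    β ≤ 1 / 4 → Real.exp 1 ≤ (z : ℝ) ^ β →
    Real.exp ((1 - δ) * ((z : ℝ) ^ β / Real.log ((z : ℝ) ^ β)) -
      C * (1 + Real.sqrt ((z : ℝ) ^ β) * (1 + Real.log (Real.log z + 1)))) ≤
      ‖GG z ((1 - β : ℝ) + (Real.pi / Real.log z : ℝ) * Complex.I)‖ := by
  obtain ⟨δ', hδ'0, hδ'1, hδ'⟩ : ∃ δ' : ℝ, 0 < δ' ∧ δ' ≤ 1 / 2 ∧ δ' ≤ δ :=
    ⟨min δ (1 / 2), lt_min hδ (by norm_num), min_le_right _ _, min_le_left _ _⟩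
  set κ : ℝ := 1 - δ' / 8 with hκ
  have hκ0 : 1 / 2 ≤ κ := by rw [hκ]; linarith
  have hκ1 : κ < 1 := by rw [hκ]; linarith
  set c : ℝ := -Real.cos (Real.pi * κ) with hc
  have hc1 : c ≤ 1 := by
    have := Real.neg_one_le_cos (Real.pi * κ)
    rw [hc]
    linarith
  have hc0 : 1 - δ' / 4 ≤ c := by
    have h1 : c = Real.cos (Real.pi * (δ' / 8)) := by
      rw [hc, hκ, ← Real.cos_pi_sub]
      congr 1
      ring
    rw [h1]
    have h2 := Real.one_sub_sq_div_two_le_cos (x := Real.pi * (δ' / 8))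
    have h3 : (Real.pi * (δ' / 8)) ^ 2 ≤ 1 / 2 * δ' := by
      have h4 : Real.pi ≤ 3.15 := Real.pi_lt_d2.le
      have h5 : 0 < Real.pi := Real.pi_pos
      have h6 : Real.pi ^ 2 ≤ 3.15 ^ 2 := pow_le_pow_left₀ h5.le h4 2
      have h7 : (Real.pi * (δ' / 8)) ^ 2 = Real.pi ^ 2 * (δ' ^ 2 / 64) := by ring
      rw [h7]
      have h8 : δ' ^ 2 ≤ δ' * (1 / 2) := by nlinarith
      have h9 : Real.pi ^ 2 * (δ' ^ 2 / 64) ≤ 3.15 ^ 2 * (δ' ^ 2 / 64) :=
        mul_le_mul_of_nonneg_right h6 (by positivity)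
      nlinarith
    linarith
  obtain ⟨t0, ht0, hpnt⟩ := pnt_sum (δ' / 4) (by linarith) (by linarith)
  obtain ⟨C0, hC0, hM⟩ := sum_inv_le
  set C1 : ℝ := 2 * ∑' n : ℕ, (n : ℝ) ^ (-(3 / 2 : ℝ)) with hC1
  have hC1' : 0 ≤ C1 := by
    have : 0 ≤ ∑' n : ℕ, (n : ℝ) ^ (-(3 / 2 : ℝ)) := tsum_nonneg fun n => by positivity
    rw [hC1]
    linarith
  set V0 : ℝ := (4 / δ') ^ (1 / (1 - κ)) with hV0
  have hV0' : 0 < V0 := by positivity
  refine ⟨C0 + C1 + 2 * t0 ^ 2 + 2 * V0 + 2, by positivity, ?_⟩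
  intro z hz β hβ hβ4 hv
  have hz3 : (3 : ℝ) ≤ z := by exact_mod_cast hz
  have hz0 : (0 : ℝ) < z := by linarith
  have hlz : 0 < Real.log z := Real.log_pos (by linarith)
  set v : ℝ := (z : ℝ) ^ β with hvdef
  have hv1 : 1 ≤ v := le_trans (by
    have := Real.add_one_le_exp (1 : ℝ)
    linarith) hv
  have hv0 : 0 < v := by linarith
  have hlv : 1 ≤ Real.log v := by
    rw [← Real.log_exp 1]
    exact Real.log_le_log (Real.exp_pos 1) hv
  have hlv' : Real.log v = β * Real.log z := by rw [hvdef, Real.log_rpow hz0]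
  have hll : 0 ≤ Real.log (Real.log z + 1) := Real.log_nonneg (by linarith)
  have hX : 0 ≤ Real.sqrt v * (1 + Real.log (Real.log z + 1)) := by positivity
  have hvlv : 0 ≤ v / Real.log v := by positivity
  refine le_trans (Real.exp_le_exp.2 ?_) (GG_ge z β (Real.pi / Real.log z) hβ4)
  rw [← hC1]
  set S : ℝ := ∑ p ∈ pr z, -((p : ℝ) ^ (β - 1) * Real.cos (Real.pi / Real.log z * Real.log p))
    with hS
  set X : ℝ := Real.sqrt v * (1 + Real.log (Real.log z + 1)) with hXdef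
  by_cases hcase : (z : ℝ) ^ κ < t0
  · -- small z
    have h1 : (z : ℝ) ≤ t0 ^ 2 := by
      have h2 : (z : ℝ) ^ (1 / 2 : ℝ) ≤ t0 :=
        (Real.rpow_le_rpow_of_exponent_le (by linarith) hκ0).trans hcase.le
      have h3 := pow_le_pow_left₀ (by positivity) h2 2
      rw [← Real.rpow_natCast, ← Real.rpow_mul hz0.le] at h3
      norm_num at h3
      exact h3
    have h2 : -((z : ℝ) + 1) ≤ S := by
      have h3 : ∑ p ∈ pr z, (-1 : ℝ) ≤ S := by
        refine Finset.sum_le_sum fun p hp => ?_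
        have hp1 := (mem_pr hp).1
        have h4 := pow_le p hp1.two_le β hβ4
        have h5 : (0 : ℝ) ≤ (p : ℝ) ^ (β - 1) := by positivity
        have h6 := mul_le_mul_of_nonneg_left
          (Real.cos_le_one (Real.pi / Real.log z * Real.log p)) h5
        linarith
      rw [Finset.sum_const, nsmul_eq_mul] at h3
      have h4 : ((pr z).card : ℝ) ≤ z + 1 := by
        have h5 : (pr z).card ≤ z + 1 := by
          unfold pr
          exact (Finset.card_filter_le _ _).trans (Finset.card_range _).le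
        exact_mod_cast h5
      linarith
    have h3 : (1 - δ) * (v / Real.log v) ≤ z := by
      have h4 : v / Real.log v ≤ v := div_le_self hv0.le hlv
      have h5 : v ≤ z := by
        calc v ≤ (z : ℝ) ^ (1 : ℝ) := Real.rpow_le_rpow_of_exponent_le (by linarith) (by linarith)
          _ = z := Real.rpow_one _
      nlinarith
    have h4 : (C0 + C1 + 2 * t0 ^ 2 + 2 * V0 + 2) * 1 ≤
        (C0 + C1 + 2 * t0 ^ 2 + 2 * V0 + 2) * (1 + X) :=
      mul_le_mul_of_nonneg_left (by linarith) (by positivity)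
    linarith
  · push Not at hcase
    have hterm : ∑ p ∈ pr z, (-(Real.sqrt v * (1 / (p : ℝ))) +
        (if (z : ℝ) ^ κ < p then c * (p : ℝ) ^ (β - 1) else 0)) ≤ S :=
      Finset.sum_le_sum fun p hp => term_ge z p β κ hz hp hβ hκ0 hκ1.le
    rw [Finset.sum_add_distrib, Finset.sum_neg_distrib, ← Finset.mul_sum, ← Finset.sum_filter,
      ← Finset.mul_sum] at hterm
    have h1 : Real.sqrt v * ∑ p ∈ pr z, 1 / (p : ℝ) ≤ C0 * X := by
      have h2 := mul_le_mul_of_nonneg_left (hM z (by omega)) (Real.sqrt_nonneg v)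
      rw [hXdef]
      linarith
    have haz : (z : ℝ) ^ κ ≤ z := by
      calc (z : ℝ) ^ κ ≤ (z : ℝ) ^ (1 : ℝ) :=
            Real.rpow_le_rpow_of_exponent_le (by linarith) hκ1.le
        _ = z := Real.rpow_one _
    have h2 := hpnt ((z : ℝ) ^ κ) z β hcase haz hβ (by linarith)
    have h3 : ∑ p ∈ (pr z).filter (fun p : ℕ => (z : ℝ) ^ κ < p), (p : ℝ) ^ (β - 1) * Real.log p
        ≤ (∑ p ∈ (pr z).filter (fun p : ℕ => (z : ℝ) ^ κ < p), (p : ℝ) ^ (β - 1))
          * Real.log z := by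
      rw [Finset.sum_mul]
      refine Finset.sum_le_sum fun p hp => ?_
      have hp1 := mem_pr (Finset.mem_filter.1 hp).1
      have hpp : (0 : ℝ) < p := by exact_mod_cast hp1.1.pos
      exact mul_le_mul_of_nonneg_left (Real.log_le_log hpp (by exact_mod_cast hp1.2))
        (by positivity)
    set Q : ℝ := ∑ p ∈ (pr z).filter (fun p : ℕ => (z : ℝ) ^ κ < p), (p : ℝ) ^ (β - 1) with hQ
    have ha : ((z : ℝ) ^ κ) ^ β = v ^ κ := by
      rw [hvdef, ← Real.rpow_mul hz0.le, ← Real.rpow_mul hz0.le, mul_comm]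
    rw [ha] at h2
    have hvk : 0 ≤ v ^ κ := by positivity
    -- divide by log z
    have h4 : (1 - δ' / 4) * (v / Real.log v) - 2 * v ^ κ / Real.log v ≤ Q := by
      have h5 := h2.trans h3
      have h6 : (1 - δ' / 4) * ((v - v ^ κ) / β) - 2 * v ^ κ ≤ Q * Real.log z := h5
      have h7 : ((1 - δ' / 4) * ((v - v ^ κ) / β) - 2 * v ^ κ) / Real.log z ≤ Q :=
        (div_le_iff₀ hlz).2 h6
      refine le_trans ?_ h7
      rw [hlv']
      have h8 : ((1 - δ' / 4) * ((v - v ^ κ) / β) - 2 * v ^ κ) / Real.log z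
          = ((1 - δ' / 4) * (v - v ^ κ) - 2 * β * v ^ κ) / (β * Real.log z) := by
        field_simp
      have h9 : (1 - δ' / 4) * (v / (β * Real.log z)) - 2 * v ^ κ / (β * Real.log z)
          = ((1 - δ' / 4) * v - 2 * v ^ κ) / (β * Real.log z) := by
        ring
      rw [h8, h9]
      have h10 : 0 < β * Real.log z := by positivity
      apply div_le_div_of_nonneg_right _ h10.le
      nlinarith
    have h5 := pow_absorb δ' κ v hδ'0 (by linarith) hκ1 hv1
    rw [← hV0] at h5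
    have hlv0 : 0 < Real.log v := by linarith
    have h6 : 2 * v ^ κ / Real.log v ≤ δ' / 2 * (v / Real.log v) + 2 * V0 := by
      have h7 : 2 * v ^ κ / Real.log v ≤ (δ' / 2 * v + 2 * V0) / Real.log v :=
        div_le_div_of_nonneg_right h5 hlv0.le
      have h8 : 2 * V0 / Real.log v ≤ 2 * V0 := div_le_self (by positivity) hlv
      have h9 : (δ' / 2 * v + 2 * V0) / Real.log v
          = δ' / 2 * (v / Real.log v) + 2 * V0 / Real.log v := by ring
      linarith
    have hc00 : 0 ≤ c := by linarith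
    have h7 : (1 - δ') * (v / Real.log v) - 2 * V0 ≤ c * Q := by
      have h8 := mul_le_mul_of_nonneg_left h4 hc00
      have h9 : (1 - δ' / 4) * (1 - δ' / 4) * (v / Real.log v) ≤
          c * ((1 - δ' / 4) * (v / Real.log v)) := by
        rw [mul_assoc]
        exact mul_le_mul_of_nonneg_right hc0 (mul_nonneg (by linarith) hvlv)
      have h10 : c * (2 * v ^ κ / Real.log v) ≤ 1 * (2 * v ^ κ / Real.log v) :=
        mul_le_mul_of_nonneg_right hc1 (by positivity)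
      have h11 : (1 - δ' / 2) * (v / Real.log v) ≤
          (1 - δ' / 4) * (1 - δ' / 4) * (v / Real.log v) :=
        mul_le_mul_of_nonneg_right (by nlinarith) hvlv
      nlinarith
    have h8 : (1 - δ) * (v / Real.log v) ≤ (1 - δ') * (v / Real.log v) :=
      mul_le_mul_of_nonneg_right (by linarith) hvlv
    have h9 : C0 * X + (C1 + 2 * V0) ≤ (C0 + C1 + 2 * t0 ^ 2 + 2 * V0 + 2) * (1 + X) := by
      nlinarith [mul_nonneg hC1' hX, mul_nonneg hV0'.le hX, mul_nonneg (sq_nonneg t0) hX,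
        sq_nonneg t0]
    linarith

end Pool.Gal99
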