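import Pool.Agent.LibGal99.Defs
import Pool.Agent.LibGal99.B2
import Pool.Agent.LibPNT.PNT

/-! Row D5: the sharp Rankin sum over the primes (prime number theorem and Abel summation). -/

namespace Pool.Gal99

open Finset Filter Topology MeasureTheory Set


theorem D5_pi (δ : ℝ) (hδ : 0 < δ) : ∃ C : ℝ, 0 ≤ C ∧ ∀ t : ℝ, 1 < t →
    (Nat.primeCounting ⌊t⌋₊ : ℝ) ≤ (1 + δ) * (t / Real.log t) + C := by
  have h := Pool.Agent.LibPNT.primeCounting_tendsto
  have h1 := h.eventually (eventually_le_nhds (show (1 : ℝ) < 1 + δ by linarith))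
  obtain ⟨T, hT⟩ := eventually_atTop.1 h1
  refine ⟨|T| + 1, by positivity, ?_⟩
  intro t ht
  have hlog : 0 < Real.log t := Real.log_pos ht
  have ht0 : 0 < t := by linarith
  by_cases htT : T ≤ t
  · have h2 := hT t htT
    have h3 : (Nat.primeCounting ⌊t⌋₊ : ℝ) ≤ (1 + δ) * (t / Real.log t) := by
      rw [div_le_iff₀ ht0] at h2
      rw [← mul_div_assoc, le_div_iff₀ hlog]
      exact h2
    linarith [abs_nonneg T]
  · rw [not_le] at htT
    have h3 : (Nat.primeCounting ⌊t⌋₊ : ℝ) ≤ t + 1 := by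
      have h4 : Nat.primeCounting ⌊t⌋₊ ≤ ⌊t⌋₊ + 1 := Nat.count_le Nat.Prime
      have h5 := Nat.floor_le ht0.le
      have h6 : (Nat.primeCounting ⌊t⌋₊ : ℝ) ≤ (⌊t⌋₊ : ℝ) + 1 := by exact_mod_cast h4
      linarith
    have h7 : 0 ≤ (1 + δ) * (t / Real.log t) := by positivity
    linarith [le_abs_self T]

theorem D5_point (η : ℝ) (hη : 0 < η) (l : ℝ) (hl : 1 / 2 ≤ l) :
    Real.exp l ≤ (1 + η) * (Real.exp l * (1 - 1 / l)) + 2 * (1 + η) * Real.exp ((1 + η) / η) := by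
  have hl0 : 0 < l := by linarith
  have he := Real.exp_pos l
  have he2 := Real.exp_pos ((1 + η) / η)
  by_cases h : (1 + η) / η ≤ l
  · have h1 : 1 ≤ (1 + η) * (1 - 1 / l) := by
      have h2 : 1 / l ≤ η / (1 + η) := by
        rw [div_le_div_iff₀ hl0 (by linarith)]
        rw [div_le_iff₀ hη] at h
        nlinarith
      have h3 : (1 + η) * (η / (1 + η)) = η := by field_simp
      nlinarith
    have h4 : 0 ≤ 2 * (1 + η) * Real.exp ((1 + η) / η) := by positivity
    nlinarith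
  · rw [not_le] at h
    have h1 : Real.exp l ≤ Real.exp ((1 + η) / η) := Real.exp_le_exp.2 h.le
    have h2 : 1 / l ≤ 2 := by
      rw [div_le_iff₀ hl0]
      linarith
    have h3 : Real.exp l - (1 + η) * (Real.exp l * (1 - 1 / l)) =
        Real.exp l * (-η + (1 + η) * (1 / l)) := by ring
    have h4 : Real.exp l * (-η + (1 + η) * (1 / l)) ≤ Real.exp l * (2 * (1 + η)) := by
      refine mul_le_mul_of_nonneg_left ?_ he.le
      nlinarith
    have h5 : Real.exp l * (2 * (1 + η)) ≤ Real.exp ((1 + η) / η) * (2 * (1 + η)) :=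
      mul_le_mul_of_nonneg_right h1 (by positivity)
    linarith

/-- `∑_{p ≤ z} 1/p ≤ C (1 + log (log z + 1))`. -/
theorem D5_inv : ∃ C : ℝ, 0 < C ∧ ∀ z : ℕ, 3 ≤ z →
    ∑ p ∈ pr z, (1 / (p : ℝ)) ≤ C * (1 + Real.log (Real.log z + 1)) := by
  obtain ⟨C, hC, h⟩ := V_inv_le
  refine ⟨|Real.log C| + 1, by positivity, ?_⟩
  intro z hz
  have hz1 : (1 : ℝ) < z := by
    have : (3 : ℝ) ≤ z := by exact_mod_cast hz
    linarith
  have hL : 0 < Real.log z := Real.log_pos hz1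
  have hVpos : 0 < V z := by
    unfold V
    refine Finset.prod_pos fun p hp => ?_
    have hp' : p.Prime := (Finset.mem_filter.1 hp).2
    have : (2 : ℝ) ≤ p := by exact_mod_cast hp'.two_le
    have h2 : 1 / (p : ℝ) ≤ 1 / 2 := by
      rw [div_le_div_iff₀ (by linarith) (by norm_num)]
      linarith
    linarith
  have h1 : ∑ p ∈ pr z, (1 / (p : ℝ)) ≤ -Real.log (V z) := by
    unfold V
    rw [Real.log_prod, ← Finset.sum_neg_distrib]
    · refine Finset.sum_le_sum fun p hp => ?_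
      have hp' : p.Prime := (Finset.mem_filter.1 hp).2
      have h2 : (2 : ℝ) ≤ p := by exact_mod_cast hp'.two_le
      have h3 : 1 / (p : ℝ) ≤ 1 / 2 := by
        rw [div_le_div_iff₀ (by linarith) (by norm_num)]
        linarith
      have h4 := Real.log_le_sub_one_of_pos (show 0 < 1 - 1 / (p : ℝ) by linarith)
      linarith
    · intro p hp
      have hp' : p.Prime := (Finset.mem_filter.1 hp).2
      have h2 : (2 : ℝ) ≤ p := by exact_mod_cast hp'.two_le
      have h3 : 1 / (p : ℝ) ≤ 1 / 2 := by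
        rw [div_le_div_iff₀ (by linarith) (by norm_num)]
        linarith
      linarith
  have h2 : -Real.log (V z) ≤ Real.log C + Real.log (Real.log z) := by
    rw [← Real.log_inv, ← Real.log_mul hC.ne' hL.ne']
    exact Real.log_le_log (inv_pos.2 hVpos) (h z (by omega))
  have h3 : Real.log (Real.log z) ≤ Real.log (Real.log z + 1) :=
    Real.log_le_log hL (by linarith)
  have h4 : 0 ≤ Real.log (Real.log z + 1) := Real.log_nonneg (by linarith)
  have h5 := le_abs_self (Real.log C)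
  have h6 := abs_nonneg (Real.log C)
  nlinarith

/-- The sum over the primes in `(a, z]`. -/
theorem D5_main (δ η C₁ : ℝ) (hδ : 0 < δ) (hη : 0 < η) (hC₁ : 0 ≤ C₁)
    (hpi : ∀ t : ℝ, 1 < t → (Nat.primeCounting ⌊t⌋₊ : ℝ) ≤ (1 + δ) * (t / Real.log t) + C₁)
    (x b : ℝ) (hx : 1 < x) (hb0 : 0 < b) (hb : b ≤ 1 / 2) (hv : 1 ≤ b * Real.log x) :
    ∑ k ∈ Finset.Ioc ⌊Real.sqrt x⌋₊ ⌊x⌋₊, (k : ℝ) ^ (b - 1) * (if k.Prime then (1 : ℝ) else 0) ≤
      (1 + δ) * (1 + η) * (x ^ b / (b * Real.log x)) +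
        ((1 + δ) * (2 * (1 + η) * Real.exp ((1 + η) / η)) * Real.log 2 + 3 * C₁) := by
  obtain ⟨C₂, hC₂⟩ : ∃ C₂, C₂ = 2 * (1 + η) * Real.exp ((1 + η) / η) := ⟨_, rfl⟩
  have hC₂0 : 0 ≤ C₂ := by rw [hC₂]; positivity
  rw [← hC₂]
  obtain ⟨a, ha⟩ : ∃ a, a = Real.sqrt x := ⟨_, rfl⟩
  rw [← ha]
  have hx0 : 0 < x := by linarith
  have hL : 0 < Real.log x := Real.log_pos hx
  have ha1 : 1 < a := by
    rw [ha, Real.lt_sqrt (by norm_num)]
    linarith
  have ha0 : 0 < a := by linarith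
  have hax : a ≤ x := by
    rw [ha, Real.sqrt_le_left hx0.le]
    nlinarith
  have hla : Real.log a = Real.log x / 2 := by rw [ha, Real.log_sqrt hx0.le]
  have hla0 : 0 < Real.log a := Real.log_pos ha1
  have hlog : ∀ t ∈ Icc a x, Real.log a ≤ Real.log t := fun t ht => Real.log_le_log ha0 ht.1
  -- derivative of the power
  have hf : ∀ t : ℝ, 0 < t → HasDerivAt (fun s : ℝ => s ^ (b - 1)) ((b - 1) * t ^ (b - 1 - 1)) t :=
    fun t ht => Real.hasDerivAt_rpow_const (Or.inl ht.ne')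
  have hcont : ContinuousOn (fun t : ℝ => (b - 1) * t ^ (b - 1 - 1)) (Icc a x) := by
    refine ContinuousOn.mul continuousOn_const ?_
    refine ContinuousOn.rpow_const continuousOn_id fun t ht => Or.inl ?_
    exact (lt_of_lt_of_le ha0 ht.1).ne'
  have hint : IntegrableOn (deriv (fun s : ℝ => s ^ (b - 1))) (Icc a x) := by
    refine (hcont.integrableOn_Icc).congr_fun (fun t ht => ?_) measurableSet_Icc
    exact (hf t (lt_of_lt_of_le ha0 ht.1)).deriv.symm
  have hpc : ∀ n : ℕ, ∑ k ∈ Finset.Icc 0 n, (if k.Prime then (1 : ℝ) else 0) = Nat.primeCounting n := by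
    intro n
    rw [Finset.sum_boole]
    congr 1
    rw [Nat.primeCounting, Nat.primeCounting', Nat.count_eq_card_filter_range]
    congr 1
    ext k
    simp only [Finset.mem_filter, Finset.mem_Icc, Finset.mem_range]
    constructor
    · rintro ⟨⟨_, h1⟩, h2⟩
      exact ⟨by omega, h2⟩
    · rintro ⟨h1, h2⟩
      exact ⟨⟨Nat.zero_le _, by omega⟩, h2⟩
  have habel := sum_mul_eq_sub_sub_integral_mul (fun k : ℕ => if k.Prime then (1 : ℝ) else 0)
    (f := fun s : ℝ => s ^ (b - 1)) ha0.le hax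
    (fun t ht => (hf t (lt_of_lt_of_le ha0 ht.1)).differentiableAt) hint
  simp only [hpc] at habel
  rw [habel]
  -- the majorant and its antiderivative
  obtain ⟨G, hG⟩ : ∃ G : ℝ → ℝ, G = fun t => (1 - b) * (1 + δ) * ((1 + η) * (t ^ b / (b * Real.log t)) +
      C₂ * Real.log (Real.log t)) - 2 * C₁ * t ^ (-(1 / 2) : ℝ) := ⟨_, rfl⟩
  obtain ⟨g, hg⟩ : ∃ g : ℝ → ℝ, g = fun t => (1 - b) * (1 + δ) * ((1 + η) *
      (t ^ b / (t * Real.log t) * (1 - 1 / (b * Real.log t))) +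
      C₂ * (1 / (t * Real.log t))) + C₁ * t ^ (-(3 / 2) : ℝ) := ⟨_, rfl⟩
  have hGd : ∀ t ∈ Icc a x, HasDerivAt G (g t) t := by
    intro t ht
    have ht0 : 0 < t := lt_of_lt_of_le ha0 ht.1
    have hlt : 0 < Real.log t := lt_of_lt_of_le hla0 (hlog t ht)
    have d1 : HasDerivAt (fun s : ℝ => s ^ b) (b * t ^ (b - 1)) t :=
      Real.hasDerivAt_rpow_const (Or.inl ht0.ne')
    have d2 : HasDerivAt Real.log t⁻¹ t := Real.hasDerivAt_log ht0.ne'
    have d3 := (d1.div (d2.const_mul b) (mul_pos hb0 hlt).ne').const_mul (1 + η)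
    have d4 := (d2.log hlt.ne').const_mul C₂
    have d5 : HasDerivAt (fun s : ℝ => s ^ (-(1 / 2) : ℝ)) (-(1 / 2) * t ^ (-(1 / 2) - 1 : ℝ)) t :=
      Real.hasDerivAt_rpow_const (Or.inl ht0.ne')
    have d6 := ((d3.add d4).const_mul ((1 - b) * (1 + δ))).sub (d5.const_mul (2 * C₁))
    have e1 : t ^ (b - 1) = t ^ b / t := Real.rpow_sub_one ht0.ne' b
    have e2 : (-(1 / 2) - 1 : ℝ) = -(3 / 2) := by norm_num
    rw [hG]
    refine (d6.congr_deriv ?_)
    rw [hg, e1, e2]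
    simp only
    field_simp
    ring
  have hgc : ContinuousOn g (Icc a x) := by
    rw [hg]
    have hlc : ContinuousOn Real.log (Icc a x) :=
      Real.continuousOn_log.mono fun t ht => (lt_of_lt_of_le ha0 ht.1).ne'
    have htc : ContinuousOn (fun t : ℝ => t * Real.log t) (Icc a x) := continuousOn_id.mul hlc
    have hne : ∀ t ∈ Icc a x, t * Real.log t ≠ 0 := fun t ht =>
      (mul_pos (lt_of_lt_of_le ha0 ht.1) (lt_of_lt_of_le hla0 (hlog t ht))).ne'
    have hne2 : ∀ t ∈ Icc a x, b * Real.log t ≠ 0 := fun t ht =>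
      (mul_pos hb0 (lt_of_lt_of_le hla0 (hlog t ht))).ne'
    have hr : ∀ y : ℝ, ContinuousOn (fun t : ℝ => t ^ y) (Icc a x) := fun y =>
      ContinuousOn.rpow_const continuousOn_id fun t ht => Or.inl (lt_of_lt_of_le ha0 ht.1).ne'
    exact (continuousOn_const.mul ((continuousOn_const.mul (((hr b).div htc hne).mul
      (continuousOn_const.sub (continuousOn_const.div (continuousOn_const.mul hlc) hne2)))).add
      (continuousOn_const.mul (continuousOn_const.div htc hne)))).add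
      (continuousOn_const.mul (hr _))
  have hbl : ∀ t ∈ Icc a x, 1 / 2 ≤ b * Real.log t := by
    intro t ht
    have h1 := hlog t ht
    rw [hla] at h1
    nlinarith
  -- pointwise bound
  have hpt : ∀ t ∈ Icc a x, -((b - 1) * t ^ (b - 1 - 1) * (Nat.primeCounting ⌊t⌋₊ : ℝ)) ≤ g t := by
    intro t ht
    have ht0 : 0 < t := lt_of_lt_of_le ha0 ht.1
    have ht1 : 1 < t := lt_of_lt_of_le ha1 ht.1
    have hlt : 0 < Real.log t := lt_of_lt_of_le hla0 (hlog t ht)
    have p1 := hpi t ht1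
    have p2 := D5_point η hη (b * Real.log t) (hbl t ht)
    have e0 : Real.exp (b * Real.log t) = t ^ b := by
      rw [Real.rpow_def_of_pos ht0, mul_comm]
    rw [e0, ← hC₂] at p2
    have e1 : t ^ (b - 1 - 1) = t ^ b / t / t := by
      rw [Real.rpow_sub_one ht0.ne', Real.rpow_sub_one ht0.ne']
    have hX : 0 < t ^ b := Real.rpow_pos_of_pos ht0 b
    have hb1 : 0 ≤ 1 - b := by linarith
    -- step 1
    have q1 : -((b - 1) * t ^ (b - 1 - 1) * (Nat.primeCounting ⌊t⌋₊ : ℝ)) ≤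
        (1 - b) * t ^ (b - 1 - 1) * ((1 + δ) * (t / Real.log t) + C₁) := by
      have h0 : 0 ≤ (1 - b) * t ^ (b - 1 - 1) := mul_nonneg hb1 (Real.rpow_nonneg ht0.le _)
      have := mul_le_mul_of_nonneg_left p1 h0
      linarith
    refine q1.trans ?_
    -- the constant part
    have q2 : (1 - b) * t ^ (b - 1 - 1) * C₁ ≤ C₁ * t ^ (-(3 / 2) : ℝ) := by
      have h1 : t ^ (b - 1 - 1) ≤ t ^ (-(3 / 2) : ℝ) :=
        Real.rpow_le_rpow_of_exponent_le ht1.le (by linarith)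
      have h2 : 0 ≤ t ^ (b - 1 - 1) := Real.rpow_nonneg ht0.le _
      have h3 : (1 - b) * t ^ (b - 1 - 1) ≤ t ^ (-(3 / 2) : ℝ) := by nlinarith
      calc (1 - b) * t ^ (b - 1 - 1) * C₁ ≤ t ^ (-(3 / 2) : ℝ) * C₁ :=
            mul_le_mul_of_nonneg_right h3 hC₁
        _ = _ := mul_comm _ _
    -- the main part
    have q3 : (1 - b) * t ^ (b - 1 - 1) * ((1 + δ) * (t / Real.log t)) ≤
        (1 - b) * (1 + δ) * ((1 + η) *
      (t ^ b / (t * Real.log t) * (1 - 1 / (b * Real.log t))) +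
      C₂ * (1 / (t * Real.log t))) := by
      have h1 : (1 - b) * t ^ (b - 1 - 1) * ((1 + δ) * (t / Real.log t)) =
          (1 - b) * (1 + δ) * (t ^ b * (1 / (t * Real.log t))) := by
        rw [e1]
        field_simp
      rw [h1]
      refine mul_le_mul_of_nonneg_left ?_ (by positivity)
      have h2 := mul_le_mul_of_nonneg_right p2 (show 0 ≤ 1 / (t * Real.log t) by positivity)
      refine h2.trans (le_of_eq ?_)
      ring
    rw [hg]
    simp only
    rw [mul_add]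
    linarith
  have hnn : ∀ t ∈ Icc a x, 0 ≤ -((b - 1) * t ^ (b - 1 - 1) * (Nat.primeCounting ⌊t⌋₊ : ℝ)) := by
    intro t ht
    have ht0 : 0 < t := lt_of_lt_of_le ha0 ht.1
    have h0 : 0 ≤ (1 - b) * t ^ (b - 1 - 1) := mul_nonneg (by linarith) (Real.rpow_nonneg ht0.le _)
    have h1 : (0 : ℝ) ≤ Nat.primeCounting ⌊t⌋₊ := Nat.cast_nonneg _
    nlinarith
  have hI : -(∫ t in Ioc a x, deriv (fun s : ℝ => s ^ (b - 1)) t * (Nat.primeCounting ⌊t⌋₊ : ℝ)) ≤
      G x - G a := by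
    rw [← integral_neg]
    have h1 : ∫ t in Ioc a x, g t = G x - G a := by
      rw [← intervalIntegral.integral_of_le hax]
      refine intervalIntegral.integral_eq_sub_of_hasDerivAt ?_ ?_
      · intro t ht
        rw [uIcc_of_le hax] at ht
        exact hGd t ht
      · refine ContinuousOn.intervalIntegrable ?_
        rw [uIcc_of_le hax]
        exact hgc
    rw [← h1]
    refine integral_mono_of_nonneg ?_ ?_ ?_
    · refine (ae_restrict_iff' measurableSet_Ioc).2 (Eventually.of_forall fun t ht => ?_)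
      have ht' : t ∈ Icc a x := Ioc_subset_Icc_self ht
      have := hnn t ht'
      simp only [Pi.zero_apply]
      rw [(hf t (lt_of_lt_of_le ha0 ht'.1)).deriv]
      exact this
    · exact (hgc.integrableOn_Icc).mono_set Ioc_subset_Icc_self
    · refine (ae_restrict_iff' measurableSet_Ioc).2 (Eventually.of_forall fun t ht => ?_)
      have ht' : t ∈ Icc a x := Ioc_subset_Icc_self ht
      have := hpt t ht'
      simp only
      rw [(hf t (lt_of_lt_of_le ha0 ht'.1)).deriv]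
      exact this
  -- boundary terms
  have hXpos : 0 < x ^ b := Real.rpow_pos_of_pos hx0 b
  have hB : x ^ (b - 1) * (Nat.primeCounting ⌊x⌋₊ : ℝ) ≤ (1 + δ) * b * (x ^ b / (b * Real.log x)) + C₁ := by
    have p1 := hpi x hx
    have h0 : 0 ≤ x ^ (b - 1) := Real.rpow_nonneg hx0.le _
    have h1 := mul_le_mul_of_nonneg_left p1 h0
    have h2 : x ^ (b - 1) * ((1 + δ) * (x / Real.log x) + C₁) =
        (1 + δ) * b * (x ^ b / (b * Real.log x)) + x ^ (b - 1) * C₁ := by
      rw [Real.rpow_sub_one hx0.ne']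
      field_simp
    have h3 : x ^ (b - 1) ≤ 1 := Real.rpow_le_one_of_one_le_of_nonpos hx.le (by linarith)
    have h4 := mul_le_mul_of_nonneg_right h3 hC₁
    linarith
  have hA : 0 ≤ a ^ (b - 1) * (Nat.primeCounting ⌊a⌋₊ : ℝ) := by positivity
  have hGa : G x - G a ≤ (1 - b) * (1 + δ) * (1 + η) * (x ^ b / (b * Real.log x)) +
      (1 + δ) * C₂ * Real.log 2 + 2 * C₁ := by
    have h1 : Real.log (Real.log x) - Real.log (Real.log a) = Real.log 2 := by
      rw [hla, Real.log_div hL.ne' (by norm_num)]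
      ring
    have h2 : 0 ≤ a ^ b / (b * Real.log a) := by positivity
    have h3 : 0 ≤ x ^ (-(1 / 2) : ℝ) := by positivity
    have h4 : a ^ (-(1 / 2) : ℝ) ≤ 1 := Real.rpow_le_one_of_one_le_of_nonpos ha1.le (by norm_num)
    have h5 : 0 ≤ Real.log 2 := Real.log_nonneg (by norm_num)
    rw [hG]
    simp only
    have h6 : (1 - b) * (1 + δ) * ((1 + η) * (x ^ b / (b * Real.log x)) + C₂ * Real.log (Real.log x)) -
        2 * C₁ * x ^ (-(1 / 2) : ℝ) -
        ((1 - b) * (1 + δ) * ((1 + η) * (a ^ b / (b * Real.log a)) + C₂ * Real.log (Real.log a)) -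
        2 * C₁ * a ^ (-(1 / 2) : ℝ)) =
        (1 - b) * (1 + δ) * (1 + η) * (x ^ b / (b * Real.log x)) +
        (1 - b) * ((1 + δ) * C₂ * (Real.log (Real.log x) - Real.log (Real.log a))) +
        2 * C₁ * a ^ (-(1 / 2) : ℝ) - 2 * C₁ * x ^ (-(1 / 2) : ℝ) -
        (1 - b) * (1 + δ) * (1 + η) * (a ^ b / (b * Real.log a)) := by ring
    rw [h6, h1]
    have h7 : 0 ≤ (1 - b) * (1 + δ) * (1 + η) * (a ^ b / (b * Real.log a)) := by
      have : 0 ≤ 1 - b := by linarith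
      positivity
    have h8 : 0 ≤ 2 * C₁ * x ^ (-(1 / 2) : ℝ) := by positivity
    have h9 : 2 * C₁ * a ^ (-(1 / 2) : ℝ) ≤ 2 * C₁ * 1 := mul_le_mul_of_nonneg_left h4 (by positivity)
    have h10 : (1 - b) * ((1 + δ) * C₂ * Real.log 2) ≤ 1 * ((1 + δ) * C₂ * Real.log 2) :=
      mul_le_mul_of_nonneg_right (by linarith) (by positivity)
    linarith
  have hY : 0 ≤ x ^ b / (b * Real.log x) := by positivity
  have hfin : (1 + δ) * b * (x ^ b / (b * Real.log x)) +
      (1 - b) * (1 + δ) * (1 + η) * (x ^ b / (b * Real.log x)) ≤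
      (1 + δ) * (1 + η) * (x ^ b / (b * Real.log x)) := by
    have h1 : (1 + δ) * (1 + η) * (x ^ b / (b * Real.log x)) - ((1 + δ) * b * (x ^ b / (b * Real.log x)) +
      (1 - b) * (1 + δ) * (1 + η) * (x ^ b / (b * Real.log x))) =
      (1 + δ) * b * η * (x ^ b / (b * Real.log x)) := by ring
    have h2 : 0 ≤ (1 + δ) * b * η * (x ^ b / (b * Real.log x)) := by positivity
    linarith
  linarith

/-- D5 -/
theorem sum_rpow_sharp (δ : ℝ) (hδ : 0 < δ) : ∃ C : ℝ, 0 < C ∧ ∀ z : ℕ, 3 ≤ z → ∀ b : ℝ, 0 < b →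
    b ≤ 1 / 2 → Real.exp 1 ≤ (z : ℝ) ^ b →
    ∑ p ∈ pr z, (p : ℝ) ^ (b - 1) ≤ (1 + δ) * ((z : ℝ) ^ b / Real.log ((z : ℝ) ^ b)) +
      C * (1 + Real.sqrt ((z : ℝ) ^ b) * (1 + Real.log (Real.log z + 1))) := by
  obtain ⟨η, hη⟩ : ∃ η, η = min δ 1 / 3 := ⟨_, rfl⟩
  have hη0 : 0 < η := by
    rw [hη]
    have : 0 < min δ 1 := lt_min hδ one_pos
    positivity
  have hη1 : η ≤ 1 / 3 := by
    rw [hη]
    have := min_le_right δ 1
    linarith
  have hη2 : 3 * η ≤ δ := by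
    rw [hη]
    have := min_le_left δ 1
    linarith
  obtain ⟨C₁, hC₁, hpi⟩ := D5_pi η hη0
  obtain ⟨C₃, hC₃, hinv⟩ := D5_inv
  obtain ⟨K, hK⟩ : ∃ K, K = (1 + η) * (2 * (1 + η) * Real.exp ((1 + η) / η)) * Real.log 2 + 3 * C₁ :=
    ⟨_, rfl⟩
  have hK0 : 0 ≤ K := by
    have h5 : 0 ≤ Real.log 2 := Real.log_nonneg (by norm_num)
    rw [hK]
    positivity
  refine ⟨K + C₃, by linarith, ?_⟩
  intro z hz b hb0 hb hv
  have hz3 : (3 : ℝ) ≤ z := by exact_mod_cast hz
  have hz1 : (1 : ℝ) < z := by linarith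
  have hz0 : (0 : ℝ) < z := by linarith
  have hL : 0 < Real.log z := Real.log_pos hz1
  have hlv : Real.log ((z : ℝ) ^ b) = b * Real.log z := Real.log_rpow hz0 b
  have hv1 : 1 ≤ b * Real.log z := by
    rw [← hlv]
    have := Real.log_le_log (Real.exp_pos 1) hv
    rwa [Real.log_exp] at this
  have hmain := D5_main η η C₁ hη0 hη0 hC₁ hpi z b hz1 hb0 hb hv1
  rw [← hK, Nat.floor_natCast] at hmain
  -- splitting
  have hsplit : ∑ p ∈ pr z, (p : ℝ) ^ (b - 1) ≤
      Real.sqrt ((z : ℝ) ^ b) * ∑ p ∈ pr z, (1 / (p : ℝ)) +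
      ∑ k ∈ Finset.Ioc ⌊Real.sqrt z⌋₊ z, (k : ℝ) ^ (b - 1) * (if k.Prime then (1 : ℝ) else 0) := by
    have h1 : ∑ k ∈ Finset.Ioc ⌊Real.sqrt z⌋₊ z, (k : ℝ) ^ (b - 1) * (if k.Prime then (1 : ℝ) else 0) =
        ∑ p ∈ (pr z).filter (fun p => ⌊Real.sqrt z⌋₊ < p), (p : ℝ) ^ (b - 1) := by
      have h2 : (pr z).filter (fun p => ⌊Real.sqrt z⌋₊ < p) =
          (Finset.Ioc ⌊Real.sqrt z⌋₊ z).filter Nat.Prime := by
        ext p
        simp only [pr, Finset.mem_filter, Finset.mem_range, Finset.mem_Ioc]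
        constructor
        · rintro ⟨⟨h1, h2⟩, h3⟩
          exact ⟨⟨h3, by omega⟩, h2⟩
        · rintro ⟨⟨h1, h2⟩, h3⟩
          exact ⟨⟨by omega, h3⟩, h1⟩
      rw [h2, Finset.sum_filter]
      refine Finset.sum_congr rfl fun k _ => ?_
      split_ifs <;> simp
    rw [h1, ← Finset.sum_filter_add_sum_filter_not (pr z) (fun p => ⌊Real.sqrt z⌋₊ < p), add_comm]
    refine add_le_add ?_ le_rfl
    rw [Finset.mul_sum]
    calc ∑ p ∈ (pr z).filter (fun p => ¬ ⌊Real.sqrt z⌋₊ < p), (p : ℝ) ^ (b - 1)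
        ≤ ∑ p ∈ (pr z).filter (fun p => ¬ ⌊Real.sqrt z⌋₊ < p), Real.sqrt ((z : ℝ) ^ b) * (1 / (p : ℝ)) := by
          refine Finset.sum_le_sum fun p hp => ?_
          obtain ⟨hp1, hp2⟩ := Finset.mem_filter.1 hp
          have hpp : p.Prime := (Finset.mem_filter.1 hp1).2
          have hp0 : (0 : ℝ) < p := by exact_mod_cast hpp.pos
          rw [not_lt] at hp2
          have h3 : (p : ℝ) ≤ Real.sqrt z := by
            rw [← Nat.le_floor_iff (Real.sqrt_nonneg _)]
            exact hp2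
          have h4 : (p : ℝ) ^ b ≤ Real.sqrt ((z : ℝ) ^ b) := by
            have h5 : (p : ℝ) ^ b ≤ (Real.sqrt z) ^ b := Real.rpow_le_rpow hp0.le h3 hb0.le
            have h6 : (Real.sqrt z) ^ b = Real.sqrt ((z : ℝ) ^ b) := by
              rw [Real.sqrt_eq_rpow, Real.sqrt_eq_rpow, ← Real.rpow_mul hz0.le, ← Real.rpow_mul hz0.le,
                mul_comm]
            rw [← h6]
            exact h5
          rw [Real.rpow_sub_one hp0.ne', mul_one_div]
          exact div_le_div_of_nonneg_right h4 hp0.le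
      _ ≤ ∑ p ∈ pr z, Real.sqrt ((z : ℝ) ^ b) * (1 / (p : ℝ)) := by
          refine Finset.sum_le_sum_of_subset_of_nonneg (Finset.filter_subset _ _) fun p _ _ => ?_
          positivity
  have h2 := hinv z hz
  have hs0 : 0 ≤ Real.sqrt ((z : ℝ) ^ b) := Real.sqrt_nonneg _
  have h3 := mul_le_mul_of_nonneg_left h2 hs0
  rw [hlv]
  have hY : 0 ≤ (z : ℝ) ^ b / (b * Real.log z) := by positivity
  have h4 : (1 + η) * (1 + η) ≤ 1 + δ := by nlinarith
  have h5 := mul_le_mul_of_nonneg_right h4 hY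
  have h6 : 0 ≤ Real.log (Real.log z + 1) := Real.log_nonneg (by linarith)
  have h7 : 0 ≤ Real.sqrt ((z : ℝ) ^ b) * (1 + Real.log (Real.log z + 1)) := by positivity
  nlinarith

end Pool.Gal99
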