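import Pool.Agent.LibGal99.Defs

namespace Pool.Gal99

open Finset Filter Topology

/-- product of a finite set of naturals -/
def b1d (T : Finset ℕ) : ℕ := ∏ p ∈ T, p

theorem b1d_pos (z : ℕ) (T : Finset ℕ) (hT : T ⊆ pr z) : 0 < b1d T := by
  unfold b1d
  refine Finset.prod_pos fun p hp => ?_
  have := hT hp
  simp only [pr, mem_filter, mem_range] at this
  exact this.2.pos

theorem b1_subset_iff (z n : ℕ) (T : Finset ℕ) (hT : T ⊆ pr z) :
    T ⊆ (pr z).filter (fun p => p ∣ n) ↔ b1d T ∣ n := by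
  unfold b1d
  constructor
  · intro h
    refine Finset.prod_primes_dvd n ?_ ?_
    · intro p hp
      have := hT hp
      simp only [pr, mem_filter, mem_range] at this
      exact this.2.prime
    · intro p hp
      have := h hp
      simp only [mem_filter] at this
      exact this.2
  · intro h p hp
    rw [mem_filter]
    exact ⟨hT hp, (Finset.dvd_prod_of_mem (fun p => p) hp).trans h⟩

theorem b1_coprime_iff (z n : ℕ) :
    n.Coprime (Pz z) ↔ (pr z).filter (fun p => p ∣ n) = ∅ := by
  unfold Pz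
  rw [Nat.coprime_prod_right_iff, Finset.filter_eq_empty_iff]
  refine forall₂_congr fun p hp => ?_
  simp only [pr, mem_filter, mem_range] at hp
  rw [Nat.coprime_comm, Nat.Prime.coprime_iff_not_dvd hp.2]

/-- pairing identity -/
theorem b1_pair (z D : ℕ) (hD : 1 ≤ D) (A : Finset ℕ) (hA : A ⊆ pr z) :
    |(if A = ∅ then (1 : ℝ) else 0) -
      ∑ T ∈ A.powerset, if b1d T ≤ D then (-1 : ℝ) ^ T.card else 0| ≤
      ∑ T ∈ A.powerset, if b1d T ≤ D ∧ D < z * b1d T then (1 : ℝ) else 0 := by
  classical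
  rcases A.eq_empty_or_nonempty with rfl | ⟨p, hp⟩
  · simp only [powerset_empty, sum_singleton, if_true]
    have : b1d ∅ = 1 := by simp [b1d]
    rw [this, if_pos hD]
    simp
    positivity
  · have hne : A ≠ ∅ := Finset.ne_empty_of_mem hp
    rw [if_neg hne, zero_sub, abs_neg]
    have hpz : p ≤ z := by
      have := hA hp
      simp only [pr, mem_filter, mem_range] at this
      omega
    have hins : insert p (A.erase p) = A := Finset.insert_erase hp
    have hnot : p ∉ A.erase p := Finset.notMem_erase p A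
    have h1 : ∑ T ∈ A.powerset, (if b1d T ≤ D then (-1 : ℝ) ^ T.card else 0) =
        ∑ T ∈ (A.erase p).powerset, ((if b1d T ≤ D then (-1 : ℝ) ^ T.card else 0) +
          (if p * b1d T ≤ D then (-1 : ℝ) ^ (T.card + 1) else 0)) := by
      conv_lhs => rw [← hins]
      rw [Finset.sum_powerset_insert hnot, Finset.sum_add_distrib]
      congr 1
      refine Finset.sum_congr rfl fun T hT => ?_
      have hpT : p ∉ T := fun h => hnot (Finset.mem_powerset.1 hT h)
      rw [Finset.card_insert_of_notMem hpT]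
      have : b1d (insert p T) = p * b1d T := by
        unfold b1d
        rw [Finset.prod_insert hpT]
      rw [this]
    have hppos : 0 < p := by
      have := hA hp
      simp only [pr, mem_filter, mem_range] at this
      exact this.2.pos
    rw [h1]
    calc |∑ T ∈ (A.erase p).powerset, ((if b1d T ≤ D then (-1 : ℝ) ^ T.card else 0) +
          (if p * b1d T ≤ D then (-1 : ℝ) ^ (T.card + 1) else 0))|
        ≤ ∑ T ∈ (A.erase p).powerset, |((if b1d T ≤ D then (-1 : ℝ) ^ T.card else 0) +
          (if p * b1d T ≤ D then (-1 : ℝ) ^ (T.card + 1) else 0))| :=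
          Finset.abs_sum_le_sum_abs _ _
      _ ≤ ∑ T ∈ (A.erase p).powerset,
            (if b1d T ≤ D ∧ D < z * b1d T then (1 : ℝ) else 0) := by
          refine Finset.sum_le_sum fun T _ => ?_
          by_cases ha : b1d T ≤ D
          · by_cases hb : p * b1d T ≤ D
            · rw [if_pos ha, if_pos hb, pow_succ]
              have : (-1 : ℝ) ^ T.card + (-1) ^ T.card * (-1) = 0 := by ring
              rw [this, abs_zero]
              split_ifs <;> norm_num
            · rw [if_pos ha, if_neg hb, add_zero]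
              have hc : D < z * b1d T := by
                have : p * b1d T ≤ z * b1d T := Nat.mul_le_mul_right _ hpz
                omega
              rw [if_pos ⟨ha, hc⟩, abs_pow]
              simp
          · have hb : ¬ p * b1d T ≤ D := by
              have : 1 * b1d T ≤ p * b1d T := Nat.mul_le_mul_right _ hppos
              omega
            rw [if_neg ha, if_neg hb]
            simp only [add_zero, abs_zero]
            split_ifs <;> norm_num
      _ ≤ _ := by
          refine Finset.sum_le_sum_of_subset_of_nonneg ?_ fun T _ _ => ?_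
          · exact Finset.powerset_mono.2 (Finset.erase_subset _ _)
          · split_ifs <;> norm_num

/-- number of multiples -/
theorem b1_count (m h d : ℕ) (hd : 0 < d) :
    ((Ioc m (m + h)).filter (fun n => d ∣ n)).card = (m + h) / d - m / d := by
  classical
  have h1 : (Ioc m (m + h)).filter (fun n => d ∣ n) =
      (Ioc (m / d) ((m + h) / d)).image (fun c => d * c) := by
    ext n
    simp only [mem_filter, mem_Ioc, mem_image]
    constructor
    · rintro ⟨⟨h1, h2⟩, ⟨c, rfl⟩⟩
      refine ⟨c, ⟨?_, ?_⟩, rfl⟩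
      · rw [Nat.div_lt_iff_lt_mul hd]
        rwa [mul_comm] at h1
      · rw [Nat.le_div_iff_mul_le hd]
        rwa [mul_comm] at h2
    · rintro ⟨c, ⟨h1, h2⟩, rfl⟩
      refine ⟨⟨?_, ?_⟩, dvd_mul_right _ _⟩
      · rw [Nat.div_lt_iff_lt_mul hd] at h1
        rwa [mul_comm]
      · rw [Nat.le_div_iff_mul_le hd] at h2
        rwa [mul_comm]
  rw [h1, card_image_of_injective, Nat.card_Ioc]
  intro a b hab
  exact Nat.eq_of_mul_eq_mul_left hd hab

theorem b1_count_abs (m h d : ℕ) (hd : 0 < d) :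
    |(((Ioc m (m + h)).filter (fun n => d ∣ n)).card : ℝ) - h / d| ≤ 1 := by
  rw [b1_count m h d hd]
  have ha := Nat.div_add_mod m d
  have hb := Nat.div_add_mod (m + h) d
  have ha' := Nat.mod_lt m hd
  have hb' := Nat.mod_lt (m + h) hd
  have hle : m / d ≤ (m + h) / d := Nat.div_le_div_right (by omega)
  rw [Nat.cast_sub hle]
  have hdR : (0 : ℝ) < d := by exact_mod_cast hd
  have haR : (d : ℝ) * ((m / d : ℕ) : ℝ) + ((m % d : ℕ) : ℝ) = m := by exact_mod_cast ha
  have hbR : (d : ℝ) * (((m + h) / d : ℕ) : ℝ) + (((m + h) % d : ℕ) : ℝ) = m + h := by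
    exact_mod_cast hb
  have hmR : ((m % d : ℕ) : ℝ) ≤ d := by exact_mod_cast ha'.le
  have hmhR : (((m + h) % d : ℕ) : ℝ) ≤ d := by exact_mod_cast hb'.le
  have hm0 : (0 : ℝ) ≤ ((m % d : ℕ) : ℝ) := Nat.cast_nonneg _
  have hmh0 : (0 : ℝ) ≤ (((m + h) % d : ℕ) : ℝ) := Nat.cast_nonneg _
  have : (((m + h) / d : ℕ) : ℝ) - ((m / d : ℕ) : ℝ) - h / d =
      ((m % d : ℕ) - ((m + h) % d : ℕ)) / d := by
    field_simp
    linarith
  rw [this, abs_div, abs_of_pos hdR, div_le_one hdR, abs_le]
  constructor <;> linarith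

/-- interchange of summation -/
theorem b1_swap (z m h : ℕ) (f : Finset ℕ → ℝ) :
    ∑ n ∈ Ioc m (m + h), ∑ T ∈ ((pr z).filter (fun p => p ∣ n)).powerset, f T =
      ∑ T ∈ (pr z).powerset, f T * (((Ioc m (m + h)).filter (fun n => b1d T ∣ n)).card : ℝ) := by
  classical
  have h1 : ∀ n, ∑ T ∈ ((pr z).filter (fun p => p ∣ n)).powerset, f T =
      ∑ T ∈ (pr z).powerset, if b1d T ∣ n then f T else 0 := by
    intro n
    rw [← Finset.sum_filter]
    refine Finset.sum_congr ?_ fun _ _ => rfl
    ext T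
    simp only [mem_powerset, mem_filter]
    constructor
    · intro hT
      have hT' : T ⊆ pr z := hT.trans (Finset.filter_subset _ _)
      exact ⟨hT', (b1_subset_iff z n T hT').1 hT⟩
    · rintro ⟨hT', hd⟩
      exact (b1_subset_iff z n T hT').2 hd
  rw [Finset.sum_congr rfl fun n _ => h1 n, Finset.sum_comm]
  refine Finset.sum_congr rfl fun T _ => ?_
  rw [← Finset.sum_filter, Finset.sum_const, nsmul_eq_mul, mul_comm]

theorem b1_V (z : ℕ) : V z = ∑ T ∈ (pr z).powerset, (-1 : ℝ) ^ T.card / (b1d T : ℝ) := by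
  unfold V
  have : ∀ p ∈ pr z, (1 - 1 / (p : ℝ)) = 1 + (-1) * (p : ℝ)⁻¹ := by
    intro p _
    ring
  rw [Finset.prod_congr rfl this, Finset.prod_one_add]
  refine Finset.sum_congr rfl fun T _ => ?_
  rw [Finset.prod_mul_distrib, Finset.prod_const, Finset.prod_inv_distrib]
  unfold b1d
  push_cast
  rw [div_eq_mul_inv]

theorem b1_prod (z : ℕ) (b : ℝ) : ∏ p ∈ pr z, (1 + (p : ℝ) ^ (b - 1)) =
    ∑ T ∈ (pr z).powerset, (b1d T : ℝ) ^ (b - 1) := by
  rw [Finset.prod_one_add]
  refine Finset.sum_congr rfl fun T _ => ?_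
  unfold b1d
  push_cast
  rw [Real.finsetProd_rpow]
  intro i _
  positivity

/-- B1: the sieve with the pairing identity and Rankin's trick -/
theorem sieve_dev (z m h : ℕ) (b : ℝ) (hb0 : 0 ≤ b) (hb1 : b ≤ 1) (hz : 1 ≤ z) (hzh : z ≤ h) :
    |(R z m h : ℝ) - h * V z| ≤
      4 * h * ((h : ℝ) / z) ^ (-b) * ∏ p ∈ pr z, (1 + (p : ℝ) ^ (b - 1)) := by
  classical
  have hh : 1 ≤ h := hz.trans hzh
  have hhR : (1 : ℝ) ≤ h := by exact_mod_cast hh
  have hzR : (1 : ℝ) ≤ z := by exact_mod_cast hz
  have hh0 : (0 : ℝ) < h := by linarith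
  have hz0 : (0 : ℝ) < z := by linarith
  set N : Finset ℕ → ℝ := fun T => (((Ioc m (m + h)).filter (fun n => b1d T ∣ n)).card : ℝ)
    with hN
  -- step 1: the number of elements as a sum
  have hR : (R z m h : ℝ) = ∑ n ∈ Ioc m (m + h),
      (if (pr z).filter (fun p => p ∣ n) = ∅ then (1 : ℝ) else 0) := by
    unfold R
    rw [← Finset.sum_filter, Finset.sum_const, nsmul_eq_mul, mul_one]
    congr 2
    ext n
    simp only [mem_filter, b1_coprime_iff]
  have h1 : |(R z m h : ℝ) - ∑ T ∈ (pr z).powerset,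
      (if b1d T ≤ h then (-1 : ℝ) ^ T.card else 0) * N T| ≤
      ∑ T ∈ (pr z).powerset, (if b1d T ≤ h ∧ h < z * b1d T then (1 : ℝ) else 0) * N T := by
    rw [← b1_swap z m h, ← b1_swap z m h, hR, ← Finset.sum_sub_distrib]
    refine (Finset.abs_sum_le_sum_abs _ _).trans ?_
    refine Finset.sum_le_sum fun n _ => ?_
    exact b1_pair z h hh _ (Finset.filter_subset _ _)
  -- step 2: the rest
  rw [b1_V, b1_prod]
  have hkey : |(R z m h : ℝ) - h * ∑ T ∈ (pr z).powerset, (-1 : ℝ) ^ T.card / (b1d T : ℝ)| ≤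
      ∑ T ∈ (pr z).powerset, (if b1d T ≤ h ∧ h < z * b1d T then (1 : ℝ) else 0) * N T +
      ∑ T ∈ (pr z).powerset, |(if b1d T ≤ h then (-1 : ℝ) ^ T.card else 0) * N T -
        h * ((-1 : ℝ) ^ T.card / (b1d T : ℝ))| := by
    have h2 : |(∑ T ∈ (pr z).powerset, (if b1d T ≤ h then (-1 : ℝ) ^ T.card else 0) * N T) -
        h * ∑ T ∈ (pr z).powerset, (-1 : ℝ) ^ T.card / (b1d T : ℝ)| ≤
        ∑ T ∈ (pr z).powerset, |(if b1d T ≤ h then (-1 : ℝ) ^ T.card else 0) * N T -
        h * ((-1 : ℝ) ^ T.card / (b1d T : ℝ))| := by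
      rw [Finset.mul_sum, ← Finset.sum_sub_distrib]
      exact Finset.abs_sum_le_sum_abs _ _
    calc _ ≤ _ := abs_sub_le _ (∑ T ∈ (pr z).powerset,
          (if b1d T ≤ h then (-1 : ℝ) ^ T.card else 0) * N T) _
      _ ≤ _ := add_le_add h1 h2
  refine hkey.trans ?_
  rw [← Finset.sum_add_distrib, Finset.mul_sum]
  refine Finset.sum_le_sum fun T hT => ?_
  have hd := b1d_pos z T (Finset.mem_powerset.1 hT)
  have hdR : (0 : ℝ) < b1d T := by exact_mod_cast hd
  have hNT : |N T - h / (b1d T : ℝ)| ≤ 1 := b1_count_abs m h (b1d T) hd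
  -- abbreviations
  set d : ℝ := (b1d T : ℝ) with hd_def
  have hrhs : (4 : ℝ) * h * ((h : ℝ) / z) ^ (-b) * d ^ (b - 1) = 4 * (h / d * (z * d / h) ^ b) := by
    rw [Real.rpow_sub_one hdR.ne', Real.rpow_neg (by positivity),
      ← Real.inv_rpow (by positivity), inv_div]
    have : (z * d / h : ℝ) = (z / h) * d := by ring
    rw [this, Real.mul_rpow (by positivity) hdR.le]
    field_simp
  rw [hrhs]
  have hpow0 : 0 ≤ (z * d / h : ℝ) ^ b := Real.rpow_nonneg (by positivity) _
  have hhd : 0 < h / d := by positivity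
  have habs1 : |(-1 : ℝ) ^ T.card| = 1 := by rw [abs_pow]; simp
  by_cases hle : b1d T ≤ h
  · have hleR : d ≤ h := by
      rw [hd_def]; exact_mod_cast hle
    have hone : 1 ≤ h / d := by rwa [one_le_div hdR]
    have hA : |(if b1d T ≤ h then (-1 : ℝ) ^ T.card else 0) * N T - h * ((-1 : ℝ) ^ T.card / d)| ≤
        1 := by
      rw [if_pos hle]
      have : (-1 : ℝ) ^ T.card * N T - h * ((-1 : ℝ) ^ T.card / d) =
          (-1 : ℝ) ^ T.card * (N T - h / d) := by ring
      rw [this, abs_mul, habs1, one_mul]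
      exact hNT
    -- 1 ≤ (h/d) (z d/h)^b
    have hB : 1 ≤ h / d * (z * d / h) ^ b := by
      have h3 : (d / h : ℝ) ≤ (d / h) ^ b := by
        have hdh : d / h ≤ 1 := by rwa [div_le_one hh0]
        calc (d / h : ℝ) = (d / h) ^ (1 : ℝ) := (Real.rpow_one _).symm
          _ ≤ (d / h) ^ b := Real.rpow_le_rpow_of_exponent_ge (by positivity) hdh hb1
      have h4 : (d / h : ℝ) ^ b ≤ (z * d / h) ^ b := by
        apply Real.rpow_le_rpow (by positivity) _ hb0
        rw [mul_div_assoc]
        have : 0 ≤ d / (h : ℝ) := by positivity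
        nlinarith
      calc (1 : ℝ) = h / d * (d / h) := by field_simp
        _ ≤ h / d * (z * d / h) ^ b := by
            apply mul_le_mul_of_nonneg_left (h3.trans h4) hhd.le
    by_cases hlt : h < z * b1d T
    · rw [if_pos ⟨hle, hlt⟩, one_mul]
      have hltR : (h : ℝ) < z * d := by
        rw [hd_def]; exact_mod_cast hlt
      have hC : 1 ≤ (z * d / h : ℝ) ^ b := by
        apply Real.one_le_rpow _ hb0
        rw [one_le_div hh0]
        exact hltR.le
      have hNle : N T ≤ 2 * (h / d) := by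
        have := (abs_le.1 hNT).2
        linarith
      have hD : h / d ≤ h / d * (z * d / h) ^ b := le_mul_of_one_le_right hhd.le hC
      linarith
    · rw [if_neg (fun h => hlt h.2), zero_mul, zero_add]
      linarith
  · have hltR : (h : ℝ) < d := by
      rw [hd_def]; exact_mod_cast (not_le.1 hle)
    rw [if_neg (fun h => hle h.1), if_neg hle, zero_mul, zero_add, zero_sub, abs_neg]
    have : |(h : ℝ) * ((-1 : ℝ) ^ T.card / d)| = h / d := by
      rw [abs_mul, abs_div, habs1, abs_of_pos hh0, abs_of_pos hdR]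
      ring
    rw [this]
    have hC : 1 ≤ (z * d / h : ℝ) ^ b := by
      apply Real.one_le_rpow _ hb0
      rw [one_le_div hh0]
      nlinarith
    have hD : h / d ≤ h / d * (z * d / h) ^ b := le_mul_of_one_le_right hhd.le hC
    nlinarith

end Pool.Gal99
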