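import Pool.Agent.LibGal99.A0
import Pool.Agent.LibGal99.B1
import Pool.Agent.LibGal99.D1

namespace Pool.Gal99

open Finset Filter Topology MeasureTheory Set


theorem D6_prod_ge (z : ℕ) (b : ℝ) : 1 ≤ ∏ p ∈ pr z, (1 + (p : ℝ) ^ (b - 1)) := by
  refine Finset.one_le_prod fun p _ => ?_
  have h1 : (0 : ℝ) ≤ (p : ℝ) ^ (b - 1) := by positivity
  linarith

theorem D6_R_le (z h : ℕ) : R z 0 h ≤ h := by
  unfold R
  refine (Finset.card_filter_le _ _).trans ?_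
  rw [Nat.card_Ioc]
  omega

/-- `y (y/z)^(-b) = z^b y^(1-b)` -/
theorem D6_rpow (z : ℕ) (y b : ℝ) (hy : 0 < y) :
    y * (y / z) ^ (-b) = (z : ℝ) ^ b * y ^ (1 - b) := by
  rw [Real.div_rpow hy.le (Nat.cast_nonneg z), Real.rpow_neg (Nat.cast_nonneg z), div_inv_eq_mul,
    Real.rpow_sub hy, Real.rpow_one, Real.rpow_neg hy.le]
  ring

/-- D6 -/
theorem EE_bound (z : ℕ) (y b : ℝ) (hz : 1 ≤ z) (hy : 0 < y) (hb0 : 0 ≤ b) (hb1 : b ≤ 1) :
    |EE z y| ≤ 5 * y * (y / z) ^ (-b) * ∏ p ∈ pr z, (1 + (p : ℝ) ^ (b - 1)) := by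
  have hP := D6_prod_ge z b
  set P : ℝ := ∏ p ∈ pr z, (1 + (p : ℝ) ^ (b - 1)) with hPdef
  have hz1 : (1 : ℝ) ≤ z := by exact_mod_cast hz
  have hz0 : (0 : ℝ) < z := by linarith
  have hfl : (⌊y⌋₊ : ℝ) ≤ y := Nat.floor_le hy.le
  have hfl' : y < ⌊y⌋₊ + 1 := Nat.lt_floor_add_one y
  have hV0 := V_pos z
  have hV1 := V_le_one z
  unfold EE
  rcases lt_or_ge y z with h | h
  · have h1 : (R z 0 ⌊y⌋₊ : ℝ) ≤ y := by
      have h2 : (R z 0 ⌊y⌋₊ : ℝ) ≤ ⌊y⌋₊ := by exact_mod_cast D6_R_le z ⌊y⌋₊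
      linarith
    have h2 : (0 : ℝ) ≤ R z 0 ⌊y⌋₊ := Nat.cast_nonneg _
    have h3 : 0 ≤ y * V z := by positivity
    have h4 : y * V z ≤ y := by nlinarith
    have h5 : |(R z 0 ⌊y⌋₊ : ℝ) - y * V z| ≤ y := abs_le.2 ⟨by linarith, by linarith⟩
    have h6 : 1 ≤ (y / z) ^ (-b) :=
      Real.one_le_rpow_of_pos_of_le_one_of_nonpos (div_pos hy hz0)
        ((div_le_one hz0).2 h.le) (by linarith)
    have h7 : 1 ≤ (y / z) ^ (-b) * P := one_le_mul_of_one_le_of_one_le h6 hP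
    have h8 : y * 1 ≤ y * ((y / z) ^ (-b) * P) := mul_le_mul_of_nonneg_left h7 hy.le
    calc |(R z 0 ⌊y⌋₊ : ℝ) - y * V z| ≤ y := h5
      _ ≤ 5 * (y * ((y / z) ^ (-b) * P)) := by linarith
      _ = _ := by ring
  · have hzf : z ≤ ⌊y⌋₊ := Nat.le_floor h
    have hh0 : (0 : ℝ) < ⌊y⌋₊ := by
      have : (z : ℝ) ≤ ⌊y⌋₊ := by exact_mod_cast hzf
      linarith
    have h1 := sieve_dev z 0 ⌊y⌋₊ b hb0 hb1 hz hzf
    have h2 : |(R z 0 ⌊y⌋₊ : ℝ) - y * V z| ≤ |(R z 0 ⌊y⌋₊ : ℝ) - ⌊y⌋₊ * V z| + 1 := by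
      have h3 : (R z 0 ⌊y⌋₊ : ℝ) - y * V z
          = ((R z 0 ⌊y⌋₊ : ℝ) - ⌊y⌋₊ * V z) + (-((y - ⌊y⌋₊) * V z)) := by ring
      rw [h3]
      refine (abs_add_le _ _).trans ?_
      have h4 : |-((y - ⌊y⌋₊) * V z)| ≤ 1 := by
        rw [abs_neg, abs_of_nonneg (mul_nonneg (by linarith) hV0.le)]
        nlinarith
      linarith
    have h3 : (⌊y⌋₊ : ℝ) * ((⌊y⌋₊ : ℝ) / z) ^ (-b) ≤ y * (y / z) ^ (-b) := by
      rw [D6_rpow z _ b hh0, D6_rpow z y b hy]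
      refine mul_le_mul_of_nonneg_left ?_ (Real.rpow_nonneg hz0.le b)
      exact Real.rpow_le_rpow hh0.le hfl (by linarith)
    have h4 : 1 ≤ y * (y / z) ^ (-b) := by
      rw [D6_rpow z y b hy]
      exact one_le_mul_of_one_le_of_one_le (Real.one_le_rpow hz1 hb0)
        (Real.one_le_rpow (by linarith) (by linarith))
    have h5 : 4 * ((⌊y⌋₊ : ℝ) * ((⌊y⌋₊ : ℝ) / z) ^ (-b)) * P ≤ 4 * (y * (y / z) ^ (-b)) * P := by
      have : (0 : ℝ) ≤ P := by linarith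
      gcongr
    have h6 : 1 ≤ y * (y / z) ^ (-b) * P := one_le_mul_of_one_le_of_one_le h4 hP
    calc |(R z 0 ⌊y⌋₊ : ℝ) - y * V z| ≤ |(R z 0 ⌊y⌋₊ : ℝ) - ⌊y⌋₊ * V z| + 1 := h2
      _ ≤ 4 * ⌊y⌋₊ * ((⌊y⌋₊ : ℝ) / z) ^ (-b) * P + 1 := by linarith
      _ = 4 * ((⌊y⌋₊ : ℝ) * ((⌊y⌋₊ : ℝ) / z) ^ (-b)) * P + 1 := by ring
      _ ≤ 4 * (y * (y / z) ^ (-b)) * P + y * (y / z) ^ (-b) * P := by linarith
      _ = _ := by ring

/-- the pointwise bound of the integrand -/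
theorem D6_point (z : ℕ) (hz : 1 ≤ z) (β b y : ℝ) (hb0 : 0 ≤ b) (hb1 : b ≤ 1) (hy : 0 < y) :
    |EE z y| * y ^ (β - 2) ≤
      5 * (z : ℝ) ^ b * (∏ p ∈ pr z, (1 + (p : ℝ) ^ (b - 1))) * y ^ (β - b - 1) := by
  have h1 := EE_bound z y b hz hy hb0 hb1
  set P : ℝ := ∏ p ∈ pr z, (1 + (p : ℝ) ^ (b - 1)) with hPdef
  calc |EE z y| * y ^ (β - 2) ≤ (5 * y * (y / z) ^ (-b) * P) * y ^ (β - 2) :=
        mul_le_mul_of_nonneg_right h1 (Real.rpow_nonneg hy.le _)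
    _ = 5 * (y * (y / z) ^ (-b)) * P * y ^ (β - 2) := by ring
    _ = 5 * ((z : ℝ) ^ b * y ^ (1 - b)) * P * y ^ (β - 2) := by rw [D6_rpow z y b hy]
    _ = 5 * (z : ℝ) ^ b * P * (y ^ (1 - b) * y ^ (β - 2)) := by ring
    _ = _ := by
      rw [← Real.rpow_add hy]
      congr 2
      ring

/-- D7 -/
theorem int_low (z : ℕ) (hz : 1 ≤ z) (β b y₁ : ℝ) (hb0 : 0 ≤ b) (hb : b < β) (hβ : β < 1)
    (hy : 0 < y₁) :
    ∫ y in Set.Ioc 0 y₁, |EE z y| * y ^ (β - 2) ≤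
      5 * (z : ℝ) ^ b * (∏ p ∈ pr z, (1 + (p : ℝ) ^ (b - 1))) * (y₁ ^ (β - b) / (β - b)) := by
  set P : ℝ := ∏ p ∈ pr z, (1 + (p : ℝ) ^ (b - 1)) with hPdef
  have hr : -1 < β - b - 1 := by linarith
  have hint : IntegrableOn (fun y : ℝ => 5 * (z : ℝ) ^ b * P * y ^ (β - b - 1)) (Set.Ioc 0 y₁) := by
    have h1 := (intervalIntegral.intervalIntegrable_rpow' (a := 0) (b := y₁) hr).1
    exact h1.const_mul _
  have h1 : ∫ y in Set.Ioc 0 y₁, |EE z y| * y ^ (β - 2) ≤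
      ∫ y in Set.Ioc 0 y₁, 5 * (z : ℝ) ^ b * P * y ^ (β - b - 1) := by
    refine integral_mono_of_nonneg ?_ hint ?_
    · refine (ae_restrict_iff' measurableSet_Ioc).2 (Eventually.of_forall fun y hy' => ?_)
      have := hy'.1
      positivity
    · refine (ae_restrict_iff' measurableSet_Ioc).2 (Eventually.of_forall fun y hy' => ?_)
      exact D6_point z hz β b y hb0 (by linarith) hy'.1
  refine h1.trans (le_of_eq ?_)
  rw [integral_const_mul, ← intervalIntegral.integral_of_le hy.le, integral_rpow (Or.inl hr)]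
  have h2 : β - b - 1 + 1 = β - b := by ring
  rw [h2, Real.zero_rpow (by linarith), sub_zero]

theorem int_high (z : ℕ) (hz : 1 ≤ z) (β b y₂ : ℝ) (hb1 : b ≤ 1) (hβ : 0 < β) (hb : β < b)
    (hy : 0 < y₂) :
    ∫ y in Set.Ioi y₂, |EE z y| * y ^ (β - 2) ≤
      5 * (z : ℝ) ^ b * (∏ p ∈ pr z, (1 + (p : ℝ) ^ (b - 1))) * (y₂ ^ (β - b) / (b - β)) := by
  set P : ℝ := ∏ p ∈ pr z, (1 + (p : ℝ) ^ (b - 1)) with hPdef
  have hr : β - b - 1 < -1 := by linarith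
  have hint : IntegrableOn (fun y : ℝ => 5 * (z : ℝ) ^ b * P * y ^ (β - b - 1)) (Set.Ioi y₂) :=
    (integrableOn_Ioi_rpow_of_lt hr hy).const_mul _
  have h1 : ∫ y in Set.Ioi y₂, |EE z y| * y ^ (β - 2) ≤
      ∫ y in Set.Ioi y₂, 5 * (z : ℝ) ^ b * P * y ^ (β - b - 1) := by
    refine integral_mono_of_nonneg ?_ hint ?_
    · refine (ae_restrict_iff' measurableSet_Ioi).2 (Eventually.of_forall fun y hy' => ?_)
      have : 0 < y := lt_trans hy hy'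
      positivity
    · refine (ae_restrict_iff' measurableSet_Ioi).2 (Eventually.of_forall fun y hy' => ?_)
      exact D6_point z hz β b y (by linarith) hb1 (lt_trans hy hy')
  refine h1.trans (le_of_eq ?_)
  rw [integral_const_mul, integral_Ioi_rpow_of_lt hr hy]
  have h2 : β - b - 1 + 1 = -(b - β) := by ring
  have h3 : β - b = -(b - β) := by ring
  rw [h2, h3, neg_div_neg_eq]

theorem D6_meas (z : ℕ) (β : ℝ) : Measurable fun y : ℝ => |EE z y| * y ^ (β - 2) :=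
  (measurable_EE z).abs.mul (measurable_id.pow_const _)

theorem integrable_EE (z : ℕ) (hz : 1 ≤ z) (β : ℝ) (hβ : 0 < β) (hβ1 : β < 1) :
    IntegrableOn (fun y => |EE z y| * y ^ (β - 2)) (Set.Ioi 0) := by
  rw [← Set.Ioc_union_Ioi_eq_Ioi (zero_le_one' ℝ)]
  refine IntegrableOn.union ?_ ?_
  · have hr : -1 < β - β / 2 - 1 := by linarith
    have hint := ((intervalIntegral.intervalIntegrable_rpow' (a := 0) (b := 1) hr).1).const_mul
      (5 * (z : ℝ) ^ (β / 2) * (∏ p ∈ pr z, (1 + (p : ℝ) ^ (β / 2 - 1))))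
    refine Integrable.mono' hint (D6_meas z β).aestronglyMeasurable ?_
    refine (ae_restrict_iff' measurableSet_Ioc).2 (Eventually.of_forall fun y hy' => ?_)
    rw [Real.norm_eq_abs, abs_of_nonneg (mul_nonneg (abs_nonneg _) (Real.rpow_nonneg hy'.1.le _))]
    exact D6_point z hz β (β / 2) y (by linarith) (by linarith) hy'.1
  · have hr : β - (β + 1) / 2 - 1 < -1 := by linarith
    have hint := (integrableOn_Ioi_rpow_of_lt hr (zero_lt_one' ℝ)).const_mul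
      (5 * (z : ℝ) ^ ((β + 1) / 2) * (∏ p ∈ pr z, (1 + (p : ℝ) ^ ((β + 1) / 2 - 1))))
    refine Integrable.mono' hint (D6_meas z β).aestronglyMeasurable ?_
    refine (ae_restrict_iff' measurableSet_Ioi).2 (Eventually.of_forall fun y hy' => ?_)
    have hy0 : 0 < y := lt_trans zero_lt_one hy'
    rw [Real.norm_eq_abs, abs_of_nonneg (mul_nonneg (abs_nonneg _) (Real.rpow_nonneg hy0.le _))]
    exact D6_point z hz β ((β + 1) / 2) y (by linarith) (by linarith) hy0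

end Pool.Gal99
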