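import Pool.Agent.LibGal99.A0
import Pool.Agent.LibGal99.D1

namespace Pool.Gal99

open Finset Filter Topology MeasureTheory Set


/-- D2a -/
theorem mellinConvergent_fract (s : ℂ) (h0 : 0 < s.re) (h1 : s.re < 1) :
    MellinConvergent (fun x : ℝ => ((Int.fract x : ℝ) : ℂ)) (-s) := by
  refine mellinConvergent_of_isBigO_rpow (a := 0) (b := -1) ?_ ?_ ?_ ?_ ?_
  · refine LocallyIntegrable.locallyIntegrableOn ?_ _
    refine (locallyIntegrable_const (1 : ℂ)).mono ?_ ?_
    · exact (Complex.measurable_ofReal.comp measurable_fract).aestronglyMeasurable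
    · refine Eventually.of_forall fun x => ?_
      rw [Complex.norm_real, norm_one, Real.norm_eq_abs, abs_of_nonneg (Int.fract_nonneg x)]
      exact (Int.fract_lt_one x).le
  · refine Asymptotics.IsBigO.of_bound 1 (Eventually.of_forall fun x => ?_)
    rw [neg_zero, Real.rpow_zero, norm_one, mul_one, Complex.norm_real, Real.norm_eq_abs,
      abs_of_nonneg (Int.fract_nonneg x)]
    exact (Int.fract_lt_one x).le
  · rw [Complex.neg_re]
    linarith
  · refine Asymptotics.IsBigO.of_bound 1 ?_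
    filter_upwards [Ioo_mem_nhdsGT (show (0 : ℝ) < 1 from one_pos)] with x hx
    rw [neg_neg, Real.rpow_one, one_mul, Complex.norm_real, Int.fract_eq_self.2 ⟨hx.1.le, hx.2⟩]
  · rw [Complex.neg_re]
    linarith

/-- Finite linear combinations. -/
theorem D2_sum {ι : Type} (S : Finset ι) (c : ι → ℂ) (f : ι → ℝ → ℂ) (m : ι → ℂ) (s : ℂ)
    (h : ∀ i ∈ S, HasMellin (f i) s (m i)) :
    HasMellin (fun y => ∑ i ∈ S, c i * f i y) s (∑ i ∈ S, c i * m i) := by
  classical
  induction S using Finset.induction_on with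
  | empty =>
    refine ⟨?_, ?_⟩
    · simp [MellinConvergent]
    · simp [mellin]
  | insert a S ha ih =>
    have h1 := h a (Finset.mem_insert_self a S)
    have h2 := ih fun i hi => h i (Finset.mem_insert_of_mem hi)
    have h3 : HasMellin (fun y => c a * f a y) s (c a * m a) := by
      refine ⟨h1.1.const_smul (c a), ?_⟩
      have := mellin_const_smul (f := f a) (s := s) (c a)
      rw [h1.2] at this
      exact this
    have h4 := hasMellin_add h3.1 h2.1
    simp only [Finset.sum_insert ha]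
    rw [h3.2, h2.2] at h4
    exact h4

/-- D2b -/
theorem mellin_EE (z : ℕ) (s : ℂ) (h0 : 0 < s.re) (h1 : s.re < 1) :
    MellinConvergent (fun y : ℝ => ((EE z y : ℝ) : ℂ)) (-s) ∧
      mellin (fun y : ℝ => ((EE z y : ℝ) : ℂ)) (-s) = -(zs s * GG z s) := by
  have hone : ∀ d ∈ (Pz z).divisors,
      HasMellin (fun y : ℝ => ((Int.fract ((d : ℝ)⁻¹ * y) : ℝ) : ℂ)) (-s) ((d : ℂ) ^ (-s) * zs s) := by
    intro d hd
    have hd0 : (0 : ℝ) < (d : ℝ)⁻¹ := by
      have : 0 < d := Nat.pos_of_mem_divisors hd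
      positivity
    refine ⟨(MellinConvergent.comp_mul_left hd0).2 (mellinConvergent_fract s h0 h1), ?_⟩
    rw [mellin_comp_mul_left (fun x : ℝ => ((Int.fract x : ℝ) : ℂ)) (-s) hd0, smul_eq_mul, neg_neg]
    congr 1
    have hpos : 0 < d := Nat.pos_of_mem_divisors hd
    rw [Complex.ofReal_inv, Complex.ofReal_natCast, Complex.inv_cpow _ _ (by
      rw [Complex.natCast_arg]; exact Real.pi_pos.ne), Complex.cpow_neg]
  have hsum := D2_sum (Pz z).divisors (fun d => -((ArithmeticFunction.moebius d : ℤ) : ℂ))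
    (fun d y => ((Int.fract ((d : ℝ)⁻¹ * y) : ℝ) : ℂ)) (fun d => (d : ℂ) ^ (-s) * zs s) (-s) hone
  have hfun : ∀ y ∈ Ioi (0 : ℝ), ∑ d ∈ (Pz z).divisors, -((ArithmeticFunction.moebius d : ℤ) : ℂ) *
      ((Int.fract ((d : ℝ)⁻¹ * y) : ℝ) : ℂ) = ((EE z y : ℝ) : ℂ) := by
    intro y hy
    rw [EE_eq z y (le_of_lt hy)]
    push_cast
    rw [← Finset.sum_neg_distrib]
    refine Finset.sum_congr rfl fun d _ => ?_
    rw [neg_mul, div_eq_inv_mul]
  constructor
  · have := hsum.1
    unfold MellinConvergent at this ⊢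
    refine this.congr_fun (fun y hy => ?_) measurableSet_Ioi
    change (y : ℂ) ^ (-s - 1) • (∑ d ∈ (Pz z).divisors, -((ArithmeticFunction.moebius d : ℤ) : ℂ) *
      ((Int.fract ((d : ℝ)⁻¹ * y) : ℝ) : ℂ)) = _
    rw [hfun y hy]
  · have h2 : mellin (fun y : ℝ => ((EE z y : ℝ) : ℂ)) (-s)
        = mellin (fun y => ∑ d ∈ (Pz z).divisors, -((ArithmeticFunction.moebius d : ℤ) : ℂ) *
          ((Int.fract ((d : ℝ)⁻¹ * y) : ℝ) : ℂ)) (-s) := by
      unfold mellin
      refine setIntegral_congr_fun measurableSet_Ioi fun y hy => ?_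
      change (y : ℂ) ^ (-s - 1) • ((EE z y : ℝ) : ℂ) = _ • _
      rw [← hfun y hy]
    rw [h2, hsum.2, GG_eq, Finset.mul_sum, ← Finset.sum_neg_distrib]
    refine Finset.sum_congr rfl fun d _ => ?_
    ring

end Pool.Gal99
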