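import Pool.Agent.LibGal99.D10a
import Pool.Agent.LibGal99.D1
import Pool.Agent.LibGal99.D3
import Pool.Agent.LibGal99.D4
import Pool.Agent.LibGal99.D5
import Pool.Agent.LibGal99.D6
import Pool.Agent.LibGal99.D8

namespace Pool.Gal99

open Finset Filter Topology MeasureTheory Set


theorem d10_prod_le (z : ℕ) (b : ℝ) :
    ∏ p ∈ pr z, (1 + (p : ℝ) ^ (b - 1)) ≤ Real.exp (∑ p ∈ pr z, (p : ℝ) ^ (b - 1)) := by
  rw [Real.exp_sum]
  refine Finset.prod_le_prod (fun p _ => by positivity) (fun p _ => ?_)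
  rw [add_comm]
  exact Real.add_one_le_exp _

theorem d10_zz_pos (h : ℕ) (hl : 0 < ll h) : (0 : ℝ) < (zz h : ℝ) := by
  rcases Nat.eq_zero_or_pos (zz h) with h0 | h0
  · exfalso
    unfold ll at hl
    rw [h0] at hl
    simp at hl
  · exact_mod_cast h0

theorem d10_zz_pow (h : ℕ) (hl : 0 < ll h) (x : ℝ) (hx : 0 < x) :
    (zz h : ℝ) ^ (Real.log x / ll h) = x := by
  rw [Real.rpow_def_of_pos (d10_zz_pos h hl)]
  have : Real.log (zz h : ℝ) = ll h := rfl
  rw [this, mul_div_cancel₀ _ hl.ne', Real.exp_log hx]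

theorem d10_zz3 : ∀ᶠ h : ℕ in atTop, 3 ≤ zz h := by
  filter_upwards [d10_ll_atTop.eventually_ge_atTop 2] with h hl
  have hp := d10_zz_pos h (by linarith)
  have h1 : (3 : ℝ) ≤ zz h := by
    have h2 : Real.log 3 ≤ Real.log (zz h) := by
      have h3 : Real.log 3 ≤ 2 := by
        have := Real.log_le_sub_one_of_pos (show (0 : ℝ) < 3 by norm_num)
        linarith
      exact h3.trans hl
    exact (Real.log_le_log_iff (by norm_num) hp).1 h2
  exact_mod_cast h1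

/-- the level `τ v` -/
theorem d10_level (ξ τ κ : ℝ) (hξ : 0 < ξ) (hτ : 0 < τ) (hτ1 : τ ≠ 1) (hκ : 0 < κ) :
    ∀ᶠ h : ℕ in atTop, 0 < Real.log (τ * vs ξ h) / ll h ∧ Real.log (τ * vs ξ h) / ll h ≤ 1 / 2 ∧
      5 * (zz h : ℝ) ^ (Real.log (τ * vs ξ h) / ll h) *
        (∏ p ∈ pr (zz h), (1 + (p : ℝ) ^ (Real.log (τ * vs ξ h) / ll h - 1))) *
        (Real.exp (-(τ * Real.log τ) * ws ξ h) * (ll h / |Real.log τ|)) ≤
      Real.exp ((τ * (1 - Real.log τ) + κ) * ws ξ h) := by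
  have hlogτ : Real.log τ ≠ 0 := Real.log_ne_zero_of_pos_of_ne_one hτ hτ1
  obtain ⟨C, hC, hsum⟩ := sum_rpow_sharp (κ / (2 * τ)) (by positivity)
  have hw := d10_w_atTop ξ hξ
  have hτv : Tendsto (fun h => τ * vs ξ h) atTop atTop := (d10_v_atTop ξ hξ).const_mul_atTop hτ
  have hlτv : Tendsto (fun h => Real.log (τ * vs ξ h)) atTop atTop :=
    Real.tendsto_log_atTop.comp hτv
  have hb : Tendsto (fun h => Real.log (τ * vs ξ h) / ll h) atTop (𝓝 0) := by
    have h1 : Tendsto (fun h => Real.log τ / ll h + Real.log (vs ξ h) / ll h) atTop (𝓝 (0 + 0)) :=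
      (tendsto_const_nhds.div_atTop d10_ll_atTop).add (d10_beta ξ hξ)
    rw [add_zero] at h1
    refine h1.congr' ?_
    filter_upwards [(d10_v_atTop ξ hξ).eventually_gt_atTop 0] with h hv
    rw [Real.log_mul hτ.ne' hv.ne', add_div]
  have hlim : Tendsto (fun h => (Real.log 5 / ws ξ h + (Real.log τ / ws ξ h +
      Real.log (vs ξ h) / ws ξ h)) + ((1 + κ / (2 * τ)) * (τ * vs ξ h / Real.log (τ * vs ξ h) /
      ws ξ h) + C * (1 / ws ξ h + Real.sqrt (τ * vs ξ h) * (1 + Real.log (ll h + 1)) / ws ξ h)) +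
      (-(τ * Real.log τ) + (Real.log (ll h + 1) / ws ξ h - Real.log |Real.log τ| / ws ξ h))) atTop
      (𝓝 ((0 + (0 + 0)) + ((1 + κ / (2 * τ)) * τ + C * (0 + 0)) +
        (-(τ * Real.log τ) + (0 - 0)))) := by
    refine ((tendsto_const_nhds.div_atTop hw).add ((tendsto_const_nhds.div_atTop hw).add
      (d10_logv_w ξ hξ))).add (((d10_vlogv ξ τ hξ hτ).const_mul _).add
        (((tendsto_const_nhds.div_atTop hw).add (d10_sqrt ξ τ hξ hτ)).const_mul C)) |>.add ?_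
    exact ((d10_logl_w ξ hξ).sub (tendsto_const_nhds.div_atTop hw)).const_add _
  have hlt : (0 + (0 + 0)) + ((1 + κ / (2 * τ)) * τ + C * (0 + 0)) +
        (-(τ * Real.log τ) + (0 - 0)) < τ * (1 - Real.log τ) + κ := by
    have : κ / (2 * τ) * τ = κ / 2 := by field_simp
    nlinarith
  filter_upwards [hlim.eventually_lt_const hlt, hw.eventually_gt_atTop 0,
    d10_ll_atTop.eventually_gt_atTop 0, hlτv.eventually_ge_atTop 1, hτv.eventually_gt_atTop 0,
    hb.eventually_le_const (show (0 : ℝ) < 1 / 2 by norm_num), d10_zz3,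
    (d10_v_atTop ξ hξ).eventually_gt_atTop 0] with h h1 hw0 hl hlt1 htv0 hb2 hz3 hv0
  have hb0 : 0 < Real.log (τ * vs ξ h) / ll h := by positivity
  refine ⟨hb0, hb2, ?_⟩
  set b := Real.log (τ * vs ξ h) / ll h with hbdef
  have hpow : (zz h : ℝ) ^ b = τ * vs ξ h := d10_zz_pow h hl _ htv0
  have hs := hsum (zz h) hz3 b hb0 hb2 (by
    rw [hpow]
    rw [← Real.exp_log htv0]
    exact Real.exp_le_exp.2 hlt1)
  rw [hpow] at hs
  have hll : Real.log (zz h : ℝ) = ll h := rfl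
  rw [hll] at hs
  rw [hpow]
  have habs : 0 < |Real.log τ| := abs_pos.2 hlogτ
  have e5 : (5 : ℝ) = Real.exp (Real.log 5) := (Real.exp_log (by norm_num)).symm
  have etv : τ * vs ξ h = Real.exp (Real.log τ + Real.log (vs ξ h)) := by
    rw [Real.exp_add, Real.exp_log hτ, Real.exp_log hv0]
  have ell : ll h / |Real.log τ| ≤ Real.exp (Real.log (ll h + 1) - Real.log |Real.log τ|) := by
    rw [Real.exp_sub, Real.exp_log (by linarith), Real.exp_log habs]
    gcongr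
    linarith
  have hprod := (d10_prod_le (zz h) b).trans (Real.exp_le_exp.2 hs)
  have hA : 5 * (τ * vs ξ h) * (∏ p ∈ pr (zz h), (1 + (p : ℝ) ^ (b - 1))) *
      (Real.exp (-(τ * Real.log τ) * ws ξ h) * (ll h / |Real.log τ|)) ≤
      Real.exp (Real.log 5) * Real.exp (Real.log τ + Real.log (vs ξ h)) *
      Real.exp ((1 + κ / (2 * τ)) * (τ * vs ξ h / Real.log (τ * vs ξ h)) +
        C * (1 + Real.sqrt (τ * vs ξ h) * (1 + Real.log (ll h + 1)))) *
      (Real.exp (-(τ * Real.log τ) * ws ξ h) *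
        Real.exp (Real.log (ll h + 1) - Real.log |Real.log τ|)) := by
    rw [← e5, ← etv]
    have hp0 : 0 ≤ ∏ p ∈ pr (zz h), (1 + (p : ℝ) ^ (b - 1)) :=
      Finset.prod_nonneg (fun p _ => by positivity)
    gcongr
  refine hA.trans ?_
  rw [← Real.exp_add, ← Real.exp_add, ← Real.exp_add, ← Real.exp_add]
  apply Real.exp_le_exp.2
  have h2 := mul_le_mul_of_nonneg_right h1.le hw0.le
  refine le_trans (le_of_eq ?_) h2
  generalize Real.sqrt (τ * vs ξ h) * (1 + Real.log (ll h + 1)) = S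
  generalize τ * vs ξ h / Real.log (τ * vs ξ h) = T
  field_simp

theorem d10_f_lt (τ : ℝ) (hτ : 0 < τ) (hτ1 : τ ≠ 1) : τ * (1 - Real.log τ) < 1 := by
  have h1 := Real.log_lt_sub_one_of_pos (inv_pos.2 hτ) (by
    intro h
    exact hτ1 (inv_eq_one.1 h))
  rw [Real.log_inv] at h1
  have h2 : 1 - Real.log τ < τ⁻¹ := by linarith
  calc τ * (1 - Real.log τ) < τ * τ⁻¹ := mul_lt_mul_of_pos_left h2 hτ
    _ = 1 := mul_inv_cancel₀ hτ.ne'

/-- the main term of the Mellin transform -/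
theorem d10_main (ξ κ : ℝ) (hξ : 0 < ξ) (hκ : 0 < κ) : ∀ᶠ h : ℕ in atTop,
    Real.exp ((1 - κ) * ws ξ h) ≤
      ‖zs ((1 - Real.log (vs ξ h) / ll h : ℝ) + (Real.pi / ll h : ℝ) * Complex.I)‖ *
      ‖GG (zz h) ((1 - Real.log (vs ξ h) / ll h : ℝ) + (Real.pi / ll h : ℝ) * Complex.I)‖ := by
  obtain ⟨C, hC, hG⟩ := GG_lower (κ / 2) (by positivity)
  have hw := d10_w_atTop ξ hξ
  have hv1 := d10_vlogv ξ 1 hξ one_pos
  have hs1 := d10_sqrt ξ 1 hξ one_pos
  have hlim : Tendsto (fun h => (1 - κ / 2) * (1 * vs ξ h / Real.log (1 * vs ξ h) / ws ξ h) -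
      C * (1 / ws ξ h + Real.sqrt (1 * vs ξ h) * (1 + Real.log (ll h + 1)) / ws ξ h)) atTop
      (𝓝 ((1 - κ / 2) * 1 - C * (0 + 0))) :=
    (hv1.const_mul _).sub (((tendsto_const_nhds.div_atTop hw).add hs1).const_mul C)
  have hpi : Tendsto (fun h => Real.pi / ll h) atTop (𝓝 0) :=
    tendsto_const_nhds.div_atTop d10_ll_atTop
  filter_upwards [hlim.eventually_const_lt (show 1 - κ < (1 - κ / 2) * 1 - C * (0 + 0) by linarith),
    hw.eventually_gt_atTop 0, d10_ll_atTop.eventually_gt_atTop 0,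
    (d10_logv_atTop ξ hξ).eventually_ge_atTop 1, (d10_v_atTop ξ hξ).eventually_gt_atTop 0,
    (d10_beta ξ hξ).eventually_le_const (show (0 : ℝ) < 1 / 8 by norm_num),
    hpi.eventually_le_const (show (0 : ℝ) < 1 / 8 by norm_num), d10_zz3]
    with h h1 hw0 hl hlv1 hv0 hb hp hz3
  set β := Real.log (vs ξ h) / ll h with hβdef
  have hb0 : 0 < β := by positivity
  have hp0 : 0 < Real.pi / ll h := by positivity
  have hpow : (zz h : ℝ) ^ β = vs ξ h := d10_zz_pow h hl _ hv0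
  have h2 := hG (zz h) hz3 β hb0 (by linarith) (by
    rw [hpow, ← Real.exp_log hv0]
    exact Real.exp_le_exp.2 hlv1)
  rw [hpow] at h2
  have hll : Real.log (zz h : ℝ) = ll h := rfl
  rw [hll] at h2
  have hre : (((1 - β : ℝ) : ℂ) + ((Real.pi / ll h : ℝ) : ℂ) * Complex.I).re = 1 - β := by
    simp
  have h3 := zs_lower (((1 - β : ℝ) : ℂ) + ((Real.pi / ll h : ℝ) : ℂ) * Complex.I)
    (by rw [hre]; linarith) (by rw [hre]; linarith)
  rw [hre] at h3
  have h4 : ‖1 - (((1 - β : ℝ) : ℂ) + ((Real.pi / ll h : ℝ) : ℂ) * Complex.I)‖ ≤ 1 / 4 := by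
    have e1 : 1 - (((1 - β : ℝ) : ℂ) + ((Real.pi / ll h : ℝ) : ℂ) * Complex.I) =
        ((β : ℝ) : ℂ) - ((Real.pi / ll h : ℝ) : ℂ) * Complex.I := by
      push_cast
      ring
    rw [e1]
    refine (norm_sub_le _ _).trans ?_
    rw [norm_mul, Complex.norm_I, mul_one, Complex.norm_real, Complex.norm_real,
      Real.norm_of_nonneg hb0.le, Real.norm_of_nonneg hp0.le]
    linarith
  have h5 : 0 < ‖1 - (((1 - β : ℝ) : ℂ) + ((Real.pi / ll h : ℝ) : ℂ) * Complex.I)‖ := by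
    rw [norm_pos_iff]
    intro h0
    have := congrArg Complex.re h0
    rw [Complex.sub_re, hre] at this
    simp at this
    linarith
  have h6 : (4 : ℝ) ≤ 1 / ‖1 - (((1 - β : ℝ) : ℂ) + ((Real.pi / ll h : ℝ) : ℂ) * Complex.I)‖ := by
    rw [le_div_iff₀ h5]
    linarith
  have h7 : 1 / (1 - β) ≤ 2 := by
    rw [div_le_iff₀ (by linarith)]
    linarith
  have h8 : 1 ≤ ‖zs (((1 - β : ℝ) : ℂ) + ((Real.pi / ll h : ℝ) : ℂ) * Complex.I)‖ := by
    linarith
  have h9 : Real.exp ((1 - κ) * ws ξ h) ≤ Real.exp ((1 - κ / 2) * (vs ξ h / Real.log (vs ξ h)) -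
      C * (1 + Real.sqrt (vs ξ h) * (1 + Real.log (ll h + 1)))) := by
    apply Real.exp_le_exp.2
    have h10 := mul_le_mul_of_nonneg_right h1.le hw0.le
    refine h10.trans (le_of_eq ?_)
    rw [one_mul]
    generalize Real.sqrt (vs ξ h) * (1 + Real.log (ll h + 1)) = S
    generalize vs ξ h / Real.log (vs ξ h) = T
    field_simp
  calc Real.exp ((1 - κ) * ws ξ h) ≤ _ := h9.trans h2
    _ ≤ _ := le_mul_of_one_le_left (norm_nonneg _) h8

theorem d10_eta (ε ξ : ℝ) (hξ : 0 < ξ) (hε : 2 * ξ < ε) : ∀ᶠ h : ℕ in atTop,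
    Real.log 8 + Real.log (ll h + 1) + (1 + 2 * ξ) * (us h * Real.log (vs ξ h)) ≤
      (1 + ε) * ks h / 2 := by
  have h1 : Tendsto (fun x : ℝ => Real.log (x + 1) / x) atTop (𝓝 0) := by
    have h2 : Tendsto (fun x : ℝ => Real.log (x + 1) / (x + 1) * (1 + 1 / x)) atTop
        (𝓝 (0 * (1 + 0))) :=
      (d10_logx.comp (tendsto_atTop_add_const_right _ 1 tendsto_id)).mul
        ((tendsto_const_nhds.div_atTop tendsto_id).const_add 1)
    rw [zero_mul] at h2
    refine h2.congr' ?_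
    filter_upwards [eventually_gt_atTop 0] with x hx
    have : x + 1 ≠ 0 := by positivity
    field_simp
  have h3 : Tendsto (fun h => Real.log 8 / ks h + Real.log (ll h + 1) / ll h * (ll h / ks h) +
      (1 + 2 * ξ) * (us h * Real.log (vs ξ h) / ks h)) atTop
      (𝓝 (0 + 0 * (1 / 2) + (1 + 2 * ξ) * (1 / 2))) :=
    ((tendsto_const_nhds.div_atTop ks_atTop).add ((h1.comp d10_ll_atTop).mul d10_F1)).add
      ((d10_ulogv ξ hξ).const_mul _)
  filter_upwards [h3.eventually_lt_const (show 0 + 0 * (1 / 2) + (1 + 2 * ξ) * (1 / 2) <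
      (1 + ε) / 2 by linarith), ks_atTop.eventually_gt_atTop 0, d10_ll_atTop.eventually_gt_atTop 0]
    with h h4 hk hl
  have h5 := mul_le_mul_of_nonneg_right h4.le hk.le
  refine le_trans (le_of_eq ?_) (h5.trans (le_of_eq ?_))
  · field_simp
  · ring

/-- D10 -/
theorem omega (ε : ℝ) (hε : 0 < ε) : ∀ᶠ h : ℕ in atTop, ∃ z m : ℕ, 2 ≤ z ∧
    Real.log z ≤ (1 + ε) * ks h / 2 ∧ Real.exp (-((1 + ε) * ks h / 2)) ≤ er z m h := by
  set ξ := ε / 4 with hξdef
  have hξ : 0 < ξ := by positivity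
  set τ₁ := (1 + ξ / 2) / (1 + ξ) with hτ₁def
  set τ₂ := (1 + 2 * ξ) / (1 + ξ) with hτ₂def
  have hτ₁ : 0 < τ₁ := by positivity
  have hτ₂ : 0 < τ₂ := by positivity
  have hτ₁1 : τ₁ < 1 := by
    rw [hτ₁def, div_lt_one (by positivity)]
    linarith
  have hτ₂1 : 1 < τ₂ := by
    rw [hτ₂def, one_lt_div (by positivity)]
    linarith
  have hl1 : Real.log τ₁ < 0 := Real.log_neg hτ₁ hτ₁1
  have hl2 : 0 < Real.log τ₂ := Real.log_pos hτ₂1
  set c := min (min (1 - τ₁ * (1 - Real.log τ₁)) (1 - τ₂ * (1 - Real.log τ₂))) 1 with hcdef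
  have hc : 0 < c := by
    refine lt_min (lt_min ?_ ?_) one_pos
    · have := d10_f_lt τ₁ hτ₁ hτ₁1.ne
      linarith
    · have := d10_f_lt τ₂ hτ₂ hτ₂1.ne'
      linarith
  have hc1 : c ≤ 1 := min_le_right _ _
  have hcτ₁ : τ₁ * (1 - Real.log τ₁) ≤ 1 - c := by
    have : c ≤ 1 - τ₁ * (1 - Real.log τ₁) := (min_le_left _ _).trans (min_le_left _ _)
    linarith
  have hcτ₂ : τ₂ * (1 - Real.log τ₂) ≤ 1 - c := by
    have : c ≤ 1 - τ₂ * (1 - Real.log τ₂) := (min_le_left _ _).trans (min_le_right _ _)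
    linarith
  have hw := d10_w_atTop ξ hξ
  have hreal : Tendsto (fun h => Real.log 2 / ws ξ h + Real.log (ll h + 1) / ws ξ h) atTop
      (𝓝 (0 + 0)) := (tendsto_const_nhds.div_atTop hw).add (d10_logl_w ξ hξ)
  have hexp : Tendsto (fun h => Real.exp (c / 2 * ws ξ h)) atTop atTop :=
    Real.tendsto_exp_atTop.comp (hw.const_mul_atTop (by positivity))
  filter_upwards [d10_level ξ τ₁ (c / 4) hξ hτ₁ hτ₁1.ne (by positivity),
    d10_level ξ τ₂ (c / 4) hξ hτ₂ hτ₂1.ne' (by positivity),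
    d10_main ξ (c / 4) hξ (by positivity), d10_eta ε ξ hξ (by linarith),
    hreal.eventually_lt_const (show (0 : ℝ) + 0 < 1 / 4 by norm_num),
    hexp.eventually_ge_atTop 6, hw.eventually_gt_atTop 0, d10_ll_atTop.eventually_gt_atTop 0,
    (d10_logv_atTop ξ hξ).eventually_ge_atTop 1, (d10_v_atTop ξ hξ).eventually_gt_atTop 0,
    (d10_beta ξ hξ).eventually_le_const (show (0 : ℝ) < 1 / 8 by norm_num), d10_zz3,
    d10_L.eventually_gt_atTop 0, ks_small (ξ / (1 + ε)) (by positivity),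
    ks_atTop.eventually_gt_atTop 0, eventually_gt_atTop 1]
    with h hlev1 hlev2 hmain heta hrl hex hw0 hl hlv1 hv0 hb hz3 hL hks hk0 hh1
  obtain ⟨hb10, hb11, hlev1⟩ := hlev1
  obtain ⟨hb20, hb21, hlev2⟩ := hlev2
  set L := Real.log (h : ℝ) with hLdef
  set β := Real.log (vs ξ h) / ll h with hβdef
  set b₁ := Real.log (τ₁ * vs ξ h) / ll h with hb₁def
  set b₂ := Real.log (τ₂ * vs ξ h) / ll h with hb₂def
  have hβ0 : 0 < β := by positivity
  have hh0 : (0 : ℝ) < h := by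
    have : 0 < h := by omega
    exact_mod_cast this
  have hd1 : β - b₁ = -Real.log τ₁ / ll h := by
    rw [hβdef, hb₁def, Real.log_mul hτ₁.ne' hv0.ne', ← sub_div]
    congr 1
    ring
  have hd2 : β - b₂ = -Real.log τ₂ / ll h := by
    rw [hβdef, hb₂def, Real.log_mul hτ₂.ne' hv0.ne', ← sub_div]
    congr 1
    ring
  have hb1β : b₁ < β := by
    have : 0 < -Real.log τ₁ / ll h := div_pos (by linarith) hl
    linarith
  have hb2β : β < b₂ := by
    have : 0 < Real.log τ₂ / ll h := div_pos hl2 hl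
    rw [neg_div] at hd2
    linarith
  set y₁ : ℝ := (h : ℝ) ^ (1 + ξ / 2) with hy₁def
  set y₂ : ℝ := (h : ℝ) ^ (1 + 2 * ξ) with hy₂def
  have hy1 : 0 < y₁ := by positivity
  have hy12 : y₁ < y₂ := by
    apply Real.rpow_lt_rpow_of_exponent_lt
    · exact_mod_cast hh1
    · linarith
  have hu : us h = L / ll h := rfl
  have hwu : ws ξ h = (1 + ξ) * us h := rfl
  have hp1 : y₁ ^ (β - b₁) = Real.exp (-(τ₁ * Real.log τ₁) * ws ξ h) := by
    rw [hy₁def, ← Real.rpow_mul hh0.le, Real.rpow_def_of_pos hh0, hd1, hwu, hu, hτ₁def]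
    congr 1
    rw [← hLdef, ← hτ₁def]
    have : τ₁ * (1 + ξ) = 1 + ξ / 2 := by
      rw [hτ₁def]
      field_simp
    rw [← this]
    field_simp
  have hp2 : y₂ ^ (β - b₂) = Real.exp (-(τ₂ * Real.log τ₂) * ws ξ h) := by
    rw [hy₂def, ← Real.rpow_mul hh0.le, Real.rpow_def_of_pos hh0, hd2, hwu, hu, hτ₂def]
    congr 1
    rw [← hLdef, ← hτ₂def]
    have : τ₂ * (1 + ξ) = 1 + 2 * ξ := by
      rw [hτ₂def]
      field_simp
    rw [← this]
    field_simp
  have hp3 : y₂ ^ β = Real.exp ((1 + 2 * ξ) * (us h * Real.log (vs ξ h))) := by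
    rw [hy₂def, ← Real.rpow_mul hh0.le, Real.rpow_def_of_pos hh0, hβdef, hu]
    congr 1
    rw [← hLdef]
    field_simp
  have hz1 : 1 ≤ zz h := by omega
  have hI1 := int_low (zz h) hz1 β b₁ y₁ hb10.le hb1β (by linarith) hy1
  have hI2 := int_high (zz h) hz1 β b₂ y₂ (by linarith) hβ0 hb2β (hy1.trans hy12)
  set E := Real.exp ((1 - 3 * c / 4) * ws ξ h) with hEdef
  have hI1' : ∫ y in Set.Ioc 0 y₁, |EE (zz h) y| * y ^ (β - 2) ≤ E := by
    refine hI1.trans ?_
    have e1 : y₁ ^ (β - b₁) / (β - b₁) =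
        Real.exp (-(τ₁ * Real.log τ₁) * ws ξ h) * (ll h / |Real.log τ₁|) := by
      rw [hp1, hd1, abs_of_neg hl1]
      rw [div_div_eq_mul_div, mul_div_assoc]
    rw [e1]
    refine hlev1.trans (Real.exp_le_exp.2 ?_)
    apply mul_le_mul_of_nonneg_right _ hw0.le
    linarith
  have hI2' : ∫ y in Set.Ioi y₂, |EE (zz h) y| * y ^ (β - 2) ≤ E := by
    refine hI2.trans ?_
    have e1 : y₂ ^ (β - b₂) / (b₂ - β) =
        Real.exp (-(τ₂ * Real.log τ₂) * ws ξ h) * (ll h / |Real.log τ₂|) := by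
      have e2 : b₂ - β = Real.log τ₂ / ll h := by
        have : b₂ - β = -(β - b₂) := by ring
        rw [this, hd2]
        ring
      rw [hp2, e2, abs_of_pos hl2]
      rw [div_div_eq_mul_div, mul_div_assoc]
    rw [e1]
    refine hlev2.trans (Real.exp_le_exp.2 ?_)
    apply mul_le_mul_of_nonneg_right _ hw0.le
    linarith
  have hone : 1 ≤ E := Real.one_le_exp (mul_nonneg (by linarith) hw0.le)
  have hre : ‖zs ((1 - β : ℝ) : ℂ)‖ * ‖GG (zz h) ((1 - β : ℝ) : ℂ)‖ ≤ E := by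
    have h1 := zs_upper ((1 - β : ℝ) : ℂ) (by simp; linarith) (by simp; linarith)
    have h2 := GG_real (zz h) (1 - β) (by linarith)
    rw [Complex.ofReal_re] at h1
    have h3 : 1 / (1 - (1 - β)) + 1 / (1 - β) ≤ 2 * (ll h + 1) := by
      have e1 : 1 / (1 - (1 - β)) ≤ ll h := by
        rw [show 1 - (1 - β) = β by ring, hβdef, one_div_div]
        exact div_le_self hl.le hlv1
      have e2 : 1 / (1 - β) ≤ 2 := by
        rw [div_le_iff₀ (by linarith)]
        linarith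
      linarith
    have h4 : 2 * (ll h + 1) ≤ E := by
      have e1 : 2 * (ll h + 1) = Real.exp (Real.log 2 + Real.log (ll h + 1)) := by
        rw [Real.exp_add, Real.exp_log (by norm_num), Real.exp_log (by linarith)]
      rw [e1]
      apply Real.exp_le_exp.2
      rw [← add_div, div_lt_iff₀ hw0] at hrl
      refine hrl.le.trans (mul_le_mul_of_nonneg_right ?_ hw0.le)
      linarith
    calc ‖zs ((1 - β : ℝ) : ℂ)‖ * ‖GG (zz h) ((1 - β : ℝ) : ℂ)‖
        ≤ ‖zs ((1 - β : ℝ) : ℂ)‖ * 1 := mul_le_mul_of_nonneg_left h2 (norm_nonneg _)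
      _ ≤ E := by rw [mul_one]; exact h1.trans (h3.trans h4)
  have hsum : 1 + 2 * (E + E) + ‖zs ((1 - β : ℝ) : ℂ)‖ * ‖GG (zz h) ((1 - β : ℝ) : ℂ)‖ ≤
      ‖zs ((1 - β : ℝ) + (Real.pi / ll h : ℝ) * Complex.I)‖ *
        ‖GG (zz h) ((1 - β : ℝ) + (Real.pi / ll h : ℝ) * Complex.I)‖ := by
    refine le_trans ?_ hmain
    have e1 : Real.exp ((1 - c / 4) * ws ξ h) = Real.exp (c / 2 * ws ξ h) * E := by
      rw [hEdef, ← Real.exp_add]
      congr 1
      ring
    rw [e1]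
    have hE0 : 0 < E := by linarith
    nlinarith
  obtain ⟨y, hy1y, hyy2, hEy⟩ := exists_large (zz h) hz1 β (Real.pi / ll h) y₁ y₂ E E 1 hβ0
    (by linarith) hy1 hy12 hI1' hI2' one_pos hsum
  have hη8 : Real.exp (-((1 + ε) * ks h / 2)) ≤ 1 * β / (4 * y₂ ^ β) / 2 := by
    have h1 : Real.exp (-(Real.log 8 + Real.log (ll h + 1) + (1 + 2 * ξ) *
        (us h * Real.log (vs ξ h)))) ≤ 1 * β / (4 * y₂ ^ β) / 2 := by
      have h2 : 1 / (ll h + 1) ≤ β := by
        rw [hβdef, div_le_div_iff₀ (by linarith) hl]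
        nlinarith
      have e1 : Real.exp (-(Real.log 8 + Real.log (ll h + 1) + (1 + 2 * ξ) *
        (us h * Real.log (vs ξ h)))) = 1 / (ll h + 1) / (8 * y₂ ^ β) := by
        rw [hp3, Real.exp_neg, Real.exp_add, Real.exp_add, Real.exp_log (by norm_num),
          Real.exp_log (by linarith)]
        field_simp
      rw [e1]
      have hy2β : 0 < y₂ ^ β := Real.rpow_pos_of_pos (hy1.trans hy12) _
      calc 1 / (ll h + 1) / (8 * y₂ ^ β) ≤ β / (8 * y₂ ^ β) := by gcongr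
        _ = 1 * β / (4 * y₂ ^ β) / 2 := by
          field_simp
          norm_num
    refine le_trans (Real.exp_le_exp.2 ?_) h1
    linarith
  have hηpos : 0 < 1 * β / (4 * y₂ ^ β) := by
    have := (Real.exp_pos (-((1 + ε) * ks h / 2))).trans_le hη8
    linarith
  have hypos : 0 < y := hy1.trans hy1y
  have hhy : (h : ℝ) ≤ 1 * β / (4 * y₂ ^ β) * y / 2 := by
    have h1 : (h : ℝ) * Real.exp (ξ / 2 * L) ≤ y := by
      refine le_trans (le_of_eq ?_) hy1y.le
      rw [hy₁def, Real.rpow_add hh0, Real.rpow_one, Real.rpow_def_of_pos hh0]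
      congr 2
      rw [← hLdef]
      ring
    have h2 : 1 ≤ Real.exp (-((1 + ε) * ks h / 2)) * Real.exp (ξ / 2 * L) := by
      rw [← Real.exp_add]
      apply Real.one_le_exp
      have h3 : ks h ≤ ξ / (1 + ε) * L := hks
      have h4 : (1 + ε) * ks h ≤ ξ * L := by
        rw [div_mul_eq_mul_div, le_div_iff₀ (by linarith)] at h3
        linarith
      linarith
    calc (h : ℝ) ≤ h * (Real.exp (-((1 + ε) * ks h / 2)) * Real.exp (ξ / 2 * L)) :=
          le_mul_of_one_le_right hh0.le h2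
      _ = Real.exp (-((1 + ε) * ks h / 2)) * (h * Real.exp (ξ / 2 * L)) := by ring
      _ ≤ 1 * β / (4 * y₂ ^ β) / 2 * y :=
          mul_le_mul hη8 h1 (by positivity) (by linarith)
      _ = 1 * β / (4 * y₂ ^ β) * y / 2 := by ring
  obtain ⟨m, hm⟩ := window_of_EE (zz h) h (by omega) y _ hypos hηpos (by linarith) hhy
  refine ⟨zz h, m, by omega, ?_, hη8.trans hm⟩
  have h1 := d10_ll_le h hk0.le
  have h2 : Real.log (zz h : ℝ) = ll h := rfl
  rw [h2]
  nlinarith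

end Pool.Gal99
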