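import Pool.Agent.LibGal99.Defs

namespace Pool.Gal99

open Finset Filter Topology MeasureTheory Set

theorem F1_log : Tendsto (fun h : ℕ => Real.log h) atTop atTop :=
  Real.tendsto_log_atTop.comp tendsto_natCast_atTop_atTop

theorem F1_loglog : Tendsto (fun h : ℕ => Real.log (Real.log h)) atTop atTop :=
  Real.tendsto_log_atTop.comp F1_log

/-- `loglog h ≤ c log h` eventually -/
theorem F1_ll (c : ℝ) (hc : 0 < c) :
    ∀ᶠ h : ℕ in atTop, Real.log (Real.log h) ≤ c * Real.log h := by
  have h1 : ∀ᶠ x : ℝ in atTop, Real.log x ≤ c * x := by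
    have h2 := (Real.isLittleO_log_id_atTop.bound hc)
    filter_upwards [h2, eventually_ge_atTop (0 : ℝ)] with x hx hx0
    have h3 := (Real.le_norm_self _).trans hx
    simpa [abs_of_nonneg hx0] using h3
  exact F1_log.eventually h1

theorem ks_atTop : Tendsto ks atTop atTop := by
  unfold ks
  refine Real.tendsto_sqrt_atTop.comp ?_
  exact (F1_log.const_mul_atTop two_pos).atTop_mul_atTop₀ F1_loglog

theorem ks_small (c : ℝ) (hc : 0 < c) : ∀ᶠ h : ℕ in atTop, ks h ≤ c * Real.log h := by
  filter_upwards [F1_ll (c ^ 2 / 2) (by positivity), F1_log.eventually_ge_atTop 0] with h h1 h2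
  unfold ks
  apply Real.sqrt_le_iff.2
  refine ⟨by positivity, ?_⟩
  have := mul_le_mul_of_nonneg_left h1 (by positivity : (0 : ℝ) ≤ 2 * Real.log h)
  calc _ ≤ _ := this
    _ = _ := by ring

theorem loglog_small (c : ℝ) (hc : 0 < c) : ∀ᶠ h : ℕ in atTop,
    Real.log (Real.log h) ≤ c * ks h := by
  filter_upwards [F1_ll (2 * c ^ 2) (by positivity), F1_log.eventually_ge_atTop 0,
    F1_loglog.eventually_ge_atTop 0] with h h1 h2 h3
  unfold ks
  have h4 : Real.log (Real.log h) / c ≤
      Real.sqrt (2 * Real.log h * Real.log (Real.log h)) := by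
    apply Real.le_sqrt_of_sq_le
    rw [div_pow, div_le_iff₀ (by positivity)]
    have := mul_le_mul_of_nonneg_left h1 h3
    calc _ = Real.log (Real.log h) * Real.log (Real.log h) := by ring
      _ ≤ _ := this
      _ = _ := by ring
  rw [div_le_iff₀ hc] at h4
  linarith

end Pool.Gal99
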