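import Pool.Agent.LibGal99.A0
import Pool.Agent.LibGal99.B2
import Pool.Agent.LibGal99.A6
import Pool.Agent.LibGal99.A9
import Pool.Agent.LibGal99.D10b
import Pool.Agent.LibGal99.F1

namespace Pool.Gal99

open Finset Filter Topology MeasureTheory Set


theorem F3_Pz (z : ℕ) : (Pz z : ℝ) ≤ Real.exp (2 * z) := by
  have h1 : Pz z ≤ 4 ^ z := primorial_le_four_pow z
  have h2 : (4 : ℝ) ≤ Real.exp 2 := by
    have h3 : (2 : ℝ) ≤ Real.exp 1 := by
      have := Real.add_one_le_exp (1 : ℝ)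
      linarith
    have h4 : Real.exp 2 = Real.exp 1 * Real.exp 1 := by
      rw [← Real.exp_add]; norm_num
    rw [h4]
    nlinarith
  calc (Pz z : ℝ) ≤ (4 : ℝ) ^ z := by exact_mod_cast h1
    _ ≤ (Real.exp 2) ^ z := pow_le_pow_left₀ (by norm_num) h2 z
    _ = Real.exp (2 * z) := by rw [← Real.exp_nat_mul]; congr 1; ring

theorem F3_pow (x : ℝ) (h0 : 0 ≤ x) (h1 : x ≤ 1) (k : ℕ) : Real.exp (k * (x / 2)) ≤ (1 + x) ^ k := by
  have h2 : Real.exp (x / 2) ≤ 1 + x := by
    have h3 := Real.exp_bound' (x := x / 2) (by linarith) (by linarith) (n := 2) (by norm_num)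
    have h4 : ∑ m ∈ Finset.range 2, (x / 2) ^ m / (m.factorial : ℝ) = 1 + x / 2 := by
      rw [Finset.sum_range_succ, Finset.sum_range_one]
      norm_num
    rw [h4] at h3
    have h5 : (Nat.factorial 2 : ℝ) = 2 := by norm_num
    rw [h5] at h3
    norm_num at h3
    nlinarith
  calc Real.exp (k * (x / 2)) = Real.exp (x / 2) ^ k := by rw [← Real.exp_nat_mul]
    _ ≤ (1 + x) ^ k := pow_le_pow_left₀ (Real.exp_pos _).le h2 k

/-- F3: above the threshold -/
theorem gal_above (ε M : ℝ) (hε : 0 < ε) : ∀ᶠ h : ℕ in atTop, ∀ k : ℕ,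
    (1 + ε) * ks h ≤ Real.log k → (k : ℝ) ≤ (h : ℝ) ^ (1 - ε) → M ≤ gal h k := by
  obtain ⟨C, hC, hV⟩ := V_inv_le
  set e : ℝ := ε / 4 with he
  have he0 : 0 < e := by positivity
  set c : ℝ := min ε 1 / (2 * (1 + ε)) with hc
  have hmin0 : 0 < min ε 1 := lt_min hε one_pos
  have hmin1 : min ε 1 ≤ 1 := min_le_right _ _
  have hminε : min ε 1 ≤ ε := min_le_left _ _
  have hc0 : 0 < c := by positivity
  have hcast : Tendsto (fun h : ℕ => (h : ℝ)) atTop atTop := tendsto_natCast_atTop_atTop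
  have hA : ∀ᶠ h : ℕ in atTop, (2 : ℝ) ≤ (h : ℝ) ^ ε :=
    ((tendsto_rpow_atTop hε).comp hcast).eventually_ge_atTop 2
  have hB : ∀ᶠ h : ℕ in atTop, 4 * C * Real.log h ≤ (h : ℝ) ^ (3 * ε / 4) := by
    have h1 : (fun x : ℝ => Real.log x) =o[atTop] fun x : ℝ => x ^ (3 * ε / 4) :=
      isLittleO_log_rpow_atTop (by positivity)
    have h2 := h1.def (c := 1 / (4 * C)) (by positivity)
    have h3 := hcast.eventually h2
    filter_upwards [h3, eventually_ge_atTop 1] with h h4 h5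
    have h6 : (1 : ℝ) ≤ h := by exact_mod_cast h5
    rw [Real.norm_eq_abs, Real.norm_eq_abs, abs_of_nonneg (Real.log_nonneg h6),
      abs_of_nonneg (Real.rpow_nonneg (by linarith) _), div_mul_eq_mul_div, one_mul,
      le_div_iff₀ (by positivity)] at h4
    linarith
  filter_upwards [omega e he0, ks_small c hc0,
    ks_atTop.eventually_ge_atTop (4 / (3 * ε) * Real.log (8 * |M| + 8)), hA, hB,
    eventually_ge_atTop 2, ks_atTop.eventually_gt_atTop 0] with h hom hks hksM hhA hhB hh2 hks0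
  intro k hk1 hk2
  obtain ⟨z0, m0, hz0, hlz0, her⟩ := hom
  have hh : (2 : ℝ) ≤ h := by exact_mod_cast hh2
  have hh0 : (0 : ℝ) < h := by linarith
  have hlog : 0 < Real.log h := Real.log_pos (by linarith)
  -- `k` is positive
  have hk0 : 0 < k := by
    rcases Nat.eq_zero_or_pos k with h0 | h0
    · rw [h0] at hk1
      simp only [Nat.cast_zero, Real.log_zero] at hk1
      nlinarith
    · exact h0
  have hkr : (0 : ℝ) < k := by exact_mod_cast hk0
  -- the exponent
  have hexp : (1 + e) * ks h / 2 ≤ (min ε 1 / 4) * Real.log h := by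
    have h1 : (1 + e) * ks h / 2 ≤ (1 + ε) * (c * Real.log h) / 2 := by
      have h2 : (1 + e) * ks h ≤ (1 + ε) * (c * Real.log h) :=
        mul_le_mul (by linarith) hks hks0.le (by linarith)
      linarith
    have h3 : (1 + ε) * (c * Real.log h) / 2 = (min ε 1 / 4) * Real.log h := by
      rw [hc]
      field_simp
      ring
    linarith
  set η : ℝ := Real.exp (-((1 + e) * ks h / 2)) with hη
  have hη0 : 0 < η := Real.exp_pos _
  have hη1 : η ≤ 1 := by
    rw [hη]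
    refine Real.exp_le_one_iff.2 ?_
    have : 0 ≤ (1 + e) * ks h / 2 := by positivity
    linarith
  have hηlow : (h : ℝ) ^ (-(ε / 4)) ≤ η := by
    rw [Real.rpow_def_of_pos hh0, hη]
    refine Real.exp_le_exp.2 ?_
    nlinarith
  have hz0r : (z0 : ℝ) ≤ Real.exp ((1 + e) * ks h / 2) := by
    have h1 : (0 : ℝ) < z0 := by
      have : 0 < z0 := by omega
      exact_mod_cast this
    rw [← Real.log_le_iff_le_exp h1]
    exact hlz0
  set z : ℕ := h ^ 2 with hz
  have hzr : (z : ℝ) = (h : ℝ) ^ 2 := by rw [hz]; push_cast; rfl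
  have hhz : h ≤ z := by rw [hz]; nlinarith
  have hz0z : z0 ≤ z := by
    have h1 : (z0 : ℝ) ≤ h := by
      refine hz0r.trans ?_
      calc Real.exp ((1 + e) * ks h / 2) ≤ Real.exp (Real.log h) := by
            refine Real.exp_le_exp.2 ?_
            nlinarith
        _ = h := Real.exp_log hh0
    have h2 : z0 ≤ h := by exact_mod_cast h1
    omega
  -- `k ≤ h / 2`
  have hkh' : (k : ℝ) * (h : ℝ) ^ ε ≤ h := by
    calc (k : ℝ) * (h : ℝ) ^ ε ≤ (h : ℝ) ^ (1 - ε) * (h : ℝ) ^ ε :=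
          mul_le_mul_of_nonneg_right hk2 (Real.rpow_nonneg hh0.le _)
      _ = h := by rw [← Real.rpow_add hh0]; simp
  have hkh2 : 2 * (k : ℝ) ≤ h := by nlinarith
  have hkh : k ≤ h := by
    have h1 : (k : ℝ) ≤ h := by linarith
    exact_mod_cast h1
  have h2kz : 2 * k ≤ z := by
    have h1 : ((2 * k : ℕ) : ℝ) ≤ h := by push_cast; linarith
    have h2 : 2 * k ≤ h := by exact_mod_cast h1
    omega
  have hfac : (1 / 2 : ℝ) ≤ 1 - (k : ℝ) ^ 2 / z := by
    rw [hzr]
    have h1 : (k : ℝ) ^ 2 / (h : ℝ) ^ 2 ≤ 1 / 2 := by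
      rw [div_le_iff₀ (by positivity)]
      nlinarith
    linarith
  -- the correction term
  have hcor : (k : ℝ) / (h * V z) ≤ η / 2 := by
    have h1 := hV z (by omega)
    rw [hzr, Real.log_pow] at h1
    push_cast at h1
    have h2 : (k : ℝ) / (h * V z) = (k : ℝ) / h * (V z)⁻¹ := by
      rw [div_mul_eq_div_div, div_eq_mul_inv ((k : ℝ) / h)]
    rw [h2]
    have h3 : (k : ℝ) / h ≤ (h : ℝ) ^ (-ε) := by
      rw [div_le_iff₀ hh0]
      calc (k : ℝ) ≤ (h : ℝ) ^ (1 - ε) := hk2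
        _ = (h : ℝ) ^ (-ε) * h := by
            rw [← Real.rpow_add_one hh0.ne']; congr 1; ring
    have h4 : (k : ℝ) / h * (V z)⁻¹ ≤ (h : ℝ) ^ (-ε) * (C * (2 * Real.log h)) :=
      mul_le_mul h3 h1 (inv_nonneg.2 (V_pos z).le) (Real.rpow_nonneg hh0.le _)
    have h5 : (h : ℝ) ^ (-ε) * (C * (2 * Real.log h)) ≤ (h : ℝ) ^ (-(ε / 4)) / 2 := by
      have h6 : (h : ℝ) ^ (-(ε / 4)) = (h : ℝ) ^ (-ε) * (h : ℝ) ^ (3 * ε / 4) := by
        rw [← Real.rpow_add hh0]; congr 1; ring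
      rw [h6]
      have h7 : 0 ≤ (h : ℝ) ^ (-ε) := Real.rpow_nonneg hh0.le _
      nlinarith [mul_le_mul_of_nonneg_left hhB h7]
    linarith
  have hbase : 1 + η / 2 ≤ 1 + er z0 m0 h - k / (h * V z) := by linarith
  have hpos : 0 ≤ 1 + er z0 m0 h - k / (h * V z) := by linarith
  have hJ := jensen_lower h k z z0 m0 (by omega) hkh hz0z hpos
  have hG := gal_lower h k z hhz (by omega) h2kz hkh
  -- the lower bound
  have hPz0 : (0 : ℝ) < Pz z0 := by exact_mod_cast Pz_pos z0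
  have hL : Real.exp (k * (η / 4) - 2 * z0) ≤
      (1 / (Pz z0 : ℝ)) * (1 + er z0 m0 h - k / (h * V z)) ^ k := by
    have h1 : Real.exp (k * (η / 4)) ≤ (1 + er z0 m0 h - k / (h * V z)) ^ k := by
      calc Real.exp (k * (η / 4)) = Real.exp (k * (η / 2 / 2)) := by congr 1; ring
        _ ≤ (1 + η / 2) ^ k := F3_pow (η / 2) (by linarith) (by linarith) k
        _ ≤ _ := pow_le_pow_left₀ (by linarith) hbase k
    have h2 : Real.exp (-(2 * z0)) ≤ 1 / (Pz z0 : ℝ) := by
      rw [Real.exp_neg, one_div]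
      exact inv_anti₀ hPz0 (F3_Pz z0)
    rw [sub_eq_add_neg, add_comm, Real.exp_add]
    exact mul_le_mul h2 h1 (Real.exp_pos _).le (by positivity)
  set a : ℝ := Real.exp ((1 + e) * ks h / 2) with ha
  set b : ℝ := Real.exp ((3 * ε / 4) * ks h) with hb
  have ha1 : 1 ≤ a := Real.one_le_exp (by positivity)
  have hbM : 8 * |M| + 8 ≤ b := by
    have hpos8 : 0 < 8 * |M| + 8 := by positivity
    rw [hb, ← Real.log_le_iff_le_exp hpos8]
    have h1 : (3 * ε / 4) * (4 / (3 * ε) * Real.log (8 * |M| + 8)) ≤ (3 * ε / 4) * ks h :=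
      mul_le_mul_of_nonneg_left hksM (by positivity)
    have h2 : (3 * ε / 4) * (4 / (3 * ε) * Real.log (8 * |M| + 8)) = Real.log (8 * |M| + 8) := by
      field_simp
    linarith
  have hkη : a * b ≤ k * η := by
    have h1 : Real.exp ((1 + ε) * ks h) ≤ k := by
      rw [← Real.le_log_iff_exp_le hkr]
      exact hk1
    calc a * b = Real.exp ((1 + ε) * ks h) * η := by
          rw [ha, hb, hη, ← Real.exp_add, ← Real.exp_add]
          congr 1
          rw [he]
          ring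
      _ ≤ k * η := mul_le_mul_of_nonneg_right h1 hη0.le
  have hfin : 2 * |M| ≤ k * (η / 4) - 2 * z0 := by
    have h1 : (z0 : ℝ) ≤ a := hz0r
    have h2 : a * (b / 4 - 2) ≤ k * (η / 4) - 2 * z0 := by nlinarith
    have h3 : 2 * |M| ≤ b / 4 - 2 := by linarith
    have h4 : 0 ≤ b / 4 - 2 := by
      have := abs_nonneg M
      linarith
    nlinarith
  have hMexp : 2 * |M| ≤ Real.exp (k * (η / 4) - 2 * z0) := by
    have h1 := Real.add_one_le_exp (k * (η / 4) - 2 * (z0 : ℝ))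
    linarith
  have hchain : 2 * |M| ≤
      avg (Pz z) (fun m => ((R z m h).choose k : ℝ)) / ((h.choose k : ℝ) * V z ^ k) :=
    hMexp.trans (hL.trans hJ)
  have hM : |M| ≤ (1 - (k : ℝ) ^ 2 / z) *
      (avg (Pz z) (fun m => ((R z m h).choose k : ℝ)) / ((h.choose k : ℝ) * V z ^ k)) := by
    have h1 : (1 / 2 : ℝ) * (2 * |M|) ≤ (1 - (k : ℝ) ^ 2 / z) *
        (avg (Pz z) (fun m => ((R z m h).choose k : ℝ)) / ((h.choose k : ℝ) * V z ^ k)) :=
      mul_le_mul hfac hchain (by positivity) (by linarith)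
    linarith
  exact (le_abs_self M).trans (hM.trans hG)

end Pool.Gal99
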