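import Pool.Agent.LibGal99.F2
import Pool.Agent.LibGal99.F3

/-! The theorem at the scale `h = c log² x` of Cramér's conjecture. -/

namespace Pool.Gal99

open Finset Filter Topology

/-- the length of the windows in Cramér's conjecture -/
noncomputable def hh (c : ℝ) (x : ℕ) : ℕ := ⌊c * Real.log x ^ 2⌋₊

/-- `√(log log x · log log log x)` -/
noncomputable def sq3 (x : ℕ) : ℝ :=
  Real.sqrt (Real.log (Real.log x) * Real.log (Real.log (Real.log x)))

theorem cor_L : Tendsto (fun x : ℕ => Real.log (x : ℝ)) atTop atTop :=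
  Real.tendsto_log_atTop.comp tendsto_natCast_atTop_atTop

theorem cor_LL : Tendsto (fun x : ℕ => Real.log (Real.log (x : ℝ))) atTop atTop :=
  Real.tendsto_log_atTop.comp cor_L

theorem cor_LLL : Tendsto (fun x : ℕ => Real.log (Real.log (Real.log (x : ℝ)))) atTop atTop :=
  Real.tendsto_log_atTop.comp cor_LL

theorem cor_sq3 : Tendsto sq3 atTop atTop :=
  Real.tendsto_sqrt_atTop.comp (cor_LL.atTop_mul_atTop₀ cor_LLL)

theorem cor_arg (c : ℝ) (hc : 0 < c) :
    Tendsto (fun x : ℕ => c * Real.log (x : ℝ) ^ 2) atTop atTop :=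
  ((tendsto_pow_atTop (by norm_num)).comp cor_L).const_mul_atTop hc

theorem cor_hh (c : ℝ) (hc : 0 < c) : Tendsto (hh c) atTop atTop :=
  tendsto_nat_floor_atTop.comp (cor_arg c hc)

theorem cor_hh_ge (c : ℝ) (x : ℕ) (h1 : 2 ≤ c * Real.log (x : ℝ) ^ 2) :
    c * Real.log (x : ℝ) ^ 2 / 2 ≤ (hh c x : ℝ) := by
  have h2 : c * Real.log (x : ℝ) ^ 2 < (hh c x : ℝ) + 1 := Nat.lt_floor_add_one _
  linarith

theorem cor_hh_le (c : ℝ) (x : ℕ) (h1 : 0 ≤ c * Real.log (x : ℝ) ^ 2) :
    (hh c x : ℝ) ≤ c * Real.log (x : ℝ) ^ 2 := Nat.floor_le h1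

theorem cor_logh (c : ℝ) (hc : 0 < c) :
    Tendsto (fun x : ℕ => Real.log (hh c x : ℝ) / Real.log (Real.log (x : ℝ))) atTop (𝓝 2) := by
  have hlow : Tendsto (fun x : ℕ => 2 + Real.log (c / 2) / Real.log (Real.log (x : ℝ))) atTop
      (𝓝 (2 + 0)) := (tendsto_const_nhds.div_atTop cor_LL).const_add 2
  have hup : Tendsto (fun x : ℕ => 2 + Real.log c / Real.log (Real.log (x : ℝ))) atTop
      (𝓝 (2 + 0)) := (tendsto_const_nhds.div_atTop cor_LL).const_add 2
  rw [add_zero] at hlow hup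
  have key : ∀ d : ℝ, 0 < d → ∀ x : ℕ, 0 < Real.log (x : ℝ) → 0 < Real.log (Real.log (x : ℝ)) →
      Real.log (d * Real.log (x : ℝ) ^ 2) / Real.log (Real.log (x : ℝ)) =
        2 + Real.log d / Real.log (Real.log (x : ℝ)) := by
    intro d hd x hL hLL
    rw [Real.log_mul hd.ne' (by positivity), Real.log_pow]
    field_simp
    push_cast
    ring
  refine tendsto_of_tendsto_of_tendsto_of_le_of_le' hlow hup ?_ ?_
  · filter_upwards [cor_L.eventually_gt_atTop 0, cor_LL.eventually_gt_atTop 0,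
      (cor_arg c hc).eventually_ge_atTop 2] with x hL hLL h2
    rw [← key (c / 2) (by positivity) x hL hLL]
    have h3 := cor_hh_ge c x h2
    gcongr
    linarith
  · filter_upwards [cor_L.eventually_gt_atTop 0, cor_LL.eventually_gt_atTop 0,
      (cor_arg c hc).eventually_ge_atTop 2] with x hL hLL h2
    rw [← key c hc x hL hLL]
    have h3 := cor_hh_ge c x h2
    have h4 := cor_hh_le c x (by linarith)
    have h5 : (0 : ℝ) < hh c x := by linarith
    gcongr

/-- `ks h` at Cramér's scale -/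
theorem cor_ks (c : ℝ) (hc : 0 < c) :
    Tendsto (fun x : ℕ => ks (hh c x) / sq3 x) atTop (𝓝 2) := by
  have h1 := cor_logh c hc
  have h2 : Tendsto (fun x : ℕ => Real.log (Real.log (hh c x : ℝ)) /
      Real.log (Real.log (Real.log (x : ℝ)))) atTop (𝓝 1) := by
    have h3 : Tendsto (fun x : ℕ => Real.log (Real.log (hh c x : ℝ) / Real.log (Real.log (x : ℝ))))
        atTop (𝓝 (Real.log 2)) := (Real.continuousAt_log (by norm_num)).tendsto.comp h1
    have h4 : Tendsto (fun x : ℕ => Real.log (Real.log (hh c x : ℝ) / Real.log (Real.log (x : ℝ))) /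
        Real.log (Real.log (Real.log (x : ℝ))) + 1) atTop (𝓝 (0 + 1)) :=
      (h3.div_atTop cor_LLL).add_const 1
    rw [zero_add] at h4
    refine h4.congr' ?_
    filter_upwards [cor_LL.eventually_gt_atTop 0, cor_LLL.eventually_gt_atTop 0,
      (cor_hh c hc).eventually_ge_atTop 2] with x hLL hLLL hh2
    have hh3 : (2 : ℝ) ≤ hh c x := by exact_mod_cast hh2
    have hlh : 0 < Real.log (hh c x : ℝ) := Real.log_pos (by linarith)
    rw [Real.log_div hlh.ne' hLL.ne']
    field_simp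
    ring
  have h5 : Tendsto (fun x : ℕ => Real.sqrt (2 * (Real.log (hh c x : ℝ) /
      Real.log (Real.log (x : ℝ))) * (Real.log (Real.log (hh c x : ℝ)) /
      Real.log (Real.log (Real.log (x : ℝ)))))) atTop (𝓝 (Real.sqrt (2 * 2 * 1))) :=
    ((h1.const_mul 2).mul h2).sqrt
  have h6 : Real.sqrt (2 * 2 * 1) = 2 := by
    rw [mul_one, Real.sqrt_mul_self (by norm_num)]
  rw [h6] at h5
  refine h5.congr' ?_
  filter_upwards [cor_LL.eventually_gt_atTop 0, cor_LLL.eventually_gt_atTop 0] with x hLL hLLL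
  unfold ks sq3
  rw [← Real.sqrt_div' _ (by positivity)]
  congr 1
  field_simp

/-- below the threshold, at Cramér's scale -/
theorem cor_below (c ε δ : ℝ) (hc : 0 < c) (hε : 0 < ε) (hδ : 0 < δ) : ∀ᶠ x : ℕ in atTop,
    ∀ k : ℕ, 1 ≤ k → Real.log k ≤ (2 - ε) * sq3 x → |gal (hh c x) k - 1| ≤ δ := by
  have h1 := (cor_hh c hc).eventually (gal_below (ε / 4) δ (by positivity) hδ)
  have h2 := ((cor_ks c hc).const_mul (1 - ε / 4)).eventually_const_lt
    (show 2 - ε < (1 - ε / 4) * 2 by linarith)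
  filter_upwards [h1, h2, cor_sq3.eventually_gt_atTop 0] with x hx hr hs k hk hlk
  refine hx k hk (hlk.trans ?_)
  rw [← mul_div_assoc, lt_div_iff₀ hs] at hr
  exact hr.le

/-- above the threshold, at Cramér's scale -/
theorem cor_above (c ε M : ℝ) (hc : 0 < c) (hε : 0 < ε) : ∀ᶠ x : ℕ in atTop,
    ∀ k : ℕ, (2 + ε) * sq3 x ≤ Real.log k → (k : ℝ) ≤ Real.log x ^ (2 - ε) →
      M ≤ gal (hh c x) k := by
  set ε' := min (ε / 4) (1 / 2) with hε'
  have hε'0 : 0 < ε' := by positivity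
  have hε'1 : ε' ≤ ε / 4 := min_le_left _ _
  have hε'2 : ε' ≤ 1 / 2 := min_le_right _ _
  have h1 := (cor_hh c hc).eventually (gal_above ε' M hε'0)
  have h2 := ((cor_ks c hc).const_mul (1 + ε')).eventually_lt_const
    (show (1 + ε') * 2 < 2 + ε by linarith)
  have h3 : ∀ᶠ x : ℕ in atTop, Real.log (x : ℝ) ^ (2 - ε) ≤ (hh c x : ℝ) ^ (1 - ε') := by
    -- `(c/2 L^2)^(1-ε') ≥ L^(2-ε)`
    have h4 : Tendsto (fun x : ℕ => Real.log (x : ℝ) ^ (ε / 2)) atTop atTop :=
      (tendsto_rpow_atTop (by positivity)).comp cor_L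
    filter_upwards [h4.eventually_ge_atTop ((c / 2) ^ (-(1 - ε'))),
      cor_L.eventually_ge_atTop 1, (cor_arg c hc).eventually_ge_atTop 2] with x h5 hL h6
    have hL0 : 0 < Real.log (x : ℝ) := by linarith
    have h7 : (c / 2 * Real.log (x : ℝ) ^ 2) ^ (1 - ε') ≤ (hh c x : ℝ) ^ (1 - ε') := by
      apply Real.rpow_le_rpow (by positivity)
      · have := cor_hh_ge c x h6
        linarith
      · linarith
    refine le_trans ?_ h7
    rw [Real.mul_rpow (by positivity) (by positivity), ← Real.rpow_natCast, ← Real.rpow_mul hL0.le]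
    have h8 : (c / 2) ^ (1 - ε') * (c / 2) ^ (-(1 - ε')) = 1 := by
      rw [← Real.rpow_add (by positivity), add_neg_cancel, Real.rpow_zero]
    have h9 : 1 ≤ (c / 2) ^ (1 - ε') * Real.log (x : ℝ) ^ (ε / 2) := by
      calc (1 : ℝ) = (c / 2) ^ (1 - ε') * (c / 2) ^ (-(1 - ε')) := h8.symm
        _ ≤ (c / 2) ^ (1 - ε') * Real.log (x : ℝ) ^ (ε / 2) :=
          mul_le_mul_of_nonneg_left h5 (by positivity)
    calc Real.log (x : ℝ) ^ (2 - ε) ≤ Real.log (x : ℝ) ^ (2 - ε) *
          ((c / 2) ^ (1 - ε') * Real.log (x : ℝ) ^ (ε / 2)) :=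
          le_mul_of_one_le_right (by positivity) h9
      _ = (c / 2) ^ (1 - ε') * (Real.log (x : ℝ) ^ (2 - ε) * Real.log (x : ℝ) ^ (ε / 2)) := by
          ring
      _ = (c / 2) ^ (1 - ε') * Real.log (x : ℝ) ^ (2 - ε / 2) := by
          rw [← Real.rpow_add hL0]
          congr 2
          ring
      _ ≤ (c / 2) ^ (1 - ε') * Real.log (x : ℝ) ^ (((2 : ℕ) : ℝ) * (1 - ε')) := by
          refine mul_le_mul_of_nonneg_left ?_ (by positivity)
          refine Real.rpow_le_rpow_of_exponent_le hL ?_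
          push_cast
          linarith
  filter_upwards [h1, h2, h3, cor_sq3.eventually_gt_atTop 0] with x hx hr h3x hs k hlk hk
  refine hx k (le_trans ?_ hlk) (hk.trans h3x)
  rw [← mul_div_assoc, div_lt_iff₀ hs] at hr
  exact hr.le

end Pool.Gal99
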