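import Pool.Agent.LibGal99.Defs

namespace Pool.Gal99

open Finset Filter Topology

theorem A0_one_sub_pos {p : ℕ} (hp : p.Prime) : 0 < 1 - 1 / (p : ℝ) := by
  have h1 : (1 : ℝ) < p := by exact_mod_cast hp.one_lt
  have h2 : 1 / (p : ℝ) < 1 := (div_lt_one (by linarith)).2 h1
  linarith

theorem A0_prime {z p : ℕ} (hp : p ∈ pr z) : p.Prime := (mem_filter.1 hp).2

/-- A0a -/
theorem V_pos (z : ℕ) : 0 < V z := by
  unfold V
  exact Finset.prod_pos fun p hp => A0_one_sub_pos (A0_prime hp)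

theorem V_le_one (z : ℕ) : V z ≤ 1 := by
  unfold V
  refine Finset.prod_le_one (fun p hp => (A0_one_sub_pos (A0_prime hp)).le) fun p hp => ?_
  have h1 : (0 : ℝ) ≤ 1 / (p : ℝ) := by positivity
  linarith

theorem Pz_pos (z : ℕ) : 0 < Pz z := by
  unfold Pz
  exact Finset.prod_pos fun p hp => (A0_prime hp).pos

theorem A0_pr_succ (z : ℕ) :
    pr (z + 1) = if (z + 1).Prime then insert (z + 1) (pr z) else pr z := by
  unfold pr
  rw [Finset.range_add_one, Finset.filter_insert]

theorem A0_notMem (z : ℕ) : z + 1 ∉ pr z := by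
  unfold pr
  rw [mem_filter, mem_range]
  rintro ⟨h, -⟩
  omega

theorem Pz_succ (z : ℕ) : Pz (z + 1) = Pz z * qq z := by
  unfold Pz qq
  rw [A0_pr_succ]
  split_ifs with h
  · rw [Finset.prod_insert (A0_notMem z), mul_comm]
  · rw [mul_one]

theorem V_succ (z : ℕ) : V (z + 1) = V z * (if (z + 1).Prime then 1 - 1 / ((z : ℝ) + 1) else 1) := by
  unfold V
  rw [A0_pr_succ]
  split_ifs with h
  · rw [Finset.prod_insert (A0_notMem z), mul_comm, Nat.cast_add, Nat.cast_one]
  · rw [mul_one]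

theorem occ_le_card (H : Finset ℕ) (p : ℕ) : occ H p ≤ H.card := by
  unfold occ
  exact Finset.card_image_le

theorem occ_le (H : Finset ℕ) (p : ℕ) (hp : 0 < p) : occ H p ≤ p := by
  unfold occ
  have h1 : H.image (fun a => a % p) ⊆ range p := by
    intro x hx
    rw [mem_image] at hx
    obtain ⟨a, _, rfl⟩ := hx
    exact mem_range.2 (Nat.mod_lt a hp)
  have h2 := Finset.card_le_card h1
  rwa [card_range] at h2

theorem singz_nonneg (z : ℕ) (H : Finset ℕ) : 0 ≤ singz z H := by
  unfold singz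
  refine Finset.prod_nonneg fun p hp => ?_
  have hp' := A0_prime hp
  have h1 : (occ H p : ℝ) ≤ p := by exact_mod_cast occ_le H p hp'.pos
  have h2 : (0 : ℝ) < p := by exact_mod_cast hp'.pos
  have h3 : (occ H p : ℝ) / p ≤ 1 := (div_le_one h2).2 h1
  exact div_nonneg (by linarith) (pow_nonneg (A0_one_sub_pos hp').le _)

end Pool.Gal99
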