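import Pool.Agent.LibGal99.A0

namespace Pool.Gal99

open Finset Filter Topology


/-- pointwise form of A8 -/
lemma a8_pointwise (h k r : ℕ) (v : ℝ) (hv : 0 < v) (h0 : 0 < h) (hk : 2 * k ≤ h) :
    ((r.choose k : ℕ) : ℝ) / ((h.choose k : ℝ) * v ^ k) ≤
      Real.exp (2 * (k : ℝ) ^ 2 / h) * Real.exp (k * ((r : ℝ) / (h * v) - 1)) := by
  have hh : (0 : ℝ) < h := by exact_mod_cast h0
  have hk2 : 2 * (k : ℝ) ≤ h := by exact_mod_cast hk
  have hfac : (0 : ℝ) < (k.factorial : ℝ) := by exact_mod_cast k.factorial_pos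
  -- upper bound for the numerator
  have h1 : ((r.choose k : ℕ) : ℝ) ≤ (r : ℝ) ^ k / (k.factorial : ℝ) := Nat.choose_le_pow_div k r
  -- lower bound for the denominator
  have h2 : ((h : ℝ) - k) ^ k / (k.factorial : ℝ) ≤ (h.choose k : ℝ) := by
    rw [div_le_iff₀ hfac]
    have h3 : (h + 1 - k) ^ k ≤ h.descFactorial k := Nat.pow_sub_le_descFactorial h k
    have h4 : h.descFactorial k = k.factorial * h.choose k := Nat.descFactorial_eq_factorial_mul_choose h k
    have h5 : (h - k) ^ k ≤ (h + 1 - k) ^ k := Nat.pow_le_pow_left (by omega) k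
    have h6 : (h - k) ^ k ≤ h.choose k * k.factorial := by
      rw [mul_comm, ← h4]
      exact h5.trans h3
    have h7 : (((h - k : ℕ) : ℝ)) ^ k ≤ (h.choose k : ℝ) * (k.factorial : ℝ) := by exact_mod_cast h6
    rwa [Nat.cast_sub (by omega)] at h7
  have hpos : 0 < (h : ℝ) - k := by
    have hk0 : (0 : ℝ) ≤ k := by positivity
    linarith
  have hden : 0 < ((h : ℝ) - k) ^ k / (k.factorial : ℝ) * v ^ k := by positivity
  have h8 : ((r.choose k : ℕ) : ℝ) / ((h.choose k : ℝ) * v ^ k) ≤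
      ((r : ℝ) ^ k / (k.factorial : ℝ)) / (((h : ℝ) - k) ^ k / (k.factorial : ℝ) * v ^ k) := by
    apply div_le_div₀ (by positivity) h1 hden
    exact mul_le_mul_of_nonneg_right h2 (by positivity)
  have h9 : ((r : ℝ) ^ k / (k.factorial : ℝ)) / (((h : ℝ) - k) ^ k / (k.factorial : ℝ) * v ^ k) =
      ((h : ℝ) / (h - k)) ^ k * ((r : ℝ) / (h * v)) ^ k := by
    rw [← mul_pow]
    have : (h : ℝ) / (h - k) * (r / (h * v)) = r / ((h - k) * v) := by
      field_simp
    rw [this, div_pow, mul_pow]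
    field_simp
  have h10 : (h : ℝ) / (h - k) ≤ Real.exp (2 * k / h) := by
    have h11 : (h : ℝ) / (h - k) ≤ 2 * k / h + 1 := by
      rw [div_le_iff₀ hpos]
      have : (2 * (k : ℝ) / h + 1) * (h - k) = h + k * (h - 2 * k) / h := by
        field_simp
        ring
      rw [this]
      have : 0 ≤ (k : ℝ) * (h - 2 * k) / h := by
        apply div_nonneg _ hh.le
        exact mul_nonneg (by positivity) (by linarith)
      linarith
    exact h11.trans (Real.add_one_le_exp _)
  have h12 : (r : ℝ) / (h * v) ≤ Real.exp ((r : ℝ) / (h * v) - 1) := by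
    have := Real.add_one_le_exp ((r : ℝ) / (h * v) - 1)
    linarith
  calc ((r.choose k : ℕ) : ℝ) / ((h.choose k : ℝ) * v ^ k)
      ≤ ((h : ℝ) / (h - k)) ^ k * ((r : ℝ) / (h * v)) ^ k := h8.trans h9.le
    _ ≤ (Real.exp (2 * k / h)) ^ k * (Real.exp ((r : ℝ) / (h * v) - 1)) ^ k := by
        apply mul_le_mul
        · exact pow_le_pow_left₀ (by positivity) h10 k
        · exact pow_le_pow_left₀ (by positivity) h12 k
        · positivity
        · positivity
    _ = Real.exp (2 * (k : ℝ) ^ 2 / h) * Real.exp (k * ((r : ℝ) / (h * v) - 1)) := by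
        rw [← Real.exp_nat_mul, ← Real.exp_nat_mul]
        congr 2
        ring

/-- A8 -/
theorem upper_exp (h k w : ℕ) (h0 : 0 < h) (hk : 2 * k ≤ h) :
    avg (Pz w) (fun m => ((R w m h).choose k : ℝ)) / ((h.choose k : ℝ) * V w ^ k) ≤
      Real.exp (2 * (k : ℝ) ^ 2 / h) * avg (Pz w) (fun m => Real.exp (k * er w m h)) := by
  unfold avg
  rw [div_right_comm, Finset.sum_div, ← mul_div_assoc, Finset.mul_sum]
  apply div_le_div_of_nonneg_right _ (by positivity)
  apply Finset.sum_le_sum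
  intro m _
  exact a8_pointwise h k (R w m h) (V w) (V_pos w) h0 hk

end Pool.Gal99
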