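import Pool.Agent.LibGal99.A0
import Pool.Agent.LibGal99.B1
import Pool.Agent.LibGal99.B2

namespace Pool.Gal99

open Finset Filter Topology


/-- relative error in terms of the Rankin bound -/
theorem b3_er_le (z m y : ℕ) (b : ℝ) (hb0 : 0 ≤ b) (hb1 : b ≤ 1) (hz : 1 ≤ z) (hzy : z ≤ y) :
    |er z m y| ≤ 4 * ((y : ℝ) / z) ^ (-b) * Real.exp (∑ p ∈ pr z, (p : ℝ) ^ (b - 1)) * (V z)⁻¹ := by
  have hy : (0 : ℝ) < y := by exact_mod_cast (by omega : 0 < y)
  have hV := V_pos z
  have h1 := sieve_dev z m y b hb0 hb1 hz hzy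
  have h2 : er z m y = ((R z m y : ℝ) - y * V z) / (y * V z) := by
    unfold er
    rw [sub_div, div_self (by positivity)]
  rw [h2, abs_div, abs_of_pos (by positivity : (0 : ℝ) < y * V z)]
  rw [div_le_iff₀ (by positivity)]
  refine h1.trans ?_
  have h3 : ∏ p ∈ pr z, (1 + (p : ℝ) ^ (b - 1)) ≤ Real.exp (∑ p ∈ pr z, (p : ℝ) ^ (b - 1)) := by
    rw [Real.exp_sum]
    apply Finset.prod_le_prod
    · intro p _
      positivity
    · intro p _
      have := Real.add_one_le_exp ((p : ℝ) ^ (b - 1))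
      linarith
  have h4 : (0 : ℝ) ≤ 4 * y * ((y : ℝ) / z) ^ (-b) := by positivity
  calc 4 * (y : ℝ) * ((y : ℝ) / z) ^ (-b) * ∏ p ∈ pr z, (1 + (p : ℝ) ^ (b - 1))
      ≤ 4 * y * ((y : ℝ) / z) ^ (-b) * Real.exp (∑ p ∈ pr z, (p : ℝ) ^ (b - 1)) :=
        mul_le_mul_of_nonneg_left h3 h4
    _ = 4 * ((y : ℝ) / z) ^ (-b) * Real.exp (∑ p ∈ pr z, (p : ℝ) ^ (b - 1)) * (V z)⁻¹ *
        (y * V z) := by
        field_simp

theorem b3_V_anti {z w : ℕ} (h : z ≤ w) : V w ≤ V z := by
  unfold V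
  have hsub : pr z ⊆ pr w := by
    unfold pr
    intro p hp
    simp only [mem_filter, mem_range] at hp ⊢
    exact ⟨by omega, hp.2⟩
  rw [← Finset.prod_sdiff hsub]
  have h1 : ∏ p ∈ pr w \ pr z, (1 - 1 / (p : ℝ)) ≤ 1 := by
    apply Finset.prod_le_one
    · intro p hp
      have hp' : p.Prime := (mem_filter.1 (mem_sdiff.1 hp).1).2
      have : (1 : ℝ) ≤ p := by exact_mod_cast hp'.one_le
      rw [sub_nonneg, div_le_one (by linarith)]
      exact this
    · intro p hp
      have : (0 : ℝ) ≤ 1 / (p : ℝ) := by positivity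
      linarith
  have h2 : 0 ≤ ∏ p ∈ pr z, (1 - 1 / (p : ℝ)) := (V_pos z).le
  calc _ ≤ 1 * ∏ p ∈ pr z, (1 - 1 / (p : ℝ)) := mul_le_mul_of_nonneg_right h1 h2
    _ = _ := one_mul _

/-- B3b -/
theorem er_mid : ∃ C : ℝ, 0 < C ∧ ∀ z y m : ℕ, 3 ≤ z → Real.log y ^ 2 ≤ z → z ≤ y →
    Real.exp 1 ≤ Real.log y / Real.log z →
    |er z m y| ≤ C * Real.log z * Real.exp
      (-((Real.log y / Real.log z - 1) * Real.log (Real.log y / Real.log z)) +
        C * (Real.log y / Real.log z / Real.log (Real.log y / Real.log z) +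
          Real.sqrt (Real.log y / Real.log z) * (1 + Real.log (Real.log z + 1)))) := by
  obtain ⟨C₁, hC₁, hV⟩ := V_inv_le
  obtain ⟨C₂, hC₂, hS⟩ := sum_rpow_le
  refine ⟨max (4 * C₁) C₂, lt_max_of_lt_right hC₂, ?_⟩
  intro z y m hz hlz hzy hu
  set C := max (4 * C₁) C₂ with hC
  have hzR : (3 : ℝ) ≤ z := by exact_mod_cast hz
  have hlogz1 : 1 ≤ Real.log z := by
    rw [Real.le_log_iff_exp_le (by linarith)]
    have := Real.exp_one_lt_d9
    linarith
  have hlogz : 0 < Real.log z := by linarith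
  have hyR : (z : ℝ) ≤ y := by exact_mod_cast hzy
  have hlogy : Real.log z ≤ Real.log y := Real.log_le_log (by linarith) hyR
  set u := Real.log y / Real.log z with hudef
  have he1 : (1 : ℝ) < Real.exp 1 := by
    have := Real.add_one_lt_exp (one_ne_zero : (1 : ℝ) ≠ 0)
    linarith
  have hu1 : 1 < u := by linarith
  have hu0 : 0 < u := by linarith
  have hlogu : 1 ≤ Real.log u := by
    rw [Real.le_log_iff_exp_le hu0]
    exact hu
  have huz : u ≤ Real.sqrt z := by
    have h1 : u ≤ Real.log y := by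
      rw [hudef, div_le_iff₀ hlogz]
      nlinarith
    exact h1.trans (Real.le_sqrt_of_sq_le hlz)
  set b := Real.log u / Real.log z with hb
  have hb0 : 0 < b := by positivity
  have hb2 : b ≤ 1 / 2 := by
    rw [hb, div_le_iff₀ hlogz]
    have : Real.log u ≤ Real.log (Real.sqrt z) := Real.log_le_log hu0 huz
    rw [Real.log_sqrt (by linarith)] at this
    linarith
  have hzb : (z : ℝ) ^ b = u := by
    rw [Real.rpow_def_of_pos (by linarith), hb, mul_div_cancel₀ _ hlogz.ne', Real.exp_log hu0]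
  have hmain := b3_er_le z m y b hb0.le (by linarith) (by omega) hzy
  refine hmain.trans ?_
  have h1 : ((y : ℝ) / z) ^ (-b) = Real.exp (-((u - 1) * Real.log u)) := by
    have hy0 : (0 : ℝ) < y := by linarith
    rw [Real.rpow_def_of_pos (by positivity), Real.log_div (by positivity) (by positivity)]
    congr 1
    rw [hb, hudef]
    field_simp
  have h2 := hS z hz b hb0 hb2 (by rw [hzb]; exact hu)
  rw [hzb] at h2
  have h3 := hV z (by omega)
  have hll : 0 ≤ Real.log (Real.log z + 1) := Real.log_nonneg (by linarith)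
  have hnn : 0 ≤ u / Real.log u + Real.sqrt u * (1 + Real.log (Real.log z + 1)) := by positivity
  have h4 : Real.exp (∑ p ∈ pr z, (p : ℝ) ^ (b - 1)) ≤
      Real.exp (C * (u / Real.log u + Real.sqrt u * (1 + Real.log (Real.log z + 1)))) := by
    apply Real.exp_le_exp.2
    refine h2.trans ?_
    exact mul_le_mul_of_nonneg_right (le_max_right _ _) hnn
  rw [h1, Real.exp_add]
  calc 4 * Real.exp (-((u - 1) * Real.log u)) * Real.exp (∑ p ∈ pr z, (p : ℝ) ^ (b - 1)) *
        (V z)⁻¹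
      ≤ 4 * Real.exp (-((u - 1) * Real.log u)) *
        Real.exp (C * (u / Real.log u + Real.sqrt u * (1 + Real.log (Real.log z + 1)))) *
        (C₁ * Real.log z) := by
        apply mul_le_mul _ h3 (inv_nonneg.2 (V_pos z).le) (by positivity)
        exact mul_le_mul_of_nonneg_left h4 (by positivity)
    _ = (4 * C₁) * Real.log z * (Real.exp (-((u - 1) * Real.log u)) *
        Real.exp (C * (u / Real.log u + Real.sqrt u * (1 + Real.log (Real.log z + 1))))) := by ring
    _ ≤ C * Real.log z * (Real.exp (-((u - 1) * Real.log u)) *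
        Real.exp (C * (u / Real.log u + Real.sqrt u * (1 + Real.log (Real.log z + 1))))) := by
        apply mul_le_mul_of_nonneg_right _ (by positivity)
        exact mul_le_mul_of_nonneg_right (le_max_left _ _) hlogz.le

theorem b3_smallO (C₂ : ℝ) (hC₂ : 0 < C₂) : ∃ X₀ : ℝ, ∀ x : ℝ, X₀ ≤ x →
    C₂ * (x / Real.log x + Real.sqrt x * (1 + Real.log (2 * Real.log x + 1))) ≤ x / 16 := by
  refine ⟨max (Real.exp (32 * C₂ + 1)) ((288 * C₂) ^ 4 + 1), ?_⟩
  intro x hx
  have hx1 : Real.exp (32 * C₂ + 1) ≤ x := (le_max_left _ _).trans hx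
  have hx2 : (288 * C₂) ^ 4 + 1 ≤ x := (le_max_right _ _).trans hx
  have hx0 : 0 < x := (Real.exp_pos _).trans_le hx1
  have hx01 : 1 ≤ x := by
    have : 0 ≤ (288 * C₂) ^ 4 := by positivity
    linarith
  have hlog : 32 * C₂ + 1 ≤ Real.log x := by
    rw [Real.le_log_iff_exp_le hx0]
    exact hx1
  have hlog0 : 0 < Real.log x := by linarith
  have h1 : C₂ * (x / Real.log x) ≤ x / 32 := by
    rw [mul_div_assoc', div_le_div_iff₀ hlog0 (by norm_num)]
    nlinarith
  have h2 : Real.log (2 * Real.log x + 1) ≤ 2 * Real.log x := by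
    have := Real.log_le_sub_one_of_pos (show (0 : ℝ) < 2 * Real.log x + 1 by linarith)
    linarith
  have h3 : Real.log x ≤ 4 * x ^ (1 / 4 : ℝ) := by
    have := Real.log_le_rpow_div hx0.le (show (0 : ℝ) < 1 / 4 by norm_num)
    calc Real.log x ≤ x ^ (1 / 4 : ℝ) / (1 / 4) := this
      _ = 4 * x ^ (1 / 4 : ℝ) := by ring
  set t := x ^ (1 / 4 : ℝ) with ht
  have ht4 : t ^ 4 = x := by
    rw [ht, ← Real.rpow_natCast, ← Real.rpow_mul hx0.le]
    norm_num
  have ht0 : 0 < t := by positivity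
  have ht1 : 1 ≤ t := by
    by_contra hcon
    push Not at hcon
    have : t ^ 4 < 1 := pow_lt_one₀ ht0.le hcon (by norm_num)
    linarith
  have ht288 : 288 * C₂ ≤ t := by
    by_contra hcon
    push Not at hcon
    have : t ^ 4 < (288 * C₂) ^ 4 := pow_lt_pow_left₀ hcon ht0.le (by norm_num)
    linarith
  have hsq : Real.sqrt x = t ^ 2 := by
    rw [← ht4]
    rw [show t ^ 4 = (t ^ 2) ^ 2 by ring]
    exact Real.sqrt_sq (by positivity)
  have h4 : Real.sqrt x * (1 + Real.log (2 * Real.log x + 1)) ≤ 9 * t ^ 3 := by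
    rw [hsq]
    have : 1 + Real.log (2 * Real.log x + 1) ≤ 9 * t := by linarith
    calc t ^ 2 * (1 + Real.log (2 * Real.log x + 1)) ≤ t ^ 2 * (9 * t) :=
          mul_le_mul_of_nonneg_left this (by positivity)
      _ = 9 * t ^ 3 := by ring
  have h5 : C₂ * (9 * t ^ 3) ≤ x / 32 := by
    rw [← ht4]
    have : 0 < t ^ 3 := by positivity
    nlinarith
  have h6 := mul_le_mul_of_nonneg_left h4 hC₂.le
  rw [mul_add]
  linarith

theorem b3_sum_mono (c : ℝ) {z w : ℕ} (h : z ≤ w) :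
    ∑ p ∈ pr z, (p : ℝ) ^ c ≤ ∑ p ∈ pr w, (p : ℝ) ^ c := by
  apply Finset.sum_le_sum_of_subset_of_nonneg
  · unfold pr
    intro p hp
    simp only [mem_filter, mem_range] at hp ⊢
    exact ⟨by omega, hp.2⟩
  · intro p _ _
    positivity

/-- B3a -/
theorem er_small : ∃ Y : ℝ, ∀ y : ℕ, Y ≤ y → ∀ z : ℕ, 1 ≤ z → (z : ℝ) ≤ Real.log y ^ 2 → ∀ m : ℕ,
    |er z m y| ≤ Real.exp (-(Real.log y / 4)) := by
  obtain ⟨C₁, hC₁, hV⟩ := V_inv_le
  obtain ⟨C₂, hC₂, hS⟩ := sum_rpow_le
  obtain ⟨X₀, hX₀⟩ := b3_smallO C₂ hC₂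
  refine ⟨Real.exp (max (X₀ + 1) (max 10 (8 * C₁ * 4096 * 6 / 27))), ?_⟩
  intro y hy z hz hzl m
  have hy0 : (0 : ℝ) < y := (Real.exp_pos _).trans_le hy
  have hL : max (X₀ + 1) (max 10 (8 * C₁ * 4096 * 6 / 27)) ≤ Real.log y := by
    rw [Real.le_log_iff_exp_le hy0]
    exact hy
  set L := Real.log y with hLdef
  have hL1 : X₀ + 1 ≤ L := (le_max_left _ _).trans hL
  have hL2 : 10 ≤ L := ((le_max_left _ _).trans (le_max_right _ _)).trans hL
  have hL3 : 8 * C₁ * 4096 * 6 / 27 ≤ L := ((le_max_right _ _).trans (le_max_right _ _)).trans hL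
  have hL0 : 0 < L := by linarith
  have hyL : (y : ℝ) = Real.exp L := (Real.exp_log hy0).symm
  have hzR : (1 : ℝ) ≤ z := by exact_mod_cast hz
  have hzy : z ≤ y := by
    have h1 : L ^ 2 ≤ Real.exp L := by
      have := Real.pow_div_factorial_le_exp L hL0.le 3
      have h6 : ((3 : ℕ).factorial : ℝ) = 6 := by norm_num [Nat.factorial]
      rw [h6] at this
      nlinarith [sq_nonneg L]
    have h2 : (z : ℝ) ≤ y := by rw [hyL]; linarith
    exact_mod_cast h2
  set z' := ⌊L ^ 2⌋₊ with hz'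
  have hzz' : z ≤ z' := Nat.le_floor hzl
  have hz'1 : (z' : ℝ) ≤ L ^ 2 := Nat.floor_le (by positivity)
  have hz'2 : L ^ 2 - 1 < z' := by
    have := Nat.lt_floor_add_one (L ^ 2)
    linarith
  have hz'3 : 3 ≤ z' := by
    apply Nat.le_floor
    push_cast
    nlinarith
  set x := Real.sqrt z' with hx
  have hxL : x ≤ L := by
    rw [hx]
    exact Real.sqrt_le_iff.2 ⟨hL0.le, hz'1⟩
  have hxL1 : L - 1 ≤ x := by
    apply Real.le_sqrt_of_sq_le
    nlinarith
  have hx0 : 0 < x := by linarith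
  have hz'0 : (0 : ℝ) < z' := by
    have : (3 : ℝ) ≤ z' := by exact_mod_cast hz'3
    linarith
  have hxz : (z' : ℝ) ^ (1 / 2 : ℝ) = x := by rw [hx, Real.sqrt_eq_rpow]
  have hlogz' : Real.log z' = 2 * Real.log x := by
    rw [hx, Real.log_sqrt hz'0.le]
    ring
  have hlogL : Real.log L ≤ L := by
    have := Real.log_le_sub_one_of_pos hL0
    linarith
  have hlogL0 : 0 ≤ Real.log L := Real.log_nonneg (by linarith)
  have hlogx : Real.log x ≤ Real.log L := Real.log_le_log hx0 hxL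
  have hsum : ∑ p ∈ pr z, (p : ℝ) ^ ((1 / 2 : ℝ) - 1) ≤ L / 16 := by
    refine (b3_sum_mono _ hzz').trans ?_
    have he : Real.exp 1 ≤ (z' : ℝ) ^ (1 / 2 : ℝ) := by
      rw [hxz]
      have := Real.exp_one_lt_d9
      linarith
    refine (hS z' hz'3 (1 / 2) (by norm_num) le_rfl he).trans ?_
    rw [hxz, hlogz']
    refine (hX₀ x (by linarith)).trans ?_
    linarith
  have hVz : (V z)⁻¹ ≤ 2 * C₁ * Real.log L := by
    have h1 : (V z)⁻¹ ≤ (V z')⁻¹ := inv_anti₀ (V_pos z') (b3_V_anti hzz')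
    have h2 := hV z' (by omega)
    rw [hlogz'] at h2
    have h3 : C₁ * (2 * Real.log x) ≤ C₁ * (2 * Real.log L) :=
      mul_le_mul_of_nonneg_left (by linarith) hC₁.le
    linarith
  have hmain := b3_er_le z m y (1 / 2) (by norm_num) (by norm_num) hz hzy
  refine hmain.trans ?_
  have h1 : ((y : ℝ) / z) ^ (-(1 / 2 : ℝ)) ≤ Real.exp (-(L / 2)) * L := by
    rw [Real.rpow_def_of_pos (by positivity), Real.log_div (by positivity) (by positivity)]
    have hlz : Real.log z ≤ 2 * Real.log L := by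
      have := Real.log_le_log (by linarith) hzl
      rw [Real.log_pow] at this
      push_cast at this
      exact this
    calc Real.exp ((Real.log y - Real.log z) * -(1 / 2)) ≤
          Real.exp (-(L / 2) + Real.log L) := by
          apply Real.exp_le_exp.2
          rw [← hLdef]
          linarith
      _ = Real.exp (-(L / 2)) * L := by rw [Real.exp_add, Real.exp_log hL0]
  have hVnn : 0 ≤ (V z)⁻¹ := inv_nonneg.2 (V_pos z).le
  have h2 : 4 * ((y : ℝ) / z) ^ (-(1 / 2 : ℝ)) *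
      Real.exp (∑ p ∈ pr z, (p : ℝ) ^ ((1 / 2 : ℝ) - 1)) * (V z)⁻¹ ≤
      4 * (Real.exp (-(L / 2)) * L) * Real.exp (L / 16) * (2 * C₁ * Real.log L) := by
    apply mul_le_mul _ hVz hVnn (by positivity)
    apply mul_le_mul _ (Real.exp_le_exp.2 hsum) (Real.exp_pos _).le (by positivity)
    exact mul_le_mul_of_nonneg_left h1 (by norm_num)
  refine h2.trans ?_
  have h3 : 8 * C₁ * L * Real.log L ≤ Real.exp (3 * L / 16) := by
    have h4 := Real.pow_div_factorial_le_exp (3 * L / 16) (by positivity) 3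
    have h6 : ((3 : ℕ).factorial : ℝ) = 6 := by norm_num [Nat.factorial]
    rw [h6] at h4
    have h7 : 8 * C₁ * L * Real.log L ≤ 8 * C₁ * L * L := by gcongr
    have h8 : 8 * C₁ * L * L ≤ (3 * L / 16) ^ 3 / 6 := by
      have h9 : 8 * C₁ ≤ L * 27 / (4096 * 6) := by
        rw [div_le_iff₀ (by norm_num)] at hL3
        rw [le_div_iff₀ (by norm_num)]
        linarith
      have h10 : 0 ≤ L * L := by positivity
      calc 8 * C₁ * L * L = (8 * C₁) * (L * L) := by ring
        _ ≤ (L * 27 / (4096 * 6)) * (L * L) := mul_le_mul_of_nonneg_right h9 h10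
        _ = (3 * L / 16) ^ 3 / 6 := by ring
    linarith
  calc 4 * (Real.exp (-(L / 2)) * L) * Real.exp (L / 16) * (2 * C₁ * Real.log L)
      = (8 * C₁ * L * Real.log L) * (Real.exp (-(L / 2)) * Real.exp (L / 16)) := by ring
    _ ≤ Real.exp (3 * L / 16) * (Real.exp (-(L / 2)) * Real.exp (L / 16)) :=
        mul_le_mul_of_nonneg_right h3 (by positivity)
    _ = Real.exp (-(L / 4)) := by
        rw [← Real.exp_add, ← Real.exp_add]
        congr 1
        ring

end Pool.Gal99
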