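import Pool.Agent.LibGal99.B3

namespace Pool.Gal99

open Finset Filter Topology


theorem B4exp (κ : ℝ) (hκ : 0 < κ) : ∀ᶠ l : ℝ in atTop, 18 * l ≤ Real.exp (κ * l) := by
  have h1 : Tendsto (fun l : ℝ => Real.exp (κ * l) / l) atTop atTop := by
    have h2 := Real.tendsto_exp_div_pow_atTop 1
    have h3 : Tendsto (fun l : ℝ => κ * l) atTop atTop := tendsto_id.const_mul_atTop hκ
    have h4 := (h2.comp h3).const_mul_atTop hκ
    refine h4.congr' ?_
    filter_upwards [eventually_gt_atTop 0] with l hl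
    simp only [Function.comp, pow_one]
    field_simp
  filter_upwards [h1.eventually_ge_atTop 18, eventually_gt_atTop 0] with l hl h0
  rwa [le_div_iff₀ h0] at hl

/-- The real analysis in the middle range. -/
theorem B4core (C κ : ℝ) (hC : 0 < C) (hκ : 0 < κ) (hκ1 : κ ≤ 1 / 14) :
    ∀ᶠ l : ℝ in atTop, ∀ L Ly lam : ℝ, L = Real.exp l → (1 - κ) * L ≤ Ly → Ly ≤ L → 1 ≤ lam →
      lam ≤ 3 * Real.sqrt (2 * L * l) →
      Real.exp 1 ≤ Ly / lam ∧
      C * lam * Real.exp (-((Ly / lam - 1) * Real.log (Ly / lam)) +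
        C * (Ly / lam / Real.log (Ly / lam) + Real.sqrt (Ly / lam) * (1 + Real.log (lam + 1)))) ≤
        Real.exp (-((1 - 4 * κ) * (1 / 2 - κ) * l * (Ly / lam))) := by
  have hl1 : 0 < 1 - κ := by linarith
  filter_upwards [B4exp κ hκ, eventually_ge_atTop 4, eventually_ge_atTop (Real.log C),
    eventually_ge_atTop (36 / κ), eventually_ge_atTop (12 * C / κ),
    eventually_ge_atTop (48 * C / κ),
    eventually_ge_atTop (-(2 / κ) * Real.log (1 - κ))] with l h1 h2 h3 h4 h5 h6 h7
  intro L Ly lam hL hLy1 hLy2 hlam1 hlam2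
  have hl0 : 0 < l := by linarith
  have hLpos : 0 < L := by rw [hL]; exact Real.exp_pos _
  have hlam0 : 0 < lam := by linarith
  have hLy0 : 0 < Ly := lt_of_lt_of_le (mul_pos hl1 hLpos) hLy1
  set u : ℝ := Ly / lam with hu
  have hu0 : 0 < u := div_pos hLy0 hlam0
  -- upper bound for `log lam`
  have hK : 3 * Real.sqrt (2 * L * l) ≤ Real.exp ((1 + κ) / 2 * l) := by
    refine le_of_sq_le_sq ?_ (Real.exp_pos _).le
    rw [mul_pow, Real.sq_sqrt (by positivity), ← Real.exp_nat_mul]
    calc (3 : ℝ) ^ 2 * (2 * L * l) = L * (18 * l) := by ring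
      _ ≤ L * Real.exp (κ * l) := mul_le_mul_of_nonneg_left h1 hLpos.le
      _ = Real.exp ((2 : ℕ) * ((1 + κ) / 2 * l)) := by
        rw [hL, ← Real.exp_add]
        congr 1
        push_cast
        ring
  have hloglam : Real.log lam ≤ (1 + κ) / 2 * l := by
    rw [Real.log_le_iff_le_exp hlam0]
    exact hlam2.trans hK
  have hlogL : Real.log L = l := by rw [hL, Real.log_exp]
  have hlogk : -(κ / 2 * l) ≤ Real.log (1 - κ) := by
    have h8 : -(2 / κ) * Real.log (1 - κ) ≤ l := h7
    have h9 := mul_le_mul_of_nonneg_left h8 (show (0 : ℝ) ≤ κ / 2 by positivity)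
    have h10 : κ / 2 * (-(2 / κ) * Real.log (1 - κ)) = -Real.log (1 - κ) := by
      field_simp
    rw [h10] at h9
    linarith
  have hlogLy : (1 - κ / 2) * l ≤ Real.log Ly := by
    have h8 := Real.log_le_log (mul_pos hl1 hLpos) hLy1
    rw [Real.log_mul hl1.ne' hLpos.ne', hlogL] at h8
    linarith
  have hlogu : Real.log u = Real.log Ly - Real.log lam := Real.log_div hLy0.ne' hlam0.ne'
  set w : ℝ := Real.log u with hw
  have hw1 : (1 / 2 - κ) * l ≤ w := by
    rw [hlogu]
    linarith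
  have hw2 : l / 4 ≤ w := by
    refine le_trans ?_ hw1
    have := mul_le_mul_of_nonneg_right (show (1 : ℝ) / 4 ≤ 1 / 2 - κ by linarith) hl0.le
    linarith
  have hloglam0 : 0 ≤ Real.log lam := Real.log_nonneg hlam1
  have hw3 : w ≤ l := by
    rw [hlogu]
    have h8 := Real.log_le_log hLy0 hLy2
    rw [hlogL] at h8
    linarith
  have hw0 : 0 < w := by linarith
  have hue : Real.exp w = u := Real.exp_log hu0
  have hu1 : 1 + l / 4 ≤ u := by
    rw [← hue]
    have := Real.add_one_le_exp w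
    linarith
  have hsq : 1 + l / 8 ≤ Real.sqrt u := by
    have h8 : Real.sqrt u = Real.exp (w / 2) := by
      rw [← hue, ← Real.exp_half]
    rw [h8]
    have := Real.add_one_le_exp (w / 2)
    linarith
  have hsq0 : 0 < Real.sqrt u := Real.sqrt_pos.2 hu0
  have hsqu : Real.sqrt u * Real.sqrt u = u := Real.mul_self_sqrt hu0.le
  refine ⟨?_, ?_⟩
  · rw [← hue]
    exact Real.exp_le_exp.2 (by linarith)
  have hlog2 : Real.log 2 ≤ 1 := by
    have := Real.log_two_lt_d9
    linarith
  have hlog1 : Real.log (lam + 1) ≤ l := by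
    have h8 : Real.log (lam + 1) ≤ Real.log (2 * lam) :=
      Real.log_le_log (by linarith) (by linarith)
    rw [Real.log_mul (by norm_num) hlam0.ne'] at h8
    have := mul_le_mul_of_nonneg_right (show (1 + κ) / 2 ≤ 3 / 4 by linarith) hl0.le
    linarith
  have hexp : C * lam = Real.exp (Real.log C + Real.log lam) := by
    rw [Real.exp_add, Real.exp_log hC, Real.exp_log hlam0]
  rw [hexp, ← Real.exp_add, Real.exp_le_exp]
  -- the error terms
  have e1 : Real.log C + 2 * l ≤ κ / 3 * (u * l) := by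
    have h8 : 9 / κ ≤ u := by
      have : 9 / κ = (36 / κ) / 4 := by ring
      rw [this]
      linarith
    have h9 : 9 ≤ κ * u := by
      rw [div_le_iff₀ hκ] at h8
      linarith
    have := mul_le_mul_of_nonneg_right h9 hl0.le
    linarith
  have e2 : C * (u / w) ≤ κ / 3 * (u * l) := by
    have h8 : u / w ≤ 4 * u / l := by
      rw [div_le_div_iff₀ hw0 hl0]
      have := mul_le_mul_of_nonneg_left hw2 hu0.le
      linarith
    have h9 : 12 * C ≤ κ * (l * l) := by
      have h10 : 12 * C ≤ l * κ := by rwa [div_le_iff₀ hκ] at h5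
      have h12 := mul_nonneg (mul_pos hκ hl0).le (show 0 ≤ l - 1 by linarith)
      linarith
    have h11 : C * (4 * u / l) ≤ κ / 3 * (u * l) := by
      rw [show C * (4 * u / l) = (C * 4 * u) / l by ring, div_le_iff₀ hl0]
      have := mul_le_mul_of_nonneg_right h9 (show 0 ≤ u / 3 by positivity)
      linarith
    exact (mul_le_mul_of_nonneg_left h8 hC.le).trans h11
  have e3 : C * (Real.sqrt u * (1 + Real.log (lam + 1))) ≤ κ / 3 * (u * l) := by
    have h8 : 6 * C ≤ κ * Real.sqrt u := by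
      have h9 : 48 * C ≤ l * κ := by rwa [div_le_iff₀ hκ] at h6
      have := mul_le_mul_of_nonneg_left hsq hκ.le
      linarith
    have h10 : 1 + Real.log (lam + 1) ≤ 2 * l := by linarith
    calc C * (Real.sqrt u * (1 + Real.log (lam + 1))) ≤ C * (Real.sqrt u * (2 * l)) := by
          refine mul_le_mul_of_nonneg_left ?_ hC.le
          exact mul_le_mul_of_nonneg_left h10 hsq0.le
      _ = 6 * C * (Real.sqrt u * l / 3) := by ring
      _ ≤ κ * Real.sqrt u * (Real.sqrt u * l / 3) :=
          mul_le_mul_of_nonneg_right h8 (by positivity)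
      _ = κ / 3 * ((Real.sqrt u * Real.sqrt u) * l) := by ring
      _ = κ / 3 * (u * l) := by rw [hsqu]
  have e4 : κ * (u * l) ≤ 4 * κ * (u * w) := by
    have h8 : u * l ≤ 4 * (u * w) := by
      have := mul_le_mul_of_nonneg_left hw2 hu0.le
      linarith
    have := mul_le_mul_of_nonneg_left h8 hκ.le
    linarith
  have hll : Real.log lam ≤ l := by
    have := mul_le_mul_of_nonneg_right (show (1 + κ) / 2 ≤ 1 by linarith) hl0.le
    linarith
  have e5 : (1 - 4 * κ) * (1 / 2 - κ) * l * u ≤ (1 - 4 * κ) * (u * w) := by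
    have h8 : (1 / 2 - κ) * l * u ≤ u * w := by
      have := mul_le_mul_of_nonneg_left hw1 hu0.le
      linarith
    have h9 : 0 ≤ 1 - 4 * κ := by linarith
    have := mul_le_mul_of_nonneg_left h8 h9
    linarith
  linarith

/-- B3 (dependency of C10) -/
theorem env_bound (η : ℝ) (hη : 0 < η) : ∃ δ : ℝ, 0 < δ ∧ ∀ᶠ h : ℕ in atTop, ∀ y : ℕ,
    (h : ℝ) ^ (1 - δ) ≤ y → y ≤ h → ∀ z : ℕ, 1 ≤ z → Real.log z ≤ 3 * ks h → ∀ m : ℕ,
      |er z m y| ≤ 1 ∧ |er z m y| ≤ z * Real.exp (-(1 - η) * ks h) := by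
  obtain ⟨Y, hY⟩ := er_small
  obtain ⟨C, hC, hmid⟩ := er_mid
  set κ : ℝ := min η 1 / 14 with hκdef
  have hκ : 0 < κ := by positivity
  have hκ1 : κ ≤ 1 / 14 := by
    have := min_le_right η 1
    rw [hκdef]
    linarith
  have hκη : 14 * κ ≤ η := by
    have := min_le_left η 1
    rw [hκdef]
    linarith
  refine ⟨κ, hκ, ?_⟩
  have hlogt : Tendsto (fun h : ℕ => Real.log h) atTop atTop :=
    Real.tendsto_log_atTop.comp tendsto_natCast_atTop_atTop
  have hlogt2 : Tendsto (fun h : ℕ => Real.log (Real.log h)) atTop atTop :=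
    Real.tendsto_log_atTop.comp hlogt
  -- `ks` is small compared with `log`
  have hks : ∀ᶠ h : ℕ in atTop, ks h ≤ Real.log h / 8 := by
    have h1 := (Real.isLittleO_log_id_atTop).bound (show (0 : ℝ) < 1 / 128 by norm_num)
    filter_upwards [hlogt.eventually h1, hlogt.eventually_gt_atTop 1] with h h2 h3
    have h4 : Real.log (Real.log h) ≤ 1 / 128 * Real.log h := by
      simp only [id, Real.norm_eq_abs] at h2
      rw [abs_of_pos (show (0 : ℝ) < Real.log h by linarith)] at h2
      exact (le_abs_self _).trans h2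
    unfold ks
    refine Real.sqrt_le_iff.2 ⟨by linarith, ?_⟩
    nlinarith
  have hYt : ∀ᶠ h : ℕ in atTop, Y ≤ (h : ℝ) ^ (1 - κ) :=
    ((tendsto_rpow_atTop (show (0 : ℝ) < 1 - κ by linarith)).comp
      tendsto_natCast_atTop_atTop).eventually_ge_atTop Y
  filter_upwards [hks, hYt, hlogt2.eventually (B4core C κ hC hκ hκ1),
    hlogt.eventually_ge_atTop 8, hlogt2.eventually_ge_atTop 1, eventually_ge_atTop 2]
    with h hks1 hY1 hcore hL8 hl1 hh2
  intro y hy1 hy2 z hz1 hz2 m
  set L : ℝ := Real.log h with hL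
  set l : ℝ := Real.log L with hl
  set Ly : ℝ := Real.log y with hLy
  have hh0 : (0 : ℝ) < h := by
    have : 0 < h := by omega
    exact_mod_cast this
  have hy0 : (0 : ℝ) < y := lt_of_lt_of_le (Real.rpow_pos_of_pos hh0 _) hy1
  have hLyL : (1 - κ) * L ≤ Ly := by
    have h1 := Real.log_le_log (Real.rpow_pos_of_pos hh0 _) hy1
    rwa [Real.log_rpow hh0] at h1
  have hLyL2 : Ly ≤ L := Real.log_le_log hy0 (by exact_mod_cast hy2)
  have hks0 : 0 ≤ ks h := Real.sqrt_nonneg _
  have hksq : ks h ^ 2 = 2 * L * l := by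
    unfold ks
    exact Real.sq_sqrt (by positivity)
  have hz0 : (1 : ℝ) ≤ z := by exact_mod_cast hz1
  by_cases hzs : (z : ℝ) ≤ Ly ^ 2
  · -- small `z`
    have h1 := hY y (hY1.trans hy1) z hz1 hzs m
    refine ⟨h1.trans (Real.exp_le_one_iff.2 (by nlinarith)), h1.trans ?_⟩
    have h2 : Real.exp (-(Ly / 4)) ≤ Real.exp (-(1 - η) * ks h) := by
      refine Real.exp_le_exp.2 ?_
      nlinarith
    refine h2.trans ?_
    exact le_mul_of_one_le_left (Real.exp_pos _).le hz0
  · -- large `z`
    rw [not_le] at hzs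
    have hLy4 : 4 ≤ Ly := by nlinarith
    have hz3 : (3 : ℝ) ≤ z := by nlinarith
    have hz3' : 3 ≤ z := by exact_mod_cast hz3
    set lam : ℝ := Real.log z with hlam
    have hlam1 : 1 ≤ lam := by
      rw [hlam, Real.le_log_iff_exp_le (by linarith)]
      have := Real.exp_one_lt_d9
      linarith
    have hks2 : ks h = Real.sqrt (2 * L * l) := rfl
    obtain ⟨c1, c2⟩ := hcore L Ly lam (Real.exp_log (by linarith)).symm hLyL hLyL2 hlam1
      (by rw [← hks2]; exact hz2)
    have hlam0 : 0 < lam := by linarith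
    have hzy : z ≤ y := by
      have h1 : 1 ≤ Ly / lam := le_trans (by have := Real.add_one_le_exp 1; linarith) c1
      rw [one_le_div hlam0] at h1
      have h2 : (z : ℝ) ≤ y := by
        rw [← Real.exp_log (show (0 : ℝ) < z by linarith), ← Real.exp_log hy0]
        exact Real.exp_le_exp.2 h1
      exact_mod_cast h2
    have h1 := (hmid z y m hz3' hzs.le hzy c1).trans c2
    have hu0 : 0 < Ly / lam := div_pos (by linarith) hlam0
    have hc4 : 0 ≤ (1 - 4 * κ) * (1 / 2 - κ) := mul_nonneg (by linarith) (by linarith)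
    have hB0 : 0 ≤ (1 - 4 * κ) * (1 / 2 - κ) * l * (Ly / lam) :=
      mul_nonneg (mul_nonneg hc4 (by linarith)) hu0.le
    refine ⟨h1.trans (Real.exp_le_one_iff.2 (by linarith)), h1.trans ?_⟩
    have hz4 : (z : ℝ) = Real.exp lam := (Real.exp_log (by linarith)).symm
    rw [hz4, ← Real.exp_add, Real.exp_le_exp]
    set B : ℝ := (1 - 4 * κ) * (1 / 2 - κ) * l * (Ly / lam) with hB
    have hprod : lam * B = (1 - 4 * κ) * (1 / 2 - κ) * l * Ly := by
      rw [hB]
      field_simp
    -- arithmetic-geometric mean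
    have hkey : (1 - η) * ks h ≤ lam + B := by
      rcases le_total 1 η with hη1 | hη1
      · have : (1 - η) * ks h ≤ 0 := mul_nonpos_of_nonpos_of_nonneg (by linarith) hks0
        linarith
      · refine le_of_sq_le_sq ?_ (by linarith)
        have h2 : (1 - η) ^ 2 ≤ (1 - 4 * κ) * (1 - 2 * κ) * (1 - κ) := by
          have h3 : 1 - 7 * κ ≤ (1 - 4 * κ) * (1 - 2 * κ) * (1 - κ) := by
            have := mul_nonneg (sq_nonneg κ) (show 0 ≤ 14 - 8 * κ by linarith)
            linarith
          have h4 : (1 - η) ^ 2 ≤ 1 - η := by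
            have := mul_nonneg hη.le (show 0 ≤ 1 - η by linarith)
            linarith
          linarith
        have h5 : 4 * (lam * B) ≤ (lam + B) ^ 2 := by nlinarith [sq_nonneg (lam - B)]
        refine le_trans ?_ h5
        rw [hprod, mul_pow, hksq]
        have h6 : (1 - 4 * κ) * (1 / 2 - κ) * l * ((1 - κ) * L) ≤
            (1 - 4 * κ) * (1 / 2 - κ) * l * Ly :=
          mul_le_mul_of_nonneg_left hLyL (mul_nonneg hc4 (by linarith))
        have h7 : (1 - η) ^ 2 * (2 * L * l) ≤
            ((1 - 4 * κ) * (1 - 2 * κ) * (1 - κ)) * (2 * L * l) :=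
          mul_le_mul_of_nonneg_right h2 (by positivity)
        linarith
    linarith

end Pool.Gal99
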