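import Pool.Agent.LibGal99.A0

namespace Pool.Gal99

open Finset Filter Topology


/-- C1a -/
theorem R_periodic (z m t h : ℕ) : R z (m + Pz z * t) h = R z m h := by
  unfold R
  symm
  apply Finset.card_bij (fun n _ => n + Pz z * t)
  · intro n hn
    simp only [mem_filter, mem_Ioc] at hn ⊢
    refine ⟨⟨by omega, by omega⟩, ?_⟩
    exact (Nat.coprime_add_mul_left_left _ _ _).mpr hn.2
  · intro a _ b _ hab
    exact Nat.add_right_cancel hab
  · intro n hn
    simp only [mem_filter, mem_Ioc] at hn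
    obtain ⟨⟨h1, h2⟩, h3⟩ := hn
    refine ⟨n - Pz z * t, ?_, ?_⟩
    · simp only [mem_filter, mem_Ioc]
      refine ⟨⟨by omega, by omega⟩, ?_⟩
      have h4 : n = (n - Pz z * t) + Pz z * t := by omega
      rw [h4] at h3
      exact (Nat.coprime_add_mul_left_left _ _ _).mp h3
    · omega

theorem er_periodic (z m t h : ℕ) : er z (m + Pz z * t) h = er z m h := by
  unfold er
  rw [R_periodic]

theorem er_zero (m h : ℕ) (hh : 0 < h) : er 0 m h = 0 := by
  have h1 : pr 0 = ∅ := by
    unfold pr
    rw [Finset.filter_eq_empty_iff]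
    intro x hx
    have h2 : x = 0 := by simpa using hx
    rw [h2]
    exact Nat.not_prime_zero
  have h2 : Pz 0 = 1 := by
    unfold Pz
    rw [h1, Finset.prod_empty]
  have h3 : V 0 = 1 := by
    unfold V
    rw [h1, Finset.prod_empty]
  have h4 : R 0 m h = h := by
    unfold R
    rw [h2, Finset.filter_true_of_mem (fun n _ => Nat.coprime_one_right n), Nat.card_Ioc]
    omega
  have h5 : (h : ℝ) ≠ 0 := by
    have : h ≠ 0 := by omega
    exact_mod_cast this
  unfold er
  rw [h3, h4, mul_one, div_self h5, sub_self]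

theorem er_ge (z m h : ℕ) : -1 ≤ er z m h := by
  unfold er
  have h1 := V_pos z
  have h2 : 0 ≤ (R z m h : ℝ) / (h * V z) := by positivity
  linarith

/-- C1b: splitting of mean values -/
theorem avg_mul (P q : ℕ) (hP : 0 < P) (hq : 0 < q) (f : ℕ → ℝ) :
    avg (P * q) f = avg P (fun m => avg q (fun t => f (m + P * t))) := by
  unfold avg
  have hP' : (P : ℝ) ≠ 0 := by
    have : P ≠ 0 := by omega
    exact_mod_cast this
  have hq' : (q : ℝ) ≠ 0 := by
    have : q ≠ 0 := by omega
    exact_mod_cast this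
  have h1 : ∑ m ∈ range (P * q), f m = ∑ m ∈ range P, ∑ t ∈ range q, f (m + P * t) := by
    rw [← Finset.sum_product']
    symm
    refine Finset.sum_bij' (fun x _ => x.1 + P * x.2) (fun n _ => (n % P, n / P)) ?_ ?_ ?_ ?_ ?_
    · rintro ⟨m, t⟩ hx
      simp only [mem_product, mem_range] at hx ⊢
      obtain ⟨hm, ht⟩ := hx
      have h2 : P * (t + 1) ≤ P * q := Nat.mul_le_mul_left P ht
      have h3 : P * (t + 1) = P * t + P := by ring
      omega
    · intro n hn
      simp only [mem_product, mem_range] at hn ⊢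
      exact ⟨Nat.mod_lt _ hP, Nat.div_lt_of_lt_mul hn⟩
    · rintro ⟨m, t⟩ hx
      simp only [mem_product, mem_range] at hx
      simp only [Prod.mk.injEq]
      refine ⟨?_, ?_⟩
      · rw [Nat.add_mul_mod_self_left, Nat.mod_eq_of_lt hx.1]
      · rw [Nat.add_mul_div_left _ _ hP, Nat.div_eq_of_lt hx.1, zero_add]
    · intro n _
      exact Nat.mod_add_div n P
    · rintro ⟨m, t⟩ _
      rfl
  rw [h1]
  push_cast
  rw [← Finset.sum_div, div_div, mul_comm (q : ℝ) (P : ℝ)]

/-- C1c: splitting the other way -/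
theorem avg_mul' (P q : ℕ) (hP : 0 < P) (hq : 0 < q) (f : ℕ → ℝ) :
    avg (P * q) f = avg q (fun r => avg P (fun m => f (q * m + r))) := by
  rw [mul_comm P q, avg_mul q P hq hP f]
  simp_rw [add_comm]

end Pool.Gal99
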