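import Pool.Agent.LibGal99.A0

namespace Pool.Gal99

open Finset Filter Topology


theorem c2_frac (z : ℕ) : (1 : ℝ) - 1 / ((z : ℝ) + 1) = z / ((z : ℝ) + 1) := by
  have : (z : ℝ) + 1 ≠ 0 := by positivity
  field_simp
  ring

theorem c2_coprime (z : ℕ) (hp : (z + 1).Prime) : (z + 1).Coprime (Pz z) := by
  unfold Pz
  refine Nat.Coprime.prod_right ?_
  intro p hpz
  simp only [pr, mem_filter, mem_range] at hpz
  rw [Nat.coprime_primes hp hpz.2]
  omega

theorem c2_coprime_iff (z n : ℕ) (hp : (z + 1).Prime) :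
    n.Coprime (Pz (z + 1)) ↔ n.Coprime (Pz z) ∧ ¬ (z + 1) ∣ n := by
  rw [Pz_succ]
  simp only [qq, if_pos hp]
  rw [Nat.coprime_mul_iff_right, Nat.coprime_comm (n := n) (m := z + 1),
    Nat.Prime.coprime_iff_not_dvd hp]

/-- C2a: Buchstab step -/
theorem R_succ (z m h : ℕ) (hp : (z + 1).Prime) :
    R z m h = R (z + 1) m h + R z (m / (z + 1)) ((m + h) / (z + 1) - m / (z + 1)) := by
  classical
  have hpos : 0 < z + 1 := Nat.succ_pos z
  have hle : m / (z + 1) ≤ (m + h) / (z + 1) := Nat.div_le_div_right (by omega)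
  have hend : m / (z + 1) + ((m + h) / (z + 1) - m / (z + 1)) = (m + h) / (z + 1) := by omega
  unfold R
  rw [hend]
  have h1 : ((Ioc m (m + h)).filter (fun n => n.Coprime (Pz z))) =
      ((Ioc m (m + h)).filter (fun n => n.Coprime (Pz (z + 1)))) ∪
      ((Ioc (m / (z + 1)) ((m + h) / (z + 1))).filter (fun n => n.Coprime (Pz z))).image
        (fun n => (z + 1) * n) := by
    ext n
    simp only [mem_filter, mem_Ioc, mem_union, mem_image, c2_coprime_iff z _ hp]
    constructor
    · rintro ⟨⟨h1, h2⟩, h3⟩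
      by_cases hd : (z + 1) ∣ n
      · obtain ⟨c, rfl⟩ := hd
        right
        refine ⟨c, ⟨⟨?_, ?_⟩, ?_⟩, rfl⟩
        · rw [Nat.div_lt_iff_lt_mul hpos]
          rwa [mul_comm] at h1
        · rw [Nat.le_div_iff_mul_le hpos]
          rwa [mul_comm] at h2
        · exact Nat.Coprime.coprime_mul_left h3
      · left
        exact ⟨⟨h1, h2⟩, h3, hd⟩
    · rintro (⟨⟨h1, h2⟩, h3, hd⟩ | ⟨c, ⟨⟨h1, h2⟩, h3⟩, rfl⟩)
      · exact ⟨⟨h1, h2⟩, h3⟩
      · refine ⟨⟨?_, ?_⟩, ?_⟩
        · rw [Nat.div_lt_iff_lt_mul hpos] at h1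
          rwa [mul_comm]
        · rw [Nat.le_div_iff_mul_le hpos] at h2
          rwa [mul_comm]
        · exact Nat.Coprime.mul_left (c2_coprime z hp) h3
  rw [h1, card_union_of_disjoint, card_image_of_injective]
  · intro a b hab
    exact Nat.eq_of_mul_eq_mul_left hpos hab
  · rw [Finset.disjoint_left]
    intro n hn hn'
    simp only [mem_filter, c2_coprime_iff z _ hp] at hn
    rw [mem_image] at hn'
    obtain ⟨c, -, rfl⟩ := hn'
    exact hn.2.2 (dvd_mul_right _ _)

theorem R_succ' (z m h : ℕ) (hp : ¬ (z + 1).Prime) : R (z + 1) m h = R z m h := by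
  unfold R
  rw [Pz_succ]
  simp only [qq, if_neg hp, mul_one]

theorem dd_eq_zero (z m h : ℕ) (hp : ¬ (z + 1).Prime) : dd z m h = 0 := by
  unfold dd er
  rw [R_succ' z m h hp, V_succ, if_neg hp, mul_one, sub_self]

theorem c2_shift (z m s h : ℕ) :
    R z (m + s) h = ((Ioc m (m + h)).filter (fun n => (n + s).Coprime (Pz z))).card := by
  unfold R
  have h1 : (Ioc (m + s) (m + s + h)).filter (fun n => n.Coprime (Pz z)) =
      ((Ioc m (m + h)).filter (fun n => (n + s).Coprime (Pz z))).image (fun n => n + s) := by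
    ext n
    simp only [mem_filter, mem_Ioc, mem_image]
    constructor
    · rintro ⟨⟨h1, h2⟩, h3⟩
      refine ⟨n - s, ⟨⟨by omega, by omega⟩, ?_⟩, by omega⟩
      have : n - s + s = n := by omega
      rwa [this]
    · rintro ⟨c, ⟨⟨h1, h2⟩, h3⟩, rfl⟩
      exact ⟨⟨by omega, by omega⟩, h3⟩
  rw [h1, card_image_of_injective]
  intro a b hab
  exact Nat.add_right_cancel hab

theorem c2_cop_add (P n t : ℕ) : (n + P * t).Coprime P ↔ n.Coprime P := by
  rw [Nat.coprime_add_mul_left_left]

theorem c2_count (p P n : ℕ) (hp : p.Prime) (hP : p.Coprime P) :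
    ((range p).filter (fun t => ¬ p ∣ n + P * t)).card = p - 1 := by
  classical
  -- there is exactly one `t < p` with `p ∣ n + P t`
  have hcard : ((range p).filter (fun t => p ∣ n + P * t)).card = 1 := by
    rw [Finset.card_eq_one]
    have := Fact.mk hp
    have hPne : ((P : ℕ) : ZMod p) ≠ 0 := by
      intro h0
      rw [ZMod.natCast_eq_zero_iff] at h0
      exact (Nat.Prime.coprime_iff_not_dvd hp).1 hP h0
    let c : ZMod p := -(n : ZMod p) * (P : ZMod p)⁻¹
    have key : ∀ t : ℕ, p ∣ n + P * t ↔ (t : ZMod p) = c := by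
      intro t
      rw [← ZMod.natCast_eq_zero_iff]
      push_cast
      constructor
      · intro h0
        have : (P : ZMod p) * t = -n := by linear_combination h0
        show (t : ZMod p) = -(n : ZMod p) * (P : ZMod p)⁻¹
        rw [← this]
        field_simp
      · intro h0
        rw [h0]
        show (n : ZMod p) + (P : ZMod p) * (-(n : ZMod p) * (P : ZMod p)⁻¹) = 0
        field_simp
        ring
    refine ⟨c.val, ?_⟩
    ext t
    simp only [mem_filter, mem_range, mem_singleton, key]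
    constructor
    · rintro ⟨h1, h2⟩
      rw [← h2, ZMod.val_natCast, Nat.mod_eq_of_lt h1]
    · rintro rfl
      exact ⟨ZMod.val_lt c, by rw [ZMod.natCast_zmod_val]⟩
  have := Finset.card_filter_add_card_filter_not (s := range p) (fun t => p ∣ n + P * t)
  rw [hcard, card_range] at this
  omega

theorem c2_sum (z m h : ℕ) (hp : (z + 1).Prime) :
    ∑ t ∈ range (z + 1), R (z + 1) (m + Pz z * t) h = z * R z m h := by
  classical
  have h1 : ∀ t, R (z + 1) (m + Pz z * t) h =
      ∑ n ∈ (Ioc m (m + h)).filter (fun n => n.Coprime (Pz z)),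
        if ¬ (z + 1) ∣ n + Pz z * t then 1 else 0 := by
    intro t
    rw [c2_shift, ← Finset.sum_filter, Finset.filter_filter, Finset.card_eq_sum_ones]
    refine Finset.sum_congr ?_ (fun _ _ => rfl)
    ext n
    simp only [mem_filter, c2_coprime_iff z _ hp, c2_cop_add]
  rw [Finset.sum_congr rfl (fun t _ => h1 t), Finset.sum_comm]
  have h2 : ∀ n ∈ (Ioc m (m + h)).filter (fun n => n.Coprime (Pz z)),
      (∑ t ∈ range (z + 1), if ¬ (z + 1) ∣ n + Pz z * t then 1 else 0) = z := by
    intro n _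
    rw [← Finset.sum_filter, ← Finset.card_eq_sum_ones, c2_count (z + 1) (Pz z) n hp
      (c2_coprime z hp)]
    simp
  rw [Finset.sum_congr rfl h2, Finset.sum_const, smul_eq_mul, mul_comm]
  rfl

/-- C2b: the steps have mean value zero over the lifts -/
theorem avg_dd (z m h : ℕ) (hh : 0 < h) :
    avg (qq z) (fun t => dd z (m + Pz z * t) h) = 0 := by
  by_cases hp : (z + 1).Prime
  · unfold avg
    simp only [qq, if_pos hp]
    have h1 : ∑ t ∈ range (z + 1), dd z (m + Pz z * t) h = 0 := by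
      unfold dd er
      have hper : ∀ t, R z (m + Pz z * t) h = R z m h := by
        intro t
        rw [c2_shift]
        unfold R
        congr 1
        ext n
        simp only [mem_filter, c2_cop_add]
      simp only [hper]
      have hs := c2_sum z m h hp
      have hs' : ∑ t ∈ range (z + 1), (R (z + 1) (m + Pz z * t) h : ℝ) = z * R z m h := by
        exact_mod_cast hs
      have hV := V_pos z
      have hh' : (0 : ℝ) < h := by exact_mod_cast hh
      have hz : (0 : ℝ) < z := by
        have := hp.two_le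
        have : 1 ≤ z := by omega
        exact_mod_cast this
      have hVs := V_succ z
      rw [if_pos hp, c2_frac z] at hVs
      rw [Finset.sum_sub_distrib, Finset.sum_sub_distrib, ← Finset.sum_div, hs', hVs]
      simp only [Finset.sum_const, card_range, nsmul_eq_mul, mul_one]
      push_cast
      field_simp
      ring
    rw [h1, zero_div]
  · have h1 : ∀ t, dd z (m + Pz z * t) h = 0 := fun t => dd_eq_zero z _ h hp
    unfold avg
    simp [h1]

/-- C2c: bound for the step -/
theorem abs_dd_le (z m h : ℕ) (hh : 0 < h) (hp : (z + 1).Prime)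
    (he : |er z (m / (z + 1)) ((m + h) / (z + 1) - m / (z + 1))| ≤ 1) :
    |dd z m h| ≤ 2 / ((z : ℝ) + 1) * (|er z m h| +
      |er z (m / (z + 1)) ((m + h) / (z + 1) - m / (z + 1))|) + 4 / h := by
  set h1 : ℕ := (m + h) / (z + 1) - m / (z + 1) with hh1
  set e : ℝ := er z m h with he_def
  set e1 : ℝ := er z (m / (z + 1)) h1 with he1_def
  have hV := V_pos z
  have hh' : (0 : ℝ) < h := by exact_mod_cast hh
  have hz1 : 1 ≤ z := by
    have := hp.two_le
    omega
  have hz : (1 : ℝ) ≤ z := by exact_mod_cast hz1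
  have hVs := V_succ z
  rw [if_pos hp, c2_frac z] at hVs
  -- R in terms of e
  have hR : (R z m h : ℝ) = h * V z * (1 + e) := by
    rw [he_def]; unfold er
    field_simp
    ring
  have hR1 : (R z (m / (z + 1)) h1 : ℝ) = h1 * V z * (1 + e1) := by
    rw [he1_def]; unfold er
    rcases Nat.eq_zero_or_pos h1 with h0 | h0
    · rw [h0]; simp [R]
    · have : (0 : ℝ) < h1 := by exact_mod_cast h0
      field_simp
      ring
  have hRs := R_succ z m h hp
  have hRs' : (R (z + 1) m h : ℝ) = R z m h - R z (m / (z + 1)) h1 := by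
    have : (R z m h : ℝ) = R (z + 1) m h + R z (m / (z + 1)) h1 := by exact_mod_cast hRs
    linarith
  have hdd : dd z m h = (1 + e - ((z : ℝ) + 1) * h1 / h * (1 + e1)) / z := by
    have h1' : dd z m h = er (z + 1) m h - e := rfl
    rw [h1']
    unfold er
    rw [hRs', hR, hR1, hVs]
    field_simp
    ring
  -- |h1 - h/p| ≤ 1
  have hq : |1 - ((z : ℝ) + 1) * h1 / h| ≤ ((z : ℝ) + 1) / h := by
    have ha := Nat.div_add_mod m (z + 1)
    have hb := Nat.div_add_mod (m + h) (z + 1)
    have ha' := Nat.mod_lt m (Nat.succ_pos z)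
    have hb' := Nat.mod_lt (m + h) (Nat.succ_pos z)
    have hle : m / (z + 1) ≤ (m + h) / (z + 1) := Nat.div_le_div_right (by omega)
    have hend : m / (z + 1) + h1 = (m + h) / (z + 1) := by omega
    have hcalc : (z + 1) * (m / (z + 1)) + (z + 1) * h1 + (m + h) % (z + 1) =
        (z + 1) * (m / (z + 1)) + m % (z + 1) + h := by
      have : (z + 1) * (m / (z + 1)) + (z + 1) * h1 = (z + 1) * ((m + h) / (z + 1)) := by
        rw [← hend]; ring
      rw [this, hb, ha]
    have hcalc' : (z + 1) * h1 + (m + h) % (z + 1) = m % (z + 1) + h := by omega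
    have hcalcR : ((z : ℝ) + 1) * h1 + ((m + h) % (z + 1) : ℕ) = (m % (z + 1) : ℕ) + h := by
      exact_mod_cast hcalc'
    have hmR : ((m % (z + 1) : ℕ) : ℝ) ≤ (z : ℝ) + 1 := by
      exact_mod_cast ha'.le
    have hmhR : (((m + h) % (z + 1) : ℕ) : ℝ) ≤ (z : ℝ) + 1 := by
      exact_mod_cast hb'.le
    have hm0 : (0 : ℝ) ≤ ((m % (z + 1) : ℕ) : ℝ) := Nat.cast_nonneg _
    have hmh0 : (0 : ℝ) ≤ (((m + h) % (z + 1) : ℕ) : ℝ) := Nat.cast_nonneg _
    have : 1 - ((z : ℝ) + 1) * h1 / h = (h - ((z : ℝ) + 1) * h1) / h := by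
      field_simp
    rw [this, abs_div, abs_of_pos hh']
    apply div_le_div_of_nonneg_right _ hh'.le
    rw [abs_le]
    constructor <;> linarith
  have he1b : |1 + e1| ≤ 2 := by
    have := abs_le.1 he
    rw [abs_le]
    constructor <;> linarith [this.1, this.2]
  have hnum : |1 + e - ((z : ℝ) + 1) * h1 / h * (1 + e1)| ≤
      |e| + |e1| + ((z : ℝ) + 1) / h * 2 := by
    have : 1 + e - ((z : ℝ) + 1) * h1 / h * (1 + e1) =
        e + (-e1) + (1 - ((z : ℝ) + 1) * h1 / h) * (1 + e1) := by ring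
    rw [this]
    calc |e + (-e1) + (1 - ((z : ℝ) + 1) * h1 / h) * (1 + e1)|
        ≤ |e + (-e1)| + |(1 - ((z : ℝ) + 1) * h1 / h) * (1 + e1)| := abs_add_le _ _
      _ ≤ (|e| + |e1|) + ((z : ℝ) + 1) / h * 2 := by
          gcongr
          · calc |e + (-e1)| ≤ |e| + |-e1| := abs_add_le _ _
              _ = |e| + |e1| := by rw [abs_neg]
          · rw [abs_mul]
            exact mul_le_mul hq he1b (abs_nonneg _) (by positivity)
  rw [hdd, abs_div, abs_of_pos (by linarith : (0 : ℝ) < z)]
  have hzinv : 1 / (z : ℝ) ≤ 2 / ((z : ℝ) + 1) := by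
    rw [div_le_div_iff₀ (by linarith) (by linarith)]
    linarith
  calc |1 + e - ((z : ℝ) + 1) * h1 / h * (1 + e1)| / z
      = |1 + e - ((z : ℝ) + 1) * h1 / h * (1 + e1)| * (1 / z) := by ring
    _ ≤ (|e| + |e1| + ((z : ℝ) + 1) / h * 2) * (2 / ((z : ℝ) + 1)) := by
        apply mul_le_mul hnum hzinv (by positivity) (by positivity)
    _ = 2 / ((z : ℝ) + 1) * (|e| + |e1|) + 4 / h := by
        field_simp
        ring

end Pool.Gal99
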