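import Pool.Agent.LibGal99.A0
import Pool.Agent.LibGal99.C1
import Pool.Agent.LibGal99.C2

namespace Pool.Gal99

open Finset Filter Topology


theorem C3_qq_pos (z : ℕ) : 0 < qq z := by
  unfold qq
  split_ifs
  · omega
  · exact one_pos

theorem C3_shift (q : ℕ) (g : ℕ → ℝ) (hg : ∀ n, g (n + q) = g n) (t : ℕ) :
    ∑ s ∈ range q, g (t + s) = ∑ s ∈ range q, g s := by
  induction t with
  | zero => simp
  | succ t ih =>
    rw [← ih]
    have h1 := Finset.sum_range_succ (fun s => g (t + s)) q
    have h2 := Finset.sum_range_succ' (fun s => g (t + s)) q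
    rw [h1] at h2
    have h3 : g (t + q) = g (t + 0) := by rw [hg t, add_zero]
    have h4 : ∀ s, g (t + 1 + s) = g (t + (s + 1)) := by
      intro s
      congr 1
      omega
    simp_rw [h4]
    rw [h3] at h2
    linarith

theorem C3_Pz_dvd {z w : ℕ} (h : z ≤ w) : Pz z ∣ Pz w := by
  induction w, h using Nat.le_induction with
  | base => exact dvd_rfl
  | succ w _ ih =>
    rw [Pz_succ]
    exact ih.mul_right _

theorem uu_nonneg (z m h : ℕ) : 0 ≤ uu z m h := by
  unfold uu avg
  exact div_nonneg (Finset.sum_nonneg fun t _ => sq_nonneg _) (Nat.cast_nonneg _)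

theorem C3_dd_periodic (z m t h : ℕ) : dd z (m + Pz (z + 1) * t) h = dd z m h := by
  unfold dd
  rw [er_periodic]
  have h1 : m + Pz (z + 1) * t = m + Pz z * (qq z * t) := by rw [Pz_succ, mul_assoc]
  rw [h1, er_periodic]

theorem uu_periodic (z m t h : ℕ) : uu z (m + Pz z * t) h = uu z m h := by
  unfold uu avg
  congr 1
  have h1 := C3_shift (qq z) (fun s => dd z (m + Pz z * s) h ^ 2) (by
    intro n
    have h2 : m + Pz z * (n + qq z) = (m + Pz z * n) + Pz (z + 1) * 1 := by
      rw [Pz_succ]; ring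
    show dd z (m + Pz z * (n + qq z)) h ^ 2 = dd z (m + Pz z * n) h ^ 2
    rw [h2, C3_dd_periodic]) t
  rw [← h1]
  apply Finset.sum_congr rfl
  intro s _
  have h2 : m + Pz z * t + Pz z * s = m + Pz z * (t + s) := by ring
  show dd z (m + Pz z * t + Pz z * s) h ^ 2 = _
  rw [h2]

theorem uu_eq_zero (z m h : ℕ) (hp : ¬ (z + 1).Prime) : uu z m h = 0 := by
  unfold uu avg
  rw [Finset.sum_eq_zero, zero_div]
  intro t _
  rw [dd_eq_zero z _ h hp]
  ring

theorem C3_uu_le {z w : ℕ} (hzw : z ≤ w) (m t h : ℕ) : uu z (m + Pz w * t) h = uu z m h := by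
  obtain ⟨c, hc⟩ := C3_Pz_dvd hzw
  have h1 : m + Pz w * t = m + Pz z * (c * t) := by rw [hc, mul_assoc]
  rw [h1, uu_periodic]

theorem C3_exp_le {y : ℝ} (hy : |y| ≤ 1) : Real.exp y ≤ 1 + y + y ^ 2 := by
  have h1 := Real.abs_exp_sub_one_sub_id_le hy
  have h2 := (abs_le.mp h1).2
  linarith

theorem C3_avg_mono (P : ℕ) (f g : ℕ → ℝ) (h : ∀ m < P, f m ≤ g m) : avg P f ≤ avg P g := by
  unfold avg
  apply div_le_div_of_nonneg_right _ (Nat.cast_nonneg P)
  exact Finset.sum_le_sum fun m hm => h m (mem_range.mp hm)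

/-- C3: exponential supermartingale -/
theorem supermart (h : ℕ) (hh : 0 < h) (k : ℝ) (w : ℕ)
    (hk : ∀ z < w, ∀ m : ℕ, |k * dd z m h| ≤ 1) :
    avg (Pz w) (fun m => Real.exp (k * er w m h - k ^ 2 * ∑ z ∈ range w, uu z m h)) ≤ 1 := by
  induction w with
  | zero =>
    have h1 : (fun m : ℕ => Real.exp (k * er 0 m h - k ^ 2 * ∑ z ∈ range 0, uu z m h))
        = fun _ => 1 := by
      funext m
      rw [er_zero m h hh, Finset.sum_range_zero]
      simp
    rw [h1]
    unfold avg
    rw [Finset.sum_const, card_range, nsmul_eq_mul, mul_one]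
    exact div_self_le_one _
  | succ w ih =>
    have ih' := ih (fun z hz m => hk z (Nat.lt_succ_of_lt hz) m)
    rw [Pz_succ, avg_mul _ _ (Pz_pos w) (C3_qq_pos w)]
    refine le_trans (C3_avg_mono _ _ _ ?_) ih'
    intro m _
    set q := qq w with hq
    have hq0 : 0 < q := C3_qq_pos w
    have hq' : (q : ℝ) ≠ 0 := by
      have : q ≠ 0 := by omega
      exact_mod_cast this
    have hqp : (0 : ℝ) < q := by exact_mod_cast hq0
    have e1 : ∀ t : ℕ, Real.exp (k * er (w + 1) (m + Pz w * t) h
        - k ^ 2 * ∑ z ∈ range (w + 1), uu z (m + Pz w * t) h)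
        = Real.exp (k * er w m h - k ^ 2 * ∑ z ∈ range w, uu z m h) * Real.exp (-(k ^ 2 * uu w m h))
          * Real.exp (k * dd w (m + Pz w * t) h) := by
      intro t
      rw [← Real.exp_add, ← Real.exp_add]
      congr 1
      have h1 : ∑ z ∈ range (w + 1), uu z (m + Pz w * t) h = ∑ z ∈ range (w + 1), uu z m h :=
        Finset.sum_congr rfl fun z hz =>
          C3_uu_le (Nat.lt_succ_iff.mp (mem_range.mp hz)) m t h
      rw [h1, Finset.sum_range_succ]
      have h2 : er (w + 1) (m + Pz w * t) h = er w m h + dd w (m + Pz w * t) h := by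
        unfold dd
        rw [er_periodic w]
        ring
      rw [h2]
      ring
    simp_rw [e1]
    have h2 : avg q (fun t => Real.exp (k * dd w (m + Pz w * t) h)) ≤ Real.exp (k ^ 2 * uu w m h) := by
      have h3 : avg q (fun t => Real.exp (k * dd w (m + Pz w * t) h))
          ≤ avg q (fun t => 1 + k * dd w (m + Pz w * t) h + (k * dd w (m + Pz w * t) h) ^ 2) :=
        C3_avg_mono _ _ _ fun t _ => C3_exp_le (hk w (Nat.lt_succ_self w) _)
      have h4 : avg q (fun t => 1 + k * dd w (m + Pz w * t) h + (k * dd w (m + Pz w * t) h) ^ 2)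
          = 1 + k ^ 2 * uu w m h := by
        have h5 := avg_dd w m h hh
        rw [← hq] at h5
        unfold uu
        rw [← hq]
        unfold avg at h5 ⊢
        rw [Finset.sum_add_distrib, Finset.sum_add_distrib, Finset.sum_const, card_range,
          nsmul_eq_mul, mul_one, ← Finset.mul_sum]
        have h6 : ∑ t ∈ range q, (k * dd w (m + Pz w * t) h) ^ 2
            = k ^ 2 * ∑ t ∈ range q, dd w (m + Pz w * t) h ^ 2 := by
          rw [Finset.mul_sum]
          exact Finset.sum_congr rfl fun t _ => by ring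
        rw [h6]
        have h7 : ∑ t ∈ range q, dd w (m + Pz w * t) h = 0 := by
          rw [div_eq_zero_iff] at h5
          rcases h5 with h5 | h5
          · exact h5
          · exact absurd h5 hq'
        rw [h7, mul_zero, add_zero, add_div, div_self hq', mul_div_assoc]
      have h5 : 1 + k ^ 2 * uu w m h ≤ Real.exp (k ^ 2 * uu w m h) := by
        have := Real.add_one_le_exp (k ^ 2 * uu w m h)
        linarith
      linarith
    have h3 : avg q (fun t => Real.exp (k * er w m h - k ^ 2 * ∑ z ∈ range w, uu z m h)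
        * Real.exp (-(k ^ 2 * uu w m h)) * Real.exp (k * dd w (m + Pz w * t) h))
        = Real.exp (k * er w m h - k ^ 2 * ∑ z ∈ range w, uu z m h)
          * Real.exp (-(k ^ 2 * uu w m h)) * avg q (fun t => Real.exp (k * dd w (m + Pz w * t) h)) := by
      unfold avg
      rw [← Finset.mul_sum, mul_div_assoc]
    rw [h3]
    have h4 : Real.exp (k * er w m h - k ^ 2 * ∑ z ∈ range w, uu z m h)
          * Real.exp (-(k ^ 2 * uu w m h)) * avg q (fun t => Real.exp (k * dd w (m + Pz w * t) h))
        ≤ Real.exp (k * er w m h - k ^ 2 * ∑ z ∈ range w, uu z m h)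
          * Real.exp (-(k ^ 2 * uu w m h)) * Real.exp (k ^ 2 * uu w m h) :=
      mul_le_mul_of_nonneg_left h2 (by positivity)
    refine h4.trans_eq ?_
    rw [mul_assoc, ← Real.exp_add, neg_add_cancel, Real.exp_zero, mul_one]

end Pool.Gal99
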