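import Pool.Agent.LibGal99.A0
import Pool.Agent.LibGal99.C3

namespace Pool.Gal99

open Finset Filter Topology


theorem c4_avg_mono (P : ℕ) (f g : ℕ → ℝ) (hfg : ∀ m, f m ≤ g m) : avg P f ≤ avg P g := by
  unfold avg
  apply div_le_div_of_nonneg_right _ (Nat.cast_nonneg P)
  exact Finset.sum_le_sum (fun m _ => hfg m)

theorem c4_avg_lin (P : ℕ) (a b : ℝ) (f g : ℕ → ℝ) :
    avg P (fun m => a * f m + b * g m) = a * avg P f + b * avg P g := by
  unfold avg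
  rw [Finset.sum_add_distrib, ← Finset.mul_sum, ← Finset.mul_sum]
  ring

theorem c4_avg_one_le (P : ℕ) (hP : 0 < P) (g : ℕ → ℝ) (hg : ∀ m, 1 ≤ g m) : 1 ≤ avg P g := by
  unfold avg
  have hP' : (0 : ℝ) < P := by exact_mod_cast hP
  rw [le_div_iff₀ hP', one_mul]
  calc (P : ℝ) = ∑ _m ∈ range P, (1 : ℝ) := by simp
    _ ≤ ∑ m ∈ range P, g m := Finset.sum_le_sum (fun m _ => hg m)

/-- C4: Hoelder -/
theorem holder_one (h : ℕ) (hh : 0 < h) (k τ : ℝ) (hτ : 0 < τ) (hτ1 : τ ≤ 1) (w : ℕ)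
    (hk : ∀ z < w, ∀ m : ℕ, |(1 + τ) * k * dd z m h| ≤ 1) :
    avg (Pz w) (fun m => Real.exp (k * er w m h)) ≤
      avg (Pz w) (fun m => Real.exp (4 * k ^ 2 / τ * ∑ z ∈ range w, uu z m h)) := by
  have hS : ∀ m : ℕ, 0 ≤ ∑ z ∈ range w, uu z m h := fun m =>
    Finset.sum_nonneg (fun z _ => uu_nonneg z m h)
  have h1τ : 0 < 1 + τ := by linarith
  have hsm := supermart h hh ((1 + τ) * k) w hk
  have hG1 : 1 ≤ avg (Pz w) (fun m => Real.exp (4 * k ^ 2 / τ * ∑ z ∈ range w, uu z m h)) := by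
    apply c4_avg_one_le _ (Pz_pos w)
    intro m
    have : 0 ≤ 4 * k ^ 2 / τ * ∑ z ∈ range w, uu z m h := by
      have := hS m
      positivity
    exact Real.one_le_exp this
  have hpt : ∀ m : ℕ, Real.exp (k * er w m h) ≤
      (1 / (1 + τ)) * Real.exp ((1 + τ) * k * er w m h -
        ((1 + τ) * k) ^ 2 * ∑ z ∈ range w, uu z m h) +
      (τ / (1 + τ)) * Real.exp (4 * k ^ 2 / τ * ∑ z ∈ range w, uu z m h) := by
    intro m
    set S := ∑ z ∈ range w, uu z m h with hSdef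
    have hS' : 0 ≤ S := hS m
    set X := er w m h
    have hconv := convexOn_exp.2 (Set.mem_univ ((1 + τ) * k * X - ((1 + τ) * k) ^ 2 * S))
      (Set.mem_univ (k ^ 2 * (1 + τ) ^ 2 / τ * S))
      (show (0 : ℝ) ≤ 1 / (1 + τ) by positivity) (show (0 : ℝ) ≤ τ / (1 + τ) by positivity)
      (by field_simp)
    simp only [smul_eq_mul] at hconv
    have hbd : k ^ 2 * (1 + τ) ^ 2 / τ * S ≤ 4 * k ^ 2 / τ * S := by
      apply mul_le_mul_of_nonneg_right _ hS'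
      apply div_le_div_of_nonneg_right _ hτ.le
      have h4 : (1 + τ) ^ 2 ≤ 4 := by nlinarith
      nlinarith [sq_nonneg k]
    have heq : 1 / (1 + τ) * ((1 + τ) * k * X - ((1 + τ) * k) ^ 2 * S) +
        τ / (1 + τ) * (k ^ 2 * (1 + τ) ^ 2 / τ * S) = k * X := by
      field_simp
      ring
    rw [heq] at hconv
    refine hconv.trans ?_
    have h2 : Real.exp (k ^ 2 * (1 + τ) ^ 2 / τ * S) ≤ Real.exp (4 * k ^ 2 / τ * S) :=
      Real.exp_le_exp.2 hbd
    have h3 : (0 : ℝ) ≤ τ / (1 + τ) := by positivity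
    have := mul_le_mul_of_nonneg_left h2 h3
    linarith
  calc avg (Pz w) (fun m => Real.exp (k * er w m h))
      ≤ avg (Pz w) (fun m => (1 / (1 + τ)) * Real.exp ((1 + τ) * k * er w m h -
        ((1 + τ) * k) ^ 2 * ∑ z ∈ range w, uu z m h) +
      (τ / (1 + τ)) * Real.exp (4 * k ^ 2 / τ * ∑ z ∈ range w, uu z m h)) :=
        c4_avg_mono _ _ _ hpt
    _ = (1 / (1 + τ)) * avg (Pz w) (fun m => Real.exp ((1 + τ) * k * er w m h -
        ((1 + τ) * k) ^ 2 * ∑ z ∈ range w, uu z m h)) +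
      (τ / (1 + τ)) * avg (Pz w) (fun m =>
        Real.exp (4 * k ^ 2 / τ * ∑ z ∈ range w, uu z m h)) := c4_avg_lin _ _ _ _ _
    _ ≤ (1 / (1 + τ)) * 1 +
      (τ / (1 + τ)) * avg (Pz w) (fun m =>
        Real.exp (4 * k ^ 2 / τ * ∑ z ∈ range w, uu z m h)) := by
        gcongr
    _ ≤ (1 / (1 + τ)) * avg (Pz w) (fun m =>
        Real.exp (4 * k ^ 2 / τ * ∑ z ∈ range w, uu z m h)) +
      (τ / (1 + τ)) * avg (Pz w) (fun m =>
        Real.exp (4 * k ^ 2 / τ * ∑ z ∈ range w, uu z m h)) := by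
        gcongr
    _ = avg (Pz w) (fun m => Real.exp (4 * k ^ 2 / τ * ∑ z ∈ range w, uu z m h)) := by
        rw [← add_mul]
        have : 1 / (1 + τ) + τ / (1 + τ) = 1 := by field_simp
        rw [this, one_mul]

end Pool.Gal99
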