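import Pool.Agent.LibGal99.A0
import Pool.Agent.LibGal99.C1
import Pool.Agent.LibGal99.C3

namespace Pool.Gal99

open Finset Filter Topology


theorem C5_avg_mono (P : ℕ) (f g : ℕ → ℝ) (hfg : ∀ m, f m ≤ g m) : avg P f ≤ avg P g := by
  unfold avg
  exact div_le_div_of_nonneg_right (Finset.sum_le_sum fun m _ => hfg m) (Nat.cast_nonneg P)

theorem C5_avg_const (P : ℕ) (hP : 0 < P) (c : ℝ) : avg P (fun _ => c) = c := by
  unfold avg
  have hP' : (P : ℝ) ≠ 0 := by exact_mod_cast hP.ne'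
  rw [Finset.sum_const, Finset.card_range, nsmul_eq_mul]
  field_simp

theorem C5_avg_lin (P : ℕ) (hP : 0 < P) (S : Finset ℕ) (c : ℝ) (lam : ℕ → ℝ) (g : ℕ → ℕ → ℝ) :
    avg P (fun m => c + ∑ z ∈ S, lam z * g z m) = c + ∑ z ∈ S, lam z * avg P (g z) := by
  have hP' : (P : ℝ) ≠ 0 := by exact_mod_cast hP.ne'
  have h1 : avg P (fun m => c + ∑ z ∈ S, lam z * g z m)
      = avg P (fun _ => c) + ∑ z ∈ S, lam z * avg P (g z) := by
    unfold avg
    have h0 : (∑ m ∈ range P, ∑ z ∈ S, lam z * g z m) / (P : ℝ)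
        = ∑ z ∈ S, lam z * ((∑ m ∈ range P, g z m) / (P : ℝ)) := by
      rw [Finset.sum_comm, Finset.sum_div]
      refine Finset.sum_congr rfl fun z _ => ?_
      rw [← Finset.mul_sum, mul_div_assoc]
    rw [Finset.sum_add_distrib, add_div, h0]
  rw [h1, C5_avg_const P hP]

theorem C5_jensen (S : Finset ℕ) (lam x : ℕ → ℝ) (hl : ∀ z ∈ S, 0 ≤ lam z)
    (hsum : ∑ z ∈ S, lam z ≤ 1) :
    Real.exp (∑ z ∈ S, lam z * x z) ≤
      (1 - ∑ z ∈ S, lam z) + ∑ z ∈ S, lam z * Real.exp (x z) := by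
  set s := ∑ z ∈ S, lam z * x z with hs
  set L := ∑ z ∈ S, lam z with hL
  have key : ∀ y : ℝ, Real.exp s * (1 + y - s) ≤ Real.exp y := by
    intro y
    have h1 := Real.add_one_le_exp (y - s)
    have h2 : Real.exp y = Real.exp s * Real.exp (y - s) := by
      rw [← Real.exp_add]; ring_nf
    rw [h2]
    exact mul_le_mul_of_nonneg_left (by linarith) (Real.exp_pos s).le
  have h1 : ∑ z ∈ S, lam z * (Real.exp s * (1 + x z - s)) ≤ ∑ z ∈ S, lam z * Real.exp (x z) :=
    Finset.sum_le_sum fun z hz => mul_le_mul_of_nonneg_left (key (x z)) (hl z hz)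
  have h2 : ∑ z ∈ S, lam z * (Real.exp s * (1 + x z - s)) = Real.exp s * (L + s - L * s) := by
    have : ∀ z ∈ S, lam z * (Real.exp s * (1 + x z - s))
        = Real.exp s * lam z + Real.exp s * (lam z * x z) - Real.exp s * s * lam z := by
      intro z _; ring
    rw [Finset.sum_congr rfl this, Finset.sum_sub_distrib, Finset.sum_add_distrib,
      ← Finset.mul_sum, ← Finset.mul_sum, ← Finset.mul_sum, ← hs, ← hL]
    ring
  have h3 : (1 - L) * (Real.exp s * (1 + 0 - s)) ≤ (1 - L) * Real.exp 0 :=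
    mul_le_mul_of_nonneg_left (key 0) (by linarith)
  rw [Real.exp_zero] at h3
  have h4 : (1 - L) * (Real.exp s * (1 + 0 - s)) + Real.exp s * (L + s - L * s) = Real.exp s := by
    ring
  linarith

theorem C5_dvd {z w : ℕ} (hzw : z ≤ w) : Pz z ∣ Pz w := by
  unfold Pz
  apply Finset.prod_dvd_prod_of_subset
  unfold pr
  exact Finset.filter_subset_filter _ (Finset.range_subset_range.mpr (by omega))

theorem C5_avg_periodic {z w : ℕ} (hzw : z ≤ w) (f : ℕ → ℝ)
    (hf : ∀ m t, f (m + Pz z * t) = f m) : avg (Pz w) f = avg (Pz z) f := by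
  obtain ⟨r, hr⟩ := C5_dvd hzw
  have hr0 : 0 < r := by
    rcases Nat.eq_zero_or_pos r with h | h
    · have := Pz_pos w
      rw [hr, h, mul_zero] at this
      exact absurd this (lt_irrefl _)
    · exact h
  rw [hr, avg_mul (Pz z) r (Pz_pos z) hr0]
  congr 1
  funext m
  have : (fun t => f (m + Pz z * t)) = fun _ => f m := by
    funext t; exact hf m t
  rw [this, C5_avg_const r hr0]

/-- C5: convexity over the primes -/
theorem convex_primes (h w : ℕ) (Λ : ℝ) (hΛ : 0 ≤ Λ) (lam : ℕ → ℝ)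
    (hl : ∀ z < w, (z + 1).Prime → 0 < lam z)
    (hsum : ∑ z ∈ (range w).filter (fun z => (z + 1).Prime), lam z ≤ 1) :
    avg (Pz w) (fun m => Real.exp (Λ * ∑ z ∈ range w, uu z m h)) ≤
      1 + ∑ z ∈ (range w).filter (fun z => (z + 1).Prime),
        lam z * (avg (Pz z) (fun m => Real.exp (Λ / lam z * uu z m h)) - 1) := by
  set S := (range w).filter (fun z => (z + 1).Prime) with hS
  have hlS : ∀ z ∈ S, 0 < lam z := by
    intro z hz
    rw [hS, Finset.mem_filter, Finset.mem_range] at hz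
    exact hl z hz.1 hz.2
  have hpt : ∀ m, Real.exp (Λ * ∑ z ∈ range w, uu z m h) ≤
      (1 - ∑ z ∈ S, lam z) + ∑ z ∈ S, lam z * Real.exp (Λ / lam z * uu z m h) := by
    intro m
    have e1 : Λ * ∑ z ∈ range w, uu z m h = ∑ z ∈ S, lam z * (Λ / lam z * uu z m h) := by
      rw [hS, Finset.sum_filter, Finset.mul_sum]
      refine Finset.sum_congr rfl fun z hz => ?_
      split_ifs with hp
      · have := hl z (Finset.mem_range.mp hz) hp
        field_simp
      · rw [uu_eq_zero z m h hp, mul_zero]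
    rw [e1]
    exact C5_jensen S lam (fun z => Λ / lam z * uu z m h) (fun z hz => (hlS z hz).le) hsum
  refine (C5_avg_mono (Pz w) _ _ hpt).trans ?_
  rw [C5_avg_lin (Pz w) (Pz_pos w) S (1 - ∑ z ∈ S, lam z) lam
    (fun z m => Real.exp (Λ / lam z * uu z m h))]
  have h2 : ∀ z ∈ S, lam z * avg (Pz w) (fun m => Real.exp (Λ / lam z * uu z m h))
      = lam z * (avg (Pz z) (fun m => Real.exp (Λ / lam z * uu z m h)) - 1) + lam z := by
    intro z hz
    have hzw : z ≤ w := by
      rw [hS, Finset.mem_filter, Finset.mem_range] at hz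
      exact hz.1.le
    rw [C5_avg_periodic hzw]
    · ring
    · intro m t
      simp only [uu_periodic]
  rw [Finset.sum_congr rfl h2, Finset.sum_add_distrib]
  linarith

end Pool.Gal99
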