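import Pool.Agent.LibGal99.A0
import Pool.Agent.LibGal99.C1
import Pool.Agent.LibGal99.C2

namespace Pool.Gal99

open Finset Filter Topology


theorem C6_avg_mono (P : ℕ) (f g : ℕ → ℝ) (hfg : ∀ m < P, f m ≤ g m) : avg P f ≤ avg P g := by
  unfold avg
  apply div_le_div_of_nonneg_right _ (Nat.cast_nonneg P)
  exact sum_le_sum (fun m hm => hfg m (mem_range.1 hm))

theorem C6_avg_const (P : ℕ) (hP : 0 < P) (c : ℝ) : avg P (fun _ => c) = c := by
  unfold avg
  have : (P : ℝ) ≠ 0 := by exact_mod_cast hP.ne'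
  rw [sum_const, card_range, nsmul_eq_mul]
  field_simp

theorem C6_avg_lin (P : ℕ) (hP : 0 < P) (c d : ℝ) (f : ℕ → ℝ) :
    avg P (fun m => c + d * f m) = c + d * avg P f := by
  unfold avg
  have : (P : ℝ) ≠ 0 := by exact_mod_cast hP.ne'
  rw [sum_add_distrib, ← mul_sum, sum_const, card_range, nsmul_eq_mul]
  field_simp

theorem C6_avg_half (P : ℕ) (c : ℝ) (f g : ℕ → ℝ) :
    avg P (fun m => c * ((f m + g m) / 2)) = c * ((avg P f + avg P g) / 2) := by
  unfold avg
  rw [← mul_sum, ← sum_div, sum_add_distrib]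
  ring

theorem C6_jensen (P : ℕ) (hP : 0 < P) (s : ℝ) (f : ℕ → ℝ) :
    Real.exp (s * avg P f) ≤ avg P (fun m => Real.exp (s * f m)) := by
  have hPr : (P : ℝ) ≠ 0 := by exact_mod_cast hP.ne'
  have h1 := convexOn_exp.map_sum_le (t := range P) (w := fun _ => 1 / (P : ℝ))
    (p := fun m => s * f m) (fun _ _ => by positivity)
    (by rw [sum_const, card_range, nsmul_eq_mul]; field_simp) (fun _ _ => Set.mem_univ _)
  simp only [smul_eq_mul] at h1
  rw [← mul_sum, ← mul_sum, ← mul_sum] at h1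
  unfold avg
  have e1 : s * ((∑ m ∈ range P, f m) / (P : ℝ)) = 1 / (P : ℝ) * (s * ∑ m ∈ range P, f m) := by
    ring
  have e2 : (∑ m ∈ range P, Real.exp (s * f m)) / (P : ℝ) =
      1 / (P : ℝ) * ∑ m ∈ range P, Real.exp (s * f m) := by
    ring
  rw [e1, e2]
  exact h1

/-- convexity of the exponential between `0` and `x` -/
theorem C6_exp_le (θ x : ℝ) (h0 : 0 ≤ θ) (h1 : θ ≤ 1) :
    Real.exp (θ * x) ≤ 1 - θ + θ * Real.exp x := by
  have h2 := convexOn_exp.2 (Set.mem_univ (0 : ℝ)) (Set.mem_univ x) (sub_nonneg.2 h1) h0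
    (by ring)
  simp only [smul_eq_mul, mul_zero, zero_add, Real.exp_zero, mul_one] at h2
  exact h2

/-- one window length -/
theorem C6_window (z y : ℕ) (s E K θ : ℝ) (hs : 0 ≤ s) (hK : 0 < K)
    (hθdef : θ = 24 * s * E / (((z : ℝ) + 1) ^ 2 * K)) (hθ0 : 0 ≤ θ) (hθ1 : θ ≤ 1)
    (hE : ∀ m : ℕ, |er z m y| ≤ E)
    (hA : avg (Pz z) (fun m => Real.exp (K * |er z m y|)) ≤ 3) :
    avg (Pz z) (fun m => Real.exp (24 * s / ((z : ℝ) + 1) ^ 2 * er z m y ^ 2)) ≤ 1 + 2 * θ := by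
  have hP := Pz_pos z
  have hz : (0 : ℝ) < (z : ℝ) + 1 := by positivity
  calc avg (Pz z) (fun m => Real.exp (24 * s / ((z : ℝ) + 1) ^ 2 * er z m y ^ 2))
      ≤ avg (Pz z) (fun m => (1 - θ) + θ * Real.exp (K * |er z m y|)) := by
        apply C6_avg_mono
        intro m _
        refine le_trans ?_ (C6_exp_le θ (K * |er z m y|) hθ0 hθ1)
        apply Real.exp_le_exp.2
        have e1 : θ * (K * |er z m y|) = 24 * s / ((z : ℝ) + 1) ^ 2 * (E * |er z m y|) := by
          rw [hθdef]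
          field_simp
        rw [e1]
        apply mul_le_mul_of_nonneg_left _ (by positivity)
        rw [← sq_abs, pow_two]
        exact mul_le_mul_of_nonneg_right (hE m) (abs_nonneg _)
    _ = (1 - θ) + θ * avg (Pz z) (fun m => Real.exp (K * |er z m y|)) :=
        C6_avg_lin (Pz z) hP (1 - θ) θ _
    _ ≤ (1 - θ) + θ * 3 := by
        have := mul_le_mul_of_nonneg_left hA hθ0
        linarith
    _ = 1 + 2 * θ := by ring

/-- the window length after dividing by `p` -/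
theorem C6_len (p m r h : ℕ) (hp : 0 < p) (hr : r < p) :
    (p * m + r) / p = m ∧ ((p * m + r + h) / p - (p * m + r) / p = h / p ∨
      (p * m + r + h) / p - (p * m + r) / p = h / p + 1) := by
  have h1 : (p * m + r) / p = m := by
    rw [Nat.mul_add_div hp, Nat.div_eq_of_lt hr, add_zero]
  have h2 : (p * m + r + h) / p = m + (r + h) / p := by
    rw [add_assoc, Nat.mul_add_div hp]
  refine ⟨h1, ?_⟩
  rw [h1, h2, Nat.add_sub_cancel_left]
  have h3 : h / p ≤ (r + h) / p := Nat.div_le_div_right (by omega)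
  have h4 : (r + h) / p ≤ (h + p) / p := Nat.div_le_div_right (by omega)
  rw [Nat.add_div_right _ hp] at h4
  omega

/-- C6: one prime -/
theorem one_prime (h z : ℕ) (hh : 0 < h) (hp : (z + 1).Prime) (s E K : ℝ) (hs : 0 ≤ s)
    (hE0 : 0 ≤ E) (hE1 : E ≤ 1) (hK : 0 < K)
    (hE : ∀ m : ℕ, |er z m h| ≤ E ∧ |er z m (h / (z + 1))| ≤ E ∧ |er z m (h / (z + 1) + 1)| ≤ E)
    (hA : avg (Pz z) (fun m => Real.exp (K * |er z m h|)) ≤ 3)
    (hB : avg (Pz z) (fun m => Real.exp (K * |er z m (h / (z + 1))|)) ≤ 3)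
    (hC : avg (Pz z) (fun m => Real.exp (K * |er z m (h / (z + 1) + 1)|)) ≤ 3)
    (hθ : 24 * s * E / (((z : ℝ) + 1) ^ 2 * K) ≤ 1) :
    avg (Pz z) (fun m => Real.exp (s * uu z m h)) ≤
      Real.exp (48 * s / h ^ 2) * (1 + 2 * (24 * s * E / (((z : ℝ) + 1) ^ 2 * K))) := by
  have hP := Pz_pos z
  have hz : (0 : ℝ) < (z : ℝ) + 1 := by positivity
  have hhr : (0 : ℝ) < h := by exact_mod_cast hh
  set θ : ℝ := 24 * s * E / (((z : ℝ) + 1) ^ 2 * K) with hθdef
  have hθ0 : 0 ≤ θ := by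
    rw [hθdef]
    positivity
  have hq : qq z = z + 1 := by
    unfold qq
    rw [if_pos hp]
  have hq0 : 0 < z + 1 := hp.pos
  set a : ℝ := 24 * s / ((z : ℝ) + 1) ^ 2 with ha
  have ha0 : 0 ≤ a := by
    rw [ha]
    positivity
  -- the two functions of `M mod Pz z * p`
  set A : ℕ → ℝ := fun M => Real.exp (a * er z M h ^ 2) with hAdef
  set B : ℕ → ℝ := fun M =>
    Real.exp (a * er z (M / (z + 1)) ((M + h) / (z + 1) - M / (z + 1)) ^ 2) with hBdef
  -- bound for one `M`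
  have hone : ∀ M : ℕ, Real.exp (s * dd z M h ^ 2) ≤
      Real.exp (48 * s / h ^ 2) * ((A M + B M) / 2) := by
    intro M
    obtain ⟨hl1, hl2⟩ := C6_len (z + 1) (M / (z + 1)) (M % (z + 1)) h hq0 (Nat.mod_lt _ hq0)
    rw [Nat.div_add_mod] at hl2
    have he1 : |er z (M / (z + 1)) ((M + h) / (z + 1) - M / (z + 1))| ≤ E := by
      rcases hl2 with h2 | h2
      · rw [h2]
        exact (hE _).2.1
      · rw [h2]
        exact (hE _).2.2
    have hd := abs_dd_le z M h hh hp (he1.trans hE1)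
    set e := er z M h with he
    set e1 := er z (M / (z + 1)) ((M + h) / (z + 1) - M / (z + 1)) with he1def
    have hsq : dd z M h ^ 2 ≤ 12 / ((z : ℝ) + 1) ^ 2 * (e ^ 2 + e1 ^ 2) + 48 / (h : ℝ) ^ 2 := by
      have h1 : dd z M h ^ 2 ≤ (2 / ((z : ℝ) + 1) * (|e| + |e1|) + 4 / h) ^ 2 := by
        rw [← sq_abs]
        exact pow_le_pow_left₀ (abs_nonneg _) hd 2
      have h2 : (2 / ((z : ℝ) + 1) * (|e| + |e1|) + 4 / h) ^ 2 ≤
          12 / ((z : ℝ) + 1) ^ 2 * (e ^ 2 + e1 ^ 2) + 48 / (h : ℝ) ^ 2 := by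
        have h3 : ∀ x y w : ℝ, (x + y + w) ^ 2 ≤ 3 * (x ^ 2 + y ^ 2 + w ^ 2) := by
          intro x y w
          nlinarith [sq_nonneg (x - y), sq_nonneg (x - w), sq_nonneg (y - w)]
        have h4 := h3 (2 / ((z : ℝ) + 1) * |e|) (2 / ((z : ℝ) + 1) * |e1|) (4 / h)
        have h5 : 3 * ((2 / ((z : ℝ) + 1) * |e|) ^ 2 + (2 / ((z : ℝ) + 1) * |e1|) ^ 2 +
            (4 / (h : ℝ)) ^ 2) =
            12 / ((z : ℝ) + 1) ^ 2 * (e ^ 2 + e1 ^ 2) + 48 / (h : ℝ) ^ 2 := by
          rw [mul_pow, mul_pow, sq_abs, sq_abs]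
          field_simp
          ring
        rw [h5] at h4
        have h6 : 2 / ((z : ℝ) + 1) * (|e| + |e1|) + 4 / h =
            2 / ((z : ℝ) + 1) * |e| + 2 / ((z : ℝ) + 1) * |e1| + 4 / h := by ring
        rw [h6]
        exact h4
      exact h1.trans h2
    have hexp : s * dd z M h ^ 2 ≤ 48 * s / (h : ℝ) ^ 2 + (a * e ^ 2 + a * e1 ^ 2) / 2 := by
      have h1 := mul_le_mul_of_nonneg_left hsq hs
      have h2 : s * (12 / ((z : ℝ) + 1) ^ 2 * (e ^ 2 + e1 ^ 2) + 48 / (h : ℝ) ^ 2) =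
          48 * s / (h : ℝ) ^ 2 + (a * e ^ 2 + a * e1 ^ 2) / 2 := by
        rw [ha]
        ring
      rw [h2] at h1
      exact h1
    have hmid : Real.exp ((a * e ^ 2 + a * e1 ^ 2) / 2) ≤
        (Real.exp (a * e ^ 2) + Real.exp (a * e1 ^ 2)) / 2 := by
      have h1 := convexOn_exp.2 (Set.mem_univ (a * e ^ 2)) (Set.mem_univ (a * e1 ^ 2))
        (by norm_num : (0 : ℝ) ≤ 1 / 2) (by norm_num : (0 : ℝ) ≤ 1 / 2) (by norm_num)
      simp only [smul_eq_mul] at h1
      have e2 : (a * e ^ 2 + a * e1 ^ 2) / 2 = 1 / 2 * (a * e ^ 2) + 1 / 2 * (a * e1 ^ 2) := by ring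
      rw [e2]
      linarith
    calc Real.exp (s * dd z M h ^ 2)
        ≤ Real.exp (48 * s / (h : ℝ) ^ 2 + (a * e ^ 2 + a * e1 ^ 2) / 2) := Real.exp_le_exp.2 hexp
      _ = Real.exp (48 * s / (h : ℝ) ^ 2) * Real.exp ((a * e ^ 2 + a * e1 ^ 2) / 2) :=
          Real.exp_add _ _
      _ ≤ Real.exp (48 * s / (h : ℝ) ^ 2) * ((Real.exp (a * e ^ 2) + Real.exp (a * e1 ^ 2)) / 2) :=
          mul_le_mul_of_nonneg_left hmid (Real.exp_pos _).le
  -- mean values
  have hmA : avg (Pz z * (z + 1)) A ≤ 1 + 2 * θ := by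
    rw [avg_mul (Pz z) (z + 1) hP hq0]
    have e1 : (fun m => avg (z + 1) (fun t => A (m + Pz z * t))) = A := by
      funext m
      have e2 : (fun t => A (m + Pz z * t)) = fun _ => A m := by
        funext t
        simp only [hAdef, er_periodic]
      rw [e2, C6_avg_const (z + 1) hq0]
    rw [e1]
    exact C6_window z h s E K θ hs hK hθdef hθ0 hθ (fun m => (hE m).1) hA
  have hmB : avg (Pz z * (z + 1)) B ≤ 1 + 2 * θ := by
    rw [avg_mul' (Pz z) (z + 1) hP hq0]
    rw [← C6_avg_const (z + 1) hq0 (1 + 2 * θ)]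
    apply C6_avg_mono
    intro r hr
    have hBr : (∀ m, (((z + 1) * m + r + h) / (z + 1) - ((z + 1) * m + r) / (z + 1)) = h / (z + 1)) ∨
        (∀ m, (((z + 1) * m + r + h) / (z + 1) - ((z + 1) * m + r) / (z + 1)) =
          h / (z + 1) + 1) := by
      have e1 : ∀ m, (((z + 1) * m + r + h) / (z + 1) - ((z + 1) * m + r) / (z + 1)) =
          (r + h) / (z + 1) := by
        intro m
        rw [add_assoc, Nat.mul_add_div hq0, Nat.mul_add_div hq0, Nat.div_eq_of_lt hr, add_zero,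
          Nat.add_sub_cancel_left]
      have e2 := (C6_len (z + 1) 0 r h hq0 hr).2
      rw [e1 0] at e2
      rcases e2 with e2 | e2
      · left
        intro m
        rw [e1 m, e2]
      · right
        intro m
        rw [e1 m, e2]
    have hdiv : ∀ m, ((z + 1) * m + r) / (z + 1) = m := fun m => (C6_len (z + 1) m r h hq0 hr).1
    rcases hBr with hBr | hBr
    · have e1 : (fun m => B ((z + 1) * m + r)) =
          fun m => Real.exp (24 * s / ((z : ℝ) + 1) ^ 2 * er z m (h / (z + 1)) ^ 2) := by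
        funext m
        simp only [hBdef]
        rw [hBr m, hdiv m]
      rw [e1]
      exact C6_window z (h / (z + 1)) s E K θ hs hK hθdef hθ0 hθ (fun m => (hE m).2.1) hB
    · have e1 : (fun m => B ((z + 1) * m + r)) =
          fun m => Real.exp (24 * s / ((z : ℝ) + 1) ^ 2 * er z m (h / (z + 1) + 1) ^ 2) := by
        funext m
        simp only [hBdef]
        rw [hBr m, hdiv m]
      rw [e1]
      exact C6_window z (h / (z + 1) + 1) s E K θ hs hK hθdef hθ0 hθ (fun m => (hE m).2.2) hC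
  calc avg (Pz z) (fun m => Real.exp (s * uu z m h))
      ≤ avg (Pz z) (fun m => avg (z + 1) (fun t =>
          Real.exp (48 * s / h ^ 2) * ((A (m + Pz z * t) + B (m + Pz z * t)) / 2))) := by
        apply C6_avg_mono
        intro m _
        unfold uu
        rw [hq]
        refine (C6_jensen (z + 1) hq0 s _).trans ?_
        apply C6_avg_mono
        intro t _
        exact hone _
    _ = avg (Pz z * (z + 1)) (fun M => Real.exp (48 * s / h ^ 2) * ((A M + B M) / 2)) := by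
        rw [avg_mul (Pz z) (z + 1) hP hq0]
    _ = Real.exp (48 * s / h ^ 2) *
          ((avg (Pz z * (z + 1)) A + avg (Pz z * (z + 1)) B) / 2) := C6_avg_half _ _ _ _
    _ ≤ Real.exp (48 * s / h ^ 2) * (1 + 2 * θ) := by
        apply mul_le_mul_of_nonneg_left _ (Real.exp_pos _).le
        linarith

end Pool.Gal99
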