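import Pool.Agent.LibGal99.C2
import Pool.Agent.LibGal99.C4
import Pool.Agent.LibGal99.C5
import Pool.Agent.LibGal99.C6

namespace Pool.Gal99

open Finset Filter Topology


theorem C7_div_cases (q m h : ℕ) (hq : 0 < q) :
    (m + h) / q - m / q = h / q ∨ (m + h) / q - m / q = h / q + 1 := by
  have h1 : m / q + h / q ≤ (m + h) / q := Nat.div_add_div_le_add_div
  have h2 : (m + h) / q ≤ m / q + h / q + 1 := by
    have := Nat.add_div hq (a := m) (b := h)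
    rw [this]
    split_ifs <;> omega
  generalize (m + h) / q = c at *
  generalize m / q = a at *
  generalize h / q = b at *
  omega

/-- bound of the step in terms of the deterministic bound -/
theorem C7_dd (z m h : ℕ) (hh : 0 < h) (hp : (z + 1).Prime) (ε₀ : ℝ)
    (hE : ∀ m : ℕ, ∀ y : ℕ, y = h ∨ y = h / (z + 1) ∨ y = h / (z + 1) + 1 →
      |er z m y| ≤ 1 ∧ |er z m y| ≤ ((z : ℝ) + 1) * ε₀) :
    |dd z m h| ≤ 4 * ε₀ + 4 / h := by
  have hz : (0 : ℝ) < (z : ℝ) + 1 := by positivity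
  have hy : ((m + h) / (z + 1) - m / (z + 1)) = h ∨
      ((m + h) / (z + 1) - m / (z + 1)) = h / (z + 1) ∨
      ((m + h) / (z + 1) - m / (z + 1)) = h / (z + 1) + 1 :=
    Or.inr (C7_div_cases (z + 1) m h (Nat.succ_pos z))
  have h1 := hE m h (Or.inl rfl)
  have h2 := hE (m / (z + 1)) ((m + h) / (z + 1) - m / (z + 1)) hy
  refine (abs_dd_le z m h hh hp h2.1).trans ?_
  have h3 : 2 / ((z : ℝ) + 1) * (|er z m h| +
      |er z (m / (z + 1)) ((m + h) / (z + 1) - m / (z + 1))|) ≤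
      2 / ((z : ℝ) + 1) * (((z : ℝ) + 1) * ε₀ + ((z : ℝ) + 1) * ε₀) :=
    mul_le_mul_of_nonneg_left (add_le_add h1.2 h2.2) (by positivity)
  have h4 : 2 / ((z : ℝ) + 1) * (((z : ℝ) + 1) * ε₀ + ((z : ℝ) + 1) * ε₀) = 4 * ε₀ := by
    field_simp
    ring
  linarith

theorem C7_sum (w : ℕ) (f : ℕ → ℝ) :
    ∑ z ∈ (range w).filter (fun z => (z + 1).Prime), f (z + 1) = ∑ p ∈ pr w, f p := by
  unfold pr
  rw [Finset.sum_filter, Finset.sum_filter, Finset.sum_range_succ' (fun p => if p.Prime then f p else 0)]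
  simp [Nat.not_prime_zero]

theorem C7_exp {x : ℝ} (h0 : 0 ≤ x) (h1 : x ≤ 1) : Real.exp x ≤ 1 + 2 * x := by
  have h2 := Real.abs_exp_sub_one_sub_id_le (x := x) (by rw [abs_of_nonneg h0]; exact h1)
  have h3 := (abs_le.mp h2).2
  nlinarith

/-- C7: the step of the bootstrap -/
theorem boot_step (h w : ℕ) (hh : 0 < h) (hw : 0 < w) (ε₀ B K k τ : ℝ) (hε : 0 < ε₀) (hB1 : 1 ≤ B)
    (hB : ∑ p ∈ pr w, 1 / (p : ℝ) ≤ B) (hK : 0 < K) (hτ : 0 < τ) (hτ1 : τ ≤ 1)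
    (hE : ∀ z < w, (z + 1).Prime → ∀ m : ℕ, ∀ y : ℕ, y = h ∨ y = h / (z + 1) ∨ y = h / (z + 1) + 1 →
      |er z m y| ≤ 1 ∧ |er z m y| ≤ ((z : ℝ) + 1) * ε₀)
    (hA : ∀ z < w, (z + 1).Prime → ∀ y : ℕ, y = h ∨ y = h / (z + 1) ∨ y = h / (z + 1) + 1 →
      avg (Pz z) (fun m => Real.exp (K * |er z m y|)) ≤ 3)
    (hk : (1 + τ) * |k| * (4 * ε₀ + 4 / h) ≤ 1)
    (κ₁ κ₂ : ℝ) (hκ₁ : 24 * (4 * k ^ 2 / τ) * B * ε₀ / K ≤ κ₁) (hκ1 : κ₁ ≤ 1)
    (hκ₂ : 48 * (4 * k ^ 2 / τ) * B * w / h ^ 2 ≤ κ₂) (hκ2 : κ₂ ≤ 1) :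
    avg (Pz w) (fun m => Real.exp (k * er w m h)) ≤ 1 + 6 * κ₁ + 2 * κ₂ := by
  have hhR : (0 : ℝ) < h := by exact_mod_cast hh
  have hB0 : 0 < B := by linarith
  have hκ₁0 : 0 ≤ κ₁ := le_trans (by positivity) hκ₁
  have hκ₂0 : 0 ≤ κ₂ := le_trans (by positivity) hκ₂
  -- Hoelder
  have step1 : avg (Pz w) (fun m => Real.exp (k * er w m h)) ≤
      avg (Pz w) (fun m => Real.exp (4 * k ^ 2 / τ * ∑ z ∈ range w, uu z m h)) := by
    refine holder_one h hh k τ hτ hτ1 w ?_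
    intro z hz m
    by_cases hp : (z + 1).Prime
    · have h1 := C7_dd z m h hh hp ε₀ (hE z hz hp)
      rw [abs_mul, abs_mul, abs_of_pos (by linarith : (0 : ℝ) < 1 + τ)]
      exact (mul_le_mul_of_nonneg_left h1 (by positivity)).trans hk
    · rw [dd_eq_zero z m h hp]
      simp
  set Λ : ℝ := 4 * k ^ 2 / τ with hΛdef
  have hΛ : 0 ≤ Λ := by positivity
  -- convexity
  have hsum : ∑ z ∈ (range w).filter (fun z => (z + 1).Prime), 1 / (((z : ℝ) + 1) * B) ≤ 1 := by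
    have h1 := C7_sum w (fun p => 1 / ((p : ℝ) * B))
    have h2 : ∑ z ∈ (range w).filter (fun z => (z + 1).Prime), 1 / (((z : ℝ) + 1) * B)
        = ∑ p ∈ pr w, 1 / ((p : ℝ) * B) := by
      rw [← h1]
      refine Finset.sum_congr rfl fun z _ => ?_
      push_cast
      rfl
    rw [h2]
    have h3 : ∑ p ∈ pr w, 1 / ((p : ℝ) * B) = (∑ p ∈ pr w, 1 / (p : ℝ)) / B := by
      rw [Finset.sum_div]
      refine Finset.sum_congr rfl fun p _ => ?_
      rw [div_div]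
    rw [h3, div_le_one hB0]
    exact hB
  have step2 := convex_primes h w Λ hΛ (fun z => 1 / (((z : ℝ) + 1) * B))
    (fun z _ _ => by positivity) hsum
  refine step1.trans (step2.trans ?_)
  -- one prime
  have step3 : ∀ z ∈ (range w).filter (fun z => (z + 1).Prime),
      1 / (((z : ℝ) + 1) * B) *
        (avg (Pz z) (fun m => Real.exp (Λ / (1 / (((z : ℝ) + 1) * B)) * uu z m h)) - 1) ≤
      1 / (((z : ℝ) + 1) * B) * (6 * κ₁ + 2 * κ₂) := by
    intro z hz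
    rw [Finset.mem_filter, Finset.mem_range] at hz
    obtain ⟨hzw, hp⟩ := hz
    have hz1 : (0 : ℝ) < (z : ℝ) + 1 := by positivity
    refine mul_le_mul_of_nonneg_left ?_ (by positivity)
    have es : Λ / (1 / (((z : ℝ) + 1) * B)) = Λ * (((z : ℝ) + 1) * B) := by
      field_simp
    rw [es]
    set s : ℝ := Λ * (((z : ℝ) + 1) * B) with hs
    have hs0 : 0 ≤ s := by positivity
    set E : ℝ := min 1 (((z : ℝ) + 1) * ε₀) with hEdef
    have hE0 : 0 ≤ E := le_min zero_le_one (by positivity)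
    have hE1 : E ≤ 1 := min_le_left _ _
    have hE2 : E ≤ ((z : ℝ) + 1) * ε₀ := min_le_right _ _
    have hθ : 24 * s * E / (((z : ℝ) + 1) ^ 2 * K) ≤ κ₁ := by
      have h1 : 24 * s * E / (((z : ℝ) + 1) ^ 2 * K) ≤
          24 * s * (((z : ℝ) + 1) * ε₀) / (((z : ℝ) + 1) ^ 2 * K) := by
        apply div_le_div_of_nonneg_right _ (by positivity)
        exact mul_le_mul_of_nonneg_left hE2 (by positivity)
      have h2 : 24 * s * (((z : ℝ) + 1) * ε₀) / (((z : ℝ) + 1) ^ 2 * K)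
          = 24 * Λ * B * ε₀ / K := by
        rw [hs]
        field_simp
      linarith
    have hone := one_prime h z hh hp s E K hs0 hE0 hE1 hK
      (fun m => ⟨le_min (hE z hzw hp m h (Or.inl rfl)).1 (hE z hzw hp m h (Or.inl rfl)).2,
        le_min (hE z hzw hp m _ (Or.inr (Or.inl rfl))).1 (hE z hzw hp m _ (Or.inr (Or.inl rfl))).2,
        le_min (hE z hzw hp m _ (Or.inr (Or.inr rfl))).1 (hE z hzw hp m _ (Or.inr (Or.inr rfl))).2⟩)
      (hA z hzw hp h (Or.inl rfl)) (hA z hzw hp _ (Or.inr (Or.inl rfl)))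
      (hA z hzw hp _ (Or.inr (Or.inr rfl))) (hθ.trans hκ1)
    have hexp : Real.exp (48 * s / h ^ 2) ≤ 1 + 2 * κ₂ := by
      have h1 : 48 * s / (h : ℝ) ^ 2 ≤ κ₂ := by
        have hzw' : (z : ℝ) + 1 ≤ w := by exact_mod_cast hzw
        have h2 : 48 * s / (h : ℝ) ^ 2 ≤ 48 * Λ * B * w / h ^ 2 := by
          apply div_le_div_of_nonneg_right _ (by positivity)
          rw [hs]
          have : 48 * (Λ * (((z : ℝ) + 1) * B)) = 48 * Λ * B * ((z : ℝ) + 1) := by ring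
          rw [this]
          exact mul_le_mul_of_nonneg_left hzw' (by positivity)
        linarith
      exact (Real.exp_le_exp.mpr h1).trans (C7_exp hκ₂0 hκ2)
    have hθ0 : 0 ≤ 24 * s * E / (((z : ℝ) + 1) ^ 2 * K) := by positivity
    have h5 : Real.exp (48 * s / h ^ 2) * (1 + 2 * (24 * s * E / (((z : ℝ) + 1) ^ 2 * K))) ≤
        (1 + 2 * κ₂) * (1 + 2 * κ₁) :=
      mul_le_mul hexp (by linarith) (by linarith) (by linarith)
    have h6 : (1 + 2 * κ₂) * (1 + 2 * κ₁) ≤ 1 + (6 * κ₁ + 2 * κ₂) := by nlinarith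
    linarith
  have step4 := Finset.sum_le_sum step3
  rw [← Finset.sum_mul] at step4
  have step5 : (∑ z ∈ (range w).filter (fun z => (z + 1).Prime), 1 / (((z : ℝ) + 1) * B)) *
      (6 * κ₁ + 2 * κ₂) ≤ 1 * (6 * κ₁ + 2 * κ₂) :=
    mul_le_mul_of_nonneg_right hsum (by linarith)
  linarith

end Pool.Gal99
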