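import Pool.Agent.LibGal99.A0
import Pool.Agent.LibGal99.C2
import Pool.Agent.LibGal99.C3

namespace Pool.Gal99

open Finset Filter Topology


/-- elementary sum -/
theorem C8sum (ε : ℝ) (hε : 0 < ε) (hε1 : ε ≤ 1) (w : ℕ) :
    ∑ z ∈ range w, (min (1 / ((z : ℝ) + 1)) ε) ^ 2 ≤ 3 * ε := by
  have ha : ∀ w : ℕ, ∑ z ∈ range w, (min (1 / ((z : ℝ) + 1)) ε) ^ 2 ≤ w * ε ^ 2 := by
    intro w
    have h1 : ∀ z ∈ range w, (min (1 / ((z : ℝ) + 1)) ε) ^ 2 ≤ ε ^ 2 := by
      intro z _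
      have h2 : 0 ≤ min (1 / ((z : ℝ) + 1)) ε := le_min (by positivity) hε.le
      exact pow_le_pow_left₀ h2 (min_le_right _ _) 2
    have h3 := Finset.sum_le_card_nsmul _ _ _ h1
    rwa [card_range, nsmul_eq_mul] at h3
  set N : ℕ := ⌊1 / ε⌋₊ with hN
  have hN1 : 1 ≤ N := by
    rw [hN, Nat.one_le_floor_iff]
    rwa [le_div_iff₀ hε, one_mul]
  have hN0 : (0 : ℝ) < N := by exact_mod_cast hN1
  have hNle : (N : ℝ) * ε ≤ 1 := by
    have := Nat.floor_le (show (0 : ℝ) ≤ 1 / ε by positivity)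
    rw [← hN, le_div_iff₀ hε] at this
    exact this
  have hNe : (N : ℝ) * ε ^ 2 ≤ ε := by
    have := mul_le_mul_of_nonneg_right hNle hε.le
    linarith
  have hNi : 1 / (N : ℝ) ≤ 2 * ε := by
    have h1 := Nat.lt_floor_add_one (1 / ε)
    rw [← hN, div_lt_iff₀ hε] at h1
    rw [div_le_iff₀ hN0]
    have h2 : (1 : ℝ) ≤ N := by exact_mod_cast hN1
    have h3 := mul_le_mul_of_nonneg_right h2 hε.le
    linarith
  have hb : ∀ w : ℕ, N ≤ w →
      ∑ z ∈ range w, (min (1 / ((z : ℝ) + 1)) ε) ^ 2 ≤ N * ε ^ 2 + 1 / N - 1 / w := by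
    intro w hw
    induction w, hw using Nat.le_induction with
    | base =>
      have := ha N
      linarith
    | succ w hw ih =>
      rw [sum_range_succ]
      have hw0 : (0 : ℝ) < w := by
        have : 0 < w := by omega
        exact_mod_cast this
      have h2 : (min (1 / ((w : ℝ) + 1)) ε) ^ 2 ≤ 1 / w - 1 / ((w + 1 : ℕ) : ℝ) := by
        have h3 : (min (1 / ((w : ℝ) + 1)) ε) ^ 2 ≤ (1 / ((w : ℝ) + 1)) ^ 2 :=
          pow_le_pow_left₀ (le_min (by positivity) hε.le) (min_le_left _ _) 2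
        refine h3.trans ?_
        push_cast
        rw [div_sub_div _ _ hw0.ne' (by positivity), div_pow, div_le_div_iff₀ (by positivity)
          (by positivity)]
        nlinarith
      linarith
  rcases le_total w N with hw | hw
  · have h1 := ha w
    have h2 : (w : ℝ) * ε ^ 2 ≤ N * ε ^ 2 :=
      mul_le_mul_of_nonneg_right (by exact_mod_cast hw) (by positivity)
    linarith
  · have h1 := hb w hw
    have h2 : (0 : ℝ) ≤ 1 / w := by positivity
    linarith

theorem C8window (m h p : ℕ) (hp : 0 < p) :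
    (m + h) / p - m / p = h / p ∨ (m + h) / p - m / p = h / p + 1 := by
  rw [Nat.add_div hp, Nat.add_assoc, Nat.add_sub_cancel_left]
  split_ifs
  · right
    rfl
  · left
    rfl

/-- C8: the start of the bootstrap -/
theorem boot_start (h w : ℕ) (hh : 0 < h) (ε₀ k : ℝ) (hε : 0 < ε₀) (hε1 : ε₀ ≤ 1)
    (hE : ∀ z < w, (z + 1).Prime → ∀ m : ℕ, ∀ y : ℕ, y = h ∨ y = h / (z + 1) ∨ y = h / (z + 1) + 1 →
      |er z m y| ≤ 1 ∧ |er z m y| ≤ ((z : ℝ) + 1) * ε₀)
    (hk : |k| * (4 * ε₀ + 4 / h) ≤ 1) :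
    avg (Pz w) (fun m => Real.exp (k * er w m h)) ≤
      Real.exp (k ^ 2 * (96 * ε₀ + 48 * w / h ^ 2)) := by
  have hh0 : (0 : ℝ) < h := by exact_mod_cast hh
  -- the bound for the steps
  have hdd : ∀ z < w, (z + 1).Prime → ∀ m : ℕ,
      |dd z m h| ≤ 4 * min (1 / ((z : ℝ) + 1)) ε₀ + 4 / h := by
    intro z hz hp m
    have hz0 : (0 : ℝ) < (z : ℝ) + 1 := by positivity
    have h1 := hE z hz hp m h (Or.inl rfl)
    have h2 := hE z hz hp (m / (z + 1)) ((m + h) / (z + 1) - m / (z + 1))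
      (Or.inr (C8window m h (z + 1) (by omega)))
    have h3 := abs_dd_le z m h hh hp h2.1
    refine h3.trans ?_
    have h4 : ∀ e : ℝ, e ≤ 1 → e ≤ ((z : ℝ) + 1) * ε₀ →
        e / ((z : ℝ) + 1) ≤ min (1 / ((z : ℝ) + 1)) ε₀ := by
      intro e he1 he2
      refine le_min ?_ ?_
      · exact div_le_div_of_nonneg_right he1 hz0.le
      · rw [div_le_iff₀ hz0]
        linarith
    have h5 := h4 _ h1.1 h1.2
    have h6 := h4 _ h2.1 h2.2
    have h7 : 2 / ((z : ℝ) + 1) * (|er z m h| +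
        |er z (m / (z + 1)) ((m + h) / (z + 1) - m / (z + 1))|) =
        2 * (|er z m h| / ((z : ℝ) + 1)) +
        2 * (|er z (m / (z + 1)) ((m + h) / (z + 1) - m / (z + 1))| / ((z : ℝ) + 1)) := by
      ring
    rw [h7]
    linarith
  have hk1 : ∀ z < w, ∀ m : ℕ, |k * dd z m h| ≤ 1 := by
    intro z hz m
    by_cases hp : (z + 1).Prime
    · rw [abs_mul]
      refine le_trans (mul_le_mul_of_nonneg_left ?_ (abs_nonneg k)) hk
      refine (hdd z hz hp m).trans ?_
      have := min_le_right (1 / ((z : ℝ) + 1)) ε₀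
      linarith
    · rw [dd_eq_zero z m h hp]
      simp
  have hsup := supermart h hh k w hk1
  -- the mean squares
  have huu : ∀ z < w, ∀ m : ℕ,
      uu z m h ≤ 32 * (min (1 / ((z : ℝ) + 1)) ε₀) ^ 2 + 48 / h ^ 2 := by
    intro z hz m
    have hq0 : 0 ≤ min (1 / ((z : ℝ) + 1)) ε₀ := le_min (by positivity) hε.le
    by_cases hp : (z + 1).Prime
    · have h1 : ∀ t, dd z (m + Pz z * t) h ^ 2 ≤
          32 * (min (1 / ((z : ℝ) + 1)) ε₀) ^ 2 + 48 / h ^ 2 := by
        intro t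
        have h2 := hdd z hz hp (m + Pz z * t)
        rw [← sq_abs]
        refine (pow_le_pow_left₀ (abs_nonneg _) h2 2).trans ?_
        have h3 : (48 : ℝ) / h ^ 2 = 3 * (4 / h) ^ 2 := by
          field_simp
          norm_num
        rw [h3]
        set a := min (1 / ((z : ℝ) + 1)) ε₀
        set b := 4 / (h : ℝ)
        nlinarith [sq_nonneg (4 * a - b), sq_nonneg b]
      have hqq : 0 < qq z := by
        unfold qq
        split_ifs
        omega
      unfold uu avg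
      have hq1 : (0 : ℝ) < (qq z : ℕ) := by exact_mod_cast hqq
      rw [div_le_iff₀ hq1]
      have h4 := Finset.sum_le_card_nsmul (range (qq z)) _ _ fun t _ => h1 t
      rw [card_range, nsmul_eq_mul] at h4
      linarith
    · rw [uu_eq_zero z m h hp]
      positivity
  have hsum : ∀ m : ℕ, ∑ z ∈ range w, uu z m h ≤ 96 * ε₀ + 48 * w / h ^ 2 := by
    intro m
    calc ∑ z ∈ range w, uu z m h
        ≤ ∑ z ∈ range w, (32 * (min (1 / ((z : ℝ) + 1)) ε₀) ^ 2 + 48 / h ^ 2) :=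
          Finset.sum_le_sum fun z hz => huu z (mem_range.1 hz) m
      _ = 32 * ∑ z ∈ range w, (min (1 / ((z : ℝ) + 1)) ε₀) ^ 2 + 48 * w / h ^ 2 := by
          rw [Finset.sum_add_distrib, ← Finset.mul_sum, Finset.sum_const, card_range,
            nsmul_eq_mul]
          ring
      _ ≤ 96 * ε₀ + 48 * w / h ^ 2 := by
          have := C8sum ε₀ hε hε1 w
          linarith
  -- conclusion
  set M : ℝ := k ^ 2 * (96 * ε₀ + 48 * w / h ^ 2) with hM
  have hpt : ∀ m : ℕ, Real.exp (k * er w m h) ≤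
      Real.exp M * Real.exp (k * er w m h - k ^ 2 * ∑ z ∈ range w, uu z m h) := by
    intro m
    rw [← Real.exp_add, Real.exp_le_exp]
    have := mul_le_mul_of_nonneg_left (hsum m) (sq_nonneg k)
    linarith
  have hP : (0 : ℝ) < (Pz w : ℕ) := by exact_mod_cast Pz_pos w
  unfold avg at hsup ⊢
  rw [div_le_iff₀ hP] at hsup ⊢
  calc ∑ m ∈ range (Pz w), Real.exp (k * er w m h)
      ≤ ∑ m ∈ range (Pz w), Real.exp M *
          Real.exp (k * er w m h - k ^ 2 * ∑ z ∈ range w, uu z m h) :=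
        Finset.sum_le_sum fun m _ => hpt m
    _ = Real.exp M * ∑ m ∈ range (Pz w),
          Real.exp (k * er w m h - k ^ 2 * ∑ z ∈ range w, uu z m h) := by
        rw [Finset.mul_sum]
    _ ≤ Real.exp M * (1 * (Pz w : ℕ)) := mul_le_mul_of_nonneg_left hsup (Real.exp_pos _).le
    _ = Real.exp M * (Pz w : ℕ) := by rw [one_mul]

end Pool.Gal99
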