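import Pool.Agent.LibGal99.A0
import Pool.Agent.LibGal99.B2
import Pool.Agent.LibGal99.B4
import Pool.Agent.LibGal99.C7
import Pool.Agent.LibGal99.C8
import Pool.Agent.LibGal99.F1

namespace Pool.Gal99

open Finset Filter Topology


lemma avg_mono {P : ℕ} {f g : ℕ → ℝ} (h : ∀ m, f m ≤ g m) : avg P f ≤ avg P g := by
  unfold avg
  apply div_le_div_of_nonneg_right _ (Nat.cast_nonneg _)
  exact Finset.sum_le_sum (fun m _ => h m)

lemma avg_add (P : ℕ) (f g : ℕ → ℝ) : avg P (fun m => f m + g m) = avg P f + avg P g := by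
  unfold avg
  rw [Finset.sum_add_distrib, add_div]

lemma avg_exp_abs (P : ℕ) (K : ℝ) (f : ℕ → ℝ) :
    avg P (fun m => Real.exp (K * |f m|)) ≤
      avg P (fun m => Real.exp (K * f m)) + avg P (fun m => Real.exp ((-K) * f m)) := by
  rw [← avg_add]
  apply avg_mono
  intro m
  rcases abs_cases (f m) with ⟨h, _⟩ | ⟨h, _⟩
  · rw [h]
    have := Real.exp_pos ((-K) * f m)
    linarith
  · rw [h]
    have := Real.exp_pos (K * f m)
    have e : K * -f m = (-K) * f m := by ring
    rw [e]
    linarith

/-- the three window lengths in the bootstrap step -/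
lemma window_range (y p h : ℕ) (s Y₀ : ℝ) (hs : 1 ≤ s) (hY₀ : 1 ≤ Y₀) (hp : 2 ≤ p)
    (hpl : Real.log p ≤ 2 * s) (hy : Y₀ * Real.exp (3 * s) ≤ y) (hyh : y ≤ h) (y' : ℕ)
    (hy' : y' = y ∨ y' = y / p ∨ y' = y / p + 1) : Y₀ ≤ y' ∧ y' ≤ h := by
  have hp0 : (0 : ℝ) < p := by positivity
  have hpe : (p : ℝ) ≤ Real.exp (2 * s) := by
    rw [← Real.log_le_iff_le_exp hp0]
    exact hpl
  have hes : (2 : ℝ) ≤ Real.exp s := by
    have := Real.add_one_le_exp s
    linarith
  have hlow : Y₀ ≤ ((y / p : ℕ) : ℝ) := by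
    have h1 : (y : ℝ) / p - 1 ≤ ((y / p : ℕ) : ℝ) := by
      have h2 : y < p * (y / p) + p := by
        have := Nat.lt_mul_div_succ y (by omega : 0 < p)
        rw [Nat.mul_succ] at this
        exact this
      have h3 : (y : ℝ) < p * ((y / p : ℕ) : ℝ) + p := by exact_mod_cast h2
      rw [sub_le_iff_le_add, div_le_iff₀ hp0]
      nlinarith
    have h4 : Y₀ * Real.exp s ≤ (y : ℝ) / p := by
      rw [le_div_iff₀ hp0]
      calc Y₀ * Real.exp s * p ≤ Y₀ * Real.exp s * Real.exp (2 * s) := by
            apply mul_le_mul_of_nonneg_left hpe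
            positivity
        _ = Y₀ * Real.exp (3 * s) := by
            rw [mul_assoc, ← Real.exp_add]
            ring_nf
        _ ≤ y := hy
    nlinarith
  have hyp : y / p + 1 ≤ y := by
    have h5 : y / p ≤ y / 2 := Nat.div_le_div_left hp (by norm_num)
    have h6 : 2 ≤ y := by
      have : (2 : ℝ) ≤ y := by
        have h7 : (1 : ℝ) ≤ Real.exp (2 * s) := by
          apply Real.one_le_exp
          linarith
        have e : Real.exp (3 * s) = Real.exp s * Real.exp (2 * s) := by
          rw [← Real.exp_add]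
          ring_nf
        have h8 : (2 : ℝ) ≤ Real.exp (3 * s) := by
          rw [e]
          nlinarith
        nlinarith
      exact_mod_cast this
    omega
  have hYy : Y₀ ≤ y := by
    have : (1 : ℝ) ≤ Real.exp (3 * s) := by
      apply Real.one_le_exp
      linarith
    nlinarith
  rcases hy' with rfl | rfl | rfl
  · exact ⟨hYy, hyh⟩
  · refine ⟨hlow, ?_⟩
    omega
  · refine ⟨?_, by omega⟩
    push_cast
    linarith

/-- one application of the step, in terms of `s = ks h` -/
lemma step_s (h : ℕ) (s η Y₀ a : ℝ) (hs : 1 ≤ s) (hη : 0 < η) (hη1 : η ≤ 1 / 32)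
    (hY₀ : Real.exp (6 * s) ≤ Y₀)
    (hEnv : ∀ y : ℕ, Y₀ ≤ y → y ≤ h → ∀ z : ℕ, 1 ≤ z → Real.log z ≤ 3 * s → ∀ m : ℕ,
      |er z m y| ≤ 1 ∧ |er z m y| ≤ z * Real.exp (-(1 - η) * s))
    (hSum : ∀ w : ℕ, 1 ≤ w → Real.log w ≤ 2 * s → ∑ p ∈ pr w, 1 / (p : ℝ) ≤ Real.exp (η * s))
    (ha : a ≤ 1 - 16 * η)
    (hbig : 1000 ≤ Real.exp (η * s))
    (y : ℕ) (hy : Y₀ * Real.exp (3 * s) ≤ y) (hyh : y ≤ h)
    (hA : ∀ y' : ℕ, Y₀ * Real.exp (3 * s) ≤ y' * Real.exp (3 * s) → y' ≤ h → ∀ w : ℕ, 1 ≤ w →
      Real.log w ≤ 2 * s → (∃ p : ℕ, 2 ≤ p ∧ Real.log p ≤ 2 * s ∧ (y' = y ∨ y' = y / p ∨ y' = y / p + 1)) →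
      avg (Pz w) (fun m => Real.exp (Real.exp (a * s) * |er w m y'|)) ≤ 3)
    (w : ℕ) (hw : 1 ≤ w) (hwl : Real.log w ≤ 2 * s) (k : ℝ)
    (hk : |k| ≤ Real.exp ((a + η) * s)) :
    avg (Pz w) (fun m => Real.exp (k * er w m y)) ≤ 1 + Real.exp (-(10 * η) * s) := by
  have hs0 : 0 < s := by linarith
  have hy0r : (0 : ℝ) < y := by
    have : 0 < Y₀ * Real.exp (3 * s) := by
      have := Real.exp_pos (6 * s)
      have := Real.exp_pos (3 * s)
      nlinarith
    linarith
  have hy0 : 0 < y := by exact_mod_cast hy0r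
  have hY1 : 1 ≤ Y₀ := by
    refine le_trans ?_ hY₀
    apply Real.one_le_exp
    linarith
  have hybig : Real.exp (9 * s) ≤ y := by
    calc Real.exp (9 * s) = Real.exp (6 * s) * Real.exp (3 * s) := by
          rw [← Real.exp_add]; ring_nf
      _ ≤ Y₀ * Real.exp (3 * s) := by
          apply mul_le_mul_of_nonneg_right hY₀ (Real.exp_pos _).le
      _ ≤ y := hy
  set E1 := Real.exp (η * s) with hE1
  have hE1pos : 0 < E1 := Real.exp_pos _
  have hwe : (w : ℝ) ≤ Real.exp (2 * s) := by
    rw [← Real.log_le_iff_le_exp (by exact_mod_cast hw)]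
    exact hwl
  have hk2 : k ^ 2 ≤ Real.exp ((2 * a + 2 * η) * s) := by
    rw [← sq_abs]
    calc |k| ^ 2 ≤ Real.exp ((a + η) * s) ^ 2 := pow_le_pow_left₀ (abs_nonneg _) hk 2
      _ = Real.exp ((2 * a + 2 * η) * s) := by
          rw [← Real.exp_nat_mul]; push_cast; ring_nf
  -- apply boot_step
  have key := boot_step y w hy0 hw (Real.exp (-(1 - η) * s)) (Real.exp (η * s))
    (Real.exp (a * s)) k (Real.exp (-(η * s))) (Real.exp_pos _)
    (Real.one_le_exp (by positivity)) (hSum w hw hwl) (Real.exp_pos _) (Real.exp_pos _)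
    (by rw [Real.exp_le_one_iff]; nlinarith)
    (by
      intro z hz hp m y' hy'
      have hz1 : 1 ≤ z := by
        rcases Nat.eq_zero_or_pos z with h0 | h0
        · subst h0; exact absurd hp (by norm_num)
        · exact h0
      have hzw : Real.log ((z + 1 : ℕ) : ℝ) ≤ 2 * s := by
        refine le_trans ?_ hwl
        apply Real.log_le_log (by positivity)
        exact_mod_cast hz
      have hr := window_range y (z + 1) h s Y₀ hs hY1 (by omega) hzw hy hyh y' hy'
      have hzl : Real.log (z : ℝ) ≤ 3 * s := by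
        have : Real.log (z : ℝ) ≤ Real.log ((z + 1 : ℕ) : ℝ) := by
          apply Real.log_le_log (by exact_mod_cast hz1)
          push_cast
          linarith
        linarith
      have he := hEnv y' hr.1 hr.2 z hz1 hzl m
      refine ⟨he.1, he.2.trans ?_⟩
      apply mul_le_mul_of_nonneg_right _ (Real.exp_pos _).le
      linarith)
    (by
      intro z hz hp y' hy'
      have hz1 : 1 ≤ z := by
        rcases Nat.eq_zero_or_pos z with h0 | h0
        · subst h0; exact absurd hp (by norm_num)
        · exact h0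
      have hzw : Real.log ((z + 1 : ℕ) : ℝ) ≤ 2 * s := by
        refine le_trans ?_ hwl
        apply Real.log_le_log (by positivity)
        exact_mod_cast hz
      have hr := window_range y (z + 1) h s Y₀ hs hY1 (by omega) hzw hy hyh y' hy'
      have hzl : Real.log (z : ℝ) ≤ 2 * s := by
        have : Real.log (z : ℝ) ≤ Real.log ((z + 1 : ℕ) : ℝ) := by
          apply Real.log_le_log (by exact_mod_cast hz1)
          push_cast
          linarith
        linarith
      refine hA y' (mul_le_mul_of_nonneg_right hr.1 (Real.exp_pos _).le) hr.2 z hz1 hzl ?_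
      exact ⟨z + 1, by omega, hzw, hy'⟩)
    (by
      -- (1+τ)|k|(4ε₀+4/y) ≤ 1
      have h1 : 1 + Real.exp (-(η * s)) ≤ 2 := by
        have : Real.exp (-(η * s)) ≤ 1 := by rw [Real.exp_le_one_iff]; nlinarith
        linarith
      have h2 : (4 : ℝ) / y ≤ 4 * Real.exp (-(1 - η) * s) := by
        rw [div_le_iff₀ hy0r]
        have h3 : 1 ≤ Real.exp (-(1 - η) * s) * Real.exp (9 * s) := by
          rw [← Real.exp_add]
          apply Real.one_le_exp
          nlinarith
        have := mul_le_mul_of_nonneg_left hybig (Real.exp_pos (-(1 - η) * s)).le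
        nlinarith
      have h4 : |k| * Real.exp (-(1 - η) * s) ≤ Real.exp (-(14 * η) * s) := by
        calc |k| * Real.exp (-(1 - η) * s) ≤ Real.exp ((a + η) * s) * Real.exp (-(1 - η) * s) :=
              mul_le_mul_of_nonneg_right hk (Real.exp_pos _).le
          _ = Real.exp ((a + η) * s + -(1 - η) * s) := by rw [Real.exp_add]
          _ ≤ Real.exp (-(14 * η) * s) := by
              apply Real.exp_le_exp.mpr
              nlinarith
      have h5 : Real.exp (-(14 * η) * s) ≤ 1 / 1000 := by
        have : Real.exp (-(14 * η) * s) ≤ Real.exp (-(η * s)) := by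
          apply Real.exp_le_exp.mpr
          nlinarith
        refine this.trans ?_
        rw [Real.exp_neg, ← hE1, inv_eq_one_div]
        exact one_div_le_one_div_of_le (by norm_num) hbig
      have hk0 : 0 ≤ |k| := abs_nonneg _
      calc (1 + Real.exp (-(η * s))) * |k| * (4 * Real.exp (-(1 - η) * s) + 4 / y)
          ≤ 2 * |k| * (4 * Real.exp (-(1 - η) * s) + 4 * Real.exp (-(1 - η) * s)) := by
            apply mul_le_mul
            · exact mul_le_mul_of_nonneg_right h1 hk0
            · linarith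
            · positivity
            · positivity
        _ = 16 * (|k| * Real.exp (-(1 - η) * s)) := by ring
        _ ≤ 16 * (1 / 1000) := by linarith
        _ ≤ 1 := by norm_num)
    (96 * Real.exp (-(11 * η) * s)) (192 * Real.exp (-(2 * s)))
    (by
      -- κ₁
      have e : 24 * (4 * k ^ 2 / Real.exp (-(η * s))) * Real.exp (η * s) *
          Real.exp (-(1 - η) * s) / Real.exp (a * s) =
          96 * (k ^ 2 * Real.exp ((3 * η - 1 - a) * s)) := by
        rw [show (3 * η - 1 - a) * s = (η * s) + (η * s) + (-(1 - η) * s) + (-(a * s)) by ring,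
          Real.exp_add, Real.exp_add, Real.exp_add, Real.exp_neg (a * s), Real.exp_neg (η * s)]
        field_simp
        ring
      rw [e]
      apply mul_le_mul_of_nonneg_left _ (by norm_num)
      calc k ^ 2 * Real.exp ((3 * η - 1 - a) * s)
          ≤ Real.exp ((2 * a + 2 * η) * s) * Real.exp ((3 * η - 1 - a) * s) :=
            mul_le_mul_of_nonneg_right hk2 (Real.exp_pos _).le
        _ = Real.exp ((2 * a + 2 * η) * s + (3 * η - 1 - a) * s) := by rw [Real.exp_add]
        _ ≤ Real.exp (-(11 * η) * s) := by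
            apply Real.exp_le_exp.mpr
            nlinarith)
    (by
      have h5 : Real.exp (-(11 * η) * s) ≤ 1 / 1000 := by
        have : Real.exp (-(11 * η) * s) ≤ Real.exp (-(η * s)) := by
          apply Real.exp_le_exp.mpr
          nlinarith
        refine this.trans ?_
        rw [Real.exp_neg, ← hE1, inv_eq_one_div]
        exact one_div_le_one_div_of_le (by norm_num) hbig
      linarith)
    (by
      -- κ₂
      have h1 : (k ^ 2 : ℝ) ≤ Real.exp (2 * s) := by
        refine hk2.trans ?_
        apply Real.exp_le_exp.mpr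
        nlinarith
      have h2 : 0 < (y : ℝ) ^ 2 := by positivity
      rw [div_le_iff₀ h2]
      have h3 : Real.exp (9 * s) ^ 2 ≤ (y : ℝ) ^ 2 :=
        pow_le_pow_left₀ (Real.exp_pos _).le hybig 2
      have h4 : 48 * (4 * k ^ 2 / Real.exp (-(η * s))) * Real.exp (η * s) * w ≤
          192 * (Real.exp (2 * s) * Real.exp (2 * (η * s)) * Real.exp (2 * s)) := by
        have e : 48 * (4 * k ^ 2 / Real.exp (-(η * s))) * Real.exp (η * s) * w =
            192 * (k ^ 2 * Real.exp (2 * (η * s)) * w) := by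
          rw [show 2 * (η * s) = η * s + η * s by ring, Real.exp_add, Real.exp_neg]
          field_simp
          ring
        rw [e]
        apply mul_le_mul_of_nonneg_left _ (by norm_num)
        apply mul_le_mul
        · exact mul_le_mul_of_nonneg_right h1 (Real.exp_pos _).le
        · exact hwe
        · positivity
        · positivity
      refine h4.trans ?_
      have h6 : Real.exp (2 * s) * Real.exp (2 * (η * s)) * Real.exp (2 * s) ≤
          Real.exp (-(2 * s)) * (y : ℝ) ^ 2 := by
        calc Real.exp (2 * s) * Real.exp (2 * (η * s)) * Real.exp (2 * s)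
            = Real.exp (2 * s + 2 * (η * s) + 2 * s) := by
              rw [Real.exp_add, Real.exp_add]
          _ ≤ Real.exp (-(2 * s) + 18 * s) := by
              apply Real.exp_le_exp.mpr
              nlinarith
          _ = Real.exp (-(2 * s)) * Real.exp (9 * s) ^ 2 := by
              rw [Real.exp_add, ← Real.exp_nat_mul]
              push_cast
              ring_nf
          _ ≤ Real.exp (-(2 * s)) * (y : ℝ) ^ 2 :=
              mul_le_mul_of_nonneg_left h3 (Real.exp_pos _).le
      linarith)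
    (by
      have h5 : Real.exp (-(2 * s)) ≤ 1 / 1000 := by
        have : Real.exp (-(2 * s)) ≤ Real.exp (-(η * s)) := by
          apply Real.exp_le_exp.mpr
          nlinarith
        refine this.trans ?_
        rw [Real.exp_neg, ← hE1, inv_eq_one_div]
        exact one_div_le_one_div_of_le (by norm_num) hbig
      linarith)
  refine key.trans ?_
  have hx : Real.exp (-(11 * η) * s) = Real.exp (-(10 * η) * s) * Real.exp (-(η * s)) := by
    rw [← Real.exp_add]; ring_nf
  have hx2 : Real.exp (-(2 * s)) ≤ Real.exp (-(10 * η) * s) * Real.exp (-(η * s)) := by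
    rw [← Real.exp_add]
    apply Real.exp_le_exp.mpr
    nlinarith
  have h5 : Real.exp (-(η * s)) ≤ 1 / 1000 := by
    rw [Real.exp_neg, ← hE1, inv_eq_one_div]
    exact one_div_le_one_div_of_le (by norm_num) hbig
  have hpos := Real.exp_pos (-(10 * η) * s)
  have h7 : Real.exp (-(10 * η) * s) * Real.exp (-(η * s)) ≤
      Real.exp (-(10 * η) * s) * (1 / 1000) := mul_le_mul_of_nonneg_left h5 hpos.le
  rw [hx]
  nlinarith

lemma iter_s (h : ℕ) (s η Y₀ : ℝ) (hs : 1 ≤ s) (hη : 0 < η) (hη1 : η ≤ 1 / 32)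
    (hY₀ : Real.exp (6 * s) ≤ Y₀)
    (hEnv : ∀ y : ℕ, Y₀ ≤ y → y ≤ h → ∀ z : ℕ, 1 ≤ z → Real.log z ≤ 3 * s → ∀ m : ℕ,
      |er z m y| ≤ 1 ∧ |er z m y| ≤ z * Real.exp (-(1 - η) * s))
    (hSum : ∀ w : ℕ, 1 ≤ w → Real.log w ≤ 2 * s → ∑ p ∈ pr w, 1 / (p : ℝ) ≤ Real.exp (η * s))
    (hbig : 1000 ≤ Real.exp (η * s)) (j : ℕ) (hj : 1 / 4 + j * η ≤ 1 - 15 * η) :
    ∀ y : ℕ, Y₀ * Real.exp (3 * (j + 1) * s) ≤ y → y ≤ h → ∀ w : ℕ, 1 ≤ w →
      Real.log w ≤ 2 * s → ∀ k : ℝ, |k| ≤ Real.exp ((1 / 4 + j * η) * s) →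
        avg (Pz w) (fun m => Real.exp (k * er w m y)) ≤ 3 / 2 := by
  have hs0 : 0 < s := by linarith
  have hY1 : 1 ≤ Y₀ := by
    refine le_trans ?_ hY₀
    apply Real.one_le_exp
    linarith
  induction j with
  | zero =>
    intro y hy hyh w hw hwl k hk
    simp only [Nat.cast_zero, zero_mul, add_zero, zero_add, mul_one] at hy hk hj
    have hybig : Real.exp (9 * s) ≤ y := by
      calc Real.exp (9 * s) = Real.exp (6 * s) * Real.exp (3 * s) := by
            rw [← Real.exp_add]; ring_nf
        _ ≤ Y₀ * Real.exp (3 * s) := by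
            apply mul_le_mul_of_nonneg_right hY₀ (Real.exp_pos _).le
        _ ≤ y := hy
    have hy0r : (0 : ℝ) < y := lt_of_lt_of_le (Real.exp_pos _) hybig
    have hy0 : 0 < y := by exact_mod_cast hy0r
    have hsmall : ∀ c : ℝ, η ≤ c → Real.exp (-(c * s)) ≤ 1 / 1000 := by
      intro c hc
      have : Real.exp (-(c * s)) ≤ Real.exp (-(η * s)) := by
        apply Real.exp_le_exp.mpr
        nlinarith
      refine this.trans ?_
      rw [Real.exp_neg, inv_eq_one_div]
      exact one_div_le_one_div_of_le (by norm_num) hbig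
    have key := boot_start y w hy0 (Real.exp (-(1 - η) * s)) k (Real.exp_pos _)
      (by rw [Real.exp_le_one_iff]; nlinarith)
      (by
        intro z hz hp m y' hy'
        have hz1 : 1 ≤ z := by
          rcases Nat.eq_zero_or_pos z with h0 | h0
          · subst h0; exact absurd hp (by norm_num)
          · exact h0
        have hzw : Real.log ((z + 1 : ℕ) : ℝ) ≤ 2 * s := by
          refine le_trans ?_ hwl
          apply Real.log_le_log (by positivity)
          exact_mod_cast hz
        have hr := window_range y (z + 1) h s Y₀ hs hY1 (by omega) hzw hy hyh y' hy'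
        have hzl : Real.log (z : ℝ) ≤ 3 * s := by
          have : Real.log (z : ℝ) ≤ Real.log ((z + 1 : ℕ) : ℝ) := by
            apply Real.log_le_log (by exact_mod_cast hz1)
            push_cast
            linarith
          linarith
        have he := hEnv y' hr.1 hr.2 z hz1 hzl m
        refine ⟨he.1, he.2.trans ?_⟩
        apply mul_le_mul_of_nonneg_right _ (Real.exp_pos _).le
        linarith)
      (by
        have h2 : (4 : ℝ) / y ≤ 4 * Real.exp (-(1 - η) * s) := by
          rw [div_le_iff₀ hy0r]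
          have h3 : 1 ≤ Real.exp (-(1 - η) * s) * Real.exp (9 * s) := by
            rw [← Real.exp_add]
            apply Real.one_le_exp
            nlinarith
          have := mul_le_mul_of_nonneg_left hybig (Real.exp_pos (-(1 - η) * s)).le
          nlinarith
        have h4 : |k| * Real.exp (-(1 - η) * s) ≤ Real.exp (-(1 / 4 * s)) := by
          calc |k| * Real.exp (-(1 - η) * s) ≤ Real.exp (1 / 4 * s) * Real.exp (-(1 - η) * s) :=
                mul_le_mul_of_nonneg_right hk (Real.exp_pos _).le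
            _ = Real.exp (1 / 4 * s + -(1 - η) * s) := by rw [Real.exp_add]
            _ ≤ Real.exp (-(1 / 4 * s)) := by
                apply Real.exp_le_exp.mpr
                nlinarith
        have h5 := hsmall (1 / 4) (by linarith)
        have hk0 : 0 ≤ |k| := abs_nonneg _
        calc |k| * (4 * Real.exp (-(1 - η) * s) + 4 / y)
            ≤ |k| * (4 * Real.exp (-(1 - η) * s) + 4 * Real.exp (-(1 - η) * s)) := by
              apply mul_le_mul_of_nonneg_left _ hk0
              linarith
          _ = 8 * (|k| * Real.exp (-(1 - η) * s)) := by ring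
          _ ≤ 8 * (1 / 1000) := by linarith
          _ ≤ 1 := by norm_num)
    refine key.trans ?_
    have hwe : (w : ℝ) ≤ Real.exp (2 * s) := by
      rw [← Real.log_le_iff_le_exp (by exact_mod_cast hw)]
      exact hwl
    have hk2 : k ^ 2 ≤ Real.exp (1 / 2 * s) := by
      rw [← sq_abs]
      calc |k| ^ 2 ≤ Real.exp (1 / 4 * s) ^ 2 := pow_le_pow_left₀ (abs_nonneg _) hk 2
        _ = Real.exp (1 / 2 * s) := by
            rw [← Real.exp_nat_mul]; push_cast; ring_nf
    have hw2 : (w : ℝ) / y ^ 2 ≤ Real.exp (-(1 - η) * s) := by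
      rw [div_le_iff₀ (by positivity)]
      have h3 : Real.exp (9 * s) ^ 2 ≤ (y : ℝ) ^ 2 :=
        pow_le_pow_left₀ (Real.exp_pos _).le hybig 2
      calc (w : ℝ) ≤ Real.exp (2 * s) := hwe
        _ ≤ Real.exp (-(1 - η) * s) * Real.exp (9 * s) ^ 2 := by
            rw [← Real.exp_nat_mul, ← Real.exp_add]
            apply Real.exp_le_exp.mpr
            push_cast
            nlinarith
        _ ≤ Real.exp (-(1 - η) * s) * (y : ℝ) ^ 2 :=
            mul_le_mul_of_nonneg_left h3 (Real.exp_pos _).le
    have h6 : k ^ 2 * (96 * Real.exp (-(1 - η) * s) + 48 * w / y ^ 2) ≤ 144 / 1000 := by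
      calc k ^ 2 * (96 * Real.exp (-(1 - η) * s) + 48 * w / y ^ 2)
          = k ^ 2 * (96 * Real.exp (-(1 - η) * s) + 48 * (w / y ^ 2)) := by ring
        _ ≤ Real.exp (1 / 2 * s) * (96 * Real.exp (-(1 - η) * s) +
            48 * Real.exp (-(1 - η) * s)) := by
            apply mul_le_mul hk2 _ (by positivity) (Real.exp_pos _).le
            linarith
        _ = 144 * Real.exp (1 / 2 * s + -(1 - η) * s) := by
            rw [Real.exp_add]; ring
        _ ≤ 144 * Real.exp (-(1 / 4 * s)) := by
            apply mul_le_mul_of_nonneg_left _ (by norm_num)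
            apply Real.exp_le_exp.mpr
            nlinarith
        _ ≤ 144 / 1000 := by
            have := hsmall (1 / 4) (by linarith)
            linarith
    calc Real.exp (k ^ 2 * (96 * Real.exp (-(1 - η) * s) + 48 * w / y ^ 2))
        ≤ Real.exp (144 / 1000) := Real.exp_le_exp.mpr h6
      _ ≤ 3 / 2 := by
          have := Real.exp_bound_div_one_sub_of_interval (x := 144 / 1000) (by norm_num)
            (by norm_num)
          refine this.trans ?_
          norm_num
  | succ j ih =>
    intro y hy hyh w hw hwl k hk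
    push_cast at hy hk hj
    have hj' : 1 / 4 + (j : ℝ) * η ≤ 1 - 15 * η := by nlinarith
    have ih' := ih hj'
    have hYj : Y₀ ≤ Y₀ * Real.exp (3 * (j + 1) * s) := by
      have : (1 : ℝ) ≤ Real.exp (3 * (j + 1) * s) := by
        apply Real.one_le_exp
        positivity
      nlinarith
    have hyY : Y₀ * Real.exp (3 * s) ≤ y := by
      refine le_trans ?_ hy
      apply mul_le_mul_of_nonneg_left _ (by linarith)
      apply Real.exp_le_exp.mpr
      have : (0 : ℝ) ≤ j := Nat.cast_nonneg _
      nlinarith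
    have key := step_s h s η Y₀ (1 / 4 + j * η) hs hη hη1 hY₀ hEnv hSum
      (by linarith) hbig y hyY hyh
      (by
        intro y' _ hy'h w' hw' hw'l hcase
        have hY1' : 1 ≤ Y₀ * Real.exp (3 * (j + 1) * s) := by linarith
        have hlow : Y₀ * Real.exp (3 * (j + 1) * s) ≤ y' := by
          have hlarge : Y₀ * Real.exp (3 * (j + 1) * s) * Real.exp (3 * s) ≤ y := by
            refine le_trans (le_of_eq ?_) hy
            rw [mul_assoc, ← Real.exp_add]
            ring_nf
          obtain ⟨p, hp2, hpl, h1⟩ := hcase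
          exact (window_range y p h s _ hs hY1' hp2 hpl hlarge hyh y' h1).1
        have hb := avg_exp_abs (Pz w') (Real.exp ((1 / 4 + j * η) * s)) (fun m => er w' m y')
        have h1 := ih' y' hlow hy'h w' hw' hw'l (Real.exp ((1 / 4 + j * η) * s))
          (by rw [abs_of_pos (Real.exp_pos _)])
        have h2 := ih' y' hlow hy'h w' hw' hw'l (-Real.exp ((1 / 4 + j * η) * s))
          (by rw [abs_neg, abs_of_pos (Real.exp_pos _)])
        linarith)
      w hw hwl k (by
        refine hk.trans (le_of_eq ?_)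
        ring_nf)
    refine key.trans ?_
    have h5 : Real.exp (-(10 * η) * s) ≤ 1 / 1000 := by
      have : Real.exp (-(10 * η) * s) ≤ Real.exp (-(η * s)) := by
        apply Real.exp_le_exp.mpr
        nlinarith
      refine this.trans ?_
      rw [Real.exp_neg, inv_eq_one_div]
      exact one_div_le_one_div_of_le (by norm_num) hbig
    linarith

theorem bootstrap_aux (ε : ℝ) (hε : 0 < ε) (hε1 : ε ≤ 1 / 2) : ∃ c : ℝ, 0 < c ∧
    ∀ᶠ h : ℕ in atTop, ∀ w : ℕ, 1 ≤ w →
    Real.log w ≤ 2 * ks h → ∀ k : ℝ, |k| ≤ Real.exp ((1 - ε) * ks h) →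
      avg (Pz w) (fun m => Real.exp (k * er w m h)) ≤ 1 + Real.exp (-c * ks h) := by
  set η := ε / 17 with hηdef
  have hη : 0 < η := by rw [hηdef]; positivity
  have hη1 : η ≤ 1 / 32 := by rw [hηdef]; linarith
  obtain ⟨δ, hδ, hev⟩ := env_bound η hη
  obtain ⟨C, hC, hsum⟩ := sum_inv_le
  -- number of steps
  set J := ⌊(3 / 4 - 16 * η) / η⌋₊ with hJ
  have hJle : 1 / 4 + (J : ℝ) * η ≤ 1 - 16 * η := by
    have h1 : (J : ℝ) ≤ (3 / 4 - 16 * η) / η := Nat.floor_le (by
      apply div_nonneg _ hη.le
      linarith)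
    rw [le_div_iff₀ hη] at h1
    linarith
  have hJge : 1 - 16 * η ≤ 1 / 4 + (J : ℝ) * η + η := by
    have h1 : (3 / 4 - 16 * η) / η < J + 1 := Nat.lt_floor_add_one _
    rw [div_lt_iff₀ hη] at h1
    linarith
  refine ⟨10 * η, by positivity, ?_⟩
  set δ' := min δ (1 / 2) with hδ'
  have hδ'0 : 0 < δ' := lt_min hδ (by norm_num)
  have hlog : Tendsto (fun h : ℕ => Real.log (h : ℝ)) atTop atTop :=
    Real.tendsto_log_atTop.comp tendsto_natCast_atTop_atTop
  have hsumev : ∀ᶠ h : ℕ in atTop, C * (1 + Real.log (2 * ks h + 1)) ≤ Real.exp (η * ks h) := by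
    have h1 : Tendsto (fun s : ℝ => Real.exp (η * s) / (s + 1)) atTop atTop := by
      have h2 := Real.tendsto_exp_div_pow_atTop 1
      have h3 : Tendsto (fun s : ℝ => Real.exp (η * s) / (η * s)) atTop atTop := by
        have := h2.comp (tendsto_id.const_mul_atTop hη)
        simpa [Function.comp_def] using this
      have h4 : Tendsto (fun s : ℝ => (η / 2) * (Real.exp (η * s) / (η * s))) atTop atTop :=
        h3.const_mul_atTop (by positivity)
      refine tendsto_atTop_mono' _ ?_ h4
      filter_upwards [eventually_ge_atTop 1] with s hs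
      have : (0 : ℝ) < s := by linarith
      rw [div_mul_div_comm, mul_comm 2 (η * s), mul_assoc, ← div_mul_div_comm, div_self hη.ne',
        one_mul]
      apply div_le_div_of_nonneg_left (Real.exp_pos _).le (by linarith)
      linarith
    have h5 := (h1.comp ks_atTop).eventually_ge_atTop (2 * C + 2 * C)
    filter_upwards [h5, ks_atTop.eventually_ge_atTop 1] with h hh hs
    have hs0 : 0 < ks h := by linarith
    simp only [Function.comp_apply] at hh
    rw [le_div_iff₀ (by linarith)] at hh
    have h6 : Real.log (2 * ks h + 1) ≤ 2 * ks h := by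
      have := Real.log_le_sub_one_of_pos (show 0 < 2 * ks h + 1 by linarith)
      linarith
    nlinarith
  filter_upwards [hev, hsumev, ks_atTop.eventually_ge_atTop 1,
    ks_atTop.eventually_ge_atTop (Real.log 1000 / η),
    ks_small (δ' / (3 * (J + 2) + 12)) (by positivity),
    hlog.eventually_ge_atTop 1] with h hEnv0 hsum0 hs hs1000 hsmall hlogh
  set s := ks h with hsdef
  have hs0 : 0 < s := by linarith
  have hJ0 : (0 : ℝ) ≤ J := Nat.cast_nonneg _
  have hh1 : (1 : ℝ) ≤ h := by
    by_contra hcon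
    push Not at hcon
    have : h = 0 := by
      have : h < 1 := by exact_mod_cast hcon
      omega
    rw [this] at hlogh
    simp at hlogh
    linarith
  have hh0 : (0 : ℝ) < h := by linarith
  have hbig : 1000 ≤ Real.exp (η * s) := by
    rw [← Real.log_le_iff_le_exp (by norm_num)]
    rw [div_le_iff₀ hη] at hs1000
    linarith
  set Y₀ : ℝ := (h : ℝ) ^ (1 - δ') with hY₀def
  have hY₀eq : Y₀ = Real.exp ((1 - δ') * Real.log h) := by
    rw [hY₀def, Real.rpow_def_of_pos hh0]
    ring_nf
  have hδ'1 : δ' ≤ 1 / 2 := min_le_right _ _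
  have hsm : s * (3 * (J + 2) + 12) ≤ δ' * Real.log h := by
    have := hsmall
    rw [div_mul_eq_mul_div, le_div_iff₀ (by positivity)] at this
    exact this
  have hY₀ : Real.exp (6 * s) ≤ Y₀ := by
    rw [hY₀eq]
    apply Real.exp_le_exp.mpr
    nlinarith
  have hEnv : ∀ y : ℕ, Y₀ ≤ y → y ≤ h → ∀ z : ℕ, 1 ≤ z → Real.log z ≤ 3 * s → ∀ m : ℕ,
      |er z m y| ≤ 1 ∧ |er z m y| ≤ z * Real.exp (-(1 - η) * s) := by
    intro y hy hyh z hz hzl m
    refine hEnv0 y ?_ hyh z hz hzl m
    refine le_trans ?_ hy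
    rw [hY₀def]
    apply Real.rpow_le_rpow_of_exponent_le hh1
    have : δ' ≤ δ := min_le_left _ _
    linarith
  have hSum : ∀ w : ℕ, 1 ≤ w → Real.log w ≤ 2 * s →
      ∑ p ∈ pr w, 1 / (p : ℝ) ≤ Real.exp (η * s) := by
    intro w hw hwl
    rcases Nat.lt_or_ge w 2 with h2 | h2
    · have : w = 1 := by omega
      subst this
      have : pr 1 = ∅ := by decide
      rw [this]
      simp
      positivity
    · refine (hsum w h2).trans (le_trans ?_ hsum0)
      apply mul_le_mul_of_nonneg_left _ hC.le
      have hlw : 0 ≤ Real.log (w : ℝ) := Real.log_natCast_nonneg w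
      have : Real.log (Real.log w + 1) ≤ Real.log (2 * s + 1) := by
        apply Real.log_le_log (by linarith)
        linarith
      linarith
  have hiter := iter_s h s η Y₀ hs hη hη1 hY₀ hEnv hSum hbig J (by linarith)
  have hlowJ : Y₀ * Real.exp (3 * (J + 1) * s) * Real.exp (3 * s) ≤ h := by
    rw [hY₀eq, ← Real.exp_add, ← Real.exp_add, ← Real.le_log_iff_exp_le hh0]
    nlinarith
  have hY1 : 1 ≤ Y₀ := by
    refine le_trans ?_ hY₀
    apply Real.one_le_exp
    linarith
  intro w hw hwl k hk
  have hY1' : 1 ≤ Y₀ * Real.exp (3 * (J + 1) * s) := by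
    have : (1 : ℝ) ≤ Real.exp (3 * (J + 1) * s) := by
      apply Real.one_le_exp
      positivity
    nlinarith
  have key := step_s h s η Y₀ (1 / 4 + J * η) hs hη hη1 hY₀ hEnv hSum hJle hbig h
    (by
      refine le_trans ?_ hlowJ
      have : (1 : ℝ) ≤ Real.exp (3 * (J + 1) * s) := by
        apply Real.one_le_exp
        positivity
      have h1 := Real.exp_pos (3 * s)
      have : Y₀ ≤ Y₀ * Real.exp (3 * (J + 1) * s) := by nlinarith
      nlinarith) le_rfl
    (by
      intro y' _ hy'h w' hw' hw'l hcase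
      obtain ⟨p, hp2, hpl, h1⟩ := hcase
      have hlow := (window_range h p h s _ hs hY1' hp2 hpl hlowJ le_rfl y' h1).1
      have hb := avg_exp_abs (Pz w') (Real.exp ((1 / 4 + J * η) * s)) (fun m => er w' m y')
      have h1 := hiter y' hlow hy'h w' hw' hw'l (Real.exp ((1 / 4 + J * η) * s))
        (by rw [abs_of_pos (Real.exp_pos _)])
      have h2 := hiter y' hlow hy'h w' hw' hw'l (-Real.exp ((1 / 4 + J * η) * s))
        (by rw [abs_neg, abs_of_pos (Real.exp_pos _)])
      linarith)
    w hw hwl k (by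
      refine hk.trans ?_
      apply Real.exp_le_exp.mpr
      apply mul_le_mul_of_nonneg_right _ hs0.le
      have : ε = 17 * η := by rw [hηdef]; ring
      linarith)
  exact key

theorem bootstrap (ε : ℝ) (hε : 0 < ε) : ∃ c : ℝ, 0 < c ∧ ∀ᶠ h : ℕ in atTop, ∀ w : ℕ, 1 ≤ w →
    Real.log w ≤ 2 * ks h → ∀ k : ℝ, |k| ≤ Real.exp ((1 - ε) * ks h) →
      avg (Pz w) (fun m => Real.exp (k * er w m h)) ≤ 1 + Real.exp (-c * ks h) := by
  obtain ⟨c, hc, hev⟩ := bootstrap_aux (min ε (1 / 2)) (lt_min hε (by norm_num)) (min_le_right _ _)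
  refine ⟨c, hc, ?_⟩
  filter_upwards [hev, ks_atTop.eventually_ge_atTop 0] with h hh hs w hw hwl k hk
  refine hh w hw hwl k (hk.trans ?_)
  apply Real.exp_le_exp.mpr
  apply mul_le_mul_of_nonneg_right _ hs
  have := min_le_left ε (1 / 2)
  linarith

end Pool.Gal99
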