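import Pool.Agent.LibGal99.F1

namespace Pool.Gal99

open Finset Filter Topology MeasureTheory Set


/-! ### the parameters of the Omega lemma -/

/-- the sieve level -/
noncomputable def zz (h : ℕ) : ℕ := ⌊Real.exp (ks h / 2)⌋₊

noncomputable def ll (h : ℕ) : ℝ := Real.log (zz h)

noncomputable def us (h : ℕ) : ℝ := Real.log h / ll h

noncomputable def ws (ξ : ℝ) (h : ℕ) : ℝ := (1 + ξ) * us h

noncomputable def vs (ξ : ℝ) (h : ℕ) : ℝ := ws ξ h * Real.log (ws ξ h)

theorem d10_L : Tendsto (fun h : ℕ => Real.log (h : ℝ)) atTop atTop :=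
  Real.tendsto_log_atTop.comp tendsto_natCast_atTop_atTop

theorem d10_LL : Tendsto (fun h : ℕ => Real.log (Real.log (h : ℝ))) atTop atTop :=
  Real.tendsto_log_atTop.comp d10_L

theorem d10_logx : Tendsto (fun x : ℝ => Real.log x / x) atTop (𝓝 0) := by
  have := Real.isLittleO_log_id_atTop.tendsto_div_nhds_zero
  simpa using this

theorem d10_sq : ∀ᶠ h : ℕ in atTop, ks h ^ 2 = 2 * Real.log h * Real.log (Real.log h) := by
  filter_upwards [d10_L.eventually_gt_atTop 0, d10_LL.eventually_gt_atTop 0] with h h1 h2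
  unfold ks
  rw [Real.sq_sqrt (by positivity)]

theorem d10_floor (x : ℝ) (hx : 1 ≤ x) : x / 2 ≤ (⌊x⌋₊ : ℝ) := by
  have h1 : (1 : ℝ) ≤ (⌊x⌋₊ : ℝ) := by
    exact_mod_cast (Nat.one_le_floor_iff x).2 hx
  have h2 : x < (⌊x⌋₊ : ℝ) + 1 := Nat.lt_floor_add_one x
  linarith

theorem d10_ll_le (h : ℕ) (hk : 0 ≤ ks h) : ll h ≤ ks h / 2 := by
  have h1 : (1 : ℝ) ≤ Real.exp (ks h / 2) := Real.one_le_exp (by linarith)
  have h2 : (0 : ℝ) < (zz h : ℝ) := by
    have := d10_floor _ h1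
    unfold zz
    linarith
  unfold ll
  calc Real.log (zz h) ≤ Real.log (Real.exp (ks h / 2)) :=
        Real.log_le_log h2 (Nat.floor_le (Real.exp_pos _).le)
    _ = ks h / 2 := Real.log_exp _

theorem d10_ll_ge (h : ℕ) (hk : 0 ≤ ks h) : ks h / 2 - Real.log 2 ≤ ll h := by
  have h1 : (1 : ℝ) ≤ Real.exp (ks h / 2) := Real.one_le_exp (by linarith)
  have h2 := d10_floor _ h1
  unfold ll
  calc ks h / 2 - Real.log 2 = Real.log (Real.exp (ks h / 2) / 2) := by
        rw [Real.log_div (Real.exp_pos _).ne' (by norm_num), Real.log_exp]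
    _ ≤ Real.log (zz h) := Real.log_le_log (by positivity) h2

theorem d10_F1 : Tendsto (fun h => ll h / ks h) atTop (𝓝 (1 / 2)) := by
  have h1 : Tendsto (fun h : ℕ => 1 / 2 - Real.log 2 / ks h) atTop (𝓝 (1 / 2 - 0)) :=
    tendsto_const_nhds.sub (tendsto_const_nhds.div_atTop ks_atTop)
  rw [sub_zero] at h1
  refine tendsto_of_tendsto_of_tendsto_of_le_of_le' h1 tendsto_const_nhds ?_ ?_
  · filter_upwards [ks_atTop.eventually_gt_atTop 0] with h hk
    have := d10_ll_ge h hk.le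
    rw [le_div_iff₀ hk, sub_mul, div_mul_cancel₀ _ hk.ne']
    linarith
  · filter_upwards [ks_atTop.eventually_gt_atTop 0] with h hk
    have := d10_ll_le h hk.le
    rw [div_le_iff₀ hk]
    linarith

theorem d10_ll_atTop : Tendsto ll atTop atTop := by
  have h1 : Tendsto (fun h => ks h / 2 - Real.log 2) atTop atTop :=
    tendsto_atTop_add_const_right _ _ (ks_atTop.atTop_div_const (by norm_num))
  refine tendsto_atTop_mono' _ ?_ h1
  filter_upwards [ks_atTop.eventually_ge_atTop 0] with h hk using d10_ll_ge h hk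

theorem d10_logks : Tendsto (fun h => Real.log (ks h) / Real.log (Real.log (h : ℝ))) atTop
    (𝓝 (1 / 2)) := by
  have h1 : Tendsto (fun x : ℝ => (1 / 2) * (Real.log 2 / x + 1 + Real.log x / x)) atTop
      (𝓝 ((1 / 2) * (0 + 1 + 0))) :=
    (((tendsto_const_nhds.div_atTop tendsto_id).add_const 1).add d10_logx).const_mul _
  have h2 := h1.comp d10_LL
  rw [show (1 / 2 : ℝ) * (0 + 1 + 0) = 1 / 2 by norm_num] at h2
  refine h2.congr' ?_
  filter_upwards [d10_L.eventually_gt_atTop 0, d10_LL.eventually_gt_atTop 0] with h hL hLL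
  simp only [Function.comp_apply]
  unfold ks
  rw [Real.log_sqrt (by positivity), Real.log_mul (by positivity) hLL.ne',
    Real.log_mul (by norm_num) hL.ne']
  field_simp

theorem d10_logll : Tendsto (fun h => Real.log (ll h) / Real.log (Real.log (h : ℝ))) atTop
    (𝓝 (1 / 2)) := by
  have h1 : Tendsto (fun h => Real.log (ll h / ks h)) atTop (𝓝 (Real.log (1 / 2))) :=
    (Real.continuousAt_log (by norm_num)).tendsto.comp d10_F1
  have h2 : Tendsto (fun h => Real.log (ll h / ks h) / Real.log (Real.log (h : ℝ))) atTop (𝓝 0) :=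
    h1.div_atTop d10_LL
  have h3 := h2.add d10_logks
  rw [zero_add] at h3
  refine h3.congr' ?_
  filter_upwards [ks_atTop.eventually_gt_atTop 0, d10_ll_atTop.eventually_gt_atTop 0] with h hk hl
  rw [Real.log_div hl.ne' hk.ne']
  ring

theorem d10_logu : Tendsto (fun h => Real.log (us h) / Real.log (Real.log (h : ℝ))) atTop
    (𝓝 (1 / 2)) := by
  have h1 := (tendsto_const_nhds (x := (1 : ℝ)) (f := (atTop : Filter ℕ))).sub d10_logll
  rw [show (1 : ℝ) - 1 / 2 = 1 / 2 by norm_num] at h1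
  refine h1.congr' ?_
  filter_upwards [d10_L.eventually_gt_atTop 0, d10_LL.eventually_gt_atTop 0,
    d10_ll_atTop.eventually_gt_atTop 0] with h hL hLL hl
  unfold us
  rw [Real.log_div hL.ne' hl.ne', sub_div, div_self hLL.ne']

theorem d10_logu_atTop : Tendsto (fun h => Real.log (us h)) atTop atTop := by
  have h1 : Tendsto (fun h => Real.log (us h) / Real.log (Real.log (h : ℝ)) *
      Real.log (Real.log (h : ℝ))) atTop atTop :=
    Tendsto.pos_mul_atTop (by norm_num : (0 : ℝ) < 1 / 2) d10_logu d10_LL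
  refine h1.congr' ?_
  filter_upwards [d10_LL.eventually_gt_atTop 0] with h hLL
  rw [div_mul_cancel₀ _ hLL.ne']

theorem d10_u_atTop : Tendsto us atTop atTop := by
  have h1 := Real.tendsto_exp_atTop.comp d10_logu_atTop
  refine h1.congr' ?_
  filter_upwards [d10_L.eventually_gt_atTop 0, d10_ll_atTop.eventually_gt_atTop 0] with h hL hl
  simp only [Function.comp_apply]
  exact Real.exp_log (div_pos hL hl)

theorem d10_ulogu : Tendsto (fun h => us h * Real.log (us h) / ks h) atTop (𝓝 (1 / 2)) := by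
  have h1 : Tendsto (fun h => (ll h / ks h)⁻¹) atTop (𝓝 (1 / 2 : ℝ)⁻¹) :=
    d10_F1.inv₀ (by norm_num)
  have h2 := d10_logu.mul (h1.mul_const (1 / 2))
  rw [show (1 / 2 : ℝ) * ((1 / 2 : ℝ)⁻¹ * (1 / 2)) = 1 / 2 by norm_num] at h2
  refine h2.congr' ?_
  filter_upwards [d10_L.eventually_gt_atTop 0, d10_LL.eventually_gt_atTop 0,
    d10_ll_atTop.eventually_gt_atTop 0, ks_atTop.eventually_gt_atTop 0, d10_sq] with h hL hLL hl hk hsq
  have e1 : us h = Real.log h / ll h := rfl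
  rw [inv_div]
  have e2 : us h * Real.log (us h) / ks h = Real.log (us h) * (Real.log h / (ll h * ks h)) := by
    rw [e1]
    field_simp
  rw [e2]
  have e3 : ks h / ll h * (1 / 2) = Real.log h * Real.log (Real.log h) / (ll h * ks h) := by
    rw [div_mul_div_comm, div_eq_div_iff (by positivity) (by positivity)]
    nlinarith [hsq]
  rw [e3]
  field_simp

theorem d10_w_atTop (ξ : ℝ) (hξ : 0 < ξ) : Tendsto (ws ξ) atTop atTop :=
  d10_u_atTop.const_mul_atTop (by linarith)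

theorem d10_logw (ξ : ℝ) (hξ : 0 < ξ) :
    Tendsto (fun h => Real.log (ws ξ h) / Real.log (us h)) atTop (𝓝 1) := by
  have h1 : Tendsto (fun h => Real.log (1 + ξ) / Real.log (us h) + 1) atTop (𝓝 (0 + 1)) :=
    (tendsto_const_nhds.div_atTop d10_logu_atTop).add_const 1
  rw [zero_add] at h1
  refine h1.congr' ?_
  filter_upwards [d10_u_atTop.eventually_gt_atTop 0, d10_logu_atTop.eventually_gt_atTop 0]
    with h hu hlu
  unfold ws
  rw [Real.log_mul (by linarith) hu.ne', add_div, div_self hlu.ne']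

theorem d10_logw_atTop (ξ : ℝ) (hξ : 0 < ξ) : Tendsto (fun h => Real.log (ws ξ h)) atTop atTop :=
  Real.tendsto_log_atTop.comp (d10_w_atTop ξ hξ)

theorem d10_v_atTop (ξ : ℝ) (hξ : 0 < ξ) : Tendsto (vs ξ) atTop atTop :=
  (d10_w_atTop ξ hξ).atTop_mul_atTop₀ (d10_logw_atTop ξ hξ)

theorem d10_logv_atTop (ξ : ℝ) (hξ : 0 < ξ) : Tendsto (fun h => Real.log (vs ξ h)) atTop atTop :=
  Real.tendsto_log_atTop.comp (d10_v_atTop ξ hξ)

theorem d10_logv (ξ : ℝ) (hξ : 0 < ξ) :
    Tendsto (fun h => Real.log (vs ξ h) / Real.log (ws ξ h)) atTop (𝓝 1) := by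
  have h1 : Tendsto (fun x : ℝ => 1 + Real.log x / x) atTop (𝓝 (1 + 0)) :=
    d10_logx.const_add 1
  have h2 := h1.comp (d10_logw_atTop ξ hξ)
  rw [add_zero] at h2
  refine h2.congr' ?_
  filter_upwards [(d10_w_atTop ξ hξ).eventually_gt_atTop 0,
    (d10_logw_atTop ξ hξ).eventually_gt_atTop 0] with h hw hlw
  simp only [Function.comp_apply]
  unfold vs
  rw [Real.log_mul hw.ne' hlw.ne', add_div, div_self hlw.ne']

/-- `u log v / s → 1/2` -/
theorem d10_ulogv (ξ : ℝ) (hξ : 0 < ξ) :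
    Tendsto (fun h => us h * Real.log (vs ξ h) / ks h) atTop (𝓝 (1 / 2)) := by
  have h1 := ((d10_logv ξ hξ).mul (d10_logw ξ hξ)).mul d10_ulogu
  rw [show (1 : ℝ) * 1 * (1 / 2) = 1 / 2 by norm_num] at h1
  refine h1.congr' ?_
  filter_upwards [(d10_logw_atTop ξ hξ).eventually_gt_atTop 0,
    d10_logu_atTop.eventually_gt_atTop 0] with h hw hlu
  field_simp

/-- `τ v / log (τ v) / w → τ` -/
theorem d10_vlogv (ξ τ : ℝ) (hξ : 0 < ξ) (hτ : 0 < τ) :
    Tendsto (fun h => τ * vs ξ h / Real.log (τ * vs ξ h) / ws ξ h) atTop (𝓝 τ) := by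
  have h1 : Tendsto (fun h => Real.log τ / Real.log (ws ξ h) + Real.log (vs ξ h) /
      Real.log (ws ξ h)) atTop (𝓝 (0 + 1)) :=
    (tendsto_const_nhds.div_atTop (d10_logw_atTop ξ hξ)).add (d10_logv ξ hξ)
  have h2 := (h1.inv₀ (by norm_num)).const_mul τ
  rw [show τ * (0 + 1 : ℝ)⁻¹ = τ by norm_num] at h2
  refine h2.congr' ?_
  have hτv : Tendsto (fun h => Real.log (τ * vs ξ h)) atTop atTop :=
    Real.tendsto_log_atTop.comp ((d10_v_atTop ξ hξ).const_mul_atTop hτ)
  filter_upwards [(d10_w_atTop ξ hξ).eventually_gt_atTop 0,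
    (d10_logw_atTop ξ hξ).eventually_gt_atTop 0, (d10_v_atTop ξ hξ).eventually_gt_atTop 0,
    hτv.eventually_gt_atTop 0] with h hw hlw hv hlv
  rw [← add_div, ← Real.log_mul hτ.ne' hv.ne', inv_div]
  generalize Real.log (τ * vs ξ h) = A at hlv ⊢
  have : vs ξ h = ws ξ h * Real.log (ws ξ h) := rfl
  rw [this]
  field_simp

/-- `(1 + log (ℓ + 1)) / log w → 1` -/
theorem d10_logl1 (ξ : ℝ) (hξ : 0 < ξ) :
    Tendsto (fun h => (1 + Real.log (ll h + 1)) / Real.log (ws ξ h)) atTop (𝓝 1) := by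
  -- log (ℓ + 1) - log ℓ → 0
  have h0 : Tendsto (fun h => Real.log (1 + 1 / ll h)) atTop (𝓝 (Real.log (1 + 0))) := by
    refine (Real.continuousAt_log (by norm_num)).tendsto.comp ?_
    exact (tendsto_const_nhds.div_atTop d10_ll_atTop).const_add 1
  have h1 : Tendsto (fun h => (1 + Real.log (1 + 1 / ll h)) / Real.log (Real.log (h : ℝ)) +
      Real.log (ll h) / Real.log (Real.log (h : ℝ))) atTop (𝓝 (0 + 1 / 2)) :=
    ((h0.const_add 1).div_atTop d10_LL).add d10_logll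
  have h2 : Tendsto (fun h => Real.log (us h) / Real.log (Real.log (h : ℝ)) *
      (Real.log (ws ξ h) / Real.log (us h))) atTop (𝓝 (1 / 2 * 1)) :=
    d10_logu.mul (d10_logw ξ hξ)
  have h3 := h1.div h2 (by norm_num)
  rw [show ((0 : ℝ) + 1 / 2) / (1 / 2 * 1) = 1 by norm_num] at h3
  refine h3.congr' ?_
  filter_upwards [(d10_logw_atTop ξ hξ).eventually_gt_atTop 0,
    d10_logu_atTop.eventually_gt_atTop 0, d10_LL.eventually_gt_atTop 0,
    d10_ll_atTop.eventually_gt_atTop 0] with h hw hlu hLL hl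
  have e1 : Real.log (ll h + 1) = Real.log (1 + 1 / ll h) + Real.log (ll h) := by
    rw [← Real.log_mul (by positivity) hl.ne']
    congr 1
    field_simp
    try ring
  rw [e1]
  simp only [Pi.div_apply]
  field_simp
  ring

/-- `√(τ v) (1 + log (ℓ + 1)) / w → 0` -/
theorem d10_sqrt (ξ τ : ℝ) (hξ : 0 < ξ) (hτ : 0 < τ) :
    Tendsto (fun h => Real.sqrt (τ * vs ξ h) * (1 + Real.log (ll h + 1)) / ws ξ h) atTop (𝓝 0) := by
  have h0 : Tendsto (fun x : ℝ => Real.log x ^ 3 / x) atTop (𝓝 0) := by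
    have := Real.isLittleO_pow_log_id_atTop (n := 3)
    simpa using this.tendsto_div_nhds_zero
  have h1 : Tendsto (fun x : ℝ => Real.sqrt (Real.log x ^ 3 / x)) atTop (𝓝 0) := by
    have := (Real.continuous_sqrt.tendsto 0).comp h0
    simpa [Function.comp_def] using this
  have h2 : Tendsto (fun h => Real.sqrt τ * Real.sqrt (Real.log (ws ξ h) ^ 3 / ws ξ h) *
      ((1 + Real.log (ll h + 1)) / Real.log (ws ξ h))) atTop (𝓝 (Real.sqrt τ * 0 * 1)) :=
    ((h1.comp (d10_w_atTop ξ hξ)).const_mul _).mul (d10_logl1 ξ hξ)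
  rw [show Real.sqrt τ * 0 * 1 = 0 by ring] at h2
  refine h2.congr' ?_
  filter_upwards [(d10_w_atTop ξ hξ).eventually_gt_atTop 0,
    (d10_logw_atTop ξ hξ).eventually_gt_atTop 0] with h hw hlw
  have e1 : Real.sqrt (Real.log (ws ξ h) ^ 3 / ws ξ h) =
      Real.sqrt (vs ξ h) * Real.log (ws ξ h) / ws ξ h := by
    rw [Real.sqrt_eq_iff_mul_self_eq (by positivity) (by positivity)]
    have hv : 0 ≤ vs ξ h := by unfold vs; positivity
    have e2 : Real.sqrt (vs ξ h) * Real.log (ws ξ h) / ws ξ h *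
        (Real.sqrt (vs ξ h) * Real.log (ws ξ h) / ws ξ h) =
        (Real.sqrt (vs ξ h) * Real.sqrt (vs ξ h)) * Real.log (ws ξ h) ^ 2 / ws ξ h ^ 2 := by
      ring
    rw [e2, Real.mul_self_sqrt hv]
    unfold vs
    field_simp
  rw [e1, Real.sqrt_mul hτ.le]
  field_simp

/-- `log ℓ / w → 0` -/
theorem d10_logl_w (ξ : ℝ) (hξ : 0 < ξ) :
    Tendsto (fun h => Real.log (ll h + 1) / ws ξ h) atTop (𝓝 0) := by
  have h1 : Tendsto (fun h => (1 + Real.log (ll h + 1)) / Real.log (ws ξ h) *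
      (Real.log (ws ξ h) / ws ξ h) - 1 / ws ξ h) atTop (𝓝 (1 * 0 - 0)) :=
    ((d10_logl1 ξ hξ).mul (d10_logx.comp (d10_w_atTop ξ hξ))).sub
      (tendsto_const_nhds.div_atTop (d10_w_atTop ξ hξ))
  rw [show (1 : ℝ) * 0 - 0 = 0 by ring] at h1
  refine h1.congr' ?_
  filter_upwards [(d10_w_atTop ξ hξ).eventually_gt_atTop 0,
    (d10_logw_atTop ξ hξ).eventually_gt_atTop 0] with h hw hlw
  field_simp
  ring

/-- `log v / w → 0` -/
theorem d10_logv_w (ξ : ℝ) (hξ : 0 < ξ) :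
    Tendsto (fun h => Real.log (vs ξ h) / ws ξ h) atTop (𝓝 0) := by
  have h1 : Tendsto (fun h => Real.log (vs ξ h) / Real.log (ws ξ h) *
      (Real.log (ws ξ h) / ws ξ h)) atTop (𝓝 (1 * 0)) :=
    (d10_logv ξ hξ).mul (d10_logx.comp (d10_w_atTop ξ hξ))
  rw [show (1 : ℝ) * 0 = 0 by ring] at h1
  refine h1.congr' ?_
  filter_upwards [(d10_w_atTop ξ hξ).eventually_gt_atTop 0,
    (d10_logw_atTop ξ hξ).eventually_gt_atTop 0] with h hw hlw
  field_simp

/-- `log v / ℓ → 0` -/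
theorem d10_beta (ξ : ℝ) (hξ : 0 < ξ) :
    Tendsto (fun h => Real.log (vs ξ h) / ll h) atTop (𝓝 0) := by
  -- = (u log v / s) (s / ℓ) / u
  have h1 : Tendsto (fun h => us h * Real.log (vs ξ h) / ks h * (ll h / ks h)⁻¹ / us h) atTop
      (𝓝 0) :=
    ((d10_ulogv ξ hξ).mul (d10_F1.inv₀ (by norm_num))).div_atTop d10_u_atTop
  refine h1.congr' ?_
  filter_upwards [d10_u_atTop.eventually_gt_atTop 0, d10_ll_atTop.eventually_gt_atTop 0,
    ks_atTop.eventually_gt_atTop 0] with h hu hl hk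
  field_simp

end Pool.Gal99
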