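import Mathlib

/-!
The exact range of Gallagher's theorem on averages of the singular series: definitions.
-/

namespace Pool.Gal99

open Finset Filter Topology

/-- the primes `≤ z` -/
def pr (z : ℕ) : Finset ℕ := (range (z + 1)).filter Nat.Prime

/-- the product of the primes `≤ z` -/
def Pz (z : ℕ) : ℕ := ∏ p ∈ pr z, p

/-- `∏_{p ≤ z} (1 - 1/p)` -/
noncomputable def V (z : ℕ) : ℝ := ∏ p ∈ pr z, (1 - 1 / (p : ℝ))

/-- the number of `n ∈ (m, m+h]` without prime factors `≤ z` -/
def R (z m h : ℕ) : ℕ := ((Ioc m (m + h)).filter (fun n => n.Coprime (Pz z))).card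

/-- relative error of the sieve in the window `(m, m+h]` -/
noncomputable def er (z m h : ℕ) : ℝ := (R z m h : ℝ) / (h * V z) - 1

/-- mean value over `0 ≤ m < P` -/
noncomputable def avg (P : ℕ) (f : ℕ → ℝ) : ℝ := (∑ m ∈ range P, f m) / P

/-- number of residue classes mod `p` occupied by `H` -/
def occ (H : Finset ℕ) (p : ℕ) : ℕ := (H.image (fun a => a % p)).card

/-- truncated singular series -/
noncomputable def singz (z : ℕ) (H : Finset ℕ) : ℝ :=
  ∏ p ∈ pr z, (1 - (occ H p : ℝ) / p) / (1 - 1 / (p : ℝ)) ^ H.card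

/-- the Hardy-Littlewood singular series -/
noncomputable def sing (H : Finset ℕ) : ℝ :=
  ∏' p : Nat.Primes, (1 - (occ H p : ℝ) / (p : ℝ)) / (1 - 1 / (p : ℝ)) ^ H.card

/-- mean value of the singular series over the `k`-subsets of `[1, h]` -/
noncomputable def gal (h k : ℕ) : ℝ := (∑ H ∈ powersetCard k (Icc 1 h), sing H) / (h.choose k : ℝ)

/-- the exponent of the threshold: `√(2 log h loglog h)` -/
noncomputable def ks (h : ℕ) : ℝ := Real.sqrt (2 * Real.log h * Real.log (Real.log h))

/-- one step of the sieve -/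
noncomputable def dd (z m h : ℕ) : ℝ := er (z + 1) m h - er z m h

/-- `z + 1` if it is prime, otherwise `1`; `Pz (z + 1) = Pz z * qq z` -/
def qq (z : ℕ) : ℕ := if (z + 1).Prime then z + 1 else 1

/-- mean square of the step over the lifts of `m mod Pz z` to classes mod `Pz (z + 1)` -/
noncomputable def uu (z m h : ℕ) : ℝ := avg (qq z) (fun t => dd z (m + Pz z * t) h ^ 2)

end Pool.Gal99
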