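import Pool.Agent.LibGal99.Defs

/-! The error function of the sieve and its Mellin transform: definitions. -/

namespace Pool.Gal99

open Finset Filter Topology MeasureTheory Set

/-- error function of the sieve on `(0, y]` -/
noncomputable def EE (z : ℕ) (y : ℝ) : ℝ := (R z 0 ⌊y⌋₊ : ℝ) - y * V z

/-- Mellin transform of the fractional part -/
noncomputable def zs (s : ℂ) : ℂ := mellin (fun x : ℝ => ((Int.fract x : ℝ) : ℂ)) (-s)

noncomputable def GG (z : ℕ) (s : ℂ) : ℂ := ∏ p ∈ pr z, (1 - (p : ℂ) ^ (-s))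

end Pool.Gal99
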