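import Pool.Agent.LibGal99.A0
import Pool.Agent.LibGal99.B2
import Pool.Agent.LibGal99.A6
import Pool.Agent.LibGal99.A8
import Pool.Agent.LibGal99.A9
import Pool.Agent.LibGal99.C1
import Pool.Agent.LibGal99.C10
import Pool.Agent.LibGal99.F1

/-!
Row F2: below the threshold.
-/

namespace Pool.Gal99

open Finset Filter Topology MeasureTheory Set


/-- F2, the upper bound with all smallness conditions explicit -/
theorem F2_upper (h k : ℕ) (d e c : ℝ) (hk1 : 1 ≤ k) (hd : 0 < d) (hd1 : d ≤ 1 / 16)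
    (he : 0 < e) (hL2 : 2 ≤ Real.log h) (hL : 2 / d ≤ Real.log h)
    (hlk : Real.log k ≤ (1 - e) * ks h) (hks0 : 0 ≤ ks h)
    (hll : Real.log (Real.log h) ≤ e / 4 * ks h)
    (hkh : 2 * (k : ℝ) ^ 2 / h ≤ d) (h0 : 0 < h) (h2k : 2 * k ≤ h)
    (hex : Real.exp (-c * ks h) ≤ d)
    (hb : ∀ w : ℕ, 1 ≤ w → Real.log w ≤ 2 * ks h → ∀ k : ℝ, |k| ≤ Real.exp ((1 - e) * ks h) →
      avg (Pz w) (fun m => Real.exp (k * er w m h)) ≤ 1 + Real.exp (-c * ks h)) :
    gal h k ≤ 1 + 16 * d := by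
  have hk0 : (0 : ℝ) < k := by exact_mod_cast hk1
  set q : ℕ := ⌈Real.log h⌉₊ + 1 with hq
  have hqL : Real.log h ≤ q := by
    rw [hq]
    push_cast
    linarith [Nat.le_ceil (Real.log h)]
  have hqU : (q : ℝ) ≤ Real.log h ^ 2 := by
    have h1 := Nat.ceil_lt_add_one (a := Real.log h) (by linarith)
    rw [hq]
    push_cast
    nlinarith
  have hq2 : 2 ≤ q := by
    have h1 : (2 : ℝ) ≤ q := hL2.trans hqL
    exact_mod_cast h1
  have hq0 : (0 : ℝ) < q := by linarith [hqL]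
  set w : ℕ := k ^ 2 * q ^ 2 with hw
  have hw0 : 0 < w := by positivity
  have hw2 : 2 * k ≤ w := by
    have h1 : k * 1 ≤ k * k := Nat.mul_le_mul_left k hk1
    have h2 : 4 ≤ q ^ 2 := by nlinarith
    calc 2 * k ≤ k ^ 2 * 4 := by nlinarith
      _ ≤ w := Nat.mul_le_mul_left _ h2
  have hwc : (w : ℝ) = (k : ℝ) ^ 2 * (q : ℝ) ^ 2 := by
    rw [hw]
    push_cast
    ring
  have hlq : Real.log q ≤ 2 * Real.log (Real.log h) := by
    have h1 := Real.log_le_log hq0 hqU
    rwa [Real.log_pow] at h1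
  have hlw : Real.log w ≤ 2 * ks h := by
    rw [hwc, Real.log_mul (by positivity) (by positivity), Real.log_pow, Real.log_pow]
    push_cast
    nlinarith [mul_nonneg he.le hks0]
  have h1 := gal_upper h k w hw0 hw2 (by omega)
  have h2 := upper_exp h k w h0 h2k
  have hka : |(k : ℝ)| ≤ Real.exp ((1 - e) * ks h) := by
    rw [abs_of_pos hk0, ← Real.log_le_iff_le_exp hk0]
    exact hlk
  have h3 := hb w hw0 hlw k hka
  have h4 : 2 * (k : ℝ) ^ 2 * Real.log h / w ≤ d := by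
    rw [hwc, div_le_iff₀ (by positivity)]
    have h5 : 2 ≤ d * Real.log h := by
      rw [div_le_iff₀ hd] at hL
      linarith
    have h6 : Real.log h * Real.log h ≤ (q : ℝ) ^ 2 := by nlinarith
    have h7 : 2 * Real.log h ≤ d * (q : ℝ) ^ 2 := by
      have h8 : 2 * Real.log h ≤ d * Real.log h * Real.log h :=
        mul_le_mul_of_nonneg_right h5 (by linarith)
      have h9 : d * Real.log h * Real.log h ≤ d * (q : ℝ) ^ 2 := by
        rw [mul_assoc]
        exact mul_le_mul_of_nonneg_left h6 hd.le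
      linarith
    have h8 : (k : ℝ) ^ 2 * (2 * Real.log h) ≤ (k : ℝ) ^ 2 * (d * (q : ℝ) ^ 2) :=
      mul_le_mul_of_nonneg_left h7 (by positivity)
    nlinarith
  have h5 : Real.exp (2 * (k : ℝ) ^ 2 * Real.log h / w) ≤ Real.exp d := Real.exp_le_exp.2 h4
  have h6 : Real.exp (2 * (k : ℝ) ^ 2 / h) ≤ Real.exp d := Real.exp_le_exp.2 hkh
  have hav : 0 ≤ avg (Pz w) (fun m => Real.exp (k * er w m h)) := by
    unfold avg
    exact div_nonneg (Finset.sum_nonneg fun _ _ => (Real.exp_pos _).le) (Nat.cast_nonneg _)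
  have h7 : Real.exp d ≤ 1 + 2 * d := by
    have h8 := Real.abs_exp_sub_one_sub_id_le (x := d) (by rw [abs_of_pos hd]; linarith)
    have h9 := (abs_le.1 h8).2
    nlinarith
  have he0 : 0 < Real.exp d := Real.exp_pos d
  calc gal h k ≤ _ := h1
    _ ≤ Real.exp d * (Real.exp d * (1 + d)) := by
        refine mul_le_mul h5 (h2.trans ?_) ?_ he0.le
        · exact mul_le_mul h6 (h3.trans (by linarith)) hav he0.le
        · refine div_nonneg ?_ (mul_nonneg (Nat.cast_nonneg _) (pow_nonneg (V_pos w).le _))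
          unfold avg
          exact div_nonneg (Finset.sum_nonneg fun _ _ => Nat.cast_nonneg _) (Nat.cast_nonneg _)
    _ ≤ (1 + 2 * d) * ((1 + 2 * d) * (1 + d)) := by
        have h8 : Real.exp d * (1 + d) ≤ (1 + 2 * d) * (1 + d) :=
          mul_le_mul_of_nonneg_right h7 (by linarith)
        exact mul_le_mul h7 h8 (by positivity) (by linarith)
    _ ≤ 1 + 16 * d := by nlinarith [mul_pos hd hd]

/-- F2, the lower bound with all smallness conditions explicit -/
theorem F2_lower (h k : ℕ) (d C : ℝ) (hk1 : 1 ≤ k) (hd1 : d ≤ 1 / 16)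
    (hC : ∀ z : ℕ, 2 ≤ z → (V z)⁻¹ ≤ C * Real.log z)
    (hkh : 2 * (k : ℝ) ^ 2 / h ≤ d) (h2k : 2 * k ≤ h)
    (hkC : (k : ℝ) ^ 2 * (2 * C * Real.log h) / h ≤ d) :
    1 - 2 * d ≤ gal h k := by
  have h0 : 0 < h := by omega
  have h1h : 2 ≤ h := by omega
  have hk0 : (0 : ℝ) < k := by exact_mod_cast hk1
  have hkr : (1 : ℝ) ≤ k := by exact_mod_cast hk1
  have hh0 : (0 : ℝ) < h := by exact_mod_cast h0
  have hh1 : (1 : ℝ) ≤ h := by exact_mod_cast h0
  have hzz : h ≤ h ^ 2 := by nlinarith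
  have hV := V_pos (h ^ 2)
  have h1 := gal_lower h k (h ^ 2) hzz (by positivity) (by omega) (by omega)
  have hx : (k : ℝ) * (k / (h * V (h ^ 2))) ≤ d := by
    have h2 := hC (h ^ 2) (by nlinarith)
    push_cast at h2
    rw [Real.log_pow] at h2
    push_cast at h2
    have h3 : (k : ℝ) * (k / (h * V (h ^ 2))) = (k : ℝ) ^ 2 * (V (h ^ 2))⁻¹ / h := by
      field_simp
    rw [h3]
    refine le_trans ?_ hkC
    refine div_le_div_of_nonneg_right ?_ hh0.le
    refine mul_le_mul_of_nonneg_left ?_ (by positivity)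
    linarith
  have hx0 : 0 ≤ (k : ℝ) / (h * V (h ^ 2)) := by positivity
  have hx1 : (k : ℝ) / (h * V (h ^ 2)) ≤ d := by nlinarith
  have her := er_zero 0 h h0
  have h2 := jensen_lower h k (h ^ 2) 0 0 h0 (by omega) (by omega) (by rw [her]; linarith)
  rw [her] at h2
  have hP : (Pz 0 : ℝ) = 1 := by
    simp [Pz, pr, Finset.filter_singleton, Nat.not_prime_zero]
  rw [hP, div_one, one_mul, add_zero] at h2
  have h3 := one_add_mul_le_pow (a := -((k : ℝ) / (h * V (h ^ 2)))) (by linarith) k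
  rw [← sub_eq_add_neg] at h3
  have h4 : 1 - d ≤ avg (Pz (h ^ 2)) (fun m => ((R (h ^ 2) m h).choose k : ℝ)) /
      ((h.choose k : ℝ) * V (h ^ 2) ^ k) := by
    refine le_trans ?_ h2
    refine le_trans ?_ h3
    linarith
  have hd0 : 0 ≤ d := le_trans (by positivity) hkh
  have h5 : (k : ℝ) ^ 2 / ((h ^ 2 : ℕ) : ℝ) ≤ d := by
    refine le_trans ?_ hkh
    push_cast
    refine div_le_div₀ (by positivity) (by nlinarith [sq_nonneg (k : ℝ)]) hh0 (by nlinarith)
  calc 1 - 2 * d ≤ (1 - d) * (1 - d) := by nlinarith [mul_nonneg hd0 hd0]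
    _ ≤ (1 - (k : ℝ) ^ 2 / ((h ^ 2 : ℕ) : ℝ)) *
        (avg (Pz (h ^ 2)) (fun m => ((R (h ^ 2) m h).choose k : ℝ)) /
          ((h.choose k : ℝ) * V (h ^ 2) ^ k)) :=
        mul_le_mul (by linarith) h4 (by linarith) (by linarith)
    _ ≤ gal h k := h1

/-- F2: below the threshold -/
theorem gal_below (ε δ : ℝ) (hε : 0 < ε) (hδ : 0 < δ) : ∀ᶠ h : ℕ in atTop, ∀ k : ℕ, 1 ≤ k →
    Real.log k ≤ (1 - ε) * ks h → |gal h k - 1| ≤ δ := by
  set e : ℝ := min ε (1 / 2) with he
  have he0 : 0 < e := lt_min hε (by norm_num)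
  have heε : e ≤ ε := min_le_left _ _
  set d : ℝ := min δ 1 / 16 with hd
  have hd0 : 0 < d := by
    have : 0 < min δ 1 := lt_min hδ one_pos
    positivity
  have hdδ : 16 * d ≤ δ := by
    have : min δ 1 ≤ δ := min_le_left _ _
    rw [hd]
    linarith
  have hd1 : d ≤ 1 / 16 := by
    have : min δ 1 ≤ 1 := min_le_right _ _
    rw [hd]
    linarith
  obtain ⟨c, hc, hb⟩ := bootstrap e he0
  obtain ⟨C, hC, hV⟩ := V_inv_le
  have hlog : Tendsto (fun h : ℕ => Real.log (h : ℝ)) atTop atTop :=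
    Real.tendsto_log_atTop.comp tendsto_natCast_atTop_atTop
  have hpow : Tendsto (fun h : ℕ => (h : ℝ) ^ (1 / 4 : ℝ)) atTop atTop :=
    (tendsto_rpow_atTop (by norm_num)).comp tendsto_natCast_atTop_atTop
  filter_upwards [hb, ks_small (1 / 8) (by norm_num), loglog_small (e / 4) (by positivity),
    ks_atTop.eventually_ge_atTop (-Real.log d / c), hlog.eventually_ge_atTop 2,
    hlog.eventually_ge_atTop (2 / d), hpow.eventually_ge_atTop (max 2 (max (2 / d) (8 * C / d))),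
    eventually_ge_atTop 1]
    with h hb hks hll hex hL2 hL hq h0 k hk1 hlk
  have hks0 : 0 ≤ ks h := Real.sqrt_nonneg _
  have hk0 : (0 : ℝ) < k := by exact_mod_cast hk1
  have hh0 : (0 : ℝ) < h := by exact_mod_cast h0
  have hlk2 : Real.log k ≤ (1 - e) * ks h := by
    refine hlk.trans ?_
    exact mul_le_mul_of_nonneg_right (by linarith) hks0
  set q : ℝ := (h : ℝ) ^ (1 / 4 : ℝ) with hqd
  have hq4 : q ^ 4 = h := by
    rw [hqd, ← Real.rpow_natCast, ← Real.rpow_mul hh0.le]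
    norm_num
  have hq2 : 2 ≤ q := (le_max_left _ _).trans hq
  have hqd1 : 2 / d ≤ q := (le_max_left _ _).trans ((le_max_right _ _).trans hq)
  have hqC : 8 * C / d ≤ q := (le_max_right _ _).trans ((le_max_right _ _).trans hq)
  have hkq : (k : ℝ) ^ 2 ≤ q := by
    have h1 : Real.log ((k : ℝ) ^ 2) ≤ Real.log h * (1 / 4) := by
      rw [Real.log_pow]
      push_cast
      nlinarith [mul_nonneg he0.le hks0]
    have h2 := (Real.log_le_iff_le_exp (by positivity)).1 h1
    rwa [hqd, Real.rpow_def_of_pos hh0]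
  have hq0 : 0 < q := by linarith
  have hkr : (1 : ℝ) ≤ k := by exact_mod_cast hk1
  have hkk : (k : ℝ) ≤ q := by nlinarith
  have h2k : 2 * k ≤ h := by
    have h1 : (2 * k : ℝ) ≤ h := by
      rw [← hq4]
      nlinarith [mul_pos hq0 hq0, mul_pos (mul_pos hq0 hq0) hq0,
        mul_le_mul hq2 hq2 (by norm_num) hq0.le]
    exact_mod_cast h1
  have hkh : 2 * (k : ℝ) ^ 2 / h ≤ d := by
    rw [div_le_iff₀ hh0, ← hq4]
    rw [div_le_iff₀ hd0] at hqd1
    have h1 : q ≤ q ^ 3 := by nlinarith [mul_pos hq0 hq0]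
    nlinarith [mul_pos hd0 hq0]
  have hlogq : Real.log h ≤ 4 * q := by
    have h1 := Real.log_le_rpow_div hh0.le (show (0 : ℝ) < 1 / 4 by norm_num)
    rw [← hqd] at h1
    linarith
  have hkC : (k : ℝ) ^ 2 * (2 * C * Real.log h) / h ≤ d := by
    rw [div_le_iff₀ hh0]
    rw [div_le_iff₀ hd0] at hqC
    have h1 : 2 * C * Real.log h ≤ 8 * C * q := by nlinarith
    have h2 : (k : ℝ) ^ 2 * (2 * C * Real.log h) ≤ q * (8 * C * q) :=
      mul_le_mul hkq h1 (by positivity) hq0.le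
    have h3 : q * (8 * C * q) ≤ (q * d) * (q * q) := by
      have := mul_le_mul_of_nonneg_right hqC (mul_nonneg hq0.le hq0.le)
      nlinarith
    have h4 : (q * d) * (q * q) ≤ d * q ^ 4 := by
      have h5 : 0 ≤ d * q ^ 3 := by positivity
      nlinarith
    rw [hq4] at h4
    linarith
  have hex2 : Real.exp (-c * ks h) ≤ d := by
    rw [div_le_iff₀ hc] at hex
    have h1 : -c * ks h ≤ Real.log d := by linarith
    calc Real.exp (-c * ks h) ≤ Real.exp (Real.log d) := Real.exp_le_exp.2 h1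
      _ = d := Real.exp_log hd0
  have h1 := F2_upper h k d e c hk1 hd0 hd1 he0 hL2 hL hlk2 hks0 hll hkh h0 h2k hex2 hb
  have h2 := F2_lower h k d C hk1 hd1 hV hkh h2k hkC
  rw [abs_le]
  constructor <;> linarith

end Pool.Gal99
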